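import Pool.Agent.Q288.TE.StP
import Pool.Agent.Y192.OG.C6

/-!
The contradiction from the theorem on curves: the curve of the exponentials of entire functions.
-/

set_option autoImplicit false

namespace Pool.Agent.Q288.TE

open Filter Set Topology Pool.Agent.W603.BP Pool.Agent.Y192.OG

section curve

variable {n : ℕ} (h : Fin n → ℂ → ℂ)

/-- the coordinates -/
noncomputable def xpX (i : Fin (n + 1)) : ℂ → ℂ :=
  Fin.cases (motive := fun _ => ℂ → ℂ) (fun _ => 1) (fun i z => Complex.exp (h i z)) i

theorem xpX_zero (z : ℂ) : xpX h 0 z = 1 := rfl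

theorem xpX_succ (i : Fin n) (z : ℂ) : xpX h i.succ z = Complex.exp (h i z) := rfl

theorem xpX_ne (i : Fin (n + 1)) (z : ℂ) : xpX h i z ≠ 0 := by
  refine Fin.cases ?_ (fun i => ?_) i
  · rw [xpX_zero]
    exact one_ne_zero
  · rw [xpX_succ]
    exact Complex.exp_ne_zero _

theorem xpX_diff (hd : ∀ i, Differentiable ℂ (h i)) (i : Fin (n + 1)) :
    Differentiable ℂ (xpX h i) := by
  refine Fin.cases ?_ (fun i => ?_) i
  · exact differentiable_const _
  · exact (hd i).cexp

/-- the curve of the exponentials -/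
noncomputable def xpC (hd : ∀ i, Differentiable ℂ (h i)) : Curve n where
  r0 := 1
  X := xpX h
  hr0 := le_rfl
  an := fun i z _ => (xpX_diff h hd i).analyticAt z
  ncz := fun z _ => ⟨0, xpX_ne h 0 z⟩
  nz := fun i => ⟨2, by
    change (1 : ℝ) < ‖(2 : ℂ)‖
    norm_num, xpX_ne h i 2⟩

variable (hd : ∀ i, Differentiable ℂ (h i))

theorem mem_U {z : ℂ} (hz : 1 < ‖z‖) : z ∈ (xpC h hd).U := ⟨hz, fun i => xpX_ne h i z⟩

/-- restriction of an entire function -/
noncomputable def rst : Ent →ₐ[ℂ] (xpC h hd).Mr where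
  toFun g := (xpC h hd).mr g (fun z _ => ((g.2 : Differentiable ℂ (g : ℂ → ℂ)).analyticAt
    z).meromorphicAt) (fun z _ => (g.2 : Differentiable ℂ (g : ℂ → ℂ)).analyticAt z)
  map_one' := rfl
  map_mul' _ _ := rfl
  map_zero' := rfl
  map_add' _ _ := rfl
  commutes' _ := rfl

theorem val_rst (g : Ent) {z : ℂ} (hz : z ∈ (xpC h hd).U) :
    (xpC h hd).val (rst h hd g) z = (g : ℂ → ℂ) z :=
  (xpC h hd).val_mr _ (fun z _ => ((g.2 : Differentiable ℂ (g : ℂ → ℂ)).analyticAt
    z).meromorphicAt) (fun z _ => (g.2 : Differentiable ℂ (g : ℂ → ℂ)).analyticAt z) hz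

theorem rst_inj : Function.Injective (rst h hd) := by
  intro g g' hg
  have h1 : ∀ z : ℂ, 1 < ‖z‖ → (g : ℂ → ℂ) z = (g' : ℂ → ℂ) z := by
    intro z hz
    rw [← val_rst h hd g (mem_U h hd hz), hg, val_rst h hd g' (mem_U h hd hz)]
  apply Subtype.ext
  have h2 : (g : ℂ → ℂ) =ᶠ[𝓝 2] (g' : ℂ → ℂ) := by
    have h3 : IsOpen {z : ℂ | 1 < ‖z‖} := isOpen_lt continuous_const continuous_norm
    filter_upwards [h3.mem_nhds (show (2 : ℂ) ∈ {z : ℂ | 1 < ‖z‖} by
      change (1 : ℝ) < ‖(2 : ℂ)‖
      norm_num)] with z hz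
    exact h1 z hz
  exact AnalyticOnNhd.eq_of_eventuallyEq
    (fun z _ => (g.2 : Differentiable ℂ (g : ℂ → ℂ)).analyticAt z)
    (fun z _ => (g'.2 : Differentiable ℂ (g' : ℂ → ℂ)).analyticAt z) h2

/-- the exponentials as units -/
noncomputable def un (i : Fin n) : Entˣ where
  val := ⟨fun z => Complex.exp (h i z), (hd i).cexp⟩
  inv := ⟨fun z => Complex.exp (-h i z), (hd i).neg.cexp⟩
  val_inv := by
    apply Subtype.ext
    funext z
    change Complex.exp (h i z) * Complex.exp (-h i z) = 1
    rw [← Complex.exp_add, add_neg_cancel, Complex.exp_zero]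
  inv_val := by
    apply Subtype.ext
    funext z
    change Complex.exp (-h i z) * Complex.exp (h i z) = 1
    rw [← Complex.exp_add, neg_add_cancel, Complex.exp_zero]

/-- evaluation at a point -/
noncomputable def evz (z : ℂ) : Ent →* ℂ where
  toFun g := (g : ℂ → ℂ) z
  map_one' := rfl
  map_mul' _ _ := rfl

/-- the monomials -/
noncomputable def unm (m : Fin n → ℤ) : Entˣ := ∏ i, un h hd i ^ m i

theorem unm_apply (m : Fin n → ℤ) (z : ℂ) :
    ((unm h hd m : Ent) : ℂ → ℂ) z = ∏ i, Complex.exp (h i z) ^ m i := by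
  have h1 : ((unm h hd m : Ent) : ℂ → ℂ) z = ((Units.map (evz z) (unm h hd m) : ℂˣ) : ℂ) := rfl
  rw [h1]
  unfold unm
  rw [map_prod, Units.coe_prod]
  refine Finset.prod_congr rfl fun i _ => ?_
  rw [map_zpow, Units.val_zpow_eq_zpow_val]
  rfl

theorem rst_unm (m : Fin n → ℤ) : rst h hd (unm h hd m : Ent) = (xpC h hd).mon m := by
  apply (xpC h hd).val_inj
  intro z hz
  rw [val_rst h hd _ hz, unm_apply, (xpC h hd).val_mon _ hz]
  unfold Curve.monf Curve.xf
  refine Finset.prod_congr rfl fun i _ => ?_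
  change _ = (xpX h i.succ z / xpX h 0 z) ^ m i
  rw [xpX_succ, xpX_zero, div_one]

end curve

/-- **The contradiction from the theorem on curves.** -/
theorem t_crv (h_exp : St_exp) : St_crv := by
  intro _ _ n h hn hd hI K _ _ φ x hx hD
  obtain ⟨R, j, f, κ, s, hh, Γ₀, hj, hint, hf, hrad, hleast, hom0, H2, H3, hv⟩ := hD
  have hxm : ∀ i, (xm x (Pi.single i 1) : Kˣ) = x i := by
    intro i
    unfold xm
    rw [Finset.prod_eq_single i]
    · rw [Pi.single_eq_same, zpow_one]
    · intro l _ hl
      rw [Pi.single_eq_of_ne hl, zpow_zero]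
    · intro h0
      exact absurd (Finset.mem_univ i) h0
  obtain ⟨μ, G, hG, hc⟩ := E.curvesE (K := K) (R := R) (j := j) (f := f) (k := κ) (h := hh)
    (Γ₀ := Γ₀) Subtype.val_injective hint hf hrad hleast hom0 H2 (by
      intro i
      have h1 : algebraMap R K (j (AddMonoidAlgebra.single (Pi.single i 1) 1)) = (x i : K) := by
        change ((j (AddMonoidAlgebra.single (Pi.single i 1) 1) : R) : K) = _
        rw [hj, ep_single, hxm, one_smul]
      rw [h1]
      exact H3 i)
  -- the embedding of the ring of entire functions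
  set ψ : Ent →ₐ[ℂ] FractionRing Ent := IsScalarTower.toAlgHom ℂ Ent (FractionRing Ent) with hψ
  have hψi : Function.Injective ψ := IsFractionRing.injective Ent (FractionRing Ent)
  have hφx : ∀ i, φ (x i : K) = ψ (un h hd i : Ent) := by
    intro i
    obtain ⟨g, hg, hg2⟩ := hx i
    rw [hg2]
    change algebraMap Ent (FractionRing Ent) g = algebraMap Ent (FractionRing Ent) _
    congr 1
    apply Subtype.ext
    funext z
    exact hg z
  have hφm : ∀ m, φ (xm x m : Kˣ) = ψ (unm h hd m : Ent) := by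
    intro m
    have h1 : Units.map (φ : K →* FractionRing Ent) (xm x m) =
        Units.map (ψ : Ent →* FractionRing Ent) (unm h hd m) := by
      unfold xm unm
      rw [map_prod, map_prod]
      refine Finset.prod_congr rfl fun i _ => ?_
      rw [map_zpow, map_zpow]
      congr 1
      apply Units.ext
      exact hφx i
    exact congrArg Units.val h1
  -- Laurent polynomials
  set e : Lau n →ₐ[ℂ] Ent := AddMonoidAlgebra.lift ℂ Ent (Fin n → ℤ)
    { toFun := fun m => (unm h hd m.toAdd : Ent)
      map_one' := by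
        unfold unm
        simp
      map_mul' := fun m m' => by
        unfold unm
        rw [← Units.val_mul, ← Finset.prod_mul_distrib]
        congr 1
        refine Finset.prod_congr rfl fun i _ => ?_
        rw [toAdd_mul, Pi.add_apply, zpow_add] } with he
  have hes : ∀ m, e (AddMonoidAlgebra.single m 1) = (unm h hd m : Ent) := by
    intro m
    rw [he, AddMonoidAlgebra.lift_single, one_smul]
    rfl
  have hφe : ∀ g : Lau n, φ (j g : K) = ψ (e g) := by
    intro g
    have h1 : (φ.comp (R.val.comp j)) = ψ.comp e := by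
      refine AddMonoidAlgebra.algHom_ext (fun m => ?_) ?_
      · rw [AlgHom.comp_apply, AlgHom.comp_apply, AlgHom.comp_apply, hes, ← hφm]
        change φ ((j (AddMonoidAlgebra.single m 1) : R) : K) = _
        rw [hj, ep_single, one_smul]
      · ext
    exact congrArg (fun F => F g) h1
  -- the values of the elements of `R`
  have hr : ∀ r : R, (φ.comp R.val) r ∈ ψ.range := by
    intro r
    obtain ⟨p, hp, hp2⟩ := hint r
    have h1 : IsIntegral Ent (φ (r : K)) := by
      refine ⟨p.map (e : Lau n →+* Ent), hp.map _, ?_⟩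
      rw [Polynomial.eval₂_map]
      have h2 : φ ((Polynomial.eval₂ (j : Lau n →+* R) r p : R) : K) = φ ((0 : R) : K) :=
        congrArg (fun y : R => φ (y : K)) hp2
      have h3 : φ ((Polynomial.eval₂ (j : Lau n →+* R) r p : R) : K) =
          Polynomial.eval₂ (((φ : K →+* FractionRing Ent).comp (R.val : R →+* K)).comp
            (j : Lau n →+* R)) (φ (r : K)) p := by
        have h4 := Polynomial.hom_eval₂ p (j : Lau n →+* R)
          ((φ : K →+* FractionRing Ent).comp (R.val : R →+* K)) r
        exact h4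
      rw [h3] at h2
      have h5 : (algebraMap Ent (FractionRing Ent)).comp (e : Lau n →+* Ent) =
          (((φ : K →+* FractionRing Ent).comp (R.val : R →+* K)).comp
            (j : Lau n →+* R)) := by
        refine RingHom.ext fun g => ?_
        exact (hφe g).symm
      rw [h5, h2]
      simp
    obtain ⟨y, hy⟩ := IsIntegrallyClosed.isIntegral_iff.1 h1
    exact ⟨y, hy⟩
  set EE : R →ₐ[ℂ] Ent := (AlgEquiv.ofInjective ψ hψi).symm.toAlgHom.comp
    ((φ.comp R.val).codRestrict ψ.range hr) with hEE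
  have hEE1 : ∀ r : R, ψ (EE r) = φ (r : K) := by
    intro r
    have h1 : (AlgEquiv.ofInjective ψ hψi) (EE r) = (φ.comp R.val).codRestrict ψ.range hr r := by
      rw [hEE]
      exact AlgEquiv.apply_symm_apply _ _
    exact congrArg Subtype.val h1
  set c : Curve n := xpC h hd with hcdef
  set η : R →ₐ[ℂ] c.Mr := (rst h hd).comp EE with hη
  have hηi : Function.Injective η := by
    intro a b hab
    have h1 : EE a = EE b := rst_inj h hd hab
    have h2 : φ (a : K) = φ (b : K) := by rw [← hEE1, ← hEE1, h1]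
    exact Subtype.ext (φ.injective h2)
  have hext : ∀ g, η (j g) = c.ev g := by
    intro g
    have h1 : η.comp j = c.ev := by
      refine AddMonoidAlgebra.algHom_ext (fun m => ?_) ?_
      · rw [AlgHom.comp_apply, c.ev_single, one_smul, hη, AlgHom.comp_apply]
        have h2 : EE (j (AddMonoidAlgebra.single m 1)) = (unm h hd m : Ent) := by
          apply hψi
          rw [hEE1, hφe, hes]
        rw [h2]
        exact rst_unm h hd m
      · ext
    exact congrArg (fun F => F g) h1
  have hlf : E.Lf j f κ hh c η := by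
    refine ⟨hext, fun i z hz hord => ?_⟩
    refine hv (fun r => c.ord z (η r)) ⟨?_, ?_, ?_, ?_⟩ ?_ i
    · change c.ord z (η 1) = 0
      rw [map_one]
      unfold Curve.ord
      have h1 : c.val 1 =ᶠ[𝓝[≠] z] fun _ => (1 : ℂ) := by
        filter_upwards [nhdsWithin_le_nhds (c.U_open.mem_nhds hz)] with w hw
        exact c.val_one hw
      rw [meromorphicOrderAt_congr h1]
      rw [meromorphicOrderAt_const]
      simp
    · intro a b
      change c.ord z (η (a * b)) = c.ord z (η a) + c.ord z (η b)
      rw [map_mul]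
      unfold Curve.ord
      rw [c.val_mul]
      exact meromorphicOrderAt_mul (c.val_mero _ z hz.1) (c.val_mero _ z hz.1)
    · intro a b
      change min (c.ord z (η a)) (c.ord z (η b)) ≤ c.ord z (η (a + b))
      rw [map_add]
      unfold Curve.ord
      rw [c.val_add]
      exact meromorphicOrderAt_add (c.val_mero _ z hz.1) (c.val_mero _ z hz.1)
    · intro a
      exact (c.val_an (η a) z hz).meromorphicOrderAt_nonneg
    · rw [hext]
      exact hord
  have hACl : E.ACl j f κ hh μ c :=
    ⟨fun z _ ⟨i, hi⟩ => absurd hi (xpX_ne h i z), η, hlf⟩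
  have hGc : c.ev G ≠ 0 := by
    intro h0
    apply hG
    apply hηi
    rw [hext, h0, map_zero]
  obtain ⟨Q, hQ, R0, hR0⟩ := hc c hACl hGc (Fin.succ ⟨0, hn⟩)
  obtain ⟨a, ha⟩ := h_exp (h ⟨0, hn⟩) (hd _) ⟨Q, hQ, R0, fun z hz => by
    have h1 := hR0 z hz
    change xpX h (Fin.succ ⟨0, hn⟩) z = Q z * xpX h 0 z at h1
    rw [xpX_succ, xpX_zero, mul_one] at h1
    exact h1⟩
  have h1 := hI (Pi.single ⟨0, hn⟩ 1) ⟨a, fun z => by
    rw [Finset.sum_eq_single ⟨0, hn⟩]
    · rw [Pi.single_eq_same, Int.cast_one, one_mul, ha]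
    · intro l _ hl
      rw [Pi.single_eq_of_ne hl, Int.cast_zero, zero_mul]
    · intro h0
      exact absurd (Finset.mem_univ _) h0⟩
  have h2 := congrFun h1 ⟨0, hn⟩
  rw [Pi.single_eq_same] at h2
  exact one_ne_zero h2

end Pool.Agent.Q288.TE
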