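import Pool.Agent.Q288.TE.StM

/-!
A common denominator for the solutions of consistent linear systems (helper210).
-/

set_option autoImplicit false

namespace Pool.Agent.Q288.TE

/-- one consistent system -/
theorem dnm_one {ι : Type} [Fintype ι] {b : ℕ} (a : ι → Fin b → ℤ) (j : ι → ℤ)
    (hj : ∀ c : ι → ℤ, ∑ i, c i • a i = 0 → ∑ i, c i * j i = 0) :
    ∃ n : ℕ, 0 < n ∧ ∃ σ : Fin b → ℤ, ∀ i, ∑ l, a i l * σ l = n * j i := by
  classical
  let φ : (ι → ℚ) →ₗ[ℚ] (Fin b → ℚ) :=
    Fintype.linearCombination ℚ (fun i l => (a i l : ℚ))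
  let J : (ι → ℚ) →ₗ[ℚ] ℚ := Fintype.linearCombination ℚ (fun i => (j i : ℚ))
  have hker : J ∈ (LinearMap.ker φ).dualAnnihilator := by
    rw [Submodule.mem_dualAnnihilator]
    intro c hc
    rw [LinearMap.mem_ker] at hc
    -- clear denominators
    obtain ⟨d, hd⟩ := IsLocalization.exist_integer_multiples_of_finset (nonZeroDivisors ℤ)
      (Finset.univ.image c)
    have hd0 : ((d : ℤ) : ℚ) ≠ 0 := by
      have := nonZeroDivisors.ne_zero d.2
      exact_mod_cast this
    have hz : ∀ i, ∃ z : ℤ, (z : ℚ) = (d : ℤ) * c i := by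
      intro i
      obtain ⟨z, hz⟩ := hd (c i) (Finset.mem_image_of_mem _ (Finset.mem_univ i))
      refine ⟨z, ?_⟩
      rw [Algebra.smul_def] at hz
      exact hz
    choose z hz using hz
    have h1 : ∑ i, z i • a i = 0 := by
      funext l
      have h2 := congrFun hc l
      simp only [φ, Fintype.linearCombination_apply, Finset.sum_apply, Pi.smul_apply,
        smul_eq_mul, Pi.zero_apply] at h2
      have h3 : ((∑ i, z i * a i l : ℤ) : ℚ) = 0 := by
        push_cast
        have h4 : ∀ i, (z i : ℚ) * (a i l : ℚ) = (d : ℤ) * (c i * (a i l : ℚ)) := by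
          intro i
          rw [hz]
          ring
        simp only [h4]
        rw [← Finset.mul_sum, h2, mul_zero]
      have h5 : ∑ i, z i * a i l = 0 := by exact_mod_cast h3
      simpa [Finset.sum_apply] using h5
    have h2 := hj z h1
    have h3 : ((d : ℤ) : ℚ) * J c = 0 := by
      have h4 : ((∑ i, z i * j i : ℤ) : ℚ) = 0 := by rw [h2]; simp
      push_cast at h4
      simp only [J, Fintype.linearCombination_apply, smul_eq_mul]
      rw [Finset.mul_sum, ← h4]
      refine Finset.sum_congr rfl fun i _ => ?_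
      rw [hz]
      ring
    exact (mul_eq_zero.1 h3).resolve_left hd0
  rw [← LinearMap.range_dualMap_eq_dualAnnihilator_ker] at hker
  obtain ⟨s, hs⟩ := hker
  obtain ⟨d, hd⟩ := IsLocalization.exist_integer_multiples_of_finset (nonZeroDivisors ℤ)
    (Finset.univ.image fun l => s (Pi.single l 1))
  have hd0 : (d : ℤ) ≠ 0 := nonZeroDivisors.ne_zero d.2
  have hz : ∀ l, ∃ z : ℤ, (z : ℚ) = (d : ℤ) * s (Pi.single l 1) := by
    intro l
    obtain ⟨z, hz⟩ := hd (s (Pi.single l 1)) (Finset.mem_image_of_mem _ (Finset.mem_univ l))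
    refine ⟨z, ?_⟩
    rw [Algebra.smul_def] at hz
    exact hz
  choose z hz using hz
  have hsa : ∀ i, (j i : ℚ) = ∑ l, (a i l : ℚ) * s (Pi.single l 1) := by
    intro i
    have h1 := LinearMap.congr_fun hs (Pi.single i 1)
    rw [LinearMap.dualMap_apply] at h1
    have h2 : φ (Pi.single i 1) = fun l => (a i l : ℚ) := by
      simp [φ, Fintype.linearCombination_apply_single]
    have h3 : J (Pi.single i 1) = (j i : ℚ) := by
      simp [J, Fintype.linearCombination_apply_single]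
    rw [h2, h3] at h1
    rw [← h1]
    have h4 : (fun l => (a i l : ℚ)) = ∑ l, (a i l : ℚ) • (Pi.single l 1 : Fin b → ℚ) := by
      funext m
      simp [Finset.sum_apply, Pi.single_apply]
    conv_lhs => rw [h4]
    rw [map_sum]
    refine Finset.sum_congr rfl fun l _ => ?_
    rw [map_smul, smul_eq_mul]
  refine ⟨((d : ℤ) * (d : ℤ)).natAbs, Int.natAbs_pos.2 (mul_ne_zero hd0 hd0),
    fun l => (d : ℤ) * z l, fun i => ?_⟩
  have h1 : (((d : ℤ) * (d : ℤ)).natAbs : ℤ) = (d : ℤ) * (d : ℤ) :=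
    Int.natAbs_of_nonneg (mul_self_nonneg _)
  rw [h1]
  have h2 : ((∑ l, a i l * ((d : ℤ) * z l) : ℤ) : ℚ) = (((d : ℤ) * (d : ℤ) * j i : ℤ) : ℚ) := by
    push_cast
    rw [hsa i, Finset.mul_sum]
    refine Finset.sum_congr rfl fun l _ => ?_
    rw [hz]
    ring
  exact_mod_cast h2

/-- all consistent right-hand sides for one system -/
theorem dnm_all {ι : Type} [Fintype ι] {b : ℕ} (a : ι → Fin b → ℤ) :
    ∃ N : ℕ, 0 < N ∧ ∀ j : ι → ℤ,
      (∀ c : ι → ℤ, ∑ i, c i • a i = 0 → ∑ i, c i * j i = 0) →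
      ∃ σ : Fin b → ℤ, ∀ i, ∑ l, a i l * σ l = N * j i := by
  classical
  let G : Submodule ℤ (ι → ℤ) :=
    { carrier := {j | ∀ c : ι → ℤ, ∑ i, c i • a i = 0 → ∑ i, c i * j i = 0}
      add_mem' := by
        intro j j' h h' c hc
        have h1 : ∑ i, c i * (j + j') i = ∑ i, c i * j i + ∑ i, c i * j' i := by
          rw [← Finset.sum_add_distrib]
          exact Finset.sum_congr rfl fun i _ => by rw [Pi.add_apply]; ring
        rw [h1, h c hc, h' c hc, add_zero]
      zero_mem' := by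
        intro c _
        simp
      smul_mem' := by
        intro m j h c hc
        have h1 : ∑ i, c i * (m • j) i = m * ∑ i, c i * j i := by
          rw [Finset.mul_sum]
          exact Finset.sum_congr rfl fun i _ => by rw [Pi.smul_apply, smul_eq_mul]; ring
        rw [h1, h c hc, mul_zero] }
  obtain ⟨S, hS⟩ := (IsNoetherian.noetherian G : G.FG)
  have hone : ∀ g : ι → ℤ, ∃ n : ℕ, 0 < n ∧ (g ∈ G → ∃ σ : Fin b → ℤ, ∀ i,
      ∑ l, a i l * σ l = n * g i) := by
    intro g
    by_cases hg : g ∈ G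
    · obtain ⟨n, hn, σ, hσ⟩ := dnm_one a g hg
      exact ⟨n, hn, fun _ => ⟨σ, hσ⟩⟩
    · exact ⟨1, one_pos, fun h => absurd h hg⟩
  choose n hn hnσ using hone
  refine ⟨∏ g ∈ S, n g, Finset.prod_pos fun g _ => hn g, fun j hj => ?_⟩
  have hjG : j ∈ Submodule.span ℤ (S : Set (ι → ℤ)) := by
    rw [hS]
    exact hj
  induction hjG using Submodule.span_induction with
  | mem g hg =>
    have hgG : g ∈ G := by
      rw [← hS]
      exact Submodule.subset_span hg
    obtain ⟨σ, hσ⟩ := hnσ g hgG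
    refine ⟨fun l => (∏ g' ∈ S.erase g, (n g' : ℤ)) * σ l, fun i => ?_⟩
    have h1 : ((∏ g' ∈ S, n g' : ℕ) : ℤ) = (n g : ℤ) * ∏ g' ∈ S.erase g, (n g' : ℤ) := by
      rw [← Finset.mul_prod_erase S n hg]
      push_cast
      rfl
    rw [h1]
    calc ∑ l, a i l * ((∏ g' ∈ S.erase g, (n g' : ℤ)) * σ l)
        = (∏ g' ∈ S.erase g, (n g' : ℤ)) * ∑ l, a i l * σ l := by
          rw [Finset.mul_sum]
          exact Finset.sum_congr rfl fun l _ => by ring
      _ = (n g : ℤ) * (∏ g' ∈ S.erase g, (n g' : ℤ)) * g i := by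
          rw [hσ]
          ring
  | zero => exact ⟨0, fun i => by simp⟩
  | add u v hu hv ihu ihv =>
    have hu' : u ∈ G := by
      rw [← hS]
      exact hu
    have hv' : v ∈ G := by
      rw [← hS]
      exact hv
    obtain ⟨σ, hσ⟩ := ihu hu'
    obtain ⟨τ, hτ⟩ := ihv hv'
    refine ⟨fun l => σ l + τ l, fun i => ?_⟩
    rw [Pi.add_apply, mul_add, ← hσ, ← hτ, ← Finset.sum_add_distrib]
    exact Finset.sum_congr rfl fun l _ => by ring
  | smul m u hu ihu =>
    have hu' : u ∈ G := by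
      rw [← hS]
      exact hu
    obtain ⟨σ, hσ⟩ := ihu hu'
    refine ⟨fun l => m * σ l, fun i => ?_⟩
    rw [Pi.smul_apply, smul_eq_mul]
    calc ∑ l, a i l * (m * σ l) = m * ∑ l, a i l * σ l := by
          rw [Finset.mul_sum]
          exact Finset.sum_congr rfl fun l _ => by ring
      _ = _ := by
          rw [hσ]
          ring

theorem t_dnm : St_dnm := by
  classical
  intro b A E hE
  have hD : ∀ D : Finset (Fin b → ℤ), ∃ N : ℕ, 0 < N ∧ ∀ j : (Fin b → ℤ) → ℤ,
      (∀ c : (Fin b → ℤ) → ℤ, ∑ a ∈ D, c a • a = 0 → ∑ a ∈ D, c a * j a = 0) →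
      ∃ σ : Fin b → ℤ, ∀ a ∈ D, ∑ i, a i * σ i = N * j a := by
    intro D
    obtain ⟨N, hN, h⟩ := dnm_all (ι := D) (fun a => a.1)
    refine ⟨N, hN, fun j hj => ?_⟩
    obtain ⟨σ, hσ⟩ := h (fun a => j a.1) (by
      intro c hc
      have h1 := hj (fun a => if ha : a ∈ D then c ⟨a, ha⟩ else 0) (by
        rw [← Finset.sum_coe_sort D]
        rw [← hc]
        exact Finset.sum_congr rfl fun a _ => by rw [dif_pos a.2])
      rw [← Finset.sum_coe_sort D] at h1
      rw [← h1]
      exact Finset.sum_congr rfl fun a _ => by rw [dif_pos a.2])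
    exact ⟨σ, fun a ha => hσ ⟨a, ha⟩⟩
  choose N hN h using hD
  refine ⟨E * ∏ D ∈ A.powerset, N D, Nat.mul_pos hE (Finset.prod_pos fun D _ => hN D),
    fun D j hDA hj => ?_⟩
  obtain ⟨σ, hσ⟩ := h D j hj
  refine ⟨fun l => (∏ D' ∈ A.powerset.erase D, (N D' : ℤ)) * σ l, fun a ha => ?_⟩
  have h1 : ((E * ∏ D ∈ A.powerset, N D : ℕ) : ℤ) =
      (E : ℤ) * ((N D : ℤ) * ∏ D' ∈ A.powerset.erase D, (N D' : ℤ)) := by
    rw [← Finset.mul_prod_erase A.powerset N (Finset.mem_powerset.2 hDA)]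
    push_cast
    rfl
  rw [h1]
  calc (E : ℤ) * ∑ l, a l * ((∏ D' ∈ A.powerset.erase D, (N D' : ℤ)) * σ l)
      = (E : ℤ) * ((∏ D' ∈ A.powerset.erase D, (N D' : ℤ)) * ∑ l, a l * σ l) := by
        congr 1
        rw [Finset.mul_sum]
        exact Finset.sum_congr rfl fun l _ => by ring
    _ = (E : ℤ) * ((N D : ℤ) * ∏ D' ∈ A.powerset.erase D, (N D' : ℤ)) * j a := by
        rw [hσ a ha]
        ring

end Pool.Agent.Q288.TE
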