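import Pool.Agent.Q288.TE.StM
import Pool.Agent.W602.GT.Der

/-!
A set of functions which is stable under the invariant derivations of the torus, and not constant
in any rational direction, generates a subfield over which everything is algebraic.
-/

set_option autoImplicit false

namespace Pool.Agent.Q288.TE

open MvPolynomial Pool.Agent.W602.GT

section

/-- a transcendental element is moved by a derivation -/
theorem dst_tr {L K : Type} [Field L] [Field K] [Algebra L K] [CharZero L] (z : K)
    (hz : ¬ IsAlgebraic L z) : ∃ D : Derivation L K K, D z = 1 := by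
  have h1 : AlgebraicIndepOn L id {z} := by
    unfold AlgebraicIndepOn
    rw [algebraicIndependent_singleton_iff ⟨z, rfl⟩]
    exact hz
  obtain ⟨t, hst, ht⟩ := exists_isTranscendenceBasis_superset h1
  obtain ⟨D, hD⟩ := exists_der (L := L) (K := K) ((↑) : t → K) ht (fun _ => 1)
  exact ⟨D, hD ⟨z, hst rfl⟩⟩

variable {k K : Type} [Field k] [Field K] [Algebra k K]

/-- an element which is algebraic over the constants of a derivation is a constant -/
theorem dst_alg [CharZero k] (D : Derivation k K K) (f : K) (hf : IsAlgebraic (consts D) f) :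
    D f = 0 := by
  have hint : IsIntegral (consts D) f := hf.isIntegral
  have hchar : CharZero (consts D) := charZero_of_injective_algebraMap
    (algebraMap k (consts D)).injective
  have h1 : overConsts D (Polynomial.aeval f (minpoly (consts D) f)) = 0 := by
    rw [minpoly.aeval, map_zero]
  rw [Derivation.map_aeval] at h1
  have h2 : Polynomial.aeval f (Polynomial.derivative (minpoly (consts D) f)) ≠ 0 :=
    (minpoly.irreducible hint).separable.aeval_derivative_ne_zero (minpoly.aeval _ _)
  rw [smul_eq_mul, overConsts_apply] at h1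
  exact (mul_eq_zero.mp h1).resolve_left h2

/-- an element which is not algebraic over the field generated by a set is moved by a derivation
which kills the set -/
theorem dst_exists [CharZero k] (Φ : Set K) (z : K)
    (hz : ¬ IsAlgebraic (IntermediateField.adjoin k Φ) z) :
    ∃ D : Derivation k K K, (∀ φ ∈ Φ, D φ = 0) ∧ D z ≠ 0 := by
  have hchar : CharZero (IntermediateField.adjoin k Φ) := charZero_of_injective_algebraMap
    (algebraMap k (IntermediateField.adjoin k Φ)).injective
  obtain ⟨D, hD⟩ := dst_tr (L := IntermediateField.adjoin k Φ) z hz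
  refine ⟨D.restrictScalars k, fun φ hφ => ?_, ?_⟩
  · change D φ = 0
    exact D.map_algebraMap (⟨φ, IntermediateField.subset_adjoin k Φ hφ⟩ :
      IntermediateField.adjoin k Φ)
  · change D z ≠ 0
    rw [hD]
    exact one_ne_zero

/-- an element killed by all derivations is a constant -/
theorem dst_const [IsAlgClosed k] [CharZero k] (g : K) (hg : ∀ D : Derivation k K K, D g = 0) :
    ∃ c : k, g = algebraMap k K c := by
  apply const_of_algebraic
  by_contra hcon
  obtain ⟨D, hD⟩ := dst_tr (L := k) g hcon
  rw [hg D] at hD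
  exact zero_ne_one hD

theorem dst_sum {ι : Type} (s : Finset ι) (f : ι → Derivation k K K) (u : K) :
    (∑ i ∈ s, f i) u = ∑ i ∈ s, f i u := by
  classical
  induction s using Finset.induction_on with
  | empty => simp
  | insert j s hj ih =>
    rw [Finset.sum_insert hj, Finset.sum_insert hj, Derivation.add_apply, ih]

/-- the effect of a derivation with constant weights on a monomial with integer exponents -/
theorem dst_mon {b : ℕ} (x : Fin b → K) (hx : ∀ i, x i ≠ 0) (lam : Fin b → k)
    (D : Derivation k K K) (hD : ∀ j, D (x j) = algebraMap k K (lam j) * x j) (m : Fin b → ℤ) :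
    D (∏ j, x j ^ m j) = algebraMap k K (∑ j, (m j : k) * lam j) * ∏ j, x j ^ m j := by
  classical
  have hpow : ∀ (j : Fin b) (n : ℤ), D (x j ^ n) = algebraMap k K (n * lam j) * x j ^ n := by
    intro j n
    rw [D.leibniz_zpow, hD]
    simp only [zsmul_eq_mul, smul_eq_mul, map_mul, map_intCast]
    rw [zpow_sub_one₀ (hx j)]
    field_simp [hx j]
  have hs : ∀ s : Finset (Fin b), D (∏ j ∈ s, x j ^ m j)
      = algebraMap k K (∑ j ∈ s, (m j : k) * lam j) * ∏ j ∈ s, x j ^ m j := by
    intro s
    induction s using Finset.induction_on with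
    | empty => simp
    | insert j s hj ih =>
      rw [Finset.prod_insert hj, Finset.sum_insert hj, D.leibniz, ih, hpow]
      simp only [smul_eq_mul, map_add]
      ring
  exact hs Finset.univ

/-- If every integral relation between the weights of `D` is one between the weights of `D'`, then
the constants of `D` are constants of `D'`. -/
theorem dst_wt [CharZero k] {b : ℕ} (x : Fin b → K) (ht : IsTranscendenceBasis k x)
    (lam mu : Fin b → k)
    (hlm : ∀ m : Fin b → ℤ, ∑ j, (m j : k) * lam j = 0 → ∑ j, (m j : k) * mu j = 0)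
    (D D' : Derivation k K K) (hD : ∀ j, D (x j) = algebraMap k K (lam j) * x j)
    (hD' : ∀ j, D' (x j) = algebraMap k K (mu j) * x j) {h : K} (hh : D h = 0) : D' h = 0 := by
  classical
  apply dst_alg
  have halg := alg_of_basis x ht
  let _ : Algebra (MvPolynomial (Fin b) k) K :=
    ((aeval x : MvPolynomial (Fin b) k →ₐ[k] K) : MvPolynomial (Fin b) k →+* K).toAlgebra
  obtain ⟨P, hP, hPh⟩ := halg.isAlgebraic h
  have hx0 : ∀ i, x i ≠ 0 := fun i => ht.1.ne_zero i
  let mon : (Fin b →₀ ℕ) → K := fun a => ∏ j, x j ^ a j
  have hmon0 : ∀ a, mon a ≠ 0 := by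
    intro a
    exact Finset.prod_ne_zero_iff.mpr fun j _ => pow_ne_zero _ (hx0 j)
  have hmonz : ∀ a, mon a = ∏ j, x j ^ ((a j : ℤ)) := by
    intro a
    exact Finset.prod_congr rfl fun j _ => (zpow_natCast _ _).symm
  let wt : (Fin b →₀ ℕ) → k := fun a => ∑ j, (a j : k) * lam j
  have hDmon : ∀ a, D (mon a) = algebraMap k K (wt a) * mon a := by
    intro a
    rw [hmonz, dst_mon x hx0 lam D hD]
    simp only [Int.cast_natCast]
    rfl
  set N := P.natDegree + 1 with hN
  let cf : (Fin b →₀ ℕ) → K := fun a =>
    ∑ n ∈ Finset.range N, algebraMap k K (coeff a (P.coeff n)) * h ^ n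
  have hcoef : ∀ a : Fin b →₀ ℕ, D (cf a) = 0 := by
    intro a
    change D (∑ n ∈ Finset.range N, algebraMap k K (coeff a (P.coeff n)) * h ^ n) = 0
    rw [map_sum]
    refine Finset.sum_eq_zero fun n _ => ?_
    rw [D.leibniz, D.leibniz_pow, hh, D.map_algebraMap]
    simp
  set S : Finset (Fin b →₀ ℕ) := (Finset.range N).biUnion fun n => (P.coeff n).support with hS
  have hexp : ∀ n ∈ Finset.range N, aeval x (P.coeff n)
      = ∑ a ∈ S, algebraMap k K (coeff a (P.coeff n)) * mon a := by
    intro n hn
    rw [MvPolynomial.aeval_def, MvPolynomial.eval₂_eq']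
    apply Finset.sum_subset
    · exact Finset.subset_biUnion_of_mem (fun n => (P.coeff n).support) hn
    · intro a _ ha
      rw [MvPolynomial.notMem_support_iff.mp ha, map_zero, zero_mul]
  have hsum : ∑ a ∈ S, cf a * mon a = 0 := by
    have h1 : Polynomial.aeval h P = ∑ n ∈ Finset.range N, aeval x (P.coeff n) * h ^ n := by
      rw [Polynomial.aeval_eq_sum_range]
      rfl
    rw [hPh] at h1
    calc ∑ a ∈ S, cf a * mon a
        = ∑ a ∈ S, ∑ n ∈ Finset.range N,
            (algebraMap k K (coeff a (P.coeff n)) * h ^ n) * mon a := by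
          refine Finset.sum_congr rfl fun a _ => ?_
          rw [← Finset.sum_mul]
      _ = ∑ n ∈ Finset.range N, ∑ a ∈ S,
            (algebraMap k K (coeff a (P.coeff n)) * h ^ n) * mon a := Finset.sum_comm
      _ = ∑ n ∈ Finset.range N, aeval x (P.coeff n) * h ^ n := by
          refine Finset.sum_congr rfl fun n hn => ?_
          rw [hexp n hn, Finset.sum_mul]
          exact Finset.sum_congr rfl fun a _ => by ring
      _ = 0 := h1.symm
  -- the parts of the different weights vanish
  let part : k → K := fun q => ∑ a ∈ S with wt a = q, cf a * mon a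
  have hpart : ∀ q, part q = 0 := by
    have hDp : ∀ q, D (part q) = algebraMap k K q * part q := by
      intro q
      change D (∑ a ∈ S with wt a = q, cf a * mon a) = _ * ∑ a ∈ S with wt a = q, cf a * mon a
      rw [map_sum, Finset.mul_sum]
      refine Finset.sum_congr rfl fun a ha => ?_
      rw [D.leibniz, hcoef, smul_zero, add_zero, hDmon, (Finset.mem_filter.mp ha).2, smul_eq_mul]
      ring
    have hps : ∑ q ∈ S.image wt, part q = 0 := by
      rw [← hsum]
      exact Finset.sum_fiberwise_of_maps_to (fun a ha => Finset.mem_image_of_mem wt ha) _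
    intro q
    by_cases hq : q ∈ S.image wt
    · by_contra hne
      let Q := (S.image wt).filter (fun q => part q ≠ 0)
      have hlin : LinearIndependent k (fun q : Q => part q) := by
        apply Module.End.eigenvectors_linearIndependent' (D.toLinearMap) (fun q : Q => (q : k))
        · exact Subtype.val_injective
        · intro q
          rw [Module.End.hasEigenvector_iff, Module.End.mem_eigenspace_iff]
          refine ⟨?_, (Finset.mem_filter.mp q.2).2⟩
          change D (part q) = _
          rw [hDp, Algebra.smul_def]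
      have h0 : ∑ q : Q, (1 : k) • part q = 0 := by
        simp only [one_smul]
        rw [Finset.sum_coe_sort Q part, Finset.sum_filter_ne_zero]
        exact hps
      have h1 := Fintype.linearIndependent_iff.mp hlin (fun _ => 1) h0
        ⟨q, Finset.mem_filter.mpr ⟨hq, hne⟩⟩
      exact one_ne_zero h1
    · apply Finset.sum_eq_zero
      intro a ha
      exfalso
      apply hq
      rw [← (Finset.mem_filter.mp ha).2]
      exact Finset.mem_image_of_mem wt (Finset.mem_filter.mp ha).1
  obtain ⟨n, hn⟩ : ∃ n, P.coeff n ≠ 0 := by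
    by_contra hcon
    push Not at hcon
    exact hP (Polynomial.ext fun n => by rw [hcon n, Polynomial.coeff_zero])
  have hnN : n ∈ Finset.range N := by
    rw [Finset.mem_range, hN]
    exact Nat.lt_succ_of_le (Polynomial.le_natDegree_of_ne_zero hn)
  obtain ⟨a0, ha0⟩ : ∃ a, coeff a (P.coeff n) ≠ 0 := MvPolynomial.ne_zero_iff.mp hn
  have haS : a0 ∈ S := by
    rw [hS, Finset.mem_biUnion]
    exact ⟨n, hnN, MvPolynomial.mem_support_iff.mpr ha0⟩
  -- the coefficients of a polynomial with root `h`
  let q : ℕ → K := fun l => (∑ a ∈ S with wt a = wt a0, algebraMap k K (coeff a (P.coeff l)) *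
    mon a) / mon a0
  have hq : ∀ l, D' (q l) = 0 := by
    intro l
    have h1 : q l = ∑ a ∈ S with wt a = wt a0, algebraMap k K (coeff a (P.coeff l)) *
        ∏ j, x j ^ ((a j : ℤ) - (a0 j : ℤ)) := by
      change (∑ a ∈ S with wt a = wt a0, algebraMap k K (coeff a (P.coeff l)) *
        mon a) / mon a0 = _
      rw [Finset.sum_div]
      refine Finset.sum_congr rfl fun a _ => ?_
      rw [mul_div_assoc]
      congr 1
      rw [hmonz, hmonz, ← Finset.prod_div_distrib]
      exact Finset.prod_congr rfl fun j _ => (zpow_sub₀ (hx0 j) _ _).symm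
    rw [h1, map_sum]
    refine Finset.sum_eq_zero fun a ha => ?_
    rw [D'.leibniz, D'.map_algebraMap, smul_zero, add_zero, dst_mon x hx0 mu D' hD']
    have h2 : ∑ j, (((a j : ℤ) - (a0 j : ℤ) : ℤ) : k) * mu j = 0 := by
      apply hlm
      have h3 := (Finset.mem_filter.mp ha).2
      simp only [Int.cast_sub, Int.cast_natCast, sub_mul, Finset.sum_sub_distrib]
      exact sub_eq_zero.mpr h3
    rw [h2, map_zero, zero_mul, smul_zero]
  let qc : ℕ → consts D' := fun l => ⟨q l, hq l⟩
  refine ⟨∑ l ∈ Finset.range N, Polynomial.C (qc l) * Polynomial.X ^ l, ?_, ?_⟩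
  · intro h0
    have h1 := congrArg (fun p => Polynomial.coeff p n) h0
    simp only [Polynomial.finsetSum_coeff, Polynomial.coeff_C_mul_X_pow, Polynomial.coeff_zero]
      at h1
    rw [Finset.sum_ite_eq, if_pos hnN] at h1
    have h2 : q n = 0 := congrArg Subtype.val h1
    have h3 : ∑ a ∈ S with wt a = wt a0, algebraMap k K (coeff a (P.coeff n)) * mon a = 0 :=
      (div_eq_zero_iff.mp h2).resolve_right (hmon0 a0)
    have h4 : aeval x (∑ a ∈ S with wt a = wt a0, monomial a (coeff a (P.coeff n))) = 0 := by
      rw [map_sum, ← h3]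
      refine Finset.sum_congr rfl fun a _ => ?_
      rw [MvPolynomial.aeval_monomial, Finsupp.prod_fintype _ _ (fun i => pow_zero _)]
    have h5 : ∑ a ∈ S with wt a = wt a0, monomial a (coeff a (P.coeff n)) = 0 :=
      (injective_iff_map_eq_zero _).mp ht.1 _ h4
    have h6 := congrArg (coeff a0) h5
    rw [MvPolynomial.coeff_sum] at h6
    simp only [MvPolynomial.coeff_monomial, MvPolynomial.coeff_zero] at h6
    rw [Finset.sum_ite_eq'] at h6
    have h7 : a0 ∈ S.filter (fun a => wt a = wt a0) := Finset.mem_filter.mpr ⟨haS, rfl⟩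
    rw [if_pos h7] at h6
    exact ha0 h6
  · rw [map_sum]
    simp only [map_mul, Polynomial.aeval_C, map_pow, Polynomial.aeval_X]
    have h1 := hpart (wt a0)
    have h2 : (∑ l ∈ Finset.range N, q l * h ^ l) * mon a0 = part (wt a0) := by
      change _ = ∑ a ∈ S with wt a = wt a0,
        (∑ n ∈ Finset.range N, algebraMap k K (coeff a (P.coeff n)) * h ^ n) * mon a
      simp only [Finset.sum_mul]
      rw [Finset.sum_comm]
      refine Finset.sum_congr rfl fun l _ => ?_
      have h3 : q l * mon a0 = ∑ a ∈ S with wt a = wt a0,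
          algebraMap k K (coeff a (P.coeff l)) * mon a := div_mul_cancel₀ _ (hmon0 a0)
      calc q l * h ^ l * mon a0 = (q l * mon a0) * h ^ l := by ring
        _ = _ := by
          rw [h3, Finset.sum_mul]
          exact Finset.sum_congr rfl fun a _ => by ring
    rw [h1] at h2
    exact (mul_eq_zero.mp h2).resolve_right (hmon0 a0)

end

theorem t_dst : St_dst := by
  intro k K _ _ _ _ _ b x hx θ hθ Φ hst hΦ z
  classical
  by_contra hz
  have hx0 : ∀ i, x i ≠ 0 := fun i => hx.1.ne_zero i
  -- derivations are combinations of the given ones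
  have hcomb : ∀ (D : Derivation k K K), D = ∑ i, (D (x i) / x i) • θ i := by
    intro D
    apply der_ext x hx
    intro j
    rw [dst_sum]
    simp only [Derivation.smul_apply, smul_eq_mul, hθ]
    rw [Finset.sum_eq_single j]
    · rw [if_pos rfl, div_mul_cancel₀ _ (hx0 j)]
    · intro i _ hij
      rw [if_neg hij, mul_zero]
    · intro h
      exact absurd (Finset.mem_univ j) h
  have hcomb' : ∀ (D : Derivation k K K) (u : K), D u = ∑ i, (D (x i) / x i) * θ i u := by
    intro D u
    conv_lhs => rw [hcomb D]
    rw [dst_sum]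
    rfl
  -- the derivations commute
  have hcomm : ∀ i j u, θ i (θ j u) = θ j (θ i u) := by
    intro i j u
    have h1 : ⁅θ i, θ j⁆ = (0 : Derivation k K K) := by
      apply der_ext x hx
      intro l
      rw [Derivation.commutator_apply, hθ, hθ]
      split_ifs with h1 h2 h2
      · subst h1; subst h2
        exact sub_self _
      · rw [hθ, if_neg h2]
        simp
      · rw [hθ, if_neg h1]
        simp
      · rw [map_zero, map_zero, sub_zero]
        rfl
    have h2 : ⁅θ i, θ j⁆ u = 0 := by rw [h1]; rfl
    rw [Derivation.commutator_apply, sub_eq_zero] at h2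
    exact h2
  -- constants
  have hcon : ∀ g : K, (∀ i, θ i g = 0) → ∃ c : k, g = algebraMap k K c := by
    intro g hg
    apply dst_const
    intro D
    rw [hcomb' D g]
    exact Finset.sum_eq_zero fun i _ => by rw [hg i, mul_zero]
  -- a nonzero relation
  obtain ⟨D, hDΦ, hDz⟩ := dst_exists (k := k) Φ z hz
  have hex : ∃ n : ℕ, ∃ c : Fin b → K, c ≠ 0 ∧ (∀ φ ∈ Φ, ∑ i, c i * θ i φ = 0) ∧
      (Finset.univ.filter (fun i => c i ≠ 0)).card = n := by
    refine ⟨_, fun i => D (x i) / x i, ?_, ?_, rfl⟩
    · intro h
      apply hDz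
      rw [hcomb' D z]
      exact Finset.sum_eq_zero fun i _ => by rw [show D (x i) / x i = 0 from congrFun h i, zero_mul]
    · intro φ hφ
      rw [← hcomb' D φ]
      exact hDΦ φ hφ
  obtain ⟨c, hc0, hcΦ, hcn⟩ := Nat.find_spec hex
  obtain ⟨i0, hi0⟩ : ∃ i, c i ≠ 0 := Function.ne_iff.mp hc0
  let d : Fin b → K := fun i => c i / c i0
  have hd1 : d i0 = 1 := div_self hi0
  have hdΦ : ∀ φ ∈ Φ, ∑ i, d i * θ i φ = 0 := by
    intro φ hφ
    have h1 : ∑ i, d i * θ i φ = (∑ i, c i * θ i φ) / c i0 := by
      rw [Finset.sum_div]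
      refine Finset.sum_congr rfl fun i _ => ?_
      change c i / c i0 * θ i φ = _
      ring
    rw [h1, hcΦ φ hφ, zero_div]
  have hdk : ∀ i, ∃ r : k, d i = algebraMap k K r := by
    intro i
    apply hcon
    intro j
    by_contra hne
    have hlt : (Finset.univ.filter (fun i => θ j (d i) ≠ 0)).card < Nat.find hex := by
      rw [← hcn]
      apply Finset.card_lt_card
      rw [Finset.ssubset_iff_of_subset]
      · refine ⟨i0, Finset.mem_filter.mpr ⟨Finset.mem_univ _, hi0⟩, ?_⟩
        intro h
        apply (Finset.mem_filter.mp h).2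
        rw [hd1, Derivation.map_one_eq_zero]
      · intro i hi
        rw [Finset.mem_filter] at hi ⊢
        refine ⟨hi.1, fun h => hi.2 ?_⟩
        have : d i = 0 := by
          change c i / c i0 = 0
          rw [h, zero_div]
        rw [this, map_zero]
    apply Nat.find_min hex hlt
    refine ⟨fun i => θ j (d i), fun h => hne (congrFun h i), ?_, rfl⟩
    intro φ hφ
    have h1 := congrArg (θ j) (hdΦ φ hφ)
    rw [map_sum, map_zero] at h1
    have h2 := hdΦ (θ j φ) (hst j φ hφ)
    rw [← h1, ← sub_eq_zero, ← neg_eq_zero, neg_sub, ← h2, ← Finset.sum_sub_distrib]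
    refine Finset.sum_congr rfl fun i _ => ?_
    rw [Derivation.leibniz, smul_eq_mul, smul_eq_mul, hcomm j i]
    ring
  choose lam hlam using hdk
  -- an integral functional
  let f : (Fin b → ℤ) →ₗ[ℤ] k :=
    { toFun := fun m => ∑ j, (m j : k) * lam j
      map_add' := fun m n => by
        simp only [Pi.add_apply, Int.cast_add, add_mul, Finset.sum_add_distrib]
      map_smul' := fun r m => by
        simp only [Pi.smul_apply, smul_eq_mul, Int.cast_mul, mul_assoc, Finset.mul_sum,
          zsmul_eq_mul, eq_intCast, Int.cast_id] }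
  have hlam1 : lam i0 = 1 := by
    apply (algebraMap k K).injective
    rw [← hlam, hd1, map_one]
  obtain ⟨a, ha0, haf⟩ : ∃ a : Fin b → ℤ, a ≠ 0 ∧ ∀ m : Fin b → ℤ,
      ∑ j, (m j : k) * lam j = 0 → ∑ j, m j * a j = 0 := by
    let R := LinearMap.range f
    have hfin : Module.Finite ℤ R := inferInstance
    have htf : Module.IsTorsionFree ℤ R := inferInstance
    have hfree : Module.Free ℤ R := inferInstance
    let B := Module.Free.chooseBasis ℤ R
    let F : (Fin b → ℤ) →ₗ[ℤ] R := f.rangeRestrict
    have hne : F (Pi.single i0 1) ≠ 0 := by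
      intro h
      have h1 : f (Pi.single i0 1) = 0 := congrArg Subtype.val h
      have h2 : f (Pi.single i0 1) = lam i0 := by
        change ∑ j, ((Pi.single i0 1 : Fin b → ℤ) j : k) * lam j = lam i0
        rw [Finset.sum_eq_single i0]
        · simp
        · intro j _ hj
          simp [Pi.single_apply, hj]
        · simp
      rw [h2, hlam1] at h1
      exact one_ne_zero h1
    obtain ⟨i, hi⟩ : ∃ i, B.repr (F (Pi.single i0 1)) i ≠ 0 := by
      by_contra hcon
      push Not at hcon
      apply hne
      apply B.repr.injective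
      ext i
      rw [hcon i, map_zero]
      rfl
    let L : (Fin b → ℤ) →ₗ[ℤ] ℤ := (B.coord i).comp F
    refine ⟨fun j => L (Pi.single j 1), ?_, ?_⟩
    · intro h
      apply hi
      exact congrFun h i0
    · intro m hm
      have h1 : L m = ∑ j, m j * L (Pi.single j 1) := by
        conv_lhs => rw [← Finset.univ_sum_single m]
        rw [map_sum]
        refine Finset.sum_congr rfl fun j _ => ?_
        have : (Pi.single j (m j) : Fin b → ℤ) = m j • Pi.single j 1 := by
          rw [← Pi.single_smul, smul_eq_mul, mul_one]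
        rw [this, map_smul, smul_eq_mul]
      rw [← h1]
      have h2 : F m = 0 := Subtype.ext hm
      change B.coord i (F m) = 0
      rw [h2, map_zero]
  obtain ⟨φ, hφ, hne⟩ := hΦ a ha0
  apply hne
  have key := dst_wt x hx lam (fun j => (a j : k)) (fun m hm => by
      have := haf m hm
      exact_mod_cast congrArg (Int.cast : ℤ → k) this)
    (∑ i, (algebraMap k K (lam i)) • θ i) (∑ i, ((a i : ℤ) : K) • θ i) (by
      intro j
      rw [dst_sum]
      simp only [Derivation.smul_apply, smul_eq_mul, hθ]
      rw [Finset.sum_eq_single j]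
      · rw [if_pos rfl]
      · intro i _ hij
        rw [if_neg hij, mul_zero]
      · intro h
        exact absurd (Finset.mem_univ j) h) (by
      intro j
      rw [dst_sum]
      simp only [Derivation.smul_apply, smul_eq_mul, hθ]
      rw [Finset.sum_eq_single j]
      · rw [if_pos rfl, map_intCast]
      · intro i _ hij
        rw [if_neg hij, mul_zero]
      · intro h
        exact absurd (Finset.mem_univ j) h) (h := φ) (by
      rw [dst_sum]
      simp only [Derivation.smul_apply, smul_eq_mul, ← hlam]
      exact hdΦ φ hφ)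
  rw [dst_sum] at key
  exact key

end Pool.Agent.Q288.TE
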