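import Pool.Agent.Q288.TE.StL

/-!
The orders of an element of bounded degree at a ramified place.
-/

set_option autoImplicit false

namespace Pool.Agent.Q288.TE

open FF

lemma sum_ord {k K : Type*} [Field k] [Field K] [Algebra k K] (P : Place k K) (a : ℕ → K)
    (S : Finset ℕ) (hS : S.Nonempty) (h0 : ∀ l ∈ S, a l ≠ 0)
    (hinj : ∀ l ∈ S, ∀ m ∈ S, P.ord (a l) = P.ord (a m) → l = m) :
    ∑ l ∈ S, a l ≠ 0 ∧ ∃ l ∈ S, P.ord (∑ l ∈ S, a l) = P.ord (a l) := by
  induction hS using Finset.Nonempty.cons_induction with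
  | singleton x =>
    rw [Finset.sum_singleton]
    exact ⟨h0 x (Finset.mem_singleton_self x), x, Finset.mem_singleton_self x, rfl⟩
  | cons x S hx hS ih =>
    obtain ⟨i1, l, hl, i2⟩ := ih (fun l hl => h0 l (Finset.mem_cons_of_mem hl))
      (fun l hl m hm => hinj l (Finset.mem_cons_of_mem hl) m (Finset.mem_cons_of_mem hm))
    rw [Finset.sum_cons]
    have hax : a x ≠ 0 := h0 x (Finset.mem_cons_self x S)
    have hne : P.ord (a x) ≠ P.ord (a l) := by
      intro h
      have := hinj x (Finset.mem_cons_self x S) l (Finset.mem_cons_of_mem hl) h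
      rw [this] at hx
      exact hx hl
    rcases lt_or_gt_of_ne hne with h | h
    · rw [← i2] at h
      obtain ⟨j1, j2⟩ := P.ord_add_eq hax i1 h
      exact ⟨j1, x, Finset.mem_cons_self x S, j2⟩
    · rw [← i2] at h
      obtain ⟨j1, j2⟩ := P.ord_add_eq i1 hax h
      rw [add_comm] at j1 j2
      exact ⟨j1, l, Finset.mem_cons_of_mem hl, by rw [j2, i2]⟩

theorem t_fac : St_fac := by
  intro k F K _ _ _ _ _ _ _ _ q P e hov d g hg hd
  obtain ⟨p, hp⟩ : ∃ p, p = minpoly F g := ⟨_, rfl⟩
  have hint : IsIntegral F g := Algebra.IsIntegral.isIntegral g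
  have hp0 : p ≠ 0 := by rw [hp]; exact minpoly.ne_zero hint
  have hz : ∑ l ∈ p.support, algebraMap F K (p.coeff l) * g ^ l = 0 := by
    have := minpoly.aeval F g
    rw [← hp, Polynomial.aeval_eq_sum_range] at this
    rw [← this]
    have h1 := Polynomial.aeval_def g p
    rw [Polynomial.eval₂_eq_sum, Polynomial.sum_def] at h1
    rw [← h1, Polynomial.aeval_eq_sum_range]
  have hT : ∀ l ∈ p.support, algebraMap F K (p.coeff l) * g ^ l ≠ 0 := by
    intro l hl
    refine mul_ne_zero ?_ (pow_ne_zero _ hg)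
    rw [Ne, map_eq_zero]
    exact Polynomial.mem_support_iff.mp hl
  have hex : ∃ l ∈ p.support, ∃ m ∈ p.support, m < l ∧
      P.ord (algebraMap F K (p.coeff l) * g ^ l) = P.ord (algebraMap F K (p.coeff m) * g ^ m) := by
    by_contra hcon
    push Not at hcon
    refine (sum_ord P (fun l => algebraMap F K (p.coeff l) * g ^ l) p.support
      (Polynomial.support_nonempty.mpr hp0) hT ?_).1 hz
    intro l hl m hm h
    rcases lt_trichotomy l m with h1 | h1 | h1
    · exact absurd h.symm (hcon m hm l hl h1)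
    · exact h1
    · exact absurd h (hcon l hl m hm h1)
  obtain ⟨l, hl, m, hm, hlm, h⟩ := hex
  have hc : ∀ i ∈ p.support, P.ord (algebraMap F K (p.coeff i) * g ^ i) =
      e * q.ord (p.coeff i) + i * P.ord g := by
    intro i hi
    have h1 : algebraMap F K (p.coeff i) ≠ 0 := by
      rw [Ne, map_eq_zero]
      exact Polynomial.mem_support_iff.mp hi
    rw [P.ord_mul h1 (pow_ne_zero _ hg), hov.2, P.ord_pow]
  rw [hc l hl, hc m hm] at h
  have hle : l ≤ d := (Polynomial.le_natDegree_of_mem_supp l hl).trans (by rw [hp]; exact hd)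
  obtain ⟨c, hc1⟩ : (l - m) ∣ d.factorial :=
    Nat.dvd_factorial (Nat.sub_pos_of_lt hlm) ((Nat.sub_le _ _).trans hle)
  have h2 : ((l : ℤ) - m) * P.ord g = e * (q.ord (p.coeff m) - q.ord (p.coeff l)) := by
    linear_combination h
  have h3 : (d.factorial : ℤ) = ((l : ℤ) - m) * c := by
    rw [hc1, Nat.cast_mul, Nat.cast_sub hlm.le]
  rw [h3]
  refine ⟨c * (q.ord (p.coeff m) - q.ord (p.coeff l)), ?_⟩
  linear_combination (c : ℤ) * h2

end Pool.Agent.Q288.TE
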