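import Pool.Agent.Q288.TE.StP
import Pool.Agent.Q288.TE.Fac
import Pool.Agent.Y500.OG.Coef
import Pool.Agent.Y32.OG.Tor

/-!
The step `St_eig`: decomposition into eigenfunctions of an invariant derivation.
-/

set_option autoImplicit false
set_option linter.overlappingInstances false
set_option linter.unusedSectionVars false

namespace Pool.Agent.Q288.TE.EigA

open FF MvPolynomial Pool.Agent.W603.LV Pool.Agent.W602.GT Pool.Agent.TH122.AB
open Pool.Agent.Y192.OG

section poly

variable {k : Type} [Field k] {b : ℕ}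

/-- the operator `pw` on monomials -/
theorem pw_monomial (a : Fin b → ℤ) (s : Fin b →₀ ℕ) (c : k) :
    pw a (monomial s c) = monomial s ((tw a s : k) * c) := by
  unfold pw tw
  have h1 : ∀ i, (a i : MvPolynomial (Fin b) k) * (X i * pderiv i (monomial s c)) =
      monomial s (((a i * (s i : ℤ) : ℤ) : k) * c) := by
    intro i
    rw [X_mul_pderiv_monomial, nsmul_eq_mul]
    have h2 : ((a i : ℤ) : MvPolynomial (Fin b) k) * (((s i : ℕ) : MvPolynomial (Fin b) k) * monomial s c) =
        C (((a i * (s i : ℤ) : ℤ) : k)) * monomial s c := by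
      rw [← mul_assoc]
      congr 1
      rw [map_intCast]
      push_cast
      rfl
    rw [h2, C_mul_monomial]
  rw [Finset.sum_congr rfl fun i _ => h1 i, ← map_sum, ← Finset.sum_mul]
  congr 2
  push_cast
  rfl

theorem pw_add (a : Fin b → ℤ) (p q : MvPolynomial (Fin b) k) : pw a (p + q) = pw a p + pw a q := by
  unfold pw
  rw [← Finset.sum_add_distrib]
  refine Finset.sum_congr rfl fun i _ => ?_
  rw [map_add]
  ring

theorem pw_mul (a : Fin b → ℤ) (p q : MvPolynomial (Fin b) k) :
    pw a (p * q) = pw a p * q + p * pw a q := by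
  unfold pw
  rw [Finset.sum_mul, Finset.mul_sum, ← Finset.sum_add_distrib]
  refine Finset.sum_congr rfl fun i _ => ?_
  rw [Derivation.leibniz, smul_eq_mul, smul_eq_mul]
  ring

theorem pw_X (a : Fin b → ℤ) (i : Fin b) : pw a (X i : MvPolynomial (Fin b) k) = (a i : k) • X i := by
  have h : (X i : MvPolynomial (Fin b) k) = monomial (Finsupp.single i 1) 1 := rfl
  rw [h, pw_monomial, Pool.Agent.Y500.OG.tw_single, smul_monomial, smul_eq_mul]

theorem pw_C (a : Fin b → ℤ) (c : k) : pw a (C c) = 0 := by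
  have h : (C c : MvPolynomial (Fin b) k) = monomial 0 c := rfl
  rw [h, pw_monomial]
  have h1 : tw a (0 : Fin b →₀ ℕ) = 0 := by simp [tw]
  rw [h1]
  simp

theorem coeff_pw (a : Fin b → ℤ) (p : MvPolynomial (Fin b) k) (s : Fin b →₀ ℕ) :
    (pw a p).coeff s = (tw a s : k) * p.coeff s := by
  induction p using MvPolynomial.induction_on' with
  | monomial u c =>
    rw [pw_monomial, coeff_monomial, coeff_monomial]
    split_ifs with h
    · rw [h]
    · rw [mul_zero]
  | add p q hp hq => rw [pw_add, coeff_add, coeff_add, hp, hq, mul_add]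

end poly

section der

variable {k F K : Type} [Field k] [Field F] [Field K] [Algebra k F] [Algebra k K]
    [Algebra F K] [IsScalarTower k F K] {b : ℕ} {X : Fin b → F}

theorem Da_app (θ : Fin b → Derivation k K K) (a : Fin b → ℤ) (g : K) :
    Da θ a g = ∑ i, (a i : K) * θ i g := by
  unfold Da
  have h : ((∑ i, a i • θ i : Derivation k K K) : K → K) = ∑ i, ((a i • θ i : Derivation k K K) : K → K) :=
    map_sum (Derivation.coeFnAddMonoidHom (R := k) (A := K) (M := K)) _ _
  rw [h, Finset.sum_apply]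
  refine Finset.sum_congr rfl fun i _ => ?_
  rw [Derivation.smul_apply, zsmul_eq_mul]

theorem Da_neg (θ : Fin b → Derivation k K K) (a : Fin b → ℤ) (g : K) :
    Da θ (-a) g = - Da θ a g := by
  rw [Da_app, Da_app, ← Finset.sum_neg_distrib]
  refine Finset.sum_congr rfl fun i _ => ?_
  rw [Pi.neg_apply]
  push_cast
  ring

theorem Da_X (θ : Fin b → Derivation k K K) (hθ : Th (fun i => algebraMap F K (X i)) θ)
    (a : Fin b → ℤ) (j : Fin b) :
    Da θ a (algebraMap F K (X j)) = (a j : K) * algebraMap F K (X j) := by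
  rw [Da_app, Finset.sum_eq_single j]
  · rw [hθ j j, if_pos rfl]
  · intro i _ hij
    rw [hθ i j, if_neg hij, mul_zero]
  · intro h
    exact absurd (Finset.mem_univ j) h

theorem Da_poly (θ : Fin b → Derivation k K K) (hθ : Th (fun i => algebraMap F K (X i)) θ)
    (a : Fin b → ℤ) (A : MvPolynomial (Fin b) k) :
    Da θ a (algebraMap F K (aeval X A)) = algebraMap F K (aeval X (pw a A)) := by
  induction A using MvPolynomial.induction_on with
  | C c =>
    rw [pw_C, aeval_C, ← IsScalarTower.algebraMap_apply k F K, Derivation.map_algebraMap, map_zero,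
      map_zero]
  | add p q hp hq => rw [map_add, map_add, map_add, hp, hq, pw_add, map_add, map_add]
  | mul_X p i hp =>
    have e1 : aeval X (pw a (p * MvPolynomial.X i)) =
        aeval X (pw a p) * X i + aeval X p * ((a i : F) * X i) := by
      rw [pw_mul, pw_X, map_add, map_mul, map_mul, map_smul, aeval_X, Algebra.smul_def, map_intCast]
    rw [e1, map_mul, map_mul, Derivation.leibniz, hp, aeval_X, Da_X θ hθ, smul_eq_mul, smul_eq_mul]
    simp only [map_add, map_mul, map_intCast]
    ring

/-- eigenfunctions -/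
def Ev (D : Derivation k K K) (c : ℤ) (z : K) : Prop := D z = (c : K) * z

variable {D : Derivation k K K}

theorem Ev.mul {c d : ℤ} {y z : K} (hy : Ev D c y) (hz : Ev D d z) : Ev D (c + d) (y * z) := by
  unfold Ev at *
  rw [Derivation.leibniz, hy, hz, smul_eq_mul, smul_eq_mul]
  push_cast
  ring

theorem Ev.one : Ev D 0 (1 : K) := by
  unfold Ev
  rw [Derivation.map_one_eq_zero]
  simp

theorem Ev.pow {c : ℤ} {z : K} (hz : Ev D c z) (n : ℕ) : Ev D (n * c) (z ^ n) := by
  induction n with
  | zero => simpa using Ev.one (D := D)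
  | succ n ih =>
    rw [pow_succ]
    have h := ih.mul hz
    have e : ((n + 1 : ℕ) : ℤ) * c = n * c + c := by push_cast; ring
    rw [e]
    exact h

theorem Ev.inv {c : ℤ} {z : K} (hz : Ev D c z) : Ev D (-c) z⁻¹ := by
  unfold Ev at *
  by_cases h0 : z = 0
  · rw [h0]
    simp
  · rw [Derivation.leibniz_inv, hz, smul_eq_mul]
    push_cast
    field_simp

theorem Ev.zpow {c : ℤ} {z : K} (hz : Ev D c z) (n : ℤ) : Ev D (n * c) (z ^ n) := by
  cases n with
  | ofNat n => simpa using hz.pow n
  | negSucc n =>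
    rw [zpow_negSucc]
    have h := (hz.pow (n + 1)).inv
    have e : Int.negSucc n * c = -(((n + 1 : ℕ) : ℤ) * c) := by
      rw [Int.negSucc_eq]
      push_cast
      ring
    rw [e]
    exact h

theorem Ev.prod {ι : Type} (s : Finset ι) (c : ι → ℤ) (z : ι → K) (h : ∀ i ∈ s, Ev D (c i) (z i)) :
    Ev D (∑ i ∈ s, c i) (∏ i ∈ s, z i) := by
  classical
  induction s using Finset.induction_on with
  | empty => simpa using Ev.one (D := D)
  | insert i s hi ih =>
    rw [Finset.prod_insert hi, Finset.sum_insert hi]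
    exact (h i (Finset.mem_insert_self i s)).mul (ih fun j hj => h j (Finset.mem_insert_of_mem hj))

theorem ev_mono (θ : Fin b → Derivation k K K) (hθ : Th (fun i => algebraMap F K (X i)) θ)
    (a m : Fin b → ℤ) : Ev (Da θ a) (∑ i, a i * m i) (∏ i, algebraMap F K (X i) ^ m i) := by
  have h := Ev.prod (D := Da θ a) Finset.univ (fun i => m i * a i) (fun i => algebraMap F K (X i) ^ m i)
    (fun i _ => Ev.zpow (Da_X θ hθ a i) (m i))
  have e : ∑ i, a i * m i = ∑ i, m i * a i := Finset.sum_congr rfl fun i _ => by ring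
  rw [e]
  exact h

theorem ev_prodX (θ : Fin b → Derivation k K K) (hθ : Th (fun i => algebraMap F K (X i)) θ)
    (a : Fin b → ℤ) (M : ℕ) :
    Ev (Da θ a) (M * ∑ i, a i) (algebraMap F K ((∏ i, X i) ^ M)) := by
  rw [map_pow, map_prod]
  exact (Ev.prod (D := Da θ a) Finset.univ a (fun i => algebraMap F K (X i))
    (fun i _ => Da_X θ hθ a i)).pow M

end der

section laurent

variable {k F K : Type} [Field k] [CharZero k] [Field F] [Field K] [Algebra k F] [Algebra k K]
    [Algebra F K] [IsScalarTower k F K] {b : ℕ} {X : Fin b → F}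

/-- a Laurent polynomial is killed by the derivation if and only if all its monomials have
weight zero -/
theorem kill_iff (hX : Gens (k := k) X) (θ : Fin b → Derivation k K K)
    (hθ : Th (fun i => algebraMap F K (X i)) θ) (a : Fin b → ℤ) (c : F) (M : ℕ)
    (A : MvPolynomial (Fin b) k) (h : c * (∏ i, X i) ^ M = aeval X A) :
    Da θ a (algebraMap F K c) = 0 ↔ ∀ s ∈ A.support, tw a s = M * ∑ i, a i := by
  have hy : (∏ i, X i) ^ M ≠ 0 := Pool.Agent.Y500.OG.prodX_ne hX M
  have hyK : algebraMap F K ((∏ i, X i) ^ M) ≠ 0 := by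
    rw [Ne, map_eq_zero]
    exact hy
  have h1 : Da θ a (algebraMap F K (c * (∏ i, X i) ^ M)) = Da θ a (algebraMap F K (aeval X A)) := by
    rw [h]
  rw [Da_poly θ hθ, map_mul, Derivation.leibniz, smul_eq_mul, smul_eq_mul, ev_prodX θ hθ a M] at h1
  have h2 : algebraMap F K ((∏ i, X i) ^ M) * Da θ a (algebraMap F K c) =
      algebraMap F K (aeval X (pw a A - C ((M * ∑ i, a i : ℤ) : k) * A)) := by
    rw [map_sub, map_sub, map_mul, map_mul, ← h, aeval_C, ← IsScalarTower.algebraMap_apply k F K,
      map_intCast, ← h1, map_mul]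
    ring
  have h3 : Da θ a (algebraMap F K c) = 0 ↔ pw a A - C ((M * ∑ i, a i : ℤ) : k) * A = 0 := by
    constructor
    · intro h4
      rw [h4, mul_zero] at h2
      by_contra h5
      exact hX.ne h5 ((map_eq_zero _).1 h2.symm)
    · intro h4
      rw [h4, map_zero, map_zero] at h2
      exact (mul_eq_zero.1 h2).resolve_left hyK
  rw [h3]
  constructor
  · intro h4 s hs
    have h5 := congrArg (fun p => p.coeff s) h4
    simp only [coeff_sub, coeff_C_mul, coeff_pw, coeff_zero] at h5
    have h6 : A.coeff s ≠ 0 := mem_support_iff.1 hs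
    rw [← sub_mul] at h5
    have h7 := (mul_eq_zero.1 h5).resolve_right h6
    have h8 : ((tw a s : ℤ) : k) = ((M * ∑ i, a i : ℤ) : k) := by linear_combination h7
    exact_mod_cast h8
  · intro h4
    ext s
    simp only [coeff_sub, coeff_C_mul, coeff_pw, coeff_zero]
    by_cases hs : s ∈ A.support
    · rw [h4 s hs]
      ring
    · rw [notMem_support_iff.1 hs]
      ring

/-- Laurent polynomials with monomials of weight zero -/
theorem mem_A0 (hX : Gens (k := k) X) (a : Fin b → ℤ) (c : F) (M : ℕ)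
    (A : MvPolynomial (Fin b) k) (h : c * (∏ i, X i) ^ M = aeval X A)
    (hs : ∀ s ∈ A.support, tw a s = M * ∑ i, a i) :
    algebraMap F K c ∈ Algebra.adjoin k {z : K | ∃ m : Fin b → ℤ, ∑ i, a i * m i = 0 ∧
          z = ∏ i, algebraMap F K (X i) ^ m i} := by
  have hy : (∏ i, X i) ^ M ≠ 0 := Pool.Agent.Y500.OG.prodX_ne hX M
  have hXne : ∀ i, algebraMap F K (X i) ≠ 0 := fun i => by
    rw [Ne, map_eq_zero]
    exact Pool.Agent.Y500.OG.X_ne hX i
  have h1 : c = aeval X A / (∏ i, X i) ^ M := by
    rw [← h]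
    field_simp
  have h2 : algebraMap F K c = ∑ s ∈ A.support, algebraMap k K (A.coeff s) *
      ∏ i, algebraMap F K (X i) ^ ((s i : ℤ) - M) := by
    rw [h1, aeval_def, eval₂_eq', map_div₀, map_sum, Finset.sum_div]
    refine Finset.sum_congr rfl fun s _ => ?_
    rw [map_mul, ← IsScalarTower.algebraMap_apply k F K, mul_div_assoc, map_prod, map_pow, map_prod,
      ← Finset.prod_pow, ← Finset.prod_div_distrib]
    congr 1
    refine Finset.prod_congr rfl fun i _ => ?_
    rw [zpow_sub₀ (hXne i), map_pow, zpow_natCast, zpow_natCast]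
  rw [h2]
  refine Subalgebra.sum_mem _ fun s hs' => ?_
  refine Subalgebra.mul_mem _ (Subalgebra.algebraMap_mem _ _) (Algebra.subset_adjoin ?_)
  refine ⟨fun i => (s i : ℤ) - M, ?_, rfl⟩
  have h3 := hs s hs'
  unfold tw at h3
  simp only [mul_sub, Finset.sum_sub_distrib, ← Finset.sum_mul]
  rw [h3]
  ring

/-- the derivation preserves the subfield -/
theorem Da_sub (hX : Gens (k := k) X) (θ : Fin b → Derivation k K K)
    (hθ : Th (fun i => algebraMap F K (X i)) θ) (a : Fin b → ℤ) (c : F) :
    ∃ d : F, Da θ a (algebraMap F K c) = algebraMap F K d := by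
  obtain ⟨A, B, hB, hc⟩ := hX.gen c
  refine ⟨(aeval X B)⁻¹ ^ 2 * (aeval X B * aeval X (pw a A) - aeval X A * aeval X (pw a B)), ?_⟩
  rw [hc, map_div₀, Derivation.leibniz_div, Da_poly θ hθ, Da_poly θ hθ]
  simp only [smul_eq_mul, map_mul, map_pow, map_sub, map_inv₀]

/-- the derivative of the equation of an element -/
theorem der_min (D : Derivation k K K) (p : Polynomial F) (g : K) :
    D (Polynomial.aeval g p) = ∑ i ∈ Finset.range (p.natDegree + 1), D (algebraMap F K (p.coeff i)) * g ^ i +
      Polynomial.aeval g (Polynomial.derivative p) * D g := by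
  rw [Polynomial.aeval_eq_sum_range, map_sum]
  have h1 : Polynomial.aeval g (Polynomial.derivative p) =
      ∑ i ∈ Finset.range (p.natDegree + 1), algebraMap F K (p.coeff i) * ((i : K) * g ^ (i - 1)) := by
    have h2 : p = ∑ i ∈ Finset.range (p.natDegree + 1), Polynomial.C (p.coeff i) * Polynomial.X ^ i :=
      p.as_sum_range_C_mul_X_pow
    conv_lhs => rw [h2]
    rw [map_sum, map_sum]
    refine Finset.sum_congr rfl fun i _ => ?_
    rw [Polynomial.derivative_C_mul_X_pow, map_mul, Polynomial.aeval_C, map_pow, Polynomial.aeval_X,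
      map_mul, map_natCast]
    ring
  rw [h1, Finset.sum_mul, ← Finset.sum_add_distrib]
  refine Finset.sum_congr rfl fun i _ => ?_
  rw [Algebra.smul_def, Derivation.leibniz, Derivation.leibniz_pow, smul_eq_mul, smul_eq_mul, nsmul_eq_mul,
    smul_eq_mul]
  ring

variable [FiniteDimensional F K]

theorem kill_of_coeff [CharZero F] (D : Derivation k K K) (g : K)
    (h : ∀ i, D (algebraMap F K ((minpoly F g).coeff i)) = 0) : D g = 0 := by
  have h1 := der_min D (minpoly F g) g
  rw [minpoly.aeval, map_zero, Finset.sum_eq_zero (fun i _ => by rw [h i, zero_mul]), zero_add] at h1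
  have h2 : Polynomial.aeval g (Polynomial.derivative (minpoly F g)) ≠ 0 :=
    (Algebra.IsSeparable.isSeparable F g).aeval_derivative_ne_zero (minpoly.aeval F g)
  exact (mul_eq_zero.1 h1.symm).resolve_left h2

theorem coeff_of_kill (D : Derivation k K K) (hD : ∀ c : F, ∃ d : F, D (algebraMap F K c) = algebraMap F K d)
    (g : K) (h : D g = 0) (i : ℕ) : D (algebraMap F K ((minpoly F g).coeff i)) = 0 := by
  choose d hd using hD
  have hint : IsIntegral F g := Algebra.IsIntegral.isIntegral g
  have h1 := der_min D (minpoly F g) g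
  rw [minpoly.aeval, map_zero, h, mul_zero, add_zero] at h1
  obtain ⟨n, hn⟩ : ∃ n, n = (minpoly F g).natDegree := ⟨_, rfl⟩
  rw [← hn, Finset.sum_range_succ] at h1
  have hlead : (minpoly F g).coeff n = 1 := by rw [hn]; exact minpoly.monic hint
  rw [hlead, map_one, Derivation.map_one_eq_zero, zero_mul, add_zero] at h1
  let r : Polynomial F := ∑ j ∈ Finset.range n, Polynomial.C (d ((minpoly F g).coeff j)) * Polynomial.X ^ j
  have hr : Polynomial.aeval g r = 0 := by
    simp only [r, map_sum, map_mul, Polynomial.aeval_C, map_pow, Polynomial.aeval_X]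
    rw [h1]
    exact Finset.sum_congr rfl fun j _ => by rw [hd]
  have hdeg : r.degree < n := by
    rw [← Polynomial.mem_degreeLT]
    refine Submodule.sum_mem _ fun j hj => ?_
    rw [Finset.mem_range] at hj
    rw [Polynomial.mem_degreeLT]
    refine lt_of_le_of_lt (Polynomial.degree_C_mul_X_pow_le _ _) ?_
    exact_mod_cast hj
  have hr0 : r = 0 := by
    by_contra hne
    have h2 := minpoly.degree_le_of_ne_zero F g hne hr
    rw [Polynomial.degree_eq_natDegree (minpoly.ne_zero hint), ← hn] at h2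
    exact absurd hdeg (not_lt.2 h2)
  rcases lt_trichotomy i n with hi | hi | hi
  · have h2 : r.coeff i = d ((minpoly F g).coeff i) := by
      simp only [r, Polynomial.finsetSum_coeff, Polynomial.coeff_C_mul, Polynomial.coeff_X_pow]
      rw [Finset.sum_eq_single i]
      · simp
      · intro j _ hj
        rw [if_neg (Ne.symm hj), mul_zero]
      · intro h3
        exact absurd (Finset.mem_range.2 hi) h3
    rw [hd, ← h2, hr0, Polynomial.coeff_zero, map_zero]
  · rw [hi, hlead, map_one, Derivation.map_one_eq_zero]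
  · rw [Polynomial.coeff_eq_zero_of_natDegree_lt (by omega), map_zero, map_zero]

end laurent

section ops

variable {k K : Type} [Field k] [Field K] [Algebra k K]

/-- the operator `E * D` -/
noncomputable def Top (D : Derivation k K K) (E : ℕ) : Module.End k K := (E : k) • (D : K →ₗ[k] K)

theorem Top_app (D : Derivation k K K) (E : ℕ) (g : K) : Top D E g = (E : K) * D g := by
  unfold Top
  rw [LinearMap.smul_apply, Algebra.smul_def, map_natCast]
  rfl

theorem fac_app (D : Derivation k K K) (E : ℕ) (j : ℤ) (g : K) :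
    Polynomial.aeval (Top D E) (Polynomial.X - Polynomial.C (j : k)) g = (E : K) * D g - (j : K) * g := by
  rw [map_sub, Polynomial.aeval_X, Polynomial.aeval_C, LinearMap.sub_apply, Top_app,
    Module.algebraMap_end_apply, Algebra.smul_def, map_intCast]

/-- products of the operators `T - σ j` -/
theorem prod_op (T : Module.End k K) (W : ℤ → K → Prop) (σ : ℤ → ℤ) (hσ : Function.Injective σ)
    (h1 : ∀ (j i : ℤ) (g : K), W j g → W j (Polynomial.aeval T (Polynomial.X - Polynomial.C (i : k)) g))
    (h2 : ∀ (j : ℤ) (g : K), W j g →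
      W (j + 1) (Polynomial.aeval T (Polynomial.X - Polynomial.C (σ j : k)) g)) (m : ℕ) :
    ∀ S : Finset ℤ, (∀ i : ℤ, -(m : ℤ) ≤ i → i < 0 → σ i ∈ S) → ∀ g : K, W (-(m : ℤ)) g →
      W 0 (Polynomial.aeval T (∏ i ∈ S, (Polynomial.X - Polynomial.C (i : k))) g) := by
  classical
  induction m with
  | zero =>
    intro S _ g hg
    rw [Nat.cast_zero, neg_zero] at hg
    induction S using Finset.induction_on with
    | empty =>
      rw [Finset.prod_empty, map_one]
      exact hg
    | insert i S hi ih =>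
      rw [Finset.prod_insert hi, map_mul, Module.End.mul_apply]
      exact h1 0 i _ (ih (fun i h1 h2 => by omega))
  | succ m ih =>
    intro S hS g hg
    have hmem : σ (-((m + 1 : ℕ) : ℤ)) ∈ S := hS _ le_rfl (by push_cast; omega)
    rw [← Finset.prod_erase_mul _ _ hmem, map_mul, Module.End.mul_apply]
    refine ih (S.erase (σ (-((m + 1 : ℕ) : ℤ)))) ?_ _ ?_
    · intro i hi1 hi2
      refine Finset.mem_erase.2 ⟨fun h => ?_, hS i (by push_cast; omega) hi2⟩
      have := hσ h
      push_cast at this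
      omega
    · have h3 := h2 _ g hg
      have e : -((m + 1 : ℕ) : ℤ) + 1 = -(m : ℤ) := by push_cast; ring
      rwa [e] at h3

end ops

section tor

variable {k F K : Type} [Field k] [CharZero k] [Field F] [Field K] [Algebra k F] [Algebra k K]
    [Algebra F K] [IsScalarTower k F K] [FiniteDimensional F K]

/-- elements of bounded order -/
def U (P : Place k K) (e E : ℕ) (j : ℤ) (g : K) : Prop := g = 0 ∨ (e : ℤ) * j ≤ E * P.ord g

variable {P : Place k K} {q : Place k F} {e E : ℕ}

theorem U.mono {j j' : ℤ} {g : K} (h : U P e E j g) (hj : j' ≤ j) : U P e E j' g := by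
  rcases h with h | h
  · exact Or.inl h
  · exact Or.inr (le_trans (mul_le_mul_of_nonneg_left hj (Nat.cast_nonneg _)) h)

theorem U.add {j : ℤ} {g h : K} (hg : U P e E j g) (hh : U P e E j h) : U P e E j (g + h) := by
  by_cases h1 : g = 0
  · rw [h1, zero_add]
    exact hh
  by_cases h2 : h = 0
  · rw [h2, add_zero]
    exact hg
  by_cases h3 : g + h = 0
  · exact Or.inl h3
  · right
    have h4 := hg.resolve_left h1
    have h5 := hh.resolve_left h2
    rcases min_le_iff.1 (P.ord_add h1 h2 h3) with h6 | h6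
    · exact h4.trans (mul_le_mul_of_nonneg_left h6 (Nat.cast_nonneg _))
    · exact h5.trans (mul_le_mul_of_nonneg_left h6 (Nat.cast_nonneg _))

/-- from an order estimate to `U` -/
theorem U.of_ge {j : ℤ} {g : K} {n : ℤ} (hg : Ge P n g) (h : (e : ℤ) * j ≤ E * n) : U P e E j g := by
  rcases hg with h1 | h1
  · exact Or.inl h1
  · exact Or.inr (h.trans (mul_le_mul_of_nonneg_left h1 (Nat.cast_nonneg _)))

theorem stab (D : Derivation k K K) (hD : ∀ g : K, P.Reg (D g / g)) (E : ℕ) (e : ℕ) (j i : ℤ) (g : K)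
    (hg : U P e E j g) : U P e E j ((E : K) * D g - (i : K) * g) := by
  by_cases h0 : g = 0
  · rw [h0, map_zero, mul_zero, mul_zero, sub_zero]
    exact Or.inl rfl
  have h1 := hg.resolve_left h0
  refine U.of_ge (n := P.ord g) ?_ h1
  have h2 : Ge P (P.ord g) g := Or.inr le_rfl
  have h3 : Ge P (P.ord g) (D g) := by
    have h4 : D g = (D g / g) * g := by field_simp
    rw [h4]
    have h5 := (show Ge P 0 (D g / g) from hD g).mul h2
    rwa [zero_add] at h5
  have h4 := (Ge.natCast (P := P) E).mul h3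
  have h5 := (Ge.intCast (P := P) i).mul h2
  rw [zero_add] at h4 h5
  exact h4.sub h5

/-- one step: the operator `E D - j` raises the order -/
theorem step (hPq : Over P q e) (hE : 0 < E) (hfac : ∀ g : K, g ≠ 0 → (e : ℤ) ∣ E * P.ord g)
    (D : Derivation k K K) (hD : ∀ g : K, g ≠ 0 → Ge P 1 ((e : K) * (D g / g) - (P.ord g : K)))
    (j : ℤ) (g : K) (hg : U P e E j g) : U P e E (j + 1) ((E : K) * D g - (j : K) * g) := by
  by_cases h0 : g = 0
  · rw [h0, map_zero, mul_zero, mul_zero, sub_zero]
    exact Or.inl rfl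
  have h1 := hg.resolve_left h0
  have he : (0 : ℤ) < e := by exact_mod_cast hPq.1
  -- `e ∣ E`
  obtain ⟨π, hπ0, hπ⟩ := P.surj
  obtain ⟨E', hE'⟩ := hfac π hπ0
  rw [hπ, mul_one] at hE'
  have hE'1 : 1 ≤ E' := by
    by_contra h2
    have h3 : E' ≤ 0 := by omega
    have h4 : (e : ℤ) * E' ≤ 0 := mul_nonpos_of_nonneg_of_nonpos he.le h3
    have h5 : (0 : ℤ) < E := by exact_mod_cast hE
    linarith
  obtain ⟨n, hn⟩ : ∃ n, n = P.ord g := ⟨_, rfl⟩
  obtain ⟨j', hj'⟩ : ∃ j', j' = E' * n := ⟨_, rfl⟩
  have hEn : (E : ℤ) * n = e * j' := by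
    rw [hE', hj']
    ring
  rw [← hn, hEn] at h1
  have hjj : j ≤ j' := le_of_mul_le_mul_left h1 he
  have hgn : Ge P n g := Or.inr (by rw [hn])
  have hEK : (E : K) = (e : K) * (E' : K) := by exact_mod_cast congrArg (fun z : ℤ => (z : K)) hE'
  have h2 : (E : K) * D g - (j' : K) * g = (E' : K) * (g * ((e : K) * (D g / g) - (P.ord g : K))) := by
    rw [hEK, hj', ← hn]
    push_cast
    field_simp
  have h3 : Ge P (n + 1) ((E : K) * D g - (j' : K) * g) := by
    rw [h2]
    have h4 := (Ge.intCast (P := P) E').mul (hgn.mul (hD g h0))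
    rwa [zero_add] at h4
  have h4 : U P e E (j' + 1) ((E : K) * D g - (j' : K) * g) := by
    refine U.of_ge h3 ?_
    have h5 : (e : ℤ) ≤ E := by
      rw [hE']
      nlinarith
    rw [mul_add, mul_add, hEn, mul_one, mul_one]
    linarith
  rcases eq_or_lt_of_le hjj with h5 | h5
  · rw [h5]
    exact h4
  · have h6 : (E : K) * D g - (j : K) * g =
        ((E : K) * D g - (j' : K) * g) + ((j' - j : ℤ) : K) * g := by
      push_cast
      ring
    rw [h6]
    refine (h4.mono (by omega)).add ?_
    refine U.of_ge (n := n) ?_ ?_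
    · have h7 := (Ge.intCast (P := P) (j' - j)).mul hgn
      rwa [zero_add] at h7
    · rw [hEn]
      exact mul_le_mul_of_nonneg_left (by omega) he.le

end tor

end Pool.Agent.Q288.TE.EigA

namespace Pool.Agent.Q288.TE

open FF MvPolynomial Pool.Agent.W603.LV Pool.Agent.W602.GT Pool.Agent.TH122.AB
open Pool.Agent.Y192.OG Pool.Agent.Q288.TE.EigA

theorem t_eig (h_ptor : St_ptor) (h_padic : St_padic) (h_exth : St_exth) : St_eig := by
  classical
  intro k F K _ _ _ _ _ _ _ _ _ _ b X hX a ha hun u hu m0 hm0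
  have : CharZero F := charZero_of_injective_algebraMap (algebraMap k F).injective
  have : CharZero K := charZero_of_injective_algebraMap (algebraMap k K).injective
  obtain ⟨⟨θ, hθ⟩, -, -⟩ := h_exth k F K b X hX
  obtain ⟨D, hDdef⟩ : ∃ D, D = Da θ a := ⟨_, rfl⟩
  obtain ⟨E, hEdef⟩ : ∃ E, E = (Module.finrank F K).factorial := ⟨_, rfl⟩
  have hE : 0 < E := by rw [hEdef]; exact Nat.factorial_pos _
  have hfac : ∀ (q : Place k F) (P : Place k K) (e : ℕ), Over P q e → ∀ g : K, g ≠ 0 →
      (e : ℤ) ∣ E * P.ord g := by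
    intro q P e hPq g hg
    rw [hEdef]
    exact t_fac k F K q P e hPq _ g hg (minpoly.natDegree_le g)
  -- the ring of functions which are regular at the adic places
  let B : K → Prop := fun g => ∀ p : MvPolynomial (Fin b) k, NM p → ∀ q : Place k F, IsAdic X p q →
      ∀ (P : Place k K) (e : ℕ), Over P q e → P.Reg g
  have hBD : ∀ g, B g → B (D g) := by
    intro g hg p hp q hq P e hPq
    obtain ⟨-, h2, h3, -⟩ := h_padic k F K b X hX θ hθ p hp q hq P e hPq a
    rw [hDdef]
    by_cases hd : p ∣ pw a p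
    · by_cases h0 : g = 0
      · rw [h0, map_zero]
        exact P.reg_zero
      · have h4 : Da θ a g = (Da θ a g / g) * g := by field_simp
        rw [h4]
        exact P.reg_mul (h2 hd g) (hg p hp q hq P e hPq)
    · exact h3 (hun p hp hd q hq P e hPq) g (hg p hp q hq P e hPq)
  have hBadd : ∀ g h, B g → B h → B (g + h) := fun g h hg hh p hp q hq P e hPq =>
    P.reg_add (hg p hp q hq P e hPq) (hh p hp q hq P e hPq)
  have hBmul : ∀ g h, B g → B h → B (g * h) := fun g h hg hh p hp q hq P e hPq =>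
    P.reg_mul (hg p hp q hq P e hPq) (hh p hp q hq P e hPq)
  have hBc : ∀ c : k, B (algebraMap k K c) := fun c p hp q hq P e hPq => P.reg_const c
  have hBpow : ∀ g (n : ℕ), B g → B (g ^ n) := by
    intro g n hg
    induction n with
    | zero =>
      rw [pow_zero, ← map_one (algebraMap k K)]
      exact hBc 1
    | succ n ih =>
      rw [pow_succ]
      exact hBmul _ _ ih hg
  have hXne : ∀ i, algebraMap F K (X i) ≠ 0 := fun i => by
    rw [Ne, map_eq_zero]
    exact Pool.Agent.Y500.OG.X_ne hX i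
  have hBmono : ∀ m : Fin b → ℤ, B (∏ i, algebraMap F K (X i) ^ m i) := by
    intro m p hp q hq P e hPq
    right
    rw [Pool.Agent.Y500.OG.ord_prod P _ _ (fun i _ => zpow_ne_zero _ (hXne i))]
    refine le_of_eq (Finset.sum_eq_zero fun i _ => ?_).symm
    have h1 : q.ord (X i) = 0 := by
      have h2 := (hq.2 (MvPolynomial.X i) (MvPolynomial.X_ne_zero i)).2
      rw [aeval_X] at h2
      rw [h2]
      intro h3
      have hXi : Irreducible (MvPolynomial.X i : MvPolynomial (Fin b) k) :=
        MvPolynomial.X_prime.irreducible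
      exact hp.2 i ((hp.1.associated_of_dvd hXi h3).symm.dvd)
    rw [P.ord_zpow, hPq.2, h1, mul_zero, mul_zero]
  obtain ⟨T, hT⟩ : ∃ T, T = Top D E := ⟨_, rfl⟩
  have hTapp : ∀ (j : ℤ) (g : K), Polynomial.aeval T (Polynomial.X - Polynomial.C (j : k)) g =
      (E : K) * D g - (j : K) * g := fun j g => by rw [hT, fac_app]
  have hBpoly : ∀ (f : Polynomial k) (g : K), B g → B (Polynomial.aeval T f g) := by
    intro f
    induction f using Polynomial.induction_on' with
    | add f f' hf hf' =>
      intro g hg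
      rw [map_add, LinearMap.add_apply]
      exact hBadd _ _ (hf g hg) (hf' g hg)
    | monomial n c =>
      induction n generalizing c with
      | zero =>
        intro g hg
        rw [Polynomial.monomial_zero_left, Polynomial.aeval_C, Module.algebraMap_end_apply,
          Algebra.smul_def]
        exact hBmul _ _ (hBc c) hg
      | succ n ih =>
        intro g hg
        have h1 : (Polynomial.monomial (n + 1) c : Polynomial k) =
            Polynomial.monomial n c * Polynomial.X := by
          rw [Polynomial.monomial_mul_X]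
        rw [h1, map_mul, Module.End.mul_apply, Polynomial.aeval_X]
        apply ih
        rw [hT, Top_app]
        refine hBmul _ _ ?_ (hBD g hg)
        have := hBc (E : k)
        rwa [map_natCast] at this
  -- the places of the weights `a` and `-a`
  have ha' : Prim (-a) := by
    obtain ⟨c, hc⟩ := ha
    refine ⟨-c, ?_⟩
    rw [← hc]
    exact Finset.sum_congr rfl fun i _ => by rw [Pi.neg_apply, Pi.neg_apply]; ring
  obtain ⟨q1, hq1⟩ := Pool.Agent.Y32.OG.t_tor k F b X hX a ha
  obtain ⟨q2, hq2⟩ := Pool.Agent.Y32.OG.t_tor k F b X hX (-a) ha'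
  have hfin1 := Pool.Agent.Y172.finite_over (K' := K) q1
  have hfin2 := Pool.Agent.Y172.finite_over (K' := K) q2
  obtain ⟨M, hM⟩ : ∃ M : ℕ, ∀ P : Place k K, P ∈ hfin1.toFinset ∪ hfin2.toFinset →
      -(M : ℤ) ≤ E * P.ord u := by
    refine ⟨∑ P ∈ hfin1.toFinset ∪ hfin2.toFinset, (-(E * P.ord u)).toNat, fun P hP => ?_⟩
    have h5 : (-((E : ℤ) * P.ord u)).toNat ≤
        ∑ P ∈ hfin1.toFinset ∪ hfin2.toFinset, (-((E : ℤ) * P.ord u)).toNat :=
      Finset.single_le_sum (f := fun P : Place k K => (-((E : ℤ) * P.ord u)).toNat)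
        (fun _ _ => Nat.zero_le _) hP
    omega
  have hMe : ∀ (P : Place k K) (e : ℕ), 0 < e → P ∈ hfin1.toFinset ∪ hfin2.toFinset →
      U P e E (-(M : ℤ)) u := by
    intro P e he hP
    right
    have h1 := hM P hP
    have h2 : (1 : ℤ) ≤ e := by exact_mod_cast he
    have h3 : (0 : ℤ) ≤ M := Nat.cast_nonneg _
    nlinarith
  obtain ⟨S0, hS0⟩ : ∃ S0 : Finset ℤ, S0 = Finset.Icc (-(M : ℤ)) M := ⟨_, rfl⟩
  obtain ⟨w, hw⟩ : ∃ w, w = Polynomial.aeval T (∏ i ∈ S0.erase 0, (Polynomial.X - Polynomial.C (i : k))) u :=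
    ⟨_, rfl⟩
  have hreg1 : ∀ (P : Place k K) (e : ℕ), Over P q1 e → P.Reg w := by
    intro P e hPq
    obtain ⟨hp1, hp2⟩ := h_ptor k F K b X hX θ hθ a ha q1 hq1 P e hPq
    have hmem : P ∈ hfin1.toFinset ∪ hfin2.toFinset :=
      Finset.mem_union_left _ (hfin1.mem_toFinset.2 ⟨e, hPq⟩)
    have h1 := prod_op T (U P e E) id Function.injective_id
      (fun j i g hg => by
        rw [hTapp, hDdef]
        exact stab (Da θ a) (hp1 a) E e j i g hg)
      (fun j g hg => by
        rw [id, hTapp, hDdef]
        exact step hPq hE (hfac q1 P e hPq) (Da θ a) hp2 j g hg)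
      M (S0.erase 0) (fun i hi1 hi2 => Finset.mem_erase.2 ⟨by simp only [id]; omega, by
        rw [hS0, Finset.mem_Icc]; simp only [id]; omega⟩) u (hMe P e hPq.1 hmem)
    rw [← hw] at h1
    rcases h1 with h2 | h2
    · exact Or.inl h2
    · right
      rw [mul_zero] at h2
      exact nonneg_of_mul_nonneg_right h2 (by exact_mod_cast hE)
  have hreg2 : ∀ (P : Place k K) (e : ℕ), Over P q2 e → P.Reg w := by
    intro P e hPq
    obtain ⟨hp1, hp2⟩ := h_ptor k F K b X hX θ hθ (-a) ha' q2 hq2 P e hPq
    have hmem : P ∈ hfin1.toFinset ∪ hfin2.toFinset :=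
      Finset.mem_union_right _ (hfin2.mem_toFinset.2 ⟨e, hPq⟩)
    have h1 := prod_op T (U P e E) (fun j => -j) neg_injective
      (fun j i g hg => by
        rw [hTapp, hDdef]
        exact stab (Da θ a) (hp1 a) E e j i g hg)
      (fun j g hg => by
        rw [hTapp, hDdef]
        have h2 := step hPq hE (hfac q2 P e hPq) (Da θ (-a)) hp2 j g hg
        have h3 : (E : K) * Da θ a g - ((-j : ℤ) : K) * g =
            -((E : K) * Da θ (-a) g - (j : K) * g) := by
          rw [Da_neg]
          push_cast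
          ring
        rw [h3]
        rcases h2 with h2 | h2
        · left
          rw [h2, neg_zero]
        · right
          rw [P.ord_neg]
          exact h2)
      M (S0.erase 0) (fun i hi1 hi2 => Finset.mem_erase.2 ⟨by omega, by
        rw [hS0, Finset.mem_Icc]; omega⟩) u (hMe P e hPq.1 hmem)
    rw [← hw] at h1
    rcases h1 with h2 | h2
    · exact Or.inl h2
    · right
      rw [mul_zero] at h2
      exact nonneg_of_mul_nonneg_right h2 (by exact_mod_cast hE)
  have hBw : B w := by
    rw [hw]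
    exact hBpoly _ _ hu
  -- elements of `B` have equations with coefficients in the Laurent polynomials
  have hlau : ∀ g, B g → ∀ i, ∃ (N : ℕ) (A : MvPolynomial (Fin b) k),
      (minpoly F g).coeff i * (∏ i, X i) ^ N = aeval X A := by
    intro g hg i
    obtain ⟨N, hN⟩ := Pool.Agent.Y500.OG.poly_of_reg' hX ((minpoly F g).coeff i)
      (fun p hp hpi q hq => Pool.Agent.Y500.OG.t_mp k F K q g
        (fun P e h => hg p ⟨hp, hpi⟩ q hq P e h) i)
    obtain ⟨A, hA⟩ := hN N le_rfl
    exact ⟨N, A, hA⟩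
  have hDw : D w = 0 := by
    refine kill_of_coeff (F := F) D w fun i => ?_
    obtain ⟨N, A, hA⟩ := hlau w hBw i
    rw [hDdef]
    refine (kill_iff hX θ hθ a _ N A hA).2 fun s hs => ?_
    have hy : (∏ i, X i) ^ N ≠ 0 := Pool.Agent.Y500.OG.prodX_ne hX N
    have hA0 : A ≠ 0 := by
      rintro rfl
      simp at hs
    have hc0 : (minpoly F w).coeff i ≠ 0 := by
      intro h0
      rw [h0, zero_mul] at hA
      exact hX.ne hA0 hA.symm
    have hk : ∀ (c : Fin b → ℤ) (q : Place k F), IsTor X c q →
        (∀ (P : Place k K) (e : ℕ), Over P q e → P.Reg w) → (N : ℤ) * ∑ i, c i ≤ tw c s := by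
      intro c q hq hreg
      have h1 := Pool.Agent.Y500.OG.t_mp k F K q w hreg i
      rw [q.reg_iff hc0] at h1
      have h2 := (hq A hA0).1 s hs
      rw [← hA, q.ord_mul hc0 hy, Pool.Agent.Y500.OG.ord_prodX hX] at h2
      have h3 : ∑ i, q.ord (X i) = ∑ i, c i :=
        Finset.sum_congr rfl fun i _ => Pool.Agent.Y500.OG.tor_X hq i
      rw [h3] at h2
      linarith
    have h1 := hk a q1 hq1 hreg1
    have h2 := hk (-a) q2 hq2 hreg2
    have h3 : tw (-a) s = - tw a s := by
      unfold tw
      rw [← Finset.sum_neg_distrib]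
      exact Finset.sum_congr rfl fun i _ => by rw [Pi.neg_apply]; ring
    have h4 : ∑ i, (-a) i = - ∑ i, a i := by
      rw [← Finset.sum_neg_distrib]
      exact Finset.sum_congr rfl fun i _ => by rw [Pi.neg_apply]
    rw [h3, h4] at h2
    linarith
  -- the partial fractions
  have hinj : Set.InjOn (fun j : ℤ => (j : k)) (S0 : Set ℤ) := fun i _ j _ h => by
    have h' : ((i : ℤ) : k) = ((j : ℤ) : k) := h
    exact_mod_cast h'
  have h0S : (0 : ℤ) ∈ S0 := by rw [hS0, Finset.mem_Icc]; omega
  have hkill : Polynomial.aeval T (∏ i ∈ S0, (Polynomial.X - Polynomial.C (i : k))) u = 0 := by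
    rw [← Finset.mul_prod_erase _ _ h0S, map_mul, Module.End.mul_apply, ← hw, hTapp, hDw]
    simp
  let v : ℤ → K := fun j => Polynomial.aeval T (Lagrange.basis S0 (fun j : ℤ => (j : k)) j) u
  have hsum : u = ∑ j ∈ S0, v j := by
    have h1 := Lagrange.sum_basis (s := S0) (v := fun j : ℤ => (j : k)) hinj ⟨0, h0S⟩
    have h2 := congrArg (fun f => Polynomial.aeval T f u) h1
    simp only [map_sum, map_one, LinearMap.sum_apply, Module.End.one_apply] at h2
    exact h2.symm
  have hBv : ∀ j, B (v j) := fun j => hBpoly _ _ hu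
  have hev : ∀ j ∈ S0, (E : K) * D (v j) = (j : K) * v j := by
    intro j hj
    have h1 : (Polynomial.X - Polynomial.C (j : k)) * Lagrange.basis S0 (fun j : ℤ => (j : k)) j =
        Polynomial.C (∏ i ∈ S0.erase j, ((j : k) - (i : k))⁻¹) *
          ∏ i ∈ S0, (Polynomial.X - Polynomial.C (i : k)) := by
      rw [← Finset.mul_prod_erase _ _ hj, Lagrange.basis]
      simp only [Lagrange.basisDivisor, Finset.prod_mul_distrib, map_prod]
      ring
    have h2 : Polynomial.aeval T (Polynomial.X - Polynomial.C (j : k)) (v j) = 0 := by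
      simp only [v]
      rw [← Module.End.mul_apply, ← map_mul, h1, map_mul, Module.End.mul_apply, hkill, map_zero]
    rw [hTapp] at h2
    linear_combination h2
  refine ⟨E, S0, v, hE, hsum, fun j hj => ?_⟩
  -- the integral elements
  obtain ⟨g, hg⟩ : ∃ g, g = v j ^ E * ∏ i, algebraMap F K (X i) ^ (-(j * m0 i)) := ⟨_, rfl⟩
  rw [← hg]
  have hBg : B g := by
    rw [hg]
    exact hBmul _ _ (hBpow _ _ (hBv j)) (hBmono _)
  have hDg : D g = 0 := by
    have h1 : Ev D (∑ i, a i * (-(j * m0 i))) (∏ i, algebraMap F K (X i) ^ (-(j * m0 i))) := by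
      rw [hDdef]
      exact ev_mono θ hθ a _
    have h2 : ∑ i, a i * (-(j * m0 i)) = -j := by
      rw [← mul_one (-j), ← hm0, Finset.mul_sum]
      exact Finset.sum_congr rfl fun i _ => by ring
    rw [h2] at h1
    have h3 : D (v j ^ E) = (j : K) * v j ^ E := by
      obtain ⟨E1, hE1⟩ : ∃ E1, E = E1 + 1 := ⟨E - 1, by omega⟩
      rw [Derivation.leibniz_pow, smul_eq_mul, nsmul_eq_mul]
      have h4 := hev j hj
      rw [hE1] at h4 ⊢
      rw [Nat.add_sub_cancel]
      calc ((E1 + 1 : ℕ) : K) * (v j ^ E1 * D (v j)) = v j ^ E1 * (((E1 + 1 : ℕ) : K) * D (v j)) := by ring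
        _ = _ := by rw [h4]; ring
    rw [hg, Derivation.leibniz, smul_eq_mul, smul_eq_mul, h3, h1]
    push_cast
    ring
  have hDsub : ∀ c : F, ∃ d : F, D (algebraMap F K c) = algebraMap F K d := by
    intro c
    rw [hDdef]
    exact Da_sub hX θ hθ a c
  obtain ⟨A0, hA0⟩ : ∃ A0, A0 = Algebra.adjoin k {z : K | ∃ m : Fin b → ℤ, ∑ i, a i * m i = 0 ∧
      z = ∏ i, algebraMap F K (X i) ^ m i} := ⟨_, rfl⟩
  rw [← hA0]
  have hmem : ∀ i, algebraMap F K ((minpoly F g).coeff i) ∈ A0 := by
    intro i
    obtain ⟨N, A, hA⟩ := hlau g hBg i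
    have h1 := coeff_of_kill (F := F) D hDsub g hDg i
    rw [hDdef] at h1
    rw [hA0]
    exact mem_A0 hX a _ N A hA ((kill_iff hX θ hθ a _ N A hA).1 h1)
  have hint : IsIntegral F g := Algebra.IsIntegral.isIntegral g
  have hl : (minpoly F g).map (algebraMap F K) ∈ Polynomial.lifts (algebraMap A0 K) := by
    rw [Polynomial.lifts_iff_coeff_lifts]
    intro i
    rw [Polynomial.coeff_map]
    exact ⟨⟨_, hmem i⟩, rfl⟩
  obtain ⟨Q, hQ, -, hQm⟩ :=
    Polynomial.lifts_and_natDegree_eq_and_monic hl ((minpoly.monic hint).map _)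
  refine ⟨Q, hQm, ?_⟩
  rw [← Polynomial.eval_map, hQ, Polynomial.eval_map]
  exact minpoly.aeval F g

end Pool.Agent.Q288.TE
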