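import Pool.Agent.Q288.TE.StM

/-!
The ring of entire functions is an integrally closed domain (helper210).
-/

set_option autoImplicit false

namespace Pool.Agent.Q288.TE

open Filter Topology Set

theorem ent_an (f : Ent) (z : ℂ) : AnalyticAt ℂ (f : ℂ → ℂ) z :=
  Differentiable.analyticAt f.2 z

theorem ent_mero (f : Ent) (z : ℂ) : MeromorphicAt (f : ℂ → ℂ) z := (ent_an f z).meromorphicAt

/-- the order of vanishing -/
noncomputable def eo (z : ℂ) (f : Ent) : WithTop ℤ := meromorphicOrderAt (f : ℂ → ℂ) z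

theorem eo_mul (z : ℂ) (f g : Ent) : eo z (f * g) = eo z f + eo z g :=
  meromorphicOrderAt_mul (ent_mero f z) (ent_mero g z)

theorem eo_nonneg (z : ℂ) (f : Ent) : 0 ≤ eo z f := (ent_an f z).meromorphicOrderAt_nonneg

theorem eo_top {z : ℂ} {f : Ent} (h : eo z f = ⊤) : f = 0 := by
  unfold eo at h
  rw [meromorphicOrderAt_eq_top_iff] at h
  have h1 : (f : ℂ → ℂ) =ᶠ[𝓝 z] (0 : ℂ → ℂ) :=
    ((ent_an f z).frequently_eq_iff_eventually_eq analyticAt_const).mp
      (h.frequently : ∃ᶠ w in 𝓝[≠] z, (f : ℂ → ℂ) w = (fun _ => (0 : ℂ)) w)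
  have h2 : AnalyticOnNhd ℂ (f : ℂ → ℂ) univ := fun w _ => ent_an f w
  have h3 := h2.eqOn_zero_of_preconnected_of_eventuallyEq_zero isPreconnected_univ (mem_univ z) h1
  apply Subtype.ext
  funext w
  exact h3 (mem_univ w)

theorem eo_zero (z : ℂ) : eo z 0 = ⊤ := by
  unfold eo
  rw [meromorphicOrderAt_eq_top_iff]
  exact Filter.Eventually.of_forall fun _ => rfl

theorem ent_domain : IsDomain Ent := by
  have h1 : Nontrivial Ent := ⟨⟨0, 1, fun h => by
    have h2 := congrArg (fun f : Ent => (f : ℂ → ℂ) 0) h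
    exact zero_ne_one h2⟩⟩
  have h2 : NoZeroDivisors Ent := ⟨by
    intro f g hfg
    have h3 := eo_mul 0 f g
    rw [hfg, eo_zero] at h3
    rcases WithTop.add_eq_top.1 h3.symm with h | h
    · exact Or.inl (eo_top h)
    · exact Or.inr (eo_top h)⟩
  exact NoZeroDivisors.to_isDomain Ent

theorem eo_one (z : ℂ) : eo z 1 = 0 := by
  unfold eo
  rw [(ent_an 1 z).meromorphicOrderAt_eq, (ent_an 1 z).analyticOrderAt_eq_zero.2]
  · rfl
  · exact one_ne_zero

theorem eo_pow {z : ℂ} (f : Ent) (a : ℤ) (hf : eo z f = (a : WithTop ℤ))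
    (n : ℕ) : eo z (f ^ n) = ((n * a : ℤ) : WithTop ℤ) := by
  induction n with
  | zero => rw [pow_zero, eo_one]; simp
  | succ n ih =>
    rw [pow_succ, eo_mul, ih, hf, ← WithTop.coe_add]
    congr 1
    push_cast
    ring

theorem eo_add (z : ℂ) (f g : Ent) : min (eo z f) (eo z g) ≤ eo z (f + g) :=
  meromorphicOrderAt_add (ent_mero f z) (ent_mero g z)

theorem eo_sum {z : ℂ} {ι : Type} (s : Finset ι) (F : ι → Ent) (k : ℤ)
    (h : ∀ i ∈ s, (k : WithTop ℤ) ≤ eo z (F i)) : (k : WithTop ℤ) ≤ eo z (∑ i ∈ s, F i) := by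
  classical
  induction s using Finset.induction_on with
  | empty => rw [Finset.sum_empty, eo_zero]; exact le_top
  | insert a s ha ih =>
    rw [Finset.sum_insert ha]
    exact le_trans (le_min (h a (Finset.mem_insert_self a s))
      (ih fun i hi => h i (Finset.mem_insert_of_mem hi))) (eo_add z _ _)

theorem eo_neg (z : ℂ) (f : Ent) : eo z (-f) = eo z f :=
  (meromorphicOrderAt_neg (f := (f : ℂ → ℂ)) (x := z)).symm

/-- the order of the numerator of an integral element is at least the order of the denominator -/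
theorem eo_le {z : ℂ} (h g : Ent) (hg : g ≠ 0) (n : ℕ) (a : ℕ → Ent)
    (heq : h ^ n + ∑ i ∈ Finset.range n, a i * g ^ (n - i) * h ^ i = 0) :
    eo z g ≤ eo z h := by
  have hgt : eo z g ≠ ⊤ := fun h => hg (eo_top h)
  by_contra hlt
  rw [not_le] at hlt
  have hht : eo z h ≠ ⊤ := ne_top_of_lt hlt
  obtain ⟨β, hβ⟩ := WithTop.ne_top_iff_exists.mp hgt
  obtain ⟨α, hα⟩ := WithTop.ne_top_iff_exists.mp hht
  rw [← hα, ← hβ, WithTop.coe_lt_coe] at hlt
  have h1 : ∀ i ∈ Finset.range n,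
      ((n * α + 1 : ℤ) : WithTop ℤ) ≤ eo z (a i * g ^ (n - i) * h ^ i) := by
    intro i hi
    have hi' : i < n := Finset.mem_range.mp hi
    rw [eo_mul, eo_mul, eo_pow g β hβ.symm, eo_pow h α hα.symm, add_assoc,
      ← WithTop.coe_add]
    have h2 : ((n * α + 1 : ℤ) : WithTop ℤ) ≤
        0 + ((((n - i : ℕ) : ℤ) * β + (i : ℤ) * α : ℤ) : WithTop ℤ) := by
      rw [zero_add, WithTop.coe_le_coe]
      have h3 : ((n - i : ℕ) : ℤ) = n - i := by
        push_cast [Nat.cast_sub hi'.le]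
        ring
      rw [h3]
      have h4 : (1 : ℤ) ≤ (n : ℤ) - i := by
        have : (i : ℤ) + 1 ≤ n := by exact_mod_cast hi'
        linarith
      nlinarith
    exact h2.trans (add_le_add_left (eo_nonneg z (a i)) _)
  have h5 := eo_sum (Finset.range n) _ _ h1
  have h6 : h ^ n = - ∑ i ∈ Finset.range n, a i * g ^ (n - i) * h ^ i :=
    eq_neg_of_add_eq_zero_left heq
  rw [← eo_neg, ← h6, eo_pow h α hα.symm, WithTop.coe_le_coe] at h5
  linarith

/-- quotients of entire functions without poles -/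
theorem ent_quot (h g : Ent) (hg : g ≠ 0) (hle : ∀ z, eo z g ≤ eo z h) :
    ∃ q : Ent, q * g = h := by
  set φ : ℂ → ℂ := (h : ℂ → ℂ) / (g : ℂ → ℂ) with hφ
  have hφm : MeromorphicOn φ univ := fun z _ => (ent_mero h z).div (ent_mero g z)
  set ψ := toMeromorphicNFOn φ univ with hψ
  have hNF : MeromorphicNFOn ψ univ := meromorphicNFOn_toMeromorphicNFOn φ univ
  have hψm : MeromorphicOn ψ univ := hNF.meromorphicOn
  have hev : ∀ z, ψ =ᶠ[𝓝[≠] z] φ := fun z =>
    hφm.toMeromorphicNFOn_eq_self_on_nhdsNE (mem_univ z)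
  have hgt : ∀ z, eo z g ≠ ⊤ := fun z h => hg (eo_top h)
  have hgz : ∀ z, ∀ᶠ w in 𝓝[≠] z, (g : ℂ → ℂ) w ≠ 0 := fun z =>
    (meromorphicOrderAt_ne_top_iff_eventually_ne_zero (ent_mero g z)).1 (hgt z)
  have hprod : ∀ z, ψ * (g : ℂ → ℂ) =ᶠ[𝓝[≠] z] (h : ℂ → ℂ) := by
    intro z
    filter_upwards [hev z, hgz z] with w h1 h2
    rw [Pi.mul_apply, h1, hφ, Pi.div_apply]
    field_simp
  have hψa : ∀ z, AnalyticAt ℂ ψ z := by
    intro z
    refine (hNF (mem_univ z)).meromorphicOrderAt_nonneg_iff_analyticAt.mp ?_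
    have h1 := meromorphicOrderAt_congr (hprod z)
    rw [meromorphicOrderAt_mul (hψm z (mem_univ z)) (ent_mero g z)] at h1
    have h2 := hle z
    unfold eo at h2
    rw [← h1] at h2
    have hgt' := hgt z
    unfold eo at hgt'
    obtain ⟨β, hβ⟩ := WithTop.ne_top_iff_exists.mp hgt'
    rw [← hβ] at h2
    by_cases ht : meromorphicOrderAt ψ z = ⊤
    · rw [ht]; exact le_top
    · obtain ⟨α, hα⟩ := WithTop.ne_top_iff_exists.mp ht
      rw [← hα, ← WithTop.coe_add, WithTop.coe_le_coe] at h2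
      rw [← hα]
      exact_mod_cast (by linarith : (0 : ℤ) ≤ α)
  refine ⟨⟨ψ, fun z => (hψa z).differentiableAt⟩, ?_⟩
  apply Subtype.ext
  funext z
  have h1 : AnalyticAt ℂ (ψ * (g : ℂ → ℂ)) z := (hψa z).mul (ent_an g z)
  have h2 : ψ * (g : ℂ → ℂ) =ᶠ[𝓝 z] (h : ℂ → ℂ) :=
    (h1.frequently_eq_iff_eventually_eq (ent_an h z)).mp (hprod z).frequently
  exact h2.self_of_nhds

theorem t_ent : St_ent := by
  have hdom := ent_domain
  refine ⟨hdom, (isIntegrallyClosed_iff (FractionRing Ent)).2 fun {y} hy => ?_⟩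
  obtain ⟨P, hP, hy⟩ := hy
  obtain ⟨h, g, hgy⟩ := IsLocalization.exists_mk'_eq (nonZeroDivisors Ent) y
  have hg : (g : Ent) ≠ 0 := nonZeroDivisors.ne_zero g.2
  have h1 : Polynomial.aeval (IsLocalization.mk' (FractionRing Ent) h g) P = 0 := by
    rw [hgy]; exact hy
  have h2 := scaleRoots_aeval_eq_zero_of_aeval_mk'_eq_zero h1
  rw [Polynomial.aeval_algebraMap_apply, ← map_zero (algebraMap Ent (FractionRing Ent))] at h2
  have h3 := IsFractionRing.injective Ent (FractionRing Ent) h2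
  rw [Polynomial.coe_aeval_eq_eval, Polynomial.eval_eq_sum_range, Polynomial.natDegree_scaleRoots,
    Finset.sum_range_succ] at h3
  simp only [Polynomial.coeff_scaleRoots] at h3
  rw [Polynomial.Monic.coeff_natDegree hP, Nat.sub_self, pow_zero, one_mul, one_mul] at h3
  obtain ⟨q, hq⟩ := ent_quot h g hg fun z => eo_le h g hg P.natDegree (fun i => P.coeff i)
    (by rw [add_comm]; exact h3)
  refine ⟨q, ?_⟩
  rw [← hgy, ← hq, IsLocalization.mk'_mul_cancel_right]

end Pool.Agent.Q288.TE
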