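import Pool.Agent.Q288.TE.StP
import Pool.Agent.W619.TW.Der

/-!
Existence, commutation and functoriality of the invariant derivations.
-/

set_option autoImplicit false

namespace Pool.Agent.Q288.TE

open FF MvPolynomial Pool.Agent.W603.LV Pool.Agent.W602.GT Pool.Agent.TH122.AB
open Pool.Agent.Y192.OG

section

variable {k F K : Type} [Field k] [Field F] [Field K] [Algebra k F] [Algebra k K]
  [Algebra F K] [IsScalarTower k F K] [FiniteDimensional F K] {b : ℕ} {X : Fin b → F}

/-- independent generators are a transcendence basis of finite extensions -/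
theorem gens_basis (hX : Gens (k := k) X) :
    IsTranscendenceBasis k (fun i => algebraMap F K (X i)) := by
  have h0 : IsTranscendenceBasis k X := by
    rw [isTranscendenceBasis_iff_algebraicIndependent_isAlgebraic]
    refine ⟨hX.ind, ⟨fun z => ?_⟩⟩
    obtain ⟨P, Q, hQ, hz⟩ := hX.gen z
    have hmem : ∀ P : MvPolynomial (Fin b) k, aeval X P ∈ Algebra.adjoin k (Set.range X) := by
      intro P
      rw [Algebra.adjoin_range_eq_range_aeval]
      exact ⟨P, rfl⟩
    have h1 : IsAlgebraic (Algebra.adjoin k (Set.range X)) (aeval X P) :=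
      isAlgebraic_algebraMap (⟨_, hmem P⟩ : Algebra.adjoin k (Set.range X))
    have h2 : IsAlgebraic (Algebra.adjoin k (Set.range X)) (aeval X Q) :=
      isAlgebraic_algebraMap (⟨_, hmem Q⟩ : Algebra.adjoin k (Set.range X))
    rw [hz, div_eq_mul_inv]
    exact h1.mul h2.inv
  exact h0.algebraMap_comp (A := K)

end

/-- existence of the invariant derivations, which commute -/
theorem t_exth : St_exth := by
  intro k F K _ _ _ _ _ _ _ _ _ b X hX
  have hb : IsTranscendenceBasis k (fun i => algebraMap F K (X i)) := gens_basis hX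
  refine ⟨?_, ?_, ?_⟩
  · have h1 : ∀ i : Fin b, ∃ D : Derivation k K K, ∀ j, D (algebraMap F K (X j)) =
        if i = j then algebraMap F K (X j) else 0 := fun i => exists_der _ hb _
    choose θ hθ using h1
    exact ⟨θ, hθ⟩
  · intro θ hθ i j g
    have h1 : ⁅θ i, θ j⁆ = (0 : Derivation k K K) := by
      refine der_ext _ hb fun l => ?_
      rw [Derivation.commutator_apply, hθ, hθ, Derivation.zero_apply]
      by_cases h1 : i = l
      · by_cases h2 : j = l
        · rw [if_pos h1, if_pos h2, hθ, hθ, if_pos h1, if_pos h2, sub_self]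
        · rw [if_pos h1, if_neg h2, hθ, if_neg h2, map_zero, sub_self]
      · by_cases h2 : j = l
        · rw [if_neg h1, if_pos h2, hθ, if_neg h1, map_zero, sub_self]
        · rw [if_neg h1, if_neg h2, map_zero, map_zero, sub_self]
    have h2 := congrArg (fun D : Derivation k K K => D g) h1
    simp only [Derivation.commutator_apply, Derivation.zero_apply] at h2
    exact sub_eq_zero.1 h2
  · intro K1 _ _ ι N θ hθ y θ' hθ' hy hιy i g
    let _ : Algebra K K1 := ι.toRingHom.toAlgebra
    have hst : IsScalarTower k K K1 := IsScalarTower.of_algebraMap_eq fun c => (ι.commutes c).symm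
    have h1 := Pool.Agent.W619.TW.der_comp ((N : K) • θ i) (θ' i) _ hb (fun j => ?_) g
    · rw [Derivation.smul_apply, smul_eq_mul, map_mul, map_natCast] at h1
      exact h1
    · rw [Derivation.smul_apply, smul_eq_mul, map_mul, map_natCast, hθ]
      change θ' i (ι (algebraMap F K (X j))) = (N : K1) * ι _
      rw [hιy, Derivation.leibniz_pow, hθ']
      by_cases h2 : i = j
      · rw [if_pos h2, if_pos h2, hιy, smul_eq_mul, nsmul_eq_mul]
        rcases Nat.eq_zero_or_pos N with h3 | h3
        · rw [h3, Nat.cast_zero, zero_mul, zero_mul]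
        · rw [← pow_succ, Nat.sub_add_cancel h3]
      · rw [if_neg h2, if_neg h2, smul_zero, smul_zero, map_zero, mul_zero]

end Pool.Agent.Q288.TE
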