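import Pool.Agent.Q288.TE.StM

/-!
The step `St_fan`: a finite fan of primitive vectors (Gordan's lemma).
-/

set_option autoImplicit false

open Finset

namespace Pool.Agent.Q288.TE

/-- the pairing -/
def pr {b : ℕ} (w t : Fin b → ℤ) : ℤ := ∑ i, w i * t i

lemma pr_add {b : ℕ} (w w' t : Fin b → ℤ) : pr (w + w') t = pr w t + pr w' t := by
  simp [pr, add_mul, sum_add_distrib]

lemma pr_sub {b : ℕ} (w t t' : Fin b → ℤ) : pr w (t - t') = pr w t - pr w t' := by
  simp [pr, mul_sub, sum_sub_distrib]

lemma pr_zero {b : ℕ} (t : Fin b → ℤ) : pr 0 t = 0 := by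
  simp [pr]

/-- the cone of `t` -/
def Mt {b : ℕ} (T : Finset (Fin b → ℤ)) (t : Fin b → ℤ) : AddSubmonoid (Fin b → ℤ) where
  carrier := {w | ∀ t' ∈ T, 0 ≤ pr w (t' - t)}
  add_mem' := by
    intro x y hx hy t' ht'
    rw [pr_add]
    exact add_nonneg (hx t' ht') (hy t' ht')
  zero_mem' := by
    intro t' _
    rw [pr_zero]

lemma Mt_fg {b : ℕ} (T : Finset (Fin b → ℤ)) (t : Fin b → ℤ) : (Mt T t).FG := by
  let f : ((Fin b ⊕ Fin b ⊕ T) → ℕ) →+ (T → ℤ) :=
    { toFun := fun z t' => pr (fun i => (z (Sum.inl i) : ℤ) - z (Sum.inr (Sum.inl i))) (t'.1 - t)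
      map_zero' := by
        funext t'
        simp [pr]
      map_add' := by
        intro x y
        funext t'
        rw [Pi.add_apply, ← pr_add]
        congr 1
        funext i
        simp
        ring }
  let g : ((Fin b ⊕ Fin b ⊕ T) → ℕ) →+ (T → ℤ) :=
    { toFun := fun z t' => (z (Sum.inr (Sum.inr t')) : ℤ)
      map_zero' := by
        funext t'
        simp
      map_add' := by
        intro x y
        funext t'
        simp }
  let φ : ((Fin b ⊕ Fin b ⊕ T) → ℕ) →+ (Fin b → ℤ) :=
    { toFun := fun z i => (z (Sum.inl i) : ℤ) - z (Sum.inr (Sum.inl i))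
      map_zero' := by
        funext t'
        simp
      map_add' := by
        intro x y
        funext i
        simp
        ring }
  have h1 := (AddSubmonoid.fg_eqLocusM f g).map φ
  have h2 : (f.eqLocusM g).map φ = Mt T t := by
    ext w
    constructor
    · rintro ⟨z, hz, rfl⟩ t' ht'
      have hz' : f z = g z := hz
      have h3 := congrFun hz' ⟨t', ht'⟩
      change pr (φ z) (t' - t) = (z (Sum.inr (Sum.inr ⟨t', ht'⟩)) : ℤ) at h3
      rw [h3]
      exact Int.natCast_nonneg _
    · intro hw
      refine ⟨fun x => match x with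
        | Sum.inl i => (w i).toNat
        | Sum.inr (Sum.inl i) => (-(w i)).toNat
        | Sum.inr (Sum.inr t') => (pr w (t'.1 - t)).toNat, ?_, ?_⟩
      · change f _ = g _
        funext t'
        change pr (fun i => (((w i).toNat : ℕ) : ℤ) - (((-(w i)).toNat : ℕ) : ℤ)) (t'.1 - t) =
          (((pr w (t'.1 - t)).toNat : ℕ) : ℤ)
        rw [Int.toNat_of_nonneg (hw t'.1 t'.2)]
        congr 1
        funext i
        omega
      · funext i
        change (((w i).toNat : ℕ) : ℤ) - (((-(w i)).toNat : ℕ) : ℤ) = w i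
        omega
  rw [← h2]
  exact h1

/-- primitive part -/
lemma prim_part {b : ℕ} (g : Fin b → ℤ) (hg : g ≠ 0) :
    ∃ (d : ℕ) (p : Fin b → ℤ), 0 < d ∧ g = d • p ∧ ∃ c : Fin b → ℤ, ∑ i, p i * c i = 1 := by
  obtain ⟨d, hd⟩ := (IsPrincipalIdealRing.principal (Ideal.span (Set.range g))).principal
  have hdmem : d ∈ Ideal.span (Set.range g) := by
    rw [hd]
    exact Submodule.mem_span_singleton_self d
  have hdvd : ∀ i, d ∣ g i := by
    intro i
    have : g i ∈ Ideal.span (Set.range g) := Ideal.subset_span ⟨i, rfl⟩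
    rw [hd] at this
    exact Ideal.mem_span_singleton.1 this
  have hd0 : d ≠ 0 := by
    intro h
    refine hg (funext fun i => ?_)
    obtain ⟨q, hq⟩ := hdvd i
    rw [hq, h]
    simp
  obtain ⟨c, hc⟩ := (Ideal.mem_span_range_iff_exists_fun).1 hdmem
  choose q hq using hdvd
  -- sign
  refine ⟨d.natAbs, fun i => d.sign * q i, Int.natAbs_pos.2 hd0, ?_, fun i => d.sign * c i, ?_⟩
  · funext i
    rw [Pi.smul_apply, nsmul_eq_mul, ← mul_assoc, hq i, Int.natCast_natAbs]
    congr 1
    rw [mul_comm]
    exact (Int.sign_mul_abs d).symm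
  · have h1 : d * ∑ i, q i * c i = d * 1 := by
      rw [mul_one, mul_sum]
      conv_rhs => rw [← hc]
      refine sum_congr rfl fun i _ => ?_
      rw [hq i]
      ring
    have h2 := mul_left_cancel₀ hd0 h1
    have h3 : d.sign * d.sign = 1 := by
      rcases lt_or_gt_of_ne hd0 with h | h
      · rw [Int.sign_eq_neg_one_of_neg h]; norm_num
      · rw [Int.sign_eq_one_of_pos h]; norm_num
    calc ∑ i, d.sign * q i * (d.sign * c i) = (d.sign * d.sign) * ∑ i, q i * c i := by
          rw [mul_sum]
          exact sum_congr rfl fun i _ => by ring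
      _ = 1 := by rw [h3, h2, one_mul]

theorem t_fan : St_fan := by
  classical
  intro b T hT
  have hfg : ∀ t : Fin b → ℤ, ∃ S : Finset (Fin b → ℤ),
      AddSubmonoid.closure (S : Set (Fin b → ℤ)) = Mt T t := fun t => Mt_fg T t
  choose S hS using hfg
  choose! d p hd hp hc using @prim_part b
  let G : Finset (Fin b → ℤ) := (T.biUnion S).filter (fun g => g ≠ 0)
  have hG : ∀ g ∈ G, g ≠ 0 := fun g hg => (mem_filter.1 hg).2
  refine ⟨G.image p, ?_, ?_⟩
  · intro a ha
    obtain ⟨g, hg, rfl⟩ := mem_image.1 ha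
    exact hc g (hG g hg)
  · intro w
    obtain ⟨t, ht, hmin⟩ := T.exists_min_image (fun t => pr w t) hT
    have hw : w ∈ Mt T t := by
      intro t' ht'
      rw [pr_sub]
      linarith [hmin t' ht']
    rw [← hS t, AddSubmonoid.mem_closure_finset] at hw
    obtain ⟨n, -, hn⟩ := hw
    let St := (S t).filter (fun g => g ≠ 0)
    have hStG : ∀ g ∈ St, g ∈ G := by
      intro g hg
      rw [mem_filter] at hg
      exact mem_filter.2 ⟨mem_biUnion.2 ⟨t, ht, hg.1⟩, hg.2⟩
    refine ⟨t, ht, fun a => ∑ g ∈ St.filter (fun g => p g = a), n g * d g, ?_, ?_⟩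
    · have h1 : w = ∑ g ∈ St, n g • g := by
        rw [← hn, sum_filter]
        refine sum_congr rfl fun g _ => ?_
        split_ifs with h
        · rfl
        · push Not at h
          rw [h, smul_zero]
      rw [h1, ← sum_fiberwise_of_maps_to (g := p) (t := G.image p)
        (fun g hg => mem_image_of_mem _ (hStG g hg))]
      refine sum_congr rfl fun a _ => ?_
      rw [sum_smul]
      refine sum_congr rfl fun g hg => ?_
      rw [mem_filter] at hg
      rw [← hg.2, mul_smul, ← hp g (hG g (hStG g hg.1))]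
    · intro a _ hca t' ht'
      obtain ⟨g, hg, hgn⟩ := exists_ne_zero_of_sum_ne_zero hca
      rw [mem_filter] at hg
      have hgS : g ∈ Mt T t := by
        rw [← hS t]
        exact AddSubmonoid.subset_closure (mem_coe.2 (mem_filter.1 hg.1).1)
      have h2 := hgS t' ht'
      have hg0 := hG g (hStG g hg.1)
      have h3 : pr g (t' - t) = (d g : ℤ) * pr a (t' - t) := by
        conv_lhs => rw [hp g hg0, hg.2]
        simp only [pr, Pi.smul_apply, nsmul_eq_mul]
        rw [mul_sum]
        exact sum_congr rfl fun i _ => by ring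
      rw [h3] at h2
      have hdg : (0 : ℤ) < d g := by exact_mod_cast hd g hg0
      have h4 : 0 ≤ pr a (t' - t) := nonneg_of_mul_nonneg_right h2 hdg
      rw [pr_sub] at h4
      change pr a t ≤ pr a t'
      linarith

end Pool.Agent.Q288.TE
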