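import Pool.Agent.Q288.TE.StP
import Pool.Agent.Y500.OG.Coef

/-!
The step `St_int`: integral elements with a simple zero at a given place.
-/

set_option autoImplicit false
set_option linter.overlappingInstances false

namespace Pool.Agent.Q288.TE

open FF MvPolynomial Pool.Agent.W603.LV Pool.Agent.W602.GT Pool.Agent.TH122.AB
open Pool.Agent.Y192.OG Pool.Agent.W619.PQ

/-- the place of an associated polynomial -/
theorem IntA.adic_assoc {k F : Type} [Field k] [CharZero k] [Field F] [Algebra k F] {b : ℕ} {X : Fin b → F}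
    (hX : Gens (k := k) X) {p p' : MvPolynomial (Fin b) k} (hp : Irreducible p)
    (hp' : Irreducible p') (hd : p' ∣ p) {q q' : Place k F} (hq : IsAdic X p q)
    (hq' : IsAdic X p' q') : q' = q := by
  have hassoc : Associated p' p := hp'.associated_of_dvd hp hd
  have h2 : ∀ A : MvPolynomial (Fin b) k, A ≠ 0 →
      0 ≤ q'.ord (aeval X A) ∧ (q'.ord (aeval X A) = 0 ↔ ¬ p ∣ A) := by
    intro A hA
    obtain ⟨h3, h4⟩ := hq'.2 A hA
    exact ⟨h3, h4.trans (not_congr hassoc.dvd_iff_dvd_left)⟩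
  refine Pool.Agent.Y172.adic_unique hX hp ?_ h2 hq.1 hq.2
  obtain ⟨u, hu⟩ := hassoc
  have hu0 : q'.ord (aeval X (u : MvPolynomial (Fin b) k)) = 0 := by
    rw [(hq'.2 _ u.ne_zero).2]
    intro h
    exact hp'.not_isUnit (isUnit_of_dvd_unit h u.isUnit)
  rw [← hu, map_mul, q'.ord_mul (hX.ne hp'.ne_zero) (hX.ne u.ne_zero), hu0, hq'.1, add_zero]

theorem t_int : St_int := by
  classical
  intro k F K _ _ _ _ _ _ _ _ _ b X hX p hp q hq P e hPq
  have : CharZero F := charZero_of_injective_algebraMap (algebraMap k F).injective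
  have hfin := Pool.Agent.Y172.finite_over (K' := K) q
  let S : Finset (Place k K) := hfin.toFinset.erase P
  obtain ⟨t, ht0, ht⟩ := P.surj
  obtain ⟨s, hs1, hs2⟩ := approx_one S P (Finset.notMem_erase P _) 1
    (1 + ∑ Q ∈ S, (-Q.ord t).toNat : ℕ)
  have hs1' : Ge P 1 (s - 1) := hs1.mono (by rw [Nat.cast_add]; omega)
  -- `s` is a unit at `P`
  have hs : s ≠ 0 ∧ P.ord s = 0 := by
    rcases hs1' with h | h
    · have : s = 1 := by linear_combination h
      rw [this]
      exact ⟨one_ne_zero, P.ord_one⟩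
    · by_cases h0 : s - 1 = 0
      · have : s = 1 := by linear_combination h0
        rw [this]
        exact ⟨one_ne_zero, P.ord_one⟩
      · have := P.ord_add_eq (f := 1) (g := s - 1) one_ne_zero h0 (by rw [P.ord_one]; omega)
        rwa [P.ord_one, add_sub_cancel] at this
  have hst : P.ord (s * t) = 1 := by rw [P.ord_mul hs.1 ht0, hs.2, ht]; norm_num
  have hst0 : s * t ≠ 0 := mul_ne_zero hs.1 ht0
  have h2 : ∀ (w : Place k K) (e : ℕ), Over w q e → Ge w 0 (s * t) := by
    intro w e' hw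
    by_cases hwP : w = P
    · rw [hwP]
      right
      rw [hst]
      norm_num
    · have hwS : w ∈ S := Finset.mem_erase.2 ⟨hwP, hfin.mem_toFinset.2 ⟨e', hw⟩⟩
      have h3 : Ge w (w.ord t) t := Or.inr le_rfl
      have h4 := (hs2 w hwS).mul h3
      have h5 : (-w.ord t).toNat ≤ ∑ Q ∈ S, (-Q.ord t).toNat :=
        Finset.single_le_sum (f := fun Q : Place k K => (-Q.ord t).toNat)
          (fun _ _ => Nat.zero_le _) hwS
      exact h4.mono (by rw [Nat.cast_add]; omega)
  obtain ⟨s0, hs0, hcop, D, a, hrel⟩ := Pool.Agent.Y500.OG.t_den Pool.Agent.Y500.OG.t_mp k F K b X hX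
    p hp.1.ne_zero (s * t) (fun p' hp' hpp' q' hq' P' e' hPe' => by
      rw [IntA.adic_assoc hX hp.1 hp' hpp' hq hq'] at hPe'
      exact h2 P' e' hPe')
  have hnd : ¬ p ∣ s0 := fun h => hp.1.not_isUnit (hcop h dvd_rfl)
  have hs0X : aeval X s0 ≠ 0 := hX.ne hs0
  have hs0K : algebraMap F K (aeval X s0) ≠ 0 := by
    rw [Ne, map_eq_zero]
    exact hs0X
  refine ⟨algebraMap F K (aeval X s0) * (s * t), ?_, ?_⟩
  · rw [P.ord_mul hs0K hst0, hPq.2, (hq.2 s0 hs0).2.2 hnd, hst]
    norm_num
  · set A := Algebra.adjoin k (Set.range fun i => algebraMap F K (X i)) with hA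
    have hmem : ∀ f : MvPolynomial (Fin b) k, algebraMap F K (aeval X f) ∈ A := by
      intro f
      have h1 : algebraMap F K (aeval X f) = aeval (fun i => algebraMap F K (X i)) f :=
        (MvPolynomial.aeval_algebraMap_apply K X f).symm
      rw [h1, hA, Algebra.adjoin_range_eq_range_aeval]
      exact ⟨f, rfl⟩
    have hcar := hrel
    -- a monic polynomial
    let Q : Polynomial A := Polynomial.X ^ D + ∑ l ∈ Finset.Icc 1 D,
      Polynomial.C (⟨algebraMap F K (aeval X (a l)), hmem _⟩ : A) * Polynomial.X ^ (D - l)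
    refine ⟨Q, ?_, ?_⟩
    · apply Polynomial.monic_X_pow_add
      rw [← Polynomial.mem_degreeLT]
      refine Submodule.sum_mem _ fun l hl => ?_
      rw [Finset.mem_Icc] at hl
      rw [Polynomial.mem_degreeLT]
      refine lt_of_le_of_lt (Polynomial.degree_C_mul_X_pow_le _ _) ?_
      exact_mod_cast (by omega : D - l < D)
    · simp only [Q, Polynomial.eval₂_add, Polynomial.eval₂_X_pow, Polynomial.eval₂_finsetSum,
        Polynomial.eval₂_mul, Polynomial.eval₂_C]
      exact hrel

end Pool.Agent.Q288.TE
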