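import Pool.Agent.Q288.TE.StP
import Pool.Agent.Q288.TE.Exth
import Pool.Agent.TH122.AB.Fd

/-!
The poles of an element have bounded orders.
-/

set_option autoImplicit false

namespace Pool.Agent.Q288.TE

open FF MvPolynomial Pool.Agent.W603.LV Pool.Agent.W602.GT Pool.Agent.TH122.AB
open Pool.Agent.Y192.OG

section

variable {k F K : Type} [Field k] [Field F] [Field K] [Algebra k F] [Algebra k K]
  [Algebra F K] [IsScalarTower k F K] {b : ℕ} {X : Fin b → F}

theorem aeval_alg (X : Fin b → F) (A : MvPolynomial (Fin b) k) :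
    aeval (fun i => algebraMap F K (X i)) A = algebraMap F K (aeval X A) :=
  MvPolynomial.aeval_algebraMap_apply K X A

theorem totalDegree_pos {p : MvPolynomial (Fin b) k} (hp : Irreducible p) :
    1 ≤ p.totalDegree := by
  by_contra h
  have h1 : p.totalDegree = 0 := by omega
  rw [totalDegree_eq_zero_iff_eq_C] at h1
  apply hp.not_isUnit
  rw [h1]
  have h2 : coeff 0 p ≠ 0 := by
    intro h2
    rw [h2, C_0] at h1
    exact hp.ne_zero h1
  exact (IsUnit.mk0 _ h2).map C

/-- the order of a polynomial at an adic place is at most its degree -/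
theorem adic_le (hX : Gens (k := k) X) {p : MvPolynomial (Fin b) k} (hp : Irreducible p)
    {q : Place k F} (hq : IsAdic X p q) (n : ℕ) :
    ∀ Q : MvPolynomial (Fin b) k, Q ≠ 0 → Q.totalDegree ≤ n →
      q.ord (aeval X Q) ≤ (Q.totalDegree : ℤ) := by
  induction n with
  | zero =>
    intro Q hQ hn
    by_cases hpQ : p ∣ Q
    · obtain ⟨R, rfl⟩ := hpQ
      rw [totalDegree_mul_of_isDomain (left_ne_zero_of_mul hQ) (right_ne_zero_of_mul hQ)] at hn
      have := totalDegree_pos hp
      omega
    · rw [((hq.2 Q hQ).2).2 hpQ]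
      positivity
  | succ n ih =>
    intro Q hQ hn
    by_cases hpQ : p ∣ Q
    · obtain ⟨R, rfl⟩ := hpQ
      have hR := right_ne_zero_of_mul hQ
      have hp0 := left_ne_zero_of_mul hQ
      have h1 := totalDegree_pos hp
      rw [totalDegree_mul_of_isDomain hp0 hR] at hn ⊢
      have h2 := ih R hR (by omega)
      rw [map_mul, q.ord_mul (hX.ne hp0) (hX.ne hR), hq.1]
      push_cast
      omega
    · rw [((hq.2 Q hQ).2).2 hpQ]
      positivity

end

/-- the poles of an element have bounded orders -/
theorem t_kap : St_kap := by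
  intro k F K _ _ _ _ _ _ _ _ _ b X hX z
  have hb : IsTranscendenceBasis k (fun i => algebraMap F K (X i)) := gens_basis hX
  obtain ⟨Q, hQ, hint⟩ := exists_mult hb z
  refine ⟨Q.totalDegree, ?_⟩
  intro p hp q hq P e he
  have hreg : ∀ A : MvPolynomial (Fin b) k, P.Reg (aeval (fun i => algebraMap F K (X i)) A) := by
    intro A
    rw [aeval_alg, he.reg]
    by_cases hA : A = 0
    · left
      rw [hA, map_zero]
    · right
      exact (hq.2 A hA).1
  have h1 := reg_of_int hreg hint
  by_cases hz : z = 0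
  · left
    rw [hz, zero_mul]
  have h2 : aeval (fun i => algebraMap F K (X i)) Q ≠ 0 := by
    rw [aeval_alg]
    exact fun h0 => hX.ne hQ ((algebraMap F K).injective (by rw [h0, map_zero]))
  have h3 : algebraMap F K (aeval X p) ≠ 0 :=
    fun h0 => hX.ne hp.1.ne_zero ((algebraMap F K).injective (by rw [h0, map_zero]))
  rw [P.reg_iff (mul_ne_zero h2 hz), P.ord_mul h2 hz, aeval_alg, he.2] at h1
  right
  rw [P.ord_mul hz (pow_ne_zero _ h3), P.ord_pow, he.2, hq.1]
  have h4 := adic_le hX hp.1 hq _ Q hQ le_rfl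
  have h5 : (0 : ℤ) < e := by exact_mod_cast he.1
  nlinarith

end Pool.Agent.Q288.TE
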