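import Pool.Agent.Q288.TE.StP
import Pool.Agent.Q288.TE.Kap

/-!
The elements reached from finitely many elements by the invariant derivations have bounded
pole divisors.
-/

set_option autoImplicit false

namespace Pool.Agent.Q288.TE

open FF MvPolynomial Pool.Agent.W603.LV Pool.Agent.W602.GT Pool.Agent.TH122.AB
open Pool.Agent.Y192.OG

section

variable {k K : Type} [Field k] [Field K] [Algebra k K] {b : ℕ} {x : Fin b → K}

/-- the Laurent polynomials with one more denominator -/
noncomputable def Rf (x : Fin b → K) (f : MvPolynomial (Fin b) k) : Subalgebra k K :=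
  Algebra.adjoin k (Set.range x ∪ {(aeval x f)⁻¹})

theorem sum_app {ι : Type} (s : Finset ι) (D : ι → Derivation k K K) (v : K) :
    (∑ i ∈ s, D i) v = ∑ i ∈ s, D i v := by
  classical
  induction s using Finset.induction_on with
  | empty => simp
  | insert a s ha ih =>
    rw [Finset.sum_insert ha, Finset.sum_insert ha, Derivation.add_apply, ih]

theorem aeval_mem_Rf (f A : MvPolynomial (Fin b) k) : aeval x A ∈ Rf x f := by
  have h1 : aeval x A ∈ Algebra.adjoin k (Set.range x) := by
    rw [Algebra.adjoin_range_eq_range_aeval]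
    exact ⟨A, rfl⟩
  exact Algebra.adjoin_mono Set.subset_union_left h1

theorem inv_mem_Rf (f : MvPolynomial (Fin b) k) : (aeval x f)⁻¹ ∈ Rf x f :=
  Algebra.subset_adjoin (Or.inr rfl)

theorem der_mem_Rf {θ : Fin b → Derivation k K K} (hθ : Th x θ) (f : MvPolynomial (Fin b) k)
    (i : Fin b) {r : K} (hr : r ∈ Rf x f) : θ i r ∈ Rf x f := by
  have hmul : ∀ u v : K, u ∈ Rf x f → v ∈ Rf x f → θ i u ∈ Rf x f → θ i v ∈ Rf x f →
      θ i (u * v) ∈ Rf x f := by
    intro u v hu hv h1 h2
    rw [(θ i).leibniz]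
    exact add_mem (mul_mem hu h2) (mul_mem hv h1)
  have hx : ∀ j, θ i (x j) ∈ Rf x f := by
    intro j
    rw [hθ]
    split_ifs
    · exact Algebra.subset_adjoin (Or.inl ⟨j, rfl⟩)
    · exact zero_mem _
  have hf : ∀ A : MvPolynomial (Fin b) k, θ i (aeval x A) ∈ Rf x f := by
    intro A
    induction A using MvPolynomial.induction_on with
    | C c =>
      rw [aeval_C, (θ i).map_algebraMap]
      exact zero_mem _
    | add A B hA hB =>
      rw [map_add, map_add]
      exact add_mem hA hB
    | mul_X A j hA =>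
      rw [map_mul, aeval_X]
      exact hmul _ _ (aeval_mem_Rf f A) (Algebra.subset_adjoin (Or.inl ⟨j, rfl⟩)) hA (hx j)
  unfold Rf at hr
  induction hr using Algebra.adjoin_induction with
  | mem y hy =>
    rcases hy with ⟨j, rfl⟩ | hy
    · exact hx j
    · rw [Set.mem_singleton_iff] at hy
      rw [hy, (θ i).leibniz_inv, smul_eq_mul]
      refine mul_mem ?_ (hf f)
      exact neg_mem (pow_mem (inv_mem_Rf f) 2)
  | algebraMap c =>
    rw [(θ i).map_algebraMap]
    exact zero_mem _
  | add u v _ _ h1 h2 =>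
    rw [map_add]
    exact add_mem h1 h2
  | mul u v hu hv h1 h2 => exact hmul u v hu hv h1 h2

theorem reg_Rf {K1 : Type} [Field K1] [Algebra k K1] (ι : K →ₐ[k] K1) (P : Place k K1)
    (hP : ∀ i, P.ord (ι (x i)) = 0) {f : MvPolynomial (Fin b) k}
    (hf : P.ord (ι (aeval x f)) = 0) {r : K} (hr : r ∈ Rf x f) : P.Reg (ι r) := by
  unfold Rf at hr
  induction hr using Algebra.adjoin_induction with
  | mem y hy =>
    rcases hy with ⟨j, rfl⟩ | hy
    · exact Or.inr (hP j).ge
    · rw [Set.mem_singleton_iff] at hy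
      rw [hy, map_inv₀]
      exact Or.inr (by rw [P.ord_inv, hf, neg_zero])
  | algebraMap c =>
    rw [ι.commutes]
    exact P.reg_const c
  | add u v _ _ h1 h2 =>
    rw [map_add]
    exact P.reg_add h1 h2
  | mul u v _ _ h1 h2 =>
    rw [map_mul]
    exact P.reg_mul h1 h2

theorem reg_poly {K1 : Type} [Field K1] [Algebra k K1] (ι : K →ₐ[k] K1) (P : Place k K1)
    (hP : ∀ i, P.ord (ι (x i)) = 0) (A : MvPolynomial (Fin b) k) : P.Reg (ι (aeval x A)) := by
  induction A using MvPolynomial.induction_on with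
  | C c =>
    rw [aeval_C, ι.commutes]
    exact P.reg_const c
  | add A B hA hB =>
    rw [map_add, map_add]
    exact P.reg_add hA hB
  | mul_X A j hA =>
    rw [map_mul, aeval_X, map_mul]
    exact P.reg_mul hA (Or.inr (hP j).ge)

end

/-- elements reached from integral elements have bounded pole divisors, also after base change -/
theorem t_off : St_off := by
  intro k F K _ _ _ _ _ _ _ _ _ b X hX θ hθ Z _
  classical
  have hb : IsTranscendenceBasis k (fun i => algebraMap F K (X i)) := gens_basis hX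
  obtain ⟨x, hx⟩ : ∃ x : Fin b → K, x = fun i => algebraMap F K (X i) := ⟨_, rfl⟩
  have hxi : ∀ i, algebraMap F K (X i) = x i := fun i => by rw [hx]
  have hxA : ∀ A : MvPolynomial (Fin b) k, algebraMap F K (aeval X A) = aeval x A := by
    intro A
    rw [hx, aeval_alg]
  rw [← hx] at hb hθ
  have hx0 : ∀ A : MvPolynomial (Fin b) k, A ≠ 0 → aeval x A ≠ 0 := by
    intro A hA h0
    rw [← hxA] at h0
    exact hX.ne hA ((algebraMap F K).injective (by rw [h0, map_zero]))
  let B := Module.finBasis F K
  let n := Module.finrank F K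
  have hQ := fun j => exists_mult hb (B j)
  choose Q hQ0 hQi using hQ
  choose num den hden hz using hX.gen
  let S : Finset F := (Finset.univ.image fun t : Fin b × Fin n × Fin n =>
    B.repr (θ t.1 (B t.2.1)) t.2.2) ∪ (Z ×ˢ (Finset.univ : Finset (Fin n))).image fun t =>
    B.repr t.1 t.2
  obtain ⟨f, hf⟩ : ∃ f : MvPolynomial (Fin b) k, f = (∏ c ∈ S, den c) * ∏ j, Q j := ⟨_, rfl⟩
  have hf0 : f ≠ 0 := by
    rw [hf]
    exact mul_ne_zero (Finset.prod_ne_zero_iff.2 fun c _ => hden c)
      (Finset.prod_ne_zero_iff.2 fun j _ => hQ0 j)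
  have hS : ∀ c ∈ S, algebraMap F K c ∈ Rf x f := by
    intro c hc
    have h1 : den c ∣ f := by
      rw [hf]
      exact (Finset.dvd_prod_of_mem den hc).mul_right _
    obtain ⟨g, hg⟩ := h1
    have h2 : algebraMap F K c = aeval x (num c) * aeval x g * (aeval x f)⁻¹ := by
      conv_lhs => rw [hz c]
      rw [map_div₀, hxA, hxA, hg, map_mul]
      have h3 := hx0 _ (hden c)
      have h4 := hx0 g (by
        rintro rfl
        rw [mul_zero] at hg
        exact hf0 hg)
      field_simp
    rw [h2]
    exact mul_mem (mul_mem (aeval_mem_Rf f _) (aeval_mem_Rf f _)) (inv_mem_Rf f)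
  have hmem : ∀ v : K, (∀ j, B.repr v j ∈ S) → v ∈ Submodule.span (Rf x f) (Set.range B) := by
    intro v hv
    rw [← B.sum_repr v]
    refine sum_mem fun j _ => ?_
    rw [Algebra.smul_def]
    exact Submodule.smul_mem _ (⟨_, hS _ (hv j)⟩ : Rf x f) (Submodule.subset_span ⟨j, rfl⟩)
  obtain ⟨M, hM⟩ : ∃ M, M = Submodule.span (Rf x f) (Set.range B) := ⟨_, rfl⟩
  rw [← hM] at hmem
  have hθM : ∀ i, ∀ m ∈ M, θ i m ∈ M := by
    intro i m hm
    rw [hM] at hm
    induction hm using Submodule.span_induction with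
    | mem y hy =>
      obtain ⟨j, rfl⟩ := hy
      apply hmem
      intro l
      exact Finset.mem_union_left _ (Finset.mem_image.2 ⟨(i, j, l), Finset.mem_univ _, rfl⟩)
    | zero =>
      rw [map_zero]
      exact zero_mem _
    | add u v _ _ h1 h2 =>
      rw [map_add]
      exact add_mem h1 h2
    | smul r u hu h1 =>
      have h2 : r • u = (r : K) * u := rfl
      rw [← hM] at hu
      rw [h2, (θ i).leibniz]
      refine add_mem ?_ ?_
      · exact M.smul_mem r h1
      · rw [smul_eq_mul, mul_comm]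
        exact M.smul_mem (⟨_, der_mem_Rf hθ f i r.2⟩ : Rf x f) hu
  refine ⟨f, hf0, ?_⟩
  intro E z v hzZ hv K1 _ _ ι P hP hPf
  rw [hxA] at hPf
  have hP' : ∀ i, P.ord (ι (x i)) = 0 := by
    intro i
    rw [← hxi]
    exact hP i
  have hconst : ∀ (c : ℤ) (u : K), u ∈ M → (c : K) * u ∈ M := by
    intro c u hu
    rw [← zsmul_eq_mul]
    exact zsmul_mem hu c
  have hvM : v ∈ M := by
    induction hv with
    | base =>
      apply hmem
      intro l
      exact Finset.mem_union_right _ (Finset.mem_image.2 ⟨(z, l), Finset.mem_product.2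
        ⟨hzZ, Finset.mem_univ _⟩, rfl⟩)
    | step a j v _ ih =>
      refine sub_mem ?_ (hconst j v ih)
      have h1 : Da θ a v ∈ M := by
        unfold Da
        rw [sum_app]
        refine sum_mem fun i _ => ?_
        rw [Derivation.smul_apply]
        exact zsmul_mem (hθM i v ih) _
      have h2 := hconst E _ h1
      rwa [Int.cast_natCast] at h2
  have hBreg : ∀ j, P.Reg (ι (B j)) := by
    intro j
    let _ : Algebra K K1 := ι.toRingHom.toAlgebra
    have h1 : IsIntegral (Algebra.adjoin k (Set.range x)) (algebraMap K K1 (aeval x (Q j) * B j)) :=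
      (hQi j).map (IsScalarTower.toAlgHom (Algebra.adjoin k (Set.range x)) K K1)
    have h2 : P.Reg (ι (aeval x (Q j) * B j)) := by
      refine P.reg_of_isIntegral (A := Algebra.adjoin k (Set.range x)) (fun a => ?_) h1
      have ha : (a : K) ∈ (aeval x : MvPolynomial (Fin b) k →ₐ[k] K).range := by
        rw [← Algebra.adjoin_range_eq_range_aeval]
        exact a.2
      obtain ⟨A, hA⟩ := ha
      have h3 : algebraMap (Algebra.adjoin k (Set.range x)) K1 a = ι (aeval x A) := by
        change ι (a : K) = ι (aeval x A)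
        exact congrArg ι hA.symm
      rw [h3]
      exact reg_poly ι P hP' A
    have hBj : ι (B j) ≠ 0 := by
      rw [map_ne_zero]
      exact B.ne_zero j
    have hQj : ι (aeval x (Q j)) ≠ 0 := by
      rw [map_ne_zero]
      exact hx0 _ (hQ0 j)
    rw [map_mul, P.reg_iff (mul_ne_zero hQj hBj), P.ord_mul hQj hBj] at h2
    have h3 : Q j ∣ f := by
      rw [hf]
      exact (Finset.dvd_prod_of_mem Q (Finset.mem_univ j)).mul_left _
    obtain ⟨g, hg⟩ := h3
    have hg0 : g ≠ 0 := by
      rintro rfl
      rw [mul_zero] at hg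
      exact hf0 hg
    have hgj : ι (aeval x g) ≠ 0 := by
      rw [map_ne_zero]
      exact hx0 _ hg0
    rw [hg, map_mul, map_mul, P.ord_mul hQj hgj] at hPf
    have h4 := (P.reg_iff hQj).1 (reg_poly ι P hP' (Q j))
    have h5 := (P.reg_iff hgj).1 (reg_poly ι P hP' g)
    exact Or.inr (by omega)
  rw [hM] at hvM
  rw [← hxA] at hPf
  clear hv
  induction hvM using Submodule.span_induction with
  | mem y hy =>
    obtain ⟨j, rfl⟩ := hy
    exact hBreg j
  | zero =>
    rw [map_zero]
    exact P.reg_zero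
  | add u v _ _ h1 h2 =>
    rw [map_add]
    exact P.reg_add h1 h2
  | smul r u _ h1 =>
    have h2 : r • u = (r : K) * u := rfl
    rw [h2, map_mul]
    rw [hxA] at hPf
    exact P.reg_mul (reg_Rf ι P hP' hPf r.2) h1

end Pool.Agent.Q288.TE
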