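import Pool.Agent.Q288.TE.Ptor

/-!
Invariant derivations at the places of irreducible polynomials.
-/

set_option autoImplicit false

namespace Pool.Agent.Q288.TE

open FF MvPolynomial Pool.Agent.W603.LV Pool.Agent.W602.GT Pool.Agent.TH122.AB
open Pool.Agent.Y192.OG

section

variable {k F K : Type} [Field k] [CharZero k] [Field F] [Field K] [Algebra k F] [Algebra k K]
  [Algebra F K] [IsScalarTower k F K] {b : ℕ} {X : Fin b → F}

theorem adic_reg {p : MvPolynomial (Fin b) k} {q : Place k F} (hq : IsAdic X p q)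
    {P : Place k K} {e : ℕ} (hO : Over P q e) (A : MvPolynomial (Fin b) k) :
    Ge P 0 (algebraMap F K (aeval X A)) := by
  have h : Ge q 0 (aeval X A) := by
    by_cases hA : A = 0
    · left
      rw [hA, map_zero]
    · exact Or.inr (hq.2 A hA).1
  simpa using over_ge hO h

theorem adic_unit {p : MvPolynomial (Fin b) k} {q : Place k F} (hq : IsAdic X p q)
    {P : Place k K} {e : ℕ} (hO : Over P q e) {A : MvPolynomial (Fin b) k} (hA : ¬ p ∣ A) :
    P.ord (algebraMap F K (aeval X A)) = 0 := by
  have hA0 : A ≠ 0 := by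
    rintro rfl
    exact hA (dvd_zero p)
  rw [hO.2, (hq.2 A hA0).2.2 hA, mul_zero]

/-- a nonzero polynomial is a power of `p` times a polynomial which is not divisible by `p` -/
theorem split_pow {p : MvPolynomial (Fin b) k} (hp : Irreducible p) {A : MvPolynomial (Fin b) k}
    (hA : A ≠ 0) : ∃ (m : ℕ) (B : MvPolynomial (Fin b) k), ¬ p ∣ B ∧ A = p ^ m * B := by
  have hfin : FiniteMultiplicity p A := FiniteMultiplicity.of_not_isUnit hp.not_isUnit hA
  obtain ⟨B, hB, hpB⟩ := hfin.exists_eq_pow_mul_and_not_dvd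
  exact ⟨_, B, hpB, hB⟩

/-- `E * D` is of logarithmic type on `F` if it is so for `p` and for units -/
theorem log_F (hG : Gens (k := k) X) (D : Derivation ℤ K K) (P : Place k K)
    (h : ∀ A : MvPolynomial (Fin b) k, A ≠ 0 →
      P.Reg (D (algebraMap F K (aeval X A)) / algebraMap F K (aeval X A))) (g : F) :
    P.Reg (D (algebraMap F K g) / algebraMap F K g) := by
  by_cases hg0 : g = 0
  · left
    rw [hg0, map_zero, map_zero, zero_div]
  obtain ⟨A, B, hB, hz⟩ := hG.gen g
  have hA : A ≠ 0 := by
    rintro rfl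
    apply hg0
    rw [hz, map_zero, zero_div]
  have hAK : algebraMap F K (aeval X A) ≠ 0 := (map_ne_zero _).2 (hG.ne hA)
  have hBK : algebraMap F K (aeval X B) ≠ 0 := (map_ne_zero _).2 (hG.ne hB)
  have h1 : D (algebraMap F K g) / algebraMap F K g =
      D (algebraMap F K (aeval X A)) / algebraMap F K (aeval X A) +
      -(D (algebraMap F K (aeval X B)) / algebraMap F K (aeval X B)) := by
    rw [hz, map_div₀, D.leibniz_div, smul_eq_mul, smul_eq_mul, smul_eq_mul]
    field_simp
    ring
  rw [h1]
  exact P.reg_add (h A hA) (P.reg_neg (h B hB))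

/-- the logarithmic derivative of a polynomial at an adic place -/
theorem adic_log (hG : Gens (k := k) X) {θ : Fin b → Derivation k K K}
    (hθ : Th (fun i => algebraMap F K (X i)) θ) {p : MvPolynomial (Fin b) k} (hp : Irreducible p)
    {q : Place k F} (hq : IsAdic X p q) {P : Place k K} {e : ℕ} (hO : Over P q e)
    (c : Fin b → ℤ) (s : K) (hs : Ge P 0 s)
    (hsp : Ge P 0 (s * algebraMap F K (aeval X (pw c p)) / algebraMap F K (aeval X p)))
    (A : MvPolynomial (Fin b) k) (hA : A ≠ 0) :
    Ge P 0 (s * (Da θ c (algebraMap F K (aeval X A)) / algebraMap F K (aeval X A))) := by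
  obtain ⟨m, B, hB, rfl⟩ := split_pow hp hA
  have hp0 : p ≠ 0 := hp.ne_zero
  have hB0 : B ≠ 0 := right_ne_zero_of_mul hA
  have hpK : algebraMap F K (aeval X p) ≠ 0 := (map_ne_zero _).2 (hG.ne hp0)
  have hBK : algebraMap F K (aeval X B) ≠ 0 := (map_ne_zero _).2 (hG.ne hB0)
  have h1 : Da θ c (algebraMap F K (aeval X (p ^ m * B))) / algebraMap F K (aeval X (p ^ m * B)) =
      (m : K) * (algebraMap F K (aeval X (pw c p)) / algebraMap F K (aeval X p)) +
        algebraMap F K (aeval X (pw c B)) / algebraMap F K (aeval X B) := by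
    have h2 := Pool.Agent.Y547.OG.ld_mul (DaZ θ c) (pow_ne_zero m hpK) hBK
    rw [Pool.Agent.Y547.OG.ld_pow (DaZ θ c) hpK, DaZ_apply, DaZ_apply, DaZ_apply, Da_poly hθ,
      Da_poly hθ] at h2
    rw [map_mul, map_pow, map_mul, map_pow]
    exact h2
  rw [h1, mul_add]
  refine Ge.add ?_ ?_
  · have h3 := (Ge.natCast (P := P) m).mul hsp
    have h4 : s * ((m : K) * (algebraMap F K (aeval X (pw c p)) / algebraMap F K (aeval X p))) =
        (m : K) * (s * algebraMap F K (aeval X (pw c p)) / algebraMap F K (aeval X p)) := by ring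
    rw [h4]
    simpa using h3
  · have h3 : Ge P 0 (algebraMap F K (aeval X B))⁻¹ := Or.inr (by
      rw [P.ord_inv, adic_unit hq hO hB, neg_zero])
    have h4 := hs.mul ((adic_reg hq hO (pw c B)).mul h3)
    rw [div_eq_mul_inv]
    simpa using h4

end

theorem t_padic : St_padic := by
  classical
  intro k F K _ _ _ _ _ _ _ _ _ b X hG θ hθ p hp q hq P e hO c
  have hp0 : p ≠ 0 := hp.1.ne_zero
  have hpK : algebraMap F K (aeval X p) ≠ 0 := (map_ne_zero _).2 (hG.ne hp0)
  have hpo : P.ord (algebraMap F K (aeval X p)) = e := by rw [hO.2, hq.1, mul_one]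
  have he : (1 : ℤ) ≤ e := by exact_mod_cast hO.1
  -- regularity on `F`
  have hreg : ∀ g : F, q.Reg g → P.Reg (DaZ θ c (algebraMap F K g)) :=
    Pool.Agent.Y46.OG.t_deradic k F K b X hG p hp.1 q hq P e hO (DaZ θ c) (DaZ_const θ c)
      (DaZ_X hθ c)
  -- the derivation `p(X) * D_c`
  let D' : Derivation ℤ K K := algebraMap F K (aeval X p) • DaZ θ c
  have hD' : ∀ g : K, D' g = algebraMap F K (aeval X p) * Da θ c g := fun g => rfl
  have hlog' : ∀ g : F, P.Reg (D' (algebraMap F K g) / algebraMap F K g) := by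
    intro g
    refine log_F hG D' P (fun A hA => ?_) g
    rw [hD', mul_div_assoc]
    refine adic_log hG hθ hp.1 hq hO c _ (adic_reg hq hO p) ?_ A hA
    rw [mul_div_assoc, mul_div_cancel₀ _ hpK]
    exact adic_reg hq hO _
  refine ⟨?_, ?_, ?_, ?_⟩
  · intro n g hg
    have h1 : Ge P 0 (D' g / g) := Pool.Agent.Y547.OG.part_one q P e hO D' hlog' g
    by_cases hg0 : g = 0
    · left
      rw [hg0, map_zero]
    have h2 : Da θ c g = (algebraMap F K (aeval X p))⁻¹ * ((D' g / g) * g) := by
      rw [hD']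
      field_simp
    have h3 : Ge P (-(e : ℤ)) (algebraMap F K (aeval X p))⁻¹ :=
      Or.inr (by rw [P.ord_inv, hpo])
    rw [h2]
    have h4 := h3.mul (h1.mul hg)
    refine h4.mono ?_
    omega
  · rintro ⟨r, hr⟩ g
    have hlog : ∀ g : F, P.Reg (DaZ θ c (algebraMap F K g) / algebraMap F K g) := by
      intro g
      refine log_F hG (DaZ θ c) P (fun A hA => ?_) g
      have h1 := adic_log hG hθ hp.1 hq hO c 1 (Ge.one) (by
        rw [one_mul, hr, map_mul, map_mul, mul_div_assoc, mul_comm, div_mul_cancel₀ _ hpK]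
        exact adic_reg hq hO r) A hA
      rw [one_mul] at h1
      exact h1
    exact Pool.Agent.Y547.OG.part_one q P e hO (DaZ θ c) hlog g
  · intro he1 g hg
    subst he1
    exact Pool.Agent.Y547.OG.part_two q P hO (DaZ θ c) hreg g hg
  · intro hpc g hgo
    have hg0 : g ≠ 0 := by
      rintro rfl
      exact hgo P.ord_zero
    have hge1 : ∀ g : F, q.Reg g → Ge P 1 (D' (algebraMap F K g)) := by
      intro g hg
      rw [hD']
      have h1 := (show Ge P (e : ℤ) (algebraMap F K (aeval X p)) from Or.inr hpo.ge).mul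
        (show Ge P 0 (DaZ θ c (algebraMap F K g)) from hreg g hg)
      exact h1.mono (by omega)
    have h3 := (t_res k F K q P e hO D' hge1 hlog').2 (aeval X p) hq.1 g hg0
    have h4 : D' (algebraMap F K (aeval X p)) / algebraMap F K (aeval X p) =
        algebraMap F K (aeval X (pw c p)) := by
      rw [hD', Da_poly hθ, mul_div_assoc, mul_div_cancel₀ _ hpK]
    rw [h4] at h3
    have hC : CharZero K := charZero_of_injective_algebraMap (algebraMap k K).injective
    have hu0 : ((P.ord g : K)) ≠ 0 := by exact_mod_cast hgo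
    have huk : ((P.ord g : K)) = algebraMap k K (P.ord g : k) := by rw [map_intCast]
    have hc0 : (P.ord g : k) ≠ 0 := by exact_mod_cast hgo
    have hpc0 : pw c p ≠ 0 := fun h => hpc (by rw [h]; exact dvd_zero p)
    have hpcK : algebraMap F K (aeval X (pw c p)) ≠ 0 := (map_ne_zero _).2 (hG.ne hpc0)
    have hv0 : (P.ord g : K) * algebraMap F K (aeval X (pw c p)) ≠ 0 := mul_ne_zero hu0 hpcK
    have hvo : P.ord ((P.ord g : K) * algebraMap F K (aeval X (pw c p))) = 0 := by
      rw [P.ord_mul hu0 hpcK, adic_unit hq hO hpc, huk, P.ord_const hc0, add_zero]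
    have he0 : (e : K) ≠ 0 := by
      have : e ≠ 0 := by omega
      exact_mod_cast this
    have heo : P.ord (e : K) = 0 := by
      have h5 : ((e : k)) ≠ 0 := by
        have : e ≠ 0 := by omega
        exact_mod_cast this
      rw [← map_natCast (algebraMap k K) e, P.ord_const h5]
    -- `e * (D' g / g)` has order zero
    have h5 : (e : K) * (D' g / g) ≠ 0 ∧ P.ord ((e : K) * (D' g / g)) = 0 := by
      set w := (e : K) * (D' g / g) - (P.ord g : K) * algebraMap F K (aeval X (pw c p)) with hw
      have h6 : (e : K) * (D' g / g) =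
          (P.ord g : K) * algebraMap F K (aeval X (pw c p)) + w := by rw [hw]; ring
      rw [h6]
      rcases h3 with h3 | h3
      · rw [h3, add_zero]
        exact ⟨hv0, hvo⟩
      · by_cases hw0 : w = 0
        · rw [hw0, add_zero]
          exact ⟨hv0, hvo⟩
        · have h7 := P.ord_add_eq hv0 hw0 (by rw [hvo]; omega)
          rw [hvo] at h7
          exact h7
    have h6 : D' g / g ≠ 0 := right_ne_zero_of_mul h5.1
    have h7 : P.ord (D' g / g) = 0 := by
      have h8 := h5.2
      rw [P.ord_mul he0 h6, heo, zero_add] at h8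
      exact h8
    have h8 : D' g ≠ 0 := fun h => h6 (by rw [h, zero_div])
    have h9 : Da θ c g ≠ 0 := fun h => h8 (by rw [hD', h, mul_zero])
    refine ⟨h9, ?_⟩
    rw [P.ord_div h8 hg0, hD', P.ord_mul hpK h9, hpo] at h7
    omega

end Pool.Agent.Q288.TE
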