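import Pool.Agent.Q288.TE.StL
import Pool.Agent.Y547.OG.Der

/-!
Derivations which are topologically nilpotent at the place below.
-/

set_option autoImplicit false
set_option linter.unusedSectionVars false

namespace Pool.Agent.Q288.TE

open FF Polynomial Pool.Agent.W603.LV Pool.Agent.W619.PQ Pool.Agent.Y192.OG
open Pool.Agent.Y547.OG (sep_poly part_one part_two ld_mul ld_pow ld_zpow ld_inv)

variable {k F K : Type} [Field k] [CharZero k] [Field F] [Field K] [Algebra k F] [Algebra k K]
    [Algebra F K] [IsScalarTower k F K] [FiniteDimensional F K]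

theorem res_unit (q : Place k F) (P : Place k K) (e : ℕ) (hPq : Over P q e) (D : Derivation ℤ K K)
    (h1 : ∀ g : F, q.Reg g → Ge P 1 (D (algebraMap F K g)))
    (h2 : ∀ g : F, P.Reg (D (algebraMap F K g) / algebraMap F K g)) (r : K) (hr : P.Reg r) :
    Ge P 1 (D r) := by
  obtain ⟨n, a, ha, h3, h4⟩ := sep_poly q P e hPq r hr
  set m := ∑ i ∈ Finset.range (n + 1), algebraMap F K (a i) * r ^ i with hm
  set m' := ∑ i ∈ Finset.range (n + 1), algebraMap F K (a i) * ((i : K) * r ^ (i - 1)) with hm'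
  have h5 : Ge P 1 (D m) := by
    by_cases h0 : m = 0
    · rw [h0, map_zero]
      exact Or.inl rfl
    · have h6 : D m = m * (D m / m) := by field_simp
      rw [h6]
      simpa using h3.mul (show Ge P 0 _ from part_one q P e hPq D h2 m)
  have h6 : D m = ∑ i ∈ Finset.range (n + 1), r ^ i * D (algebraMap F K (a i)) + m' * D r := by
    rw [hm, hm', map_sum, Finset.sum_mul, ← Finset.sum_add_distrib]
    refine Finset.sum_congr rfl fun i _ => ?_
    rw [Derivation.leibniz, Derivation.leibniz_pow, smul_eq_mul, smul_eq_mul, smul_eq_mul]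
    simp only [nsmul_eq_mul]
    ring
  have h7 : Ge P 1 (m' * D r) := by
    have h8 : m' * D r = D m - ∑ i ∈ Finset.range (n + 1), r ^ i * D (algebraMap F K (a i)) := by
      rw [h6]; ring
    rw [h8]
    refine h5.sub (Ge.sum _ _ fun i _ => ?_)
    have h9 : Ge P 0 (r ^ i) := by
      have := (show Ge P 0 r from hr).pow i
      simpa using this
    simpa using h9.mul (h1 _ (ha i))
  have hm0 : m' ≠ 0 := fun h => h4 (Or.inl h)
  have hmo : P.ord m' < 1 := by
    by_contra h
    exact h4 (Or.inr (by omega))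
  have h8 : D r = m'⁻¹ * (m' * D r) := by field_simp
  rw [h8]
  have h9 : Ge P 0 (m'⁻¹) := Or.inr (by rw [P.ord_inv]; omega)
  simpa using h9.mul h7

theorem t_res : St_res := by
  intro k F K _ _ _ _ _ _ _ _ _ q P e hPq D h1 h2
  refine ⟨res_unit q P e hPq D h1 h2, fun t ht h h0 => ?_⟩
  have ht0 : t ≠ 0 := by
    rintro rfl
    rw [q.ord_zero] at ht
    exact zero_ne_one ht
  have htK : algebraMap F K t ≠ 0 := by simpa using ht0
  set n := P.ord h with hn
  set u := h ^ e * (algebraMap F K t ^ n)⁻¹ with hu'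
  have htn : algebraMap F K t ^ n ≠ 0 := zpow_ne_zero _ htK
  have hu0 : u ≠ 0 := mul_ne_zero (pow_ne_zero _ h0) (inv_ne_zero htn)
  have huo : P.ord u = 0 := by
    rw [hu', P.ord_mul (pow_ne_zero _ h0) (inv_ne_zero htn), P.ord_inv, P.ord_pow, P.ord_zpow,
      hPq.2, ht]
    ring
  have h3 : h ^ e = u * algebraMap F K t ^ n := by
    rw [hu', mul_assoc, inv_mul_cancel₀ htn, mul_one]
  have h4 : (e : K) * (D h / h) = D u / u + n * (D (algebraMap F K t) / algebraMap F K t) := by
    rw [← ld_pow D h0, h3, ld_mul D hu0 htn, ld_zpow D htK]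
  have h5 : Ge P 1 (D u / u) := by
    have h6 := res_unit q P e hPq D h1 h2 u (Or.inr huo.ge)
    have h7 : Ge P 0 u⁻¹ := Or.inr (by rw [P.ord_inv, huo]; simp)
    simpa [div_eq_mul_inv] using h6.mul h7
  rw [h4]
  simpa using h5

end Pool.Agent.Q288.TE
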