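import Pool.Agent.Q288.TE.StP
import Pool.Agent.Q288.TE.Res
import Pool.Agent.Y46.OG.DerT

/-!
Invariant derivations at the places of weights.
-/

set_option autoImplicit false

namespace Pool.Agent.Q288.TE

open FF MvPolynomial Pool.Agent.W603.LV Pool.Agent.W602.GT Pool.Agent.TH122.AB
open Pool.Agent.Y192.OG

section

variable {k F K : Type} [Field k] [Field F] [Field K] [Algebra k F] [Algebra k K] [Algebra F K]
  [IsScalarTower k F K] {b : ℕ} {X : Fin b → F}

theorem pw_C (a : Fin b → ℤ) (c : k) : pw a (C c : MvPolynomial (Fin b) k) = 0 := by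
  unfold pw
  refine Finset.sum_eq_zero fun i _ => ?_
  rw [pderiv_C, mul_zero, mul_zero]

theorem pw_add (a : Fin b → ℤ) (A B : MvPolynomial (Fin b) k) :
    pw a (A + B) = pw a A + pw a B := by
  unfold pw
  rw [← Finset.sum_add_distrib]
  refine Finset.sum_congr rfl fun i _ => ?_
  rw [map_add]
  ring

theorem pw_mul (a : Fin b → ℤ) (A B : MvPolynomial (Fin b) k) :
    pw a (A * B) = pw a A * B + A * pw a B := by
  unfold pw
  rw [Finset.sum_mul, Finset.mul_sum, ← Finset.sum_add_distrib]
  refine Finset.sum_congr rfl fun i _ => ?_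
  rw [Derivation.leibniz, smul_eq_mul, smul_eq_mul]
  ring

theorem pw_X (a : Fin b → ℤ) (j : Fin b) :
    pw a (MvPolynomial.X j : MvPolynomial (Fin b) k) = (a j : MvPolynomial (Fin b) k) *
      MvPolynomial.X j := by
  classical
  unfold pw
  rw [Finset.sum_eq_single j]
  · rw [pderiv_X_self, mul_one]
  · intro i _ hi
    rw [pderiv_X_of_ne (Ne.symm hi), mul_zero, mul_zero]
  · intro h
    exact absurd (Finset.mem_univ j) h

theorem pw_pow (a : Fin b → ℤ) (A : MvPolynomial (Fin b) k) (n : ℕ) :
    pw a (A ^ (n + 1)) = ((n + 1 : ℕ) : MvPolynomial (Fin b) k) * A ^ n * pw a A := by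
  induction n with
  | zero => simp
  | succ n ih =>
    rw [pow_succ, pw_mul, ih]
    push_cast
    ring

/-- the action on monomials -/
theorem pw_monomial (a : Fin b → ℤ) (c : Fin b →₀ ℕ) (r : k) :
    pw a (monomial c r) = monomial c ((tw a c : k) * r) := by
  classical
  unfold pw tw
  have h : ∀ i, (a i : MvPolynomial (Fin b) k) * (MvPolynomial.X i * pderiv i (monomial c r)) =
      monomial c (((a i * c i : ℤ) : k) * r) := by
    intro i
    rw [pderiv_monomial]
    by_cases hi : c i = 0
    · rw [hi]; simp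
    · have h1 : (MvPolynomial.X i : MvPolynomial (Fin b) k) = monomial (Finsupp.single i 1) 1 := rfl
      have h2 : (a i : MvPolynomial (Fin b) k) = C (a i : k) := by simp
      rw [h1, monomial_mul, h2, C_mul_monomial]
      have h3 : Finsupp.single i 1 + (c - Finsupp.single i 1) = c := by
        ext j
        simp only [Finsupp.coe_add, Finsupp.coe_tsub, Pi.add_apply, Pi.sub_apply,
          Finsupp.single_apply]
        split_ifs with hj
        · subst hj; omega
        · omega
      rw [h3]
      congr 1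
      push_cast
      ring
  simp only [h]
  rw [← map_sum]
  congr 1
  rw [← Finset.sum_mul]
  push_cast
  rfl

theorem coeff_pw (a : Fin b → ℤ) (A : MvPolynomial (Fin b) k) (c : Fin b →₀ ℕ) :
    (pw a A).coeff c = (tw a c : k) * A.coeff c := by
  classical
  induction A using MvPolynomial.induction_on' with
  | monomial u r =>
    rw [pw_monomial, coeff_monomial, coeff_monomial]
    split_ifs with h
    · rw [h]
    · rw [mul_zero]
  | add p q hp hq => rw [pw_add, coeff_add, coeff_add, hp, hq]; ring

theorem Da_apply (θ : Fin b → Derivation k K K) (a : Fin b → ℤ) (g : K) :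
    Da θ a g = ∑ i, a i • θ i g := by
  have h := map_sum (Derivation.coeFnAddMonoidHom (R := k) (A := K) (M := K))
    (fun i => a i • θ i) Finset.univ
  have h2 := congrFun h g
  rw [Finset.sum_apply] at h2
  exact h2

omit [Algebra k F] [IsScalarTower k F K] in
/-- `D_a` on the generators -/
theorem Da_X {θ : Fin b → Derivation k K K} (hθ : Th (fun i => algebraMap F K (X i)) θ)
    (a : Fin b → ℤ) (j : Fin b) :
    Da θ a (algebraMap F K (X j)) = (a j : K) * algebraMap F K (X j) := by
  classical
  rw [Da_apply, Finset.sum_eq_single j]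
  · rw [hθ j j, if_pos rfl, zsmul_eq_mul]
  · intro i _ hi
    rw [hθ i j, if_neg hi, smul_zero]
  · intro h
    exact absurd (Finset.mem_univ j) h

/-- `D_a` on polynomials in the generators -/
theorem Da_poly {θ : Fin b → Derivation k K K} (hθ : Th (fun i => algebraMap F K (X i)) θ)
    (a : Fin b → ℤ) (A : MvPolynomial (Fin b) k) :
    Da θ a (algebraMap F K (aeval X A)) = algebraMap F K (aeval X (pw a A)) := by
  induction A using MvPolynomial.induction_on with
  | C r =>
    rw [pw_C, map_zero, map_zero, aeval_C, ← IsScalarTower.algebraMap_apply]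
    exact Derivation.map_algebraMap _ _
  | add p q hp hq => rw [map_add, map_add, map_add, hp, hq, pw_add, map_add, map_add]
  | mul_X p i hp =>
    rw [map_mul, map_mul, Derivation.leibniz, hp, aeval_X, Da_X hθ, pw_mul, pw_X, map_add, map_mul,
      map_mul, map_mul, map_add, map_mul, map_mul, map_mul, aeval_X, smul_eq_mul, smul_eq_mul]
    simp only [map_intCast]
    ring

/-- `D_a` as a derivation over the integers -/
noncomputable def DaZ (θ : Fin b → Derivation k K K) (a : Fin b → ℤ) : Derivation ℤ K K :=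
  (Da θ a).restrictScalars ℤ

@[simp] theorem DaZ_apply (θ : Fin b → Derivation k K K) (a : Fin b → ℤ) (g : K) :
    DaZ θ a g = Da θ a g := rfl

theorem DaZ_const (θ : Fin b → Derivation k K K) (a : Fin b → ℤ) (c : k) :
    ∃ c' : k, DaZ θ a (algebraMap k K c) = algebraMap k K c' :=
  ⟨0, by rw [DaZ_apply, Derivation.map_algebraMap, map_zero]⟩

theorem DaZ_X {θ : Fin b → Derivation k K K} (hθ : Th (fun i => algebraMap F K (X i)) θ)
    (a : Fin b → ℤ) (i : Fin b) :
    ∃ ε : k, DaZ θ a (algebraMap F K (X i)) = algebraMap k K ε * algebraMap F K (X i) :=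
  ⟨(a i : k), by rw [DaZ_apply, Da_X hθ, map_intCast]⟩

omit [IsScalarTower k F K] in
theorem over_ge {q : Place k F} {P : Place k K} {e : ℕ} (h : Over P q e) {g : F} {n : ℤ}
    (hg : Ge q n g) : Ge P (e * n) (algebraMap F K g) := by
  rcases hg with hg | hg
  · left
    rw [hg, map_zero]
  · right
    rw [h.2]
    exact mul_le_mul_of_nonneg_left hg (by positivity)

omit [IsScalarTower k F K] in
theorem over_ge1 {q : Place k F} {P : Place k K} {e : ℕ} (h : Over P q e) {g : F}
    (hg : Ge q 1 g) : Ge P 1 (algebraMap F K g) := by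
  refine (over_ge h hg).mono ?_
  have h1 : (1 : ℤ) ≤ e := by exact_mod_cast h.1
  omega

/-- the weights of `D_a A / A` -/
theorem tor_key [CharZero k] (hG : Gens (k := k) X) (a : Fin b → ℤ) {q : Place k F}
    (hq : IsTor X a q) (A : MvPolynomial (Fin b) k) (hA : A ≠ 0) :
    Ge q 1 (aeval X (pw a A) / aeval X A - (q.ord (aeval X A) : F)) := by
  have hAX := hG.ne hA
  set m := q.ord (aeval X A) with hm
  have h1 : aeval X (pw a A) / aeval X A - (m : F) =
      aeval X (pw a A - C (m : k) * A) / aeval X A := by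
    rw [map_sub, map_mul, aeval_C, map_intCast]
    field_simp
  rw [h1]
  by_cases h0 : pw a A - C (m : k) * A = 0
  · left
    rw [h0, map_zero, zero_div]
  · right
    rw [q.ord_div (hG.ne h0) hAX, ← hm]
    obtain ⟨c, hc, hc'⟩ := (hq _ h0).2
    rw [hc']
    rw [mem_support_iff, coeff_sub, coeff_pw, coeff_C_mul, ← sub_mul] at hc
    have h2 : A.coeff c ≠ 0 := fun h => hc (by rw [h, mul_zero])
    have h3 : (tw a c : k) - (m : k) ≠ 0 := fun h => hc (by rw [h, zero_mul])
    have h4 : tw a c ≠ m := by
      intro h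
      exact h3 (by rw [h, sub_self])
    have h5 := (hq A hA).1 c (mem_support_iff.2 h2)
    omega

end

section

variable {k F K : Type} [Field k] [CharZero k] [Field F] [Field K] [Algebra k F] [Algebra k K]
  [Algebra F K] [IsScalarTower k F K] {b : ℕ} {X : Fin b → F}

theorem tor_log (hG : Gens (k := k) X) {θ : Fin b → Derivation k K K}
    (hθ : Th (fun i => algebraMap F K (X i)) θ) (a : Fin b → ℤ) {q : Place k F} (hq : IsTor X a q)
    {P : Place k K} {e : ℕ} (hO : Over P q e) (g : F) (hg : g ≠ 0) :
    Ge P 1 (Da θ a (algebraMap F K g) / algebraMap F K g - (q.ord g : K)) := by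
  obtain ⟨A, B, hB, hz⟩ := hG.gen g
  have hA : A ≠ 0 := by
    rintro rfl
    apply hg
    rw [hz, map_zero, zero_div]
  have hAX := hG.ne hA
  have hBX := hG.ne hB
  have hAK : algebraMap F K (aeval X A) ≠ 0 := (map_ne_zero _).2 hAX
  have hBK : algebraMap F K (aeval X B) ≠ 0 := (map_ne_zero _).2 hBX
  have h1 : Da θ a (algebraMap F K g) / algebraMap F K g - (q.ord g : K) =
      algebraMap F K (aeval X (pw a A) / aeval X A - (q.ord (aeval X A) : F)) -
      algebraMap F K (aeval X (pw a B) / aeval X B - (q.ord (aeval X B) : F)) := by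
    have h2 : q.ord g = q.ord (aeval X A) - q.ord (aeval X B) := by
      rw [hz, q.ord_div hAX hBX]
    rw [h2, hz, map_div₀, Derivation.leibniz_div, Da_poly hθ, Da_poly hθ, map_sub, map_sub,
      map_div₀, map_div₀, smul_eq_mul, smul_eq_mul, smul_eq_mul]
    simp only [map_intCast]
    push_cast
    field_simp
    ring
  rw [h1]
  exact (over_ge1 hO (tor_key hG a hq A hA)).sub (over_ge1 hO (tor_key hG a hq B hB))

end

theorem t_ptor : St_ptor := by
  classical
  intro k F K _ _ _ _ _ _ _ _ _ b X hG θ hθ a ha q hq P e hO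
  have h1 : ∀ (c : Fin b → ℤ) (g : F),
      P.Reg (DaZ θ c (algebraMap F K g) / algebraMap F K g) := fun c g =>
    Pool.Agent.Y46.OG.t_dertor k F K b X hG a q hq P e hO (DaZ θ c) (DaZ_const θ c) (DaZ_X hθ c) g
  refine ⟨fun c g => Pool.Agent.Y547.OG.part_one q P e hO (DaZ θ c) (h1 c) g, ?_⟩
  intro g hg
  obtain ⟨c, hc⟩ := ha
  have hX : ∀ i, X i ≠ 0 := by
    intro i h
    have h2 := hG.ne (P := MvPolynomial.X i) (X_ne_zero i)
    rw [aeval_X] at h2
    exact h2 h
  have hXo : ∀ i, q.ord (X i) = a i := by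
    intro i
    obtain ⟨c', hc', h2⟩ := (hq (MvPolynomial.X i) (X_ne_zero i)).2
    rw [support_X, Finset.mem_singleton] at hc'
    rw [aeval_X] at h2
    rw [h2, hc']
    unfold tw
    rw [Finset.sum_eq_single i]
    · simp
    · intro j _ hj
      rw [Finsupp.single_apply, if_neg (Ne.symm hj)]
      simp
    · intro h
      exact absurd (Finset.mem_univ i) h
  have hprod : ∀ s : Finset (Fin b), (∏ i ∈ s, X i ^ c i) ≠ 0 ∧
      q.ord (∏ i ∈ s, X i ^ c i) = ∑ i ∈ s, a i * c i ∧
      Da θ a (algebraMap F K (∏ i ∈ s, X i ^ c i)) =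
        ((∑ i ∈ s, a i * c i : ℤ) : K) * algebraMap F K (∏ i ∈ s, X i ^ c i) := by
    intro s
    induction s using Finset.induction_on with
    | empty =>
      refine ⟨by simp, by simp [q.ord_one], ?_⟩
      simp
    | insert i s hi ih =>
      obtain ⟨ih1, ih2, ih3⟩ := ih
      have h3 : X i ^ c i ≠ 0 := zpow_ne_zero _ (hX i)
      have h4 : algebraMap F K (X i ^ c i) ≠ 0 := (map_ne_zero _).2 h3
      have h5 : Da θ a (algebraMap F K (X i ^ c i)) =
          ((a i * c i : ℤ) : K) * algebraMap F K (X i ^ c i) := by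
        have h6 := Pool.Agent.Y547.OG.ld_zpow (DaZ θ a) (x := algebraMap F K (X i))
          ((map_ne_zero _).2 (hX i)) (c i)
        rw [DaZ_apply, DaZ_apply, Da_X hθ, mul_div_assoc, div_self ((map_ne_zero _).2 (hX i)),
          mul_one, ← map_zpow₀, div_eq_iff h4] at h6
        rw [h6]
        push_cast
        ring
      rw [Finset.prod_insert hi, Finset.sum_insert hi]
      refine ⟨mul_ne_zero h3 ih1, ?_, ?_⟩
      · rw [q.ord_mul h3 ih1, ih2, q.ord_zpow, hXo, mul_comm (c i)]
      · rw [map_mul, Derivation.leibniz, h5, ih3, smul_eq_mul, smul_eq_mul]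
        push_cast
        ring
  obtain ⟨ht0, ht1, ht2⟩ := hprod Finset.univ
  rw [hc] at ht1 ht2
  have h2 : ∀ f : F, q.Reg f → Ge P 1 (DaZ θ a (algebraMap F K f)) := by
    intro f hf
    by_cases hf0 : f = 0
    · left
      rw [hf0, map_zero, map_zero]
    have hfK : algebraMap F K f ≠ 0 := (map_ne_zero _).2 hf0
    have h3 : DaZ θ a (algebraMap F K f) = (Da θ a (algebraMap F K f) / algebraMap F K f) *
        algebraMap F K f := by
      rw [DaZ_apply]
      field_simp
    rw [h3]
    have h4 := (q.reg_iff hf0).1 hf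
    rcases eq_or_lt_of_le h4 with h5 | h5
    · have h6 := tor_log hG hθ a hq hO f hf0
      rw [← h5, Int.cast_zero, sub_zero] at h6
      have h7 := h6.mul (over_ge hO (show Ge q 0 f from Or.inr h4))
      simpa using h7
    · have h6 : Ge P 0 (Da θ a (algebraMap F K f) / algebraMap F K f) := h1 a f
      have h7 := h6.mul (over_ge1 hO (show Ge q 1 f from Or.inr h5))
      simpa using h7
  have h3 := (t_res k F K q P e hO (DaZ θ a) h2 (h1 a)).2 _ ht1 g hg
  rw [DaZ_apply, DaZ_apply, ht2, Int.cast_one, one_mul,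
    div_self ((map_ne_zero _).2 ht0), mul_one] at h3
  exact h3

end Pool.Agent.Q288.TE
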