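import Pool.Agent.Q288.TE.StP

/-!
Finitely many saturated sublattices suffice.
-/

set_option autoImplicit false

namespace Pool.Agent.Q288.TE

theorem rank_lt {b : ℕ} {N M : Submodule ℤ (Fin b → ℤ)} (hle : N ≤ M) {a : Fin b → ℤ}
    (ha : a ∈ M) (hn : ∀ n : ℤ, n ≠ 0 → n • a ∉ N) :
    Module.finrank ℤ N < Module.finrank ℤ M := by
  classical
  obtain ⟨r, B⟩ := Submodule.basisOfPid (Pi.basisFun ℤ (Fin b)) N
  have hr : Module.finrank ℤ N = r := by
    rw [Module.finrank_eq_card_basis B, Fintype.card_fin]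
  let f : Fin r → M := fun l => ⟨B l, hle (B l).2⟩
  have hBs : ∀ g : Fin r → ℤ, ((∑ l, g l • f l : M) : Fin b → ℤ)
      = ((∑ l, g l • B l : N) : Fin b → ℤ) := by
    intro g
    rw [Submodule.coe_sum, Submodule.coe_sum]
    rfl
  have hli : LinearIndependent ℤ (Fin.cons (α := fun _ => M) (⟨a, ha⟩ : M) f) := by
    rw [Fintype.linearIndependent_iff]
    intro g hg
    rw [Fin.sum_univ_succ] at hg
    simp only [Fin.cons_zero, Fin.cons_succ] at hg
    have h1 : g 0 • a + ((∑ l : Fin r, g l.succ • B l : N) : Fin b → ℤ) = 0 := by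
      rw [← hBs fun l => g l.succ]
      exact congrArg Subtype.val hg
    have h3 : g 0 = 0 := by
      by_contra h0
      apply hn (g 0) h0
      have h4 : g 0 • a = -((∑ l : Fin r, g l.succ • B l : N) : Fin b → ℤ) :=
        eq_neg_of_add_eq_zero_left h1
      rw [h4]
      exact N.neg_mem (∑ l : Fin r, g l.succ • B l : N).2
    rw [h3, zero_smul, zero_add] at h1
    have h5 : ∑ l : Fin r, g l.succ • B l = 0 := Subtype.ext h1
    have h6 := Fintype.linearIndependent_iff.1 B.linearIndependent (fun l => g l.succ) h5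
    intro i
    exact Fin.cases h3 (fun l => h6 l) i
  have h7 := hli.fintype_card_le_finrank
  rw [Fintype.card_fin] at h7
  omega

theorem t_sub : St_sub := by
  classical
  intro b ι L hsat hL
  let M : Finset ι → Submodule ℤ (Fin b → ℤ) := fun S => ⨅ i ∈ S, L i
  have hmem : ∀ (S : Finset ι) (a : Fin b → ℤ), a ∈ M S ↔ ∀ i ∈ S, a ∈ L i := by
    intro S a
    simp [M, Submodule.mem_iInf]
  obtain ⟨S, -, hmin⟩ := (measure fun S => Module.finrank ℤ (M S)).wf.has_min Set.univ
    ⟨∅, trivial⟩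
  refine ⟨S, fun a ha => ?_⟩
  by_contra hcon
  push Not at hcon
  obtain ⟨i, hi⟩ := hL a ha
  refine hmin (insert i S) trivial (rank_lt (a := a) (fun x hx => ?_) ((hmem S a).2 hcon)
    fun n hn hx => hi (hsat i n a hn ((hmem _ _).1 hx i (Finset.mem_insert_self i S))))
  exact (hmem S x).2 fun l hl => (hmem _ _).1 hx l (Finset.mem_insert_of_mem hl)

end Pool.Agent.Q288.TE
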