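import Pool.Agent.Q288.TE.StL
import Pool.Agent.Y500.OG.Coef
import Pool.Agent.Y32.OG.Tor

/-!
The step `St_tall`: functions with poles over `f = 0` which are regular over the rays of a fan are
regular over all weights.
-/

set_option autoImplicit false
set_option linter.overlappingInstances false

namespace Pool.Agent.Q288.TE

open FF MvPolynomial Pool.Agent.W603.LV Pool.Agent.W602.GT Pool.Agent.TH122.AB
open Pool.Agent.Y192.OG

section reg

variable {k F K : Type} [Field k] [Field F] [Field K] [Algebra k F] [Algebra k K] [Algebra F K]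
  [IsScalarTower k F K]

/-- an element whose minimal polynomial has regular coefficients is regular -/
theorem reg_of_coeff (q : Place k F) (P : Place k K) (e : ℕ) (h : Over P q e) (z : K)
    (hint : IsIntegral F z) (hc : ∀ i, q.Reg ((minpoly F z).coeff i)) : P.Reg z := by
  let iA : Algebra q.O K := Pool.Agent.W619.PQ.algO (F := K) q
  have hl : minpoly F z ∈ Polynomial.lifts q.O.subtype := by
    rw [Polynomial.lifts_iff_coeff_lifts]
    intro i
    exact ⟨⟨_, hc i⟩, rfl⟩
  obtain ⟨Q, hQ, -, hQm⟩ :=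
    Polynomial.lifts_and_natDegree_eq_and_monic hl (minpoly.monic hint)
  have hb : IsIntegral q.O z := by
    refine ⟨Q, hQm, ?_⟩
    have h1 : (algebraMap q.O K) = (algebraMap F K).comp q.O.subtype := rfl
    rw [h1, ← Polynomial.eval₂_map, hQ]
    exact minpoly.aeval F z
  exact P.reg_of_isIntegral (A := q.O) (fun a => h.reg.2 a.2) hb

end reg

section poly

variable {k F : Type} [Field k] [Field F] [Algebra k F] {b : ℕ} {X : Fin b → F}

theorem one_le_deg {p : MvPolynomial (Fin b) k} (hp : Irreducible p) : 1 ≤ p.totalDegree := by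
  rcases Nat.eq_zero_or_pos p.totalDegree with h | h
  · exfalso
    have h1 := totalDegree_eq_zero_iff_eq_C.1 h
    refine hp.not_isUnit ?_
    rw [h1]
    refine IsUnit.map C ?_
    rw [isUnit_iff_ne_zero]
    intro h2
    rw [h2, map_zero] at h1
    exact hp.ne_zero h1
  · exact h

theorem le_deg_pow {p : MvPolynomial (Fin b) k} (hp : Irreducible p) (e : ℕ) :
    e ≤ (p ^ e).totalDegree := by
  induction e with
  | zero => exact Nat.zero_le _
  | succ e ih =>
    rw [pow_succ, totalDegree_mul_of_isDomain (pow_ne_zero _ hp.ne_zero) hp.ne_zero]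
    have := one_le_deg hp
    omega

/-- the order of a polynomial at an adic place is at most its degree -/
theorem ord_le_deg (h : Gens (k := k) X) {p : MvPolynomial (Fin b) k}
    (hp : Irreducible p) {q : Place k F} (hq : IsAdic X p q) {B : MvPolynomial (Fin b) k}
    (hB : B ≠ 0) : q.ord (aeval X B) ≤ B.totalDegree := by
  have hfin : FiniteMultiplicity p B :=
    FiniteMultiplicity.of_prime_left (UniqueFactorizationMonoid.irreducible_iff_prime.1 hp) hB
  obtain ⟨B', hB', hnd⟩ := hfin.exists_eq_pow_mul_and_not_dvd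
  set e := multiplicity p B with he
  have hB'0 : B' ≠ 0 := by
    rintro rfl
    exact hnd (dvd_zero _)
  have hdeg : e ≤ B.totalDegree := by
    rw [hB', totalDegree_mul_of_isDomain (pow_ne_zero _ hp.ne_zero) hB'0]
    have := le_deg_pow hp e
    omega
  have h1 : q.ord (aeval X B') = 0 := (hq.2 B' hB'0).2.2 hnd
  have h2 : q.ord (aeval X B) = e := by
    rw [hB', map_mul, map_pow, q.ord_mul (pow_ne_zero _ (h.ne hp.ne_zero)) (h.ne hB'0),
      q.ord_pow, h1, hq.1]
    simp
  rw [h2]
  exact_mod_cast hdeg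

/-- functions which are regular outside `f = 0` and the coordinate hyperplanes -/
theorem poly_rep (h : Gens (k := k) X) {f : MvPolynomial (Fin b) k} (hf : f ≠ 0) (c : F)
    (hc : ∀ p : MvPolynomial (Fin b) k, Irreducible p → (∀ i, ¬ (MvPolynomial.X i ∣ p)) →
      ¬ p ∣ f → ∀ q : Place k F, IsAdic X p q → q.Reg c) :
    ∃ (M N : ℕ) (g : MvPolynomial (Fin b) k), c * aeval X f ^ M * (∏ i, X i) ^ N = aeval X g := by
  by_cases hc0 : c = 0
  · exact ⟨0, 0, 0, by simp [hc0]⟩
  obtain ⟨A, B, hB, hAB⟩ := h.gen c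
  have hA : A ≠ 0 := by
    rintro rfl
    exact hc0 (by rw [hAB, map_zero, zero_div])
  have hfX : aeval X f ≠ 0 := h.ne hf
  obtain ⟨N, hN⟩ := Pool.Agent.Y500.OG.poly_of_reg' h (c * aeval X f ^ B.totalDegree)
    (fun p hp hpi q hq => by
      have hfn : 0 ≤ q.ord (aeval X f) := (hq.2 f hf).1
      have hfreg : q.Reg (aeval X f ^ B.totalDegree) := by
        rw [q.reg_iff (pow_ne_zero _ hfX), q.ord_pow]
        positivity
      by_cases hpf : p ∣ f
      · rw [q.reg_iff (mul_ne_zero hc0 (pow_ne_zero _ hfX)),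
          q.ord_mul hc0 (pow_ne_zero _ hfX), q.ord_pow, hAB, q.ord_div (h.ne hA) (h.ne hB)]
        have h1 := (hq.2 A hA).1
        have h2 := ord_le_deg h hp hq hB
        have h3 : 1 ≤ q.ord (aeval X f) := by
          rcases lt_or_eq_of_le hfn with h4 | h4
          · omega
          · exact absurd hpf ((hq.2 f hf).2.1 h4.symm)
        have h5 : (B.totalDegree : ℤ) * 1 ≤ B.totalDegree * q.ord (aeval X f) :=
          mul_le_mul_of_nonneg_left h3 (Nat.cast_nonneg _)
        linarith
      · exact q.reg_mul (hc p hp hpi hpf q hq) hfreg)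
  obtain ⟨g, hg⟩ := hN N le_rfl
  exact ⟨B.totalDegree, N, g, hg⟩

theorem tw_sum (A : Finset (Fin b → ℤ)) (c : (Fin b → ℤ) → ℕ) (s : Fin b →₀ ℕ) :
    tw (∑ a ∈ A, c a • a) s = ∑ a ∈ A, (c a : ℤ) * tw a s := by
  unfold tw
  simp only [Finset.sum_apply, Pi.smul_apply, Finset.sum_mul, Finset.mul_sum]
  rw [Finset.sum_comm]
  refine Finset.sum_congr rfl fun a _ => Finset.sum_congr rfl fun i _ => ?_
  rw [nsmul_eq_mul]
  ring

theorem sum_sum (A : Finset (Fin b → ℤ)) (c : (Fin b → ℤ) → ℕ) :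
    ∑ i, (∑ a ∈ A, c a • a) i = ∑ a ∈ A, (c a : ℤ) * ∑ i, a i := by
  simp only [Finset.sum_apply, Pi.smul_apply, Finset.mul_sum]
  rw [Finset.sum_comm]
  refine Finset.sum_congr rfl fun a _ => Finset.sum_congr rfl fun i _ => ?_
  rw [nsmul_eq_mul]

end poly

theorem t_tall : St_tall := by
  classical
  intro k F K _ _ _ _ _ _ _ _ _ b X hX f ψ hf hadic A hA hfan hray w hw q hq P e hPe
  have hint : IsIntegral F ψ := Algebra.IsIntegral.isIntegral ψ
  refine reg_of_coeff q P e hPe ψ hint fun i => ?_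
  set c := (minpoly F ψ).coeff i with hcdef
  by_cases hc0 : c = 0
  · exact Or.inl hc0
  obtain ⟨M, N, g, hg⟩ := poly_rep hX hf c fun p hp hpi hpf v hv =>
    Pool.Agent.Y500.OG.t_mp k F K v ψ (fun P e h => hadic p hp hpi hpf v hv P e h) i
  have hfX : aeval X f ≠ 0 := hX.ne hf
  have hg0 : g ≠ 0 := by
    rintro rfl
    rw [map_zero] at hg
    exact mul_ne_zero (mul_ne_zero hc0 (pow_ne_zero _ hfX)) (Pool.Agent.Y500.OG.prodX_ne hX N) hg
  -- the order of `c` at a weight place
  have hord : ∀ (a : Fin b → ℤ) (v : Place k F), IsTor X a v →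
      v.ord c = v.ord (aeval X g) - M * v.ord (aeval X f) - N * ∑ i, a i := by
    intro a v hv
    have h1 := congrArg v.ord hg
    rw [v.ord_mul (mul_ne_zero hc0 (pow_ne_zero _ hfX)) (Pool.Agent.Y500.OG.prodX_ne hX N),
      v.ord_mul hc0 (pow_ne_zero _ hfX), Pool.Agent.Y500.OG.ord_prodX hX, v.ord_pow] at h1
    have h3 : ∑ i, v.ord (X i) = ∑ i, a i :=
      Finset.sum_congr rfl fun i _ => Pool.Agent.Y500.OG.tor_X hv i
    rw [h3] at h1
    linarith
  obtain ⟨t, ht, c', hw', hmin⟩ := hfan w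
  rw [q.reg_iff hc0, hord w q hq]
  obtain ⟨-, s0, hs0, hqs⟩ := hq g hg0
  have hqt := (hq f hf).1 t ht
  -- the inequality at the rays
  have hkey : ∀ a ∈ A, (c' a : ℤ) * (M * tw a t + N * ∑ i, a i) ≤ (c' a : ℤ) * tw a s0 := by
    intro a ha
    by_cases hca : c' a = 0
    · rw [hca]
      simp
    · refine mul_le_mul_of_nonneg_left ?_ (Nat.cast_nonneg _)
      obtain ⟨v, hv⟩ := Pool.Agent.Y32.OG.t_tor k F b X hX a (hA a ha)
      have hreg := Pool.Agent.Y500.OG.t_mp k F K v ψ (fun P e h => hray a ha v hv P e h) i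
      rw [← hcdef, v.reg_iff hc0, hord a v hv] at hreg
      obtain ⟨-, t', ht', hvt⟩ := hv f hf
      have h1 := hmin a ha hca t' ht'
      have h2 := (hv g hg0).1 s0 hs0
      have h3 : (M : ℤ) * tw a t ≤ M * v.ord (aeval X f) := by
        rw [hvt]
        exact mul_le_mul_of_nonneg_left h1 (Nat.cast_nonneg _)
      linarith
  have hsum := Finset.sum_le_sum hkey
  have e1 : ∑ a ∈ A, (c' a : ℤ) * (M * tw a t + N * ∑ i, a i) = M * tw w t + N * ∑ i, w i := by
    rw [hw', tw_sum, sum_sum, Finset.mul_sum, Finset.mul_sum, ← Finset.sum_add_distrib]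
    exact Finset.sum_congr rfl fun a _ => by ring
  have e2 : ∑ a ∈ A, (c' a : ℤ) * tw a s0 = tw w s0 := by
    rw [hw', tw_sum]
  rw [e1, e2] at hsum
  have h4 : (M : ℤ) * q.ord (aeval X f) ≤ M * tw w t :=
    mul_le_mul_of_nonneg_left hqt (Nat.cast_nonneg _)
  rw [hqs]
  linarith

end Pool.Agent.Q288.TE
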