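import Pool.Agent.Q288.TE.ThA1

/-!
The theorem on covers which are ramified in all directions.
-/

set_option autoImplicit false
set_option linter.unusedSectionVars false
set_option linter.overlappingInstances false

namespace Pool.Agent.Q288.TE

open FF MvPolynomial Pool.Agent.W603.LV Pool.Agent.W602.GT Pool.Agent.TH122.AB
open Pool.Agent.Y192.OG

section mon

variable {k K : Type} [Field k] [CharZero k] [Field K] [Algebra k K] {b : ℕ}
  {θ : Fin b → Derivation k K K}

theorem Da_single (θ : Fin b → Derivation k K K) (i : Fin b) (g : K) :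
    Da θ (Pi.single i 1) g = θ i g := by
  classical
  rw [Da_ap, Finset.sum_eq_single i]
  · rw [Pi.single_eq_same, Int.cast_one, one_mul]
  · intro j _ hj
    rw [Pi.single_eq_of_ne hj, Int.cast_zero, zero_mul]
  · intro h
    exact absurd (Finset.mem_univ i) h

theorem Da_x {x : Fin b → K} (hx : Th x θ) (a : Fin b → ℤ) (i : Fin b) :
    Da θ a (x i) = (a i : K) * x i := by
  classical
  rw [Da_ap, Finset.sum_eq_single i]
  · rw [hx i i, if_pos rfl]
  · intro j _ hj
    rw [hx j i, if_neg hj, mul_zero]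
  · intro h
    exact absurd (Finset.mem_univ i) h

theorem Da_mon {x : Fin b → K} (hx : Th x θ) (hx0 : ∀ i, x i ≠ 0) (a σ : Fin b → ℤ) :
    Da θ a (∏ i, x i ^ σ i) = ((∑ i, a i * σ i : ℤ) : K) * ∏ i, x i ^ σ i := by
  classical
  have key : ∀ s : Finset (Fin b), Da θ a (∏ i ∈ s, x i ^ σ i)
      = ((∑ i ∈ s, a i * σ i : ℤ) : K) * ∏ i ∈ s, x i ^ σ i := by
    intro s
    induction s using Finset.induction_on with
    | empty => simp
    | insert i s hi ih =>
      rw [Finset.prod_insert hi, Finset.sum_insert hi, Derivation.leibniz, ih,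
        Derivation.leibniz_zpow, Da_x hx, zpow_sub_one₀ (hx0 i)]
      simp only [smul_eq_mul]
      have := hx0 i
      push_cast
      field_simp
      ring
  exact key _

end mon

theorem t_thmA (h_fan : St_fan) (h_dnm : St_dnm) (h_dst : St_dst) (h_tall : St_tall)
    (h_fac : St_fac) (h_ptor : St_ptor) (h_padic : St_padic) (h_exth : St_exth)
    (h_off : St_off) (h_int : St_int) (h_sub : St_sub) (h_kap : St_kap) : St_thmA := by
  classical
  intro k F K _ _ _ _ _ _ _ _ _ _ b X hX hA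
  obtain ⟨⟨θ, hθ⟩, hcomm, hcompat⟩ := h_exth k F K b X hX
  have hcomm := hcomm θ hθ
  choose p hp hpa q hq P e hPq he using hA
  let I := {a : Fin b → ℤ // a ≠ 0}
  have hint := fun i : I => h_int k F K b X hX (p i.1 i.2) (hp i.1 i.2) (q i.1 i.2) (hq i.1 i.2)
    (P i.1 i.2) (e i.1 i.2) (hPq i.1 i.2)
  choose u hu1 hu2 using hint
  obtain ⟨S, hS⟩ := h_sub b I (fun i => tsub (p i.1 i.2))
    (fun i n a hn h => tsub_sat _ n a hn h) (fun a ha => ⟨⟨a, ha⟩, hpa a ha⟩)
  obtain ⟨f, hf0, hf⟩ := h_off k F K b X hX θ hθ (S.image u) (by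
    intro z hz
    obtain ⟨i, -, rfl⟩ := Finset.mem_image.1 hz
    exact hu2 i)
  set E := (Module.finrank F K).factorial with hEdef
  have hE : E ≠ 0 := Nat.factorial_ne_zero _
  obtain ⟨A, hA1, hA2⟩ := h_fan b (f.support.image fun c i => (c i : ℤ)) (by
    rw [Finset.image_nonempty]
    exact support_nonempty.2 hf0)
  obtain ⟨N, hN, hdn⟩ := h_dnm b A E (Nat.pos_of_ne_zero hE)
  refine ⟨N, hN, ?_⟩
  intro F1 K1 _ _ _ _ _ _ _ Y hY ι hι
  obtain ⟨⟨θ', hθ'⟩, -, -⟩ := h_exth k F1 K1 b Y hY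
  set y : Fin b → K1 := fun i => algebraMap F1 K1 (Y i) with hy
  have hy0 : ∀ i, y i ≠ 0 := fun i => by
    simp only [hy, ne_eq, map_eq_zero]
    exact X_ne hY i
  have hc1 := hcompat K1 ι N θ hθ y θ' hθ' hy0 hι
  have hN0 : (N : K1) ≠ 0 := by
    have : CharZero K1 := charZero_of_injective_algebraMap (algebraMap k K1).injective
    exact_mod_cast hN.ne'
  have hDa : ∀ (c : Fin b → ℤ) (g : K), Da θ' c (ι g) = (N : K1) * ι (Da θ c g) := by
    intro c g
    rw [Da_ap, Da_ap, map_sum, Finset.mul_sum]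
    refine Finset.sum_congr rfl fun i _ => ?_
    rw [hc1, map_mul, map_intCast]
    ring
  -- the functions
  let Φ : Set K1 := {g | (∀ p : MvPolynomial (Fin b) k, NM p → ∀ q : Place k F1, IsAdic Y p q →
      ∀ (P : Place k K1) (e : ℕ), Over P q e → e = 1 → P.Reg g) ∧
    ∀ w : Fin b → ℤ, Prim w → ∀ q : Place k F1, IsTor Y w q →
      ∀ (P : Place k K1) (e : ℕ), Over P q e → P.Reg g}
  have hΦD : ∀ (c : Fin b → ℤ), ∀ g ∈ Φ, Da θ' c g ∈ Φ := by
    intro c g hg
    refine ⟨fun p hp q hq P e hP he => ?_, fun w hw q hq P e hP => ?_⟩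
    · exact (h_padic k F1 K1 b Y hY θ' hθ' p hp q hq P e hP c).2.2.1 he g
        (hg.1 p hp q hq P e hP he)
    · have h1 := (h_ptor k F1 K1 b Y hY θ' hθ' w hw q hq P e hP).1 c g
      by_cases h0 : g = 0
      · rw [h0, map_zero]
        exact P.reg_zero
      · have h2 : Da θ' c g = g * (Da θ' c g / g) := by field_simp
        rw [h2]
        exact P.reg_mul (hg.2 w hw q hq P e hP) h1
  have key : ∀ a : Fin b → ℤ, a ≠ 0 → ∃ ψ ∈ Φ, Da θ' a ψ ≠ 0 := by
    intro a ha
    obtain ⟨i, hiS, hi⟩ := hS a ha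
    set p0 := p i.1 i.2 with hp0
    set q0 := q i.1 i.2 with hq0
    set P0 := P i.1 i.2 with hP0
    set e0 := e i.1 i.2 with he0
    have hPA := h_padic k F K b X hX θ hθ p0 (hp i.1 i.2) q0 (hq i.1 i.2) P0 e0 (hPq i.1 i.2)
    have hPA' : PA θ P0 e0 (fun c => p0 ∣ pw c p0) :=
      ⟨(hPq i.1 i.2).1, fun c => (hPA c).1, fun c => (hPA c).2.1, fun c => (hPA c).2.2.2⟩
    have hu0 : u i ≠ 0 := by
      intro h0
      have := hu1 i
      rw [h0, Place.ord_zero] at this
      exact zero_ne_one this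
    obtain ⟨M, hM⟩ := bnd' hX E (u i) A
    obtain ⟨σ, w, w1, w2, w3, w4⟩ := ops (E := E) hPA' hE hcomm hu0 (by
        rw [hu1 i]
        intro h1
        have h2 := Int.le_of_dvd one_pos h1
        have h3 : (2 : ℤ) ≤ e0 := by exact_mod_cast he i.1 i.2
        omega) A N hN hdn
      (fun a Q e' => ∃ q : Place k F, IsTor X a q ∧ Over Q q e')
      (by
        rintro c hc Q e' ⟨q', hq', hQ⟩
        obtain ⟨t1, t2⟩ := h_ptor k F K b X hX θ hθ c (hA1 c hc) q' hq' Q e' hQ
        exact ⟨hQ.1, t1, t2, fun g hg => h_fac k F K q' Q e' hQ _ g hg (minpoly.natDegree_le g)⟩)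
      M (by
        rintro c hc Q e' ⟨q', hq', hQ⟩
        exact hM c hc q' hq' Q e' hQ)
    -- the function
    set ψ : K1 := (∏ j, y j ^ σ j) * ι w with hψ
    have hmon0 : (∏ j, y j ^ σ j) ≠ 0 :=
      Finset.prod_ne_zero_iff.2 fun j _ => zpow_ne_zero _ (hy0 j)
    have hιw0 : ι w ≠ 0 := by
      rw [Ne, map_eq_zero]
      exact w2
    -- the monomial is a unit at the adic places
    have hmonA : ∀ p1 : MvPolynomial (Fin b) k, NM p1 → ∀ q1 : Place k F1, IsAdic Y p1 q1 →
        ∀ (P1 : Place k K1) (e1 : ℕ), Over P1 q1 e1 → (∀ j, P1.ord (y j) = 0) ∧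
        P1.ord (∏ j, y j ^ σ j) = 0 := by
      intro p1 hp1 q1 hq1 P1 e1 hP1
      have h1 : ∀ j, P1.ord (y j) = 0 := fun j => by
        simp only [hy]
        rw [hP1.2, ord_X_nm hp1 hq1, mul_zero]
      refine ⟨h1, ?_⟩
      rw [ord_prod P1 y hy0 σ]
      exact Finset.sum_eq_zero fun j _ => by rw [h1, mul_zero]
    -- adic places, unramified
    have hun : ∀ p1 : MvPolynomial (Fin b) k, NM p1 → ∀ q1 : Place k F1, IsAdic Y p1 q1 →
        ∀ (P1 : Place k K1) (e1 : ℕ), Over P1 q1 e1 → e1 = 1 →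
        ∀ v : K, Rch θ E (u i) v → P1.Reg (ι v) := by
      intro p1 hp1 q1 hq1 P1 e1 hP1 he1 v hv
      induction hv with
      | base =>
        let iA : Algebra (Algebra.adjoin k (Set.range fun i => algebraMap F K (X i))) K1 :=
          ((ι : K →+* K1).comp (algebraMap
            (Algebra.adjoin k (Set.range fun i => algebraMap F K (X i))) K)).toAlgebra
        refine P1.reg_of_isIntegral
          (A := Algebra.adjoin k (Set.range fun i => algebraMap F K (X i))) (fun a => ?_) ?_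
        · change P1.Reg (ι (a : K))
          obtain ⟨a, ha⟩ := a
          rw [Algebra.adjoin_range_eq_range_aeval] at ha
          obtain ⟨B, rfl⟩ := ha
          change P1.Reg (ι (aeval (fun i => algebraMap F K (X i)) B))
          have hB : aeval (fun i => algebraMap F K (X i)) B = algebraMap F K (aeval X B) :=
            MvPolynomial.aeval_algebraMap_apply K X B
          rw [hB, iota_poly hι]
          exact hP1.reg.2 (reg_pl hq1 _)
        · exact (hu2 i).map (⟨(ι : K →+* K1), fun r => rfl⟩ :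
            K →ₐ[Algebra.adjoin k (Set.range fun i => algebraMap F K (X i))] K1)
      | step c j v _ ih =>
        have h1 : P1.Reg (Da θ' c (ι v)) :=
          (h_padic k F1 K1 b Y hY θ' hθ' p1 hp1 q1 hq1 P1 e1 hP1 c).2.2.1 he1 _ ih
        rw [hDa] at h1
        have h2 : P1.Reg (ι (Da θ c v)) := by
          have h3 : ι (Da θ c v) = algebraMap k K1 ((N : k)⁻¹) * ((N : K1) * ι (Da θ c v)) := by
            rw [map_inv₀, map_natCast]
            field_simp
          rw [h3]
          exact P1.reg_mul (P1.reg_const _) h1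
        have h4 : ι ((E : K) * Da θ c v - (j : K) * v)
            = algebraMap k K1 (E : k) * ι (Da θ c v) + -(algebraMap k K1 (j : k) * ι v) := by
          rw [map_sub, map_mul, map_mul, map_natCast, map_intCast, map_natCast, map_intCast]
          ring
        rw [h4]
        exact P1.reg_add (P1.reg_mul (P1.reg_const _) h2)
          (P1.reg_neg (P1.reg_mul (P1.reg_const _) ih))
    -- adic places which do not divide `f`
    have hoff : ∀ p1 : MvPolynomial (Fin b) k, Irreducible p1 →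
        (∀ i, ¬ (MvPolynomial.X i ∣ p1)) → ¬ p1 ∣ expand N f →
        ∀ q1 : Place k F1, IsAdic Y p1 q1 → ∀ (P1 : Place k K1) (e1 : ℕ), Over P1 q1 e1 →
        P1.Reg ψ := by
      intro p1 hp1 hpX hpf q1 hq1 P1 e1 hP1
      obtain ⟨h1, h2⟩ := hmonA p1 ⟨hp1, hpX⟩ q1 hq1 P1 e1 hP1
      refine P1.reg_mul (Or.inr h2.ge) ?_
      refine hf E (u i) w (Finset.mem_image_of_mem _ hiS) w1 K1 ι P1 (fun j => ?_) ?_
      · rw [hι, P1.ord_pow]
        have := h1 j
        simp only [hy] at this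
        rw [this, mul_zero]
      · rw [iota_poly hι, hP1.2, (hq1.2 _ ((expand_ne_zero hN).2 hf0)).2.2 hpf, mul_zero]
    -- the places of the rays
    have hray : ∀ c ∈ A, ∀ q1 : Place k F1, IsTor Y c q1 → ∀ (P1 : Place k K1) (e1 : ℕ),
        Over P1 q1 e1 → P1.Reg ψ := by
      intro c hc q1 hq1 P1 e1 hP1
      obtain ⟨q', P', e', e2, t1, t2, t3, t4, t5⟩ := tor_down hX hY hN hι (hA1 c hc) hq1 hP1
      right
      have h1 := w4 c hc P' e' ⟨q', t1, t2⟩
      have h2 : P1.ord ψ = e1 * (∑ j, c j * σ j) + e2 * P'.ord w := by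
        rw [hψ, P1.ord_mul hmon0 hιw0, t4, ord_prod P1 y hy0 σ, Finset.mul_sum]
        congr 1
        refine Finset.sum_congr rfl fun j _ => ?_
        simp only [hy]
        rw [hP1.2, ord_X_tor hq1]
        ring
      have hN' : (0 : ℤ) < N := by exact_mod_cast hN
      have h3 : 0 ≤ (N : ℤ) * P1.ord ψ := by
        rw [h2]
        calc (0 : ℤ) ≤ e2 * (N * P'.ord w + e' * ∑ j, c j * σ j) :=
              mul_nonneg (Int.natCast_nonneg e2) h1
          _ = (e2 * e') * (∑ j, c j * σ j) + N * (e2 * P'.ord w) := by ring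
          _ = (e1 * N) * (∑ j, c j * σ j) + N * (e2 * P'.ord w) := by rw [t5]
          _ = _ := by ring
      exact nonneg_of_mul_nonneg_right (by linarith) hN'
    have hψΦ : ψ ∈ Φ := by
      refine ⟨fun p1 hp1 q1 hq1 P1 e1 hP1 he1 => ?_, ?_⟩
      · exact P1.reg_mul (Or.inr (hmonA p1 hp1 q1 hq1 P1 e1 hP1).2.ge)
          (hun p1 hp1 q1 hq1 P1 e1 hP1 he1 w w1)
      · refine h_tall k F1 K1 b Y hY (expand N f) ψ ((expand_ne_zero hN).2 hf0)
          (fun p1 hp1 hpX hpf q1 hq1 P1 e1 hP1 => hoff p1 hp1 hpX hpf q1 hq1 P1 e1 hP1)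
          A hA1 ?_ hray
        intro w'
        obtain ⟨t, ht, c, hc1, hc2⟩ := hA2 w'
        obtain ⟨t0, ht0, rfl⟩ := Finset.mem_image.1 ht
        refine ⟨N • t0, ?_, c, hc1, fun a' ha' hca t' ht' => ?_⟩
        · rw [support_expand f hN.ne']
          exact Finset.mem_image_of_mem _ ht0
        · rw [support_expand f hN.ne', Finset.mem_image] at ht'
          obtain ⟨t1, ht1, rfl⟩ := ht'
          have h1 := hc2 a' ha' hca _ (Finset.mem_image_of_mem _ ht1)
          rw [tw_smul, tw_smul]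
          exact mul_le_mul_of_nonneg_left h1 (Int.natCast_nonneg N)
    refine ⟨ψ, hψΦ, fun h0 => ?_⟩
    -- the derivative
    have h1 : Da θ' a ψ = (∏ j, y j ^ σ j) *
        ι ((N : K) * Da θ a w + ((∑ j, a j * σ j : ℤ) : K) * w) := by
      rw [hψ, Derivation.leibniz, Da_mon hθ' hy0, hDa]
      simp only [smul_eq_mul, map_add, map_mul, map_natCast, map_intCast]
      ring
    rw [h1] at h0
    have h2 : (N : K) * Da θ a w + ((∑ j, a j * σ j : ℤ) : K) * w = 0 := by
      have := (mul_eq_zero.1 h0).resolve_left hmon0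
      rwa [map_eq_zero] at this
    have hw0 : P0.ord w ≠ 0 := fun h => w3 (by rw [h]; exact dvd_zero _)
    obtain ⟨h3, h4⟩ := hPA'.tr a hi w hw0
    have hNZ : (N : ℤ) ≠ 0 := by exact_mod_cast hN.ne'
    have h5 : P0.ord ((N : K) * Da θ a w) = P0.ord w - e0 := by
      have h6 := ord_int hNZ P0
      have h7 := int_ne P0 hNZ
      rw [Int.cast_natCast] at h6 h7
      rw [P0.ord_mul h7 h3, h6, zero_add, h4]
    have h8 : (N : K) * Da θ a w = -(((∑ j, a j * σ j : ℤ) : K) * w) := by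
      linear_combination h2
    by_cases hs : (∑ j, a j * σ j : ℤ) = 0
    · rw [hs, Int.cast_zero, zero_mul, neg_zero] at h8
      have h7 := int_ne P0 hNZ
      rw [Int.cast_natCast] at h7
      exact (mul_ne_zero h7 h3) h8
    · rw [h8, P0.ord_neg, P0.ord_mul (int_ne P0 hs) w2, ord_int hs P0, zero_add] at h5
      have := hPA'.pos
      omega
  -- algebraicity
  have halgΦ : ∀ z : K1, IsAlgebraic (IntermediateField.adjoin k Φ) z := by
    refine h_dst k K1 b y (gens_tb hY) θ' hθ' Φ (fun i φ hφ => ?_) fun a ha => ?_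
    · have := hΦD (Pi.single i 1) φ hφ
      rwa [Da_single] at this
    · obtain ⟨ψ, h1, h2⟩ := key a ha
      refine ⟨ψ, h1, ?_⟩
      rwa [Da_ap] at h2
  have halg1 : Algebra.IsAlgebraic (Algebra.adjoin k Φ) K1 := by
    refine ⟨fun z => ?_⟩
    open scoped IntermediateField.algebraAdjoinAdjoin in
    exact (IsFractionRing.isAlgebraic_iff (Algebra.adjoin k Φ)
      (IntermediateField.adjoin k Φ) K1).2 (halgΦ z)
  obtain ⟨B, hBΦ, hB⟩ := exists_isTranscendenceBasis_subset (R := k) Φ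
  have hcard : Cardinal.mk B = Cardinal.mk (Fin b) :=
    hB.cardinalMk_eq (gens_tb (K := K1) hY)
  have hfinB : Finite B := by
    rw [← Cardinal.lt_aleph0_iff_finite, hcard, Cardinal.mk_fin]
    exact Cardinal.natCast_lt_aleph0
  obtain ⟨eB⟩ : Nonempty (Fin b ≃ B) := Cardinal.eq.1 hcard.symm
  set ψ : Fin b → K1 := fun i => (eB i : K1) with hψdef
  have hψΦ : ∀ i, ψ i ∈ Φ := fun i => hBΦ (eB i).2
  have hkap := fun i => h_kap k F1 K1 b Y hY (ψ i)
  choose κ hκ using hkap
  refine ⟨b, 1 + ∑ i, κ i, ψ, Nat.le_add_right _ _, fun z => ?_, ?_, ?_⟩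
  · have h1 : Set.range ψ = B := by
      ext z
      constructor
      · rintro ⟨i, rfl⟩
        exact (eB i).2
      · intro hz
        exact ⟨eB.symm ⟨z, hz⟩, by simp [hψdef]⟩
    have h2 := hB.isAlgebraic_field
    rw [Subtype.range_coe] at h2
    rw [h1]
    exact h2.isAlgebraic z
  · intro p1 hp1 q1 hq1 P1 e1 hP1 i
    refine ⟨?_, fun he1 => (hψΦ i).1 p1 hp1 q1 hq1 P1 e1 hP1 he1⟩
    have h1 : κ i ≤ 1 + ∑ i, κ i :=
      (Finset.single_le_sum (f := κ) (fun _ _ => Nat.zero_le _) (Finset.mem_univ i)).trans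
        (Nat.le_add_left _ _)
    obtain ⟨m, hm⟩ := Nat.exists_eq_add_of_le h1
    rw [hm, pow_add, ← mul_assoc]
    refine P1.reg_mul (hκ i p1 hp1 q1 hq1 P1 e1 hP1) ?_
    rw [← map_pow, ← map_pow]
    exact hP1.reg.2 (reg_pl hq1 _)
  · intro w hw q1 hq1 P1 e1 hP1 i
    exact (hψΦ i).2 w hw q1 hq1 P1 e1 hP1

end Pool.Agent.Q288.TE
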