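import Pool.Agent.Q288.TE.Fin5
import Pool.Agent.Q288.TE.ThA2
import Pool.Agent.Q288.TE.EntR
import Pool.Agent.Q288.TE.Fan
import Pool.Agent.Q288.TE.Dnm
import Pool.Agent.Q288.TE.Dst
import Pool.Agent.Q288.TE.Tall
import Pool.Agent.Q288.TE.Fac
import Pool.Agent.Q288.TE.Ptor
import Pool.Agent.Q288.TE.Padic
import Pool.Agent.Q288.TE.Exth
import Pool.Agent.Q288.TE.Off
import Pool.Agent.Q288.TE.Int
import Pool.Agent.Q288.TE.Sub
import Pool.Agent.Q288.TE.Kap
import Pool.Agent.Q288.TE.Bas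
import Pool.Agent.Q288.TE.Crv
import Pool.Agent.Q288.TE.Eig

/-!
The theorem on entire functions which are integral over quotients of exponential sums.
-/

set_option autoImplicit false

namespace Pool.Agent.Q288.TE

theorem all (h_data : St_data) (n : ℕ) (φ : Fin n → ℂ → ℂ)
    (hφ : ∀ i, Differentiable ℂ (φ i) ∧
        ∃ m k : ℕ, ∃ F : Fin m → ℂ → ℂ, ∃ G : Fin k → ℂ → ℂ,
          (∀ a, Differentiable ℂ (F a)) ∧ (∀ b, Differentiable ℂ (G b)) ∧
          (∃ z, ∑ b, Complex.exp (G b z) ≠ 0) ∧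
          ∀ z, φ i z * ∑ b, Complex.exp (G b z) = ∑ a, Complex.exp (F a z))
    (f : ℂ → ℂ) (hf : Differentiable ℂ f)
    (heq : ∀ z, f z ^ n + ∑ i : Fin n, φ i z * f z ^ (n - 1 - (i : ℕ)) = 0) :
    ∃ m k : ℕ, ∃ F : Fin m → ℂ → ℂ, ∃ G : Fin k → ℂ → ℂ,
      (∀ a, Differentiable ℂ (F a)) ∧ (∀ b, Differentiable ℂ (G b)) ∧
      (∃ z, ∑ b, Complex.exp (G b z) ≠ 0) ∧
      ∀ z, f z * ∑ b, Complex.exp (G b z) = ∑ a, Complex.exp (F a z) := by
  have hdom : IsDomain Ent := t_ent.1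
  have hic : IsIntegrallyClosed Ent := t_ent.2
  let em : Ent →ₐ[ℂ] FractionRing Ent := IsScalarTower.toAlgHom ℂ Ent (FractionRing Ent)
  have hem : Function.Injective em := IsFractionRing.injective Ent (FractionRing Ent)
  have hIC : IC em := fun y hy => IsIntegrallyClosed.isIntegral_iff.1 hy
  have hcrv : Crv em := by
    intro n h hn hh K _ _ φ x hx hD
    exact t_crv t_exp n (fun i => (h i : ℂ → ℂ)) hn (fun i => (h i).2) hh K φ x
      (fun i => ⟨ex (h i), fun z => rfl, hx i⟩) hD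
  exact rubel em t_bas t_bor hem hIC (t_eig t_ptor t_padic t_exth)
    (t_thmA t_fan t_dnm t_dst t_tall t_fac t_ptor t_padic t_exth t_off t_int t_sub t_kap)
    h_data hcrv n φ hφ f hf heq

end Pool.Agent.Q288.TE
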