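import Pool.Agent.Q288.TE.StM
import Pool.Agent.H159R3.Exp.Borel

/-!
# Independent bases, Borel's theorem, exponentials which are meromorphic at infinity
-/

set_option autoImplicit false

namespace Pool.Agent.Q288.TE

open Filter Topology

/-- the constant functions -/
def Cst : Submodule ℂ (ℂ → ℂ) where
  carrier := {f | ∃ c, ∀ z, f z = c}
  add_mem' := by
    rintro f g ⟨c, hc⟩ ⟨d, hd⟩
    exact ⟨c + d, fun z => by rw [Pi.add_apply, hc, hd]⟩
  zero_mem' := ⟨0, fun _ => rfl⟩
  smul_mem' := by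
    rintro a f ⟨c, hc⟩
    exact ⟨a * c, fun z => by rw [Pi.smul_apply, hc, smul_eq_mul]⟩

theorem mem_Cst {f : ℂ → ℂ} : f ∈ Cst ↔ ∃ c, ∀ z, f z = c := Iff.rfl

/-- the class modulo the constants, as a map of modules over the integers -/
def cls : (ℂ → ℂ) →ₗ[ℤ] ((ℂ → ℂ) ⧸ Cst) := (Cst.mkQ).restrictScalars ℤ

theorem cls_eq_zero {f : ℂ → ℂ} : cls f = 0 ↔ ∃ c, ∀ z, f z = c := by
  have h1 : cls f = Submodule.Quotient.mk f := rfl
  rw [h1, Submodule.Quotient.mk_eq_zero]
  rfl

theorem cls_sum {n : ℕ} (r : Fin n → ℤ) (h : Fin n → ℂ → ℂ) :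
    ∑ i, r i • cls (h i) = cls fun z => ∑ i, (r i : ℂ) * h i z := by
  have h1 : (fun z => ∑ i, (r i : ℂ) * h i z) = ∑ i, r i • h i := by
    ext z
    rw [Finset.sum_apply]
    refine Finset.sum_congr rfl fun i _ => ?_
    rw [Pi.smul_apply, zsmul_eq_mul]
  rw [h1, map_sum]
  exact Finset.sum_congr rfl fun i _ => (map_smul cls _ _).symm

theorem t_bas : St_bas := by
  intro m F hF
  let W : Submodule ℤ ((ℂ → ℂ) ⧸ Cst) := Submodule.span ℤ (Set.range fun a => cls (F a))
  have hfin : Module.Finite ℤ W := Module.Finite.span_of_finite ℤ (Set.finite_range _)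
  have htfV : Module.IsTorsionFree ℤ ((ℂ → ℂ) ⧸ Cst) := Module.IsTorsionFree.trans ℂ
  have haV : IsAddTorsionFree ((ℂ → ℂ) ⧸ Cst) :=
    Module.isTorsionFree_int_iff_isAddTorsionFree.mp htfV
  have htf : Module.IsTorsionFree ℤ W := inferInstance
  have hfree : Module.Free ℤ W := inferInstance
  let bs := Module.finBasis ℤ W
  have hlift : ∀ i, ∃ s : Fin m → ℤ, ∑ a, s a • cls (F a) = (bs i : (ℂ → ℂ) ⧸ Cst) := fun i =>
    (Submodule.mem_span_range_iff_exists_fun ℤ).mp (bs i).2
  choose s hs using hlift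
  refine ⟨Module.finrank ℤ W, fun i z => ∑ a, (s i a : ℂ) * F a z, ?_, ?_, ?_⟩
  · intro i
    exact Differentiable.fun_sum fun a _ => (hF a).const_mul _
  · intro r hr
    have h1 : ∑ i, r i • cls (fun z => ∑ a, (s i a : ℂ) * F a z) = 0 := by
      rw [cls_sum]
      exact cls_eq_zero.mpr hr
    have h2 : ∑ i, r i • bs i = 0 := by
      apply Subtype.ext
      rw [AddSubmonoidClass.coe_finsetSum]
      refine Eq.trans ?_ h1
      refine Finset.sum_congr rfl fun i _ => ?_
      rw [← cls_sum, hs]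
      rfl
    have h3 := Fintype.linearIndependent_iff.mp bs.linearIndependent r h2
    exact funext h3
  · intro a
    have hmem : cls (F a) ∈ W := Submodule.subset_span ⟨a, rfl⟩
    have h1 := bs.sum_repr ⟨cls (F a), hmem⟩
    have h2 : ∑ i, (bs.repr ⟨cls (F a), hmem⟩ i) • cls (fun z => ∑ a, (s i a : ℂ) * F a z) =
        cls (F a) := by
      have h3 := congrArg Subtype.val h1
      rw [AddSubmonoidClass.coe_finsetSum] at h3
      refine Eq.trans ?_ h3
      refine Finset.sum_congr rfl fun i _ => ?_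
      rw [← cls_sum, hs]
      rfl
    rw [cls_sum] at h2
    have h4 : cls (F a - fun z => ∑ i, ((bs.repr ⟨cls (F a), hmem⟩ i : ℤ) : ℂ) *
        ∑ a, (s i a : ℂ) * F a z) = 0 := by
      rw [map_sub, h2, sub_self]
    obtain ⟨c, hc⟩ := cls_eq_zero.mp h4
    refine ⟨c, fun i => bs.repr ⟨cls (F a), hmem⟩ i, fun z => ?_⟩
    rw [← hc z, Pi.sub_apply]
    ring

theorem t_bor : St_bor := by
  classical
  intro n h hh hInd S c hc r hr
  have h1 := Pool.Agent.H159R3.Exp.borel_spec (B := (Fin n → ℤ) →₀ ℂ)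
    (fun (r : Fin n → ℤ) z => ∑ i, (r i : ℂ) * h i z)
    (fun r => Differentiable.fun_sum fun i _ => (hh i).const_mul _)
    (fun r => Finsupp.single r 1) (by
      intro r r' a har
      have h2 : r - r' = 0 := by
        apply hInd
        refine ⟨a, fun z => ?_⟩
        have h3 : ∑ i, ((((r - r') i : ℤ)) : ℂ) * h i z =
            ∑ i, (r i : ℂ) * h i z - ∑ i, (r' i : ℂ) * h i z := by
          rw [← Finset.sum_sub_distrib]
          refine Finset.sum_congr rfl fun i _ => ?_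
          rw [Pi.sub_apply]
          push_cast
          ring
        rw [h3, har z]
        ring
      rw [sub_eq_zero] at h2
      subst h2
      have h4 : a = 0 := by
        have := har 0
        linear_combination -this
      rw [h4, Complex.exp_zero, one_smul]) S c hc
  have h5 := DFunLike.congr_fun h1 r
  rw [Finsupp.finsetSum_apply] at h5
  simp only [Finsupp.smul_single, smul_eq_mul, mul_one, Finsupp.single_apply,
    Finsupp.coe_zero, Pi.zero_apply] at h5
  rw [Finset.sum_ite_eq' S r, if_pos hr] at h5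
  exact h5

theorem t_exp : St_exp := by
  rintro h hh ⟨S, ⟨n, hn⟩, R0, hS⟩
  -- the growth of S
  obtain ⟨C, hC⟩ : ∃ C : ℝ, C = ‖((0 : ℂ) - 0) ^ n • S (0 : ℂ)⁻¹‖ + 1 := ⟨_, rfl⟩
  have hC0 : 0 < C := by rw [hC]; positivity
  have hev : ∀ᶠ w in 𝓝 (0 : ℂ), ‖(w - 0) ^ n • S w⁻¹‖ < C :=
    hn.continuousAt.norm.eventually_lt_const (by rw [hC]; linarith)
  obtain ⟨ε, hε, hball⟩ := Metric.eventually_nhds_iff.mp hev
  obtain ⟨R1, hR1⟩ : ∃ R1 : ℝ, R1 = max (max R0 (1 / ε)) 1 := ⟨_, rfl⟩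
  have hR1a : R0 ≤ R1 := by rw [hR1]; exact (le_max_left _ _).trans (le_max_left _ _)
  have hR1b : 1 / ε ≤ R1 := by rw [hR1]; exact (le_max_right _ _).trans (le_max_left _ _)
  have hR1c : 1 ≤ R1 := by rw [hR1]; exact le_max_right _ _
  have hbig : ∀ z : ℂ, R1 < ‖z‖ → (h z).re ≤ Real.log C + n * Real.log ‖z‖ := by
    intro z hz
    have hz0 : 0 < ‖z‖ := by linarith
    have hzne : z ≠ 0 := norm_pos_iff.mp hz0
    have h1 : dist z⁻¹ 0 < ε := by
      rw [dist_zero_right, norm_inv]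
      rw [inv_lt_comm₀ hz0 hε, ← one_div]
      linarith
    have h2 := hball h1
    rw [sub_zero, inv_inv, norm_smul, norm_pow, norm_inv, ← hS z (by linarith),
      Complex.norm_exp] at h2
    have h3 : Real.exp (h z).re ≤ C * ‖z‖ ^ n := by
      have h4 : (‖z‖⁻¹ ^ n * Real.exp (h z).re) * ‖z‖ ^ n ≤ C * ‖z‖ ^ n :=
        mul_le_mul_of_nonneg_right h2.le (by positivity)
      have h5 : (‖z‖⁻¹ ^ n * Real.exp (h z).re) * ‖z‖ ^ n = Real.exp (h z).re := by
        rw [inv_pow]
        field_simp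
      rwa [h5] at h4
    have h6 := Real.log_le_log (Real.exp_pos _) h3
    rw [Real.log_exp, Real.log_mul hC0.ne' (by positivity), Real.log_pow] at h6
    exact h6
  obtain ⟨A, hA⟩ := (isCompact_closedBall (0 : ℂ) R1).exists_bound_of_continuousOn
    hh.continuous.continuousOn
  have hA0 : 0 ≤ A := (norm_nonneg _).trans (hA 0 (Metric.mem_closedBall_self (by linarith)))
  obtain ⟨B, hB⟩ : ∃ B : ℝ, B = |Real.log C| + A + ‖h 0‖ + 1 := ⟨_, rfl⟩
  have hB0 : 0 < B := by rw [hB]; positivity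
  refine ⟨h 0, fun z => ?_⟩
  -- the theorem of Borel and Caratheodory
  have key : ∀ R : ℝ, 1 ≤ R → ‖z‖ < R →
      ‖h z - h 0‖ ≤ 2 * (n * Real.log R + B) * ‖z‖ / (R - ‖z‖) := by
    intro R hR hzR
    have hlog : 0 ≤ Real.log R := Real.log_nonneg hR
    have hn0 : 0 ≤ (n : ℝ) * Real.log R := mul_nonneg (Nat.cast_nonneg n) hlog
    refine Complex.borelCaratheodory_zero (f := fun z => h z - h 0) (by linarith)
      ((hh.sub_const _).differentiableOn) ?_ (by linarith) (mem_ball_zero_iff.mpr hzR)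
      (sub_self _)
    intro x hx
    rw [mem_ball_zero_iff] at hx
    change (h x - h 0).re ≤ n * Real.log R + B
    rw [Complex.sub_re]
    have h1 : -(h 0).re ≤ ‖h 0‖ := (neg_le_abs _).trans (Complex.abs_re_le_norm _)
    rcases le_or_gt ‖x‖ R1 with h2 | h2
    · have h3 := hA x (mem_closedBall_zero_iff.mpr h2)
      have h4 : (h x).re ≤ ‖h x‖ := Complex.re_le_norm _
      have h5 := abs_nonneg (Real.log C)
      linarith
    · have h3 := hbig x h2
      have h4 : Real.log ‖x‖ ≤ Real.log R := Real.log_le_log (by linarith) hx.le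
      have h5 := mul_le_mul_of_nonneg_left h4 (Nat.cast_nonneg (α := ℝ) n)
      have h6 := le_abs_self (Real.log C)
      linarith
  have hlim : Tendsto (fun R : ℝ => 2 * (n * Real.log R + B) * ‖z‖ / (R - ‖z‖)) atTop
      (𝓝 0) := by
    have h1 := Real.tendsto_pow_log_div_mul_add_atTop 1 (-‖z‖) 1 one_ne_zero
    have h2 := Real.tendsto_pow_log_div_mul_add_atTop 1 (-‖z‖) 0 one_ne_zero
    have h3 := (h1.const_mul (2 * n * ‖z‖)).add (h2.const_mul (2 * B * ‖z‖))
    rw [mul_zero, mul_zero, add_zero] at h3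
    refine h3.congr fun R => ?_
    rw [pow_one, pow_zero, one_mul, ← sub_eq_add_neg]
    ring
  have hle : ‖h z - h 0‖ ≤ 0 := by
    refine ge_of_tendsto hlim ?_
    filter_upwards [eventually_ge_atTop 1, eventually_gt_atTop ‖z‖] with R h1 h2
    exact key R h1 h2
  have h1 : h z - h 0 = 0 := norm_le_zero_iff.mp hle
  linear_combination h1

end Pool.Agent.Q288.TE
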