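import Pool.Agent.Q288.TE.StP
import Pool.Agent.Y192.OG.D8
import Pool.Agent.Y809.OG.Split
import Pool.Agent.Y290.OG.Lift
import Pool.Agent.Y220.OG.Conv
import Pool.Agent.Y500.OG.Coef
import Pool.Agent.Y32.OG.Tor
import Pool.Agent.Y32.OG.Val
import Pool.Agent.Y141.OG.Sqp

/-!
The data for the theorem on curves, from functions with poles along the ramification divisor.
-/

set_option autoImplicit false
set_option linter.unusedSectionVars false

namespace Pool.Agent.Q288.TE

open FF MvPolynomial Pool.Agent.W603.LV Pool.Agent.W602.GT Pool.Agent.TH122.AB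
open Pool.Agent.Y192.OG

section

variable {N : ℕ} {K : Type} [Field K] [Algebra ℂ K]
  {x : Fin N → Kˣ} {Γ : Submodule ℤ (Fin N → ℤ)} {b : ℕ} {bt : Fin b → Fin N → ℤ}
  {co : (Fin N → ℤ) →+ (Fin b → ℤ)} {F : IntermediateField (F0 x Γ) K} {X : Fin b → F}

/-- the polar polynomial of given functions -/
theorem regsA (h : Cx x Γ bt co F X) (h_sqp : St_sqp) {s κ : ℕ} (ψ : Fin s → K)
    (hψ1 : ∀ p : MvPolynomial (Fin b) (F0 x Γ), Irreducible p → (∀ i, ¬ (MvPolynomial.X i ∣ p)) →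
      ∀ q : Place (F0 x Γ) F, IsAdic X p q → ∀ (P : Place (F0 x Γ) K) (e : ℕ), Over P q e → ∀ i,
        P.Reg (ψ i * algebraMap F K (aeval X p) ^ κ)) :
    ∃ f0 : MvPolynomial (Fin b) (F0 x Γ), f0 ≠ 0 ∧ Squarefree f0 ∧
      (∀ i, ¬ (MvPolynomial.X i ∣ f0)) ∧
      (∀ f1 : MvPolynomial (Fin b) (F0 x Γ), f0 ∣ f1 →
        ∀ p : MvPolynomial (Fin b) (F0 x Γ), Irreducible p → (∀ i, ¬ (MvPolynomial.X i ∣ p)) →
        ∀ q : Place (F0 x Γ) F, IsAdic X p q → ∀ (P : Place (F0 x Γ) K) (e : ℕ), Over P q e →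
          ∀ i, P.Reg (ψ i * algebraMap F K (aeval X f1) ^ κ)) := by
  haveI := h.fin
  haveI : CharZero (F0 x Γ) := charZero_of_injective_algebraMap (algebraMap ℂ (F0 x Γ)).injective
  obtain ⟨A, hA0, hA⟩ := h.poles ψ
  obtain ⟨f0, M, hf0, hsq, hX, hfA, hAf⟩ := h_sqp (F0 x Γ) b A hA0
  refine ⟨f0, hf0, hsq, hX, ?_⟩
  intro f1 hf1 p hp hpX q hq P e hP i
  by_cases hpA : p ∣ A
  · have h1 : p ∣ f0 * ∏ i, MvPolynomial.X i := hp.prime.dvd_of_dvd_pow (hpA.trans hAf)
    have h2 : p ∣ f0 := by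
      rcases hp.prime.dvd_or_dvd h1 with h2 | h2
      · exact h2
      · exfalso
        obtain ⟨j, -, hj⟩ := (hp.prime.dvd_finsetProd_iff _).1 h2
        exact hpX j ((hp.associated_of_dvd MvPolynomial.X_prime.irreducible hj).symm.dvd)
    obtain ⟨t, ht⟩ := h2.trans hf1
    rw [ht, map_mul, map_mul, mul_pow, ← mul_assoc]
    refine P.reg_mul (hψ1 p hp hpX q hq P e hP i) ?_
    rw [← map_pow, ← map_pow]
    exact Cx.reg_poly hq hP _
  · have h3 : P.ord (algebraMap F K (aeval X A)) = 0 := by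
      rw [hP.2, (hq.2 A hA0).2.2 hpA, mul_zero]
    refine P.reg_mul (hA P (fun a => Cx.reg_poly hq hP a) h3 i) ?_
    rw [← map_pow, ← map_pow]
    exact Cx.reg_poly hq hP _

theorem dataA (h : Cx x Γ bt co F X) (h_lift : St_lift)
    (h_coef : St_coef) (h_den : St_den) (h_val : St_val) (h_sqp : St_sqp)
    {n κ : ℕ} (ψ : Fin n → K)
    (hψ1 : ∀ p : MvPolynomial (Fin b) (F0 x Γ), Irreducible p → (∀ i, ¬ (MvPolynomial.X i ∣ p)) →
      ∀ q : Place (F0 x Γ) F, IsAdic X p q → ∀ (P : Place (F0 x Γ) K) (e : ℕ), Over P q e → ∀ i,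
        P.Reg (ψ i * algebraMap F K (aeval X p) ^ κ) ∧ (e = 1 → P.Reg (ψ i)))
    (hr3 : ∀ w : Fin b → ℤ, Prim w → ∀ q : Place (F0 x Γ) F, IsTor X w q →
      ∀ (P : Place (F0 x Γ) K) (e : ℕ), Over P q e → ∀ i, P.Reg (ψ i)) :
    ∃ (f s : MvPolynomial (Fin b) (F0 x Γ))
      (A1 A2 g : AddMonoidAlgebra ℂ (Fin N → ℤ)) (M1 : ℕ) (Z : Finset K),
      f * s ≠ 0 ∧ Squarefree (f * s) ∧
      ep x A1 = aeval (fun j => (xm x (bt j) : K)) f ∧
      ep x A2 = aeval (fun j => (xm x (bt j) : K)) s ∧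
      (∀ m ∈ g.coeff.support, m ∈ Γ) ∧ ep x g ≠ 0 ∧
      (∀ i, ∃ D M c a A, Eqn x Γ bt co F X g (f * s) κ (ψ i) D M c a A) ∧
      (∀ i, (ep x : AddMonoidAlgebra ℂ (Fin N → ℤ) →+* K).IsIntegralElem
        (ep x A1 ^ κ * ep x g * ψ i)) ∧
      (∀ z ∈ Z, (ep x : AddMonoidAlgebra ℂ (Fin N → ℤ) →+* K).IsIntegralElem
        (ep x g * ep x A2 ^ M1 * z)) ∧
      ∀ (R : Subring K) (v : R → WithTop ℤ), IsV v → ∀ (W fr g1 : R) (h : Fin n → R),
        (∀ z ∈ Z, (W : K) * z ∈ R) → (fr : K) = ep x A1 →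
        (∀ i, (h i : K) = (fr : K) ^ κ * (g1 : K) * ψ i) → v W = 0 → v fr = 1 →
        ∀ i, ((κ : ℤ) : WithTop ℤ) ≤ v (h i) := by
  classical
  haveI := h.fin
  haveI : CharZero (F0 x Γ) := charZero_of_injective_algebraMap (algebraMap ℂ (F0 x Γ)).injective
  obtain ⟨f0, hf0, hsq, hX, hr1⟩ := regsA h h_sqp ψ
    (fun p hp hpX q hq P e hP i => (hψ1 p hp hpX q hq P e hP i).1)
  obtain ⟨f, A1, hff0, hf0f, hA1⟩ := h.scale h_lift f0
  have hf : f ≠ 0 := by
    rintro rfl
    exact hf0 (zero_dvd_iff.mp hff0)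
  have hfsq : Squarefree f := hsq.squarefree_of_dvd hff0
  have hfX : ∀ p : MvPolynomial (Fin b) (F0 x Γ), Irreducible p → p ∣ f →
      ∀ i, ¬ (MvPolynomial.X i ∣ p) := fun p _ hpf i hi => hX i ((hi.trans hpf).trans hff0)
  -- the auxiliary functions
  obtain ⟨Z, hZ1, hZ2⟩ := h_val (F0 x Γ) F K b X h.gens f hf hfsq 1 one_ne_zero
    (fun p hp hpf q hq P e hP => P.reg_one)
    κ n ψ (fun p hp hpf q hq P e hP he _ i => (hψ1 p hp (hfX p hp hpf) q hq P e hP i).2 he)
  have hden := fun z (hz : z ∈ Z) => h_den (F0 x Γ) F K b X h.gens f hf z (hZ1 z hz)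
  choose! sz hsz0 hszf Dz az hz using hden
  set s1 : MvPolynomial (Fin b) (F0 x Γ) := ∏ z ∈ Z, sz z with hs1
  have hs10 : s1 ≠ 0 := Finset.prod_ne_zero_iff.2 fun z hz => hsz0 z hz
  have hs1f : IsRelPrime s1 f := IsRelPrime.prod_left fun z hz => hszf z hz
  obtain ⟨s0, M1, hs00, hs0sq, -, hs0s1, hs1s0⟩ := h_sqp (F0 x Γ) b s1 hs10
  obtain ⟨s, A2, hss0, hs0s, hA2⟩ := h.scale h_lift s0
  have hs : s ≠ 0 := by
    rintro rfl
    exact hs00 (zero_dvd_iff.mp hss0)
  have hssq : Squarefree s := hs0sq.squarefree_of_dvd hss0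
  have hfs : IsRelPrime f s := (hs1f.of_dvd_left (hss0.trans hs0s1)).symm
  have hfssq : Squarefree (f * s) := squarefree_mul_iff.2 ⟨hfs, hfsq, hssq⟩
  have hfs0 : f * s ≠ 0 := mul_ne_zero hf hs
  -- the equations
  have hc1 := fun i => h_coef (F0 x Γ) F K b X h.gens (f * s) κ (ψ i) hfs0
    (fun p hp hpX q hq P e hP => hr1 (f * s) (hf0f.trans (Dvd.intro _ rfl)) p hp hpX q hq P e hP i)
    (fun w hw q hq P e hP => hr3 w hw q hq P e hP i)
  have hc2 := fun i => h_coef (F0 x Γ) F K b X h.gens f κ (ψ i) hf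
    (fun p hp hpX q hq P e hP => hr1 f hf0f p hp hpX q hq P e hP i)
    (fun w hw q hq P e hP => hr3 w hw q hq P e hP i)
  choose D1 N1 c1 a1 h11 h12 using hc1
  choose D2 N2 c2 a2 h21 h22 using hc2
  -- the denominators
  have hu : ∀ z ∈ Z, ∃ u, (s * ∏ i, MvPolynomial.X i) ^ M1 = sz z * u := by
    intro z hz
    have e1 : sz z ∣ s1 := Finset.dvd_prod_of_mem _ hz
    have e2 : (s0 * ∏ i, MvPolynomial.X i) ^ M1 ∣ (s * ∏ i, MvPolynomial.X i) ^ M1 :=
      pow_dvd_pow_of_dvd (mul_dvd_mul_right hs0s _) M1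
    exact (e1.trans hs1s0).trans e2
  choose! uz huz using hu
  -- common denominators
  set S : Finset (MvPolynomial (Fin b) (F0 x Γ)) :=
    (Finset.univ.biUnion fun i => (Finset.Icc 1 (D1 i)).image (a1 i)) ∪
    ((Finset.univ.biUnion fun i => (Finset.Icc 1 (D2 i)).image (a2 i)) ∪
      Z.biUnion fun z => (Finset.Icc 1 (Dz z)).image fun l => uz z ^ l * az z l) with hS
  obtain ⟨g, hg1, hg2, hg3⟩ := h_lift N K x Γ b bt co h.splt S
  have hS1 : ∀ i, ∀ l ∈ Finset.Icc 1 (D1 i), a1 i l ∈ S := fun i l hl =>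
    Finset.mem_union_left _ (Finset.mem_biUnion.2 ⟨i, Finset.mem_univ i,
      Finset.mem_image_of_mem _ hl⟩)
  have hS2 : ∀ i, ∀ l ∈ Finset.Icc 1 (D2 i), a2 i l ∈ S := fun i l hl =>
    Finset.mem_union_right _ (Finset.mem_union_left _ (Finset.mem_biUnion.2 ⟨i, Finset.mem_univ i,
      Finset.mem_image_of_mem _ hl⟩))
  have hS3 : ∀ z ∈ Z, ∀ l ∈ Finset.Icc 1 (Dz z), uz z ^ l * az z l ∈ S := fun z hz l hl =>
    Finset.mem_union_right _ (Finset.mem_union_right _ (Finset.mem_biUnion.2 ⟨z, hz,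
      Finset.mem_image_of_mem (fun l => uz z ^ l * az z l) hl⟩))
  choose! Al hAl1 hAl2 using hg3
  refine ⟨f, s, A1, A2, g, M1, Z, hfs0, hfssq, hA1, hA2, hg1, hg2, ?_, ?_, ?_, ?_⟩
  · intro i
    refine ⟨D1 i, N1 i, c1 i, a1 i, fun l => Al (a1 i l), h11 i, fun l hl => (h12 i l hl).1,
      fun l hl => (h12 i l hl).2, fun l hl => hAl1 _ (hS1 i l hl),
      fun l hl => hAl2 _ (hS1 i l hl)⟩
  · intro i
    rw [hA1]
    exact h.int7 (h21 i) (fun l hl => (h22 i l hl).1) (fun l hl => hAl1 _ (hS2 i l hl))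
  · intro z hzZ
    rw [hA2]
    exact h.int8 (huz z hzZ) (hz z hzZ) (fun l hl => hAl1 _ (hS3 z hzZ l hl))
  · intro R v hv W fr g1 hh e1 e2 e4 e5 e6
    exact hZ2 R v hv W fr 1 g1 hh e1 (by rw [e2, hA1, h.aev]) rfl e4 e5 e6
      (by rw [hv.one]; decide)

/-- Laurent polynomials are determined by their values at independent units -/
theorem ep_inj {n : ℕ} {x : Fin n → Kˣ} (hx : AlgebraicIndependent ℂ (fun i => (x i : K)))
    (g : Lau n) (hg : ep x g = 0) : g = 0 := by
  classical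
  let E : MvPolynomial (Fin n) ℂ →ₐ[ℂ] Lau n :=
    aeval (fun i => (AddMonoidAlgebra.single (Pi.single i 1) 1 : Lau n))
  have hprod : ∀ (c : Fin n →₀ ℕ) (s : Finset (Fin n)),
      ∏ i ∈ s, (AddMonoidAlgebra.single (Pi.single i 1) 1 : Lau n) ^ c i =
        AddMonoidAlgebra.single (∑ i ∈ s, c i • (Pi.single i 1 : Fin n → ℤ)) 1 := by
    intro c s
    induction s using Finset.induction_on with
    | empty => rfl
    | insert i s hi ih =>
      rw [Finset.prod_insert hi, ih, Finset.sum_insert hi, AddMonoidAlgebra.single_pow,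
        AddMonoidAlgebra.single_mul_single, one_pow, one_mul]
  have hmon : ∀ (c : Fin n →₀ ℕ) (a : ℂ), E (monomial c a) =
      AddMonoidAlgebra.single (fun i => (c i : ℤ)) a := by
    intro c a
    change aeval (fun i => (AddMonoidAlgebra.single (Pi.single i 1) 1 : Lau n)) (monomial c a) = _
    rw [aeval_monomial, Finsupp.prod_fintype _ _ (fun i => pow_zero _), hprod,
      ← Algebra.smul_def, AddMonoidAlgebra.smul_single, smul_eq_mul, mul_one]
    congr 1
    funext i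
    rw [Finset.sum_apply, Finset.sum_eq_single i]
    · simp
    · intro j _ hj
      simp [hj.symm]
    · intro h
      exact absurd (Finset.mem_univ i) h
  have hone : ∀ M : ℕ, E (monomial (Finsupp.equivFunOnFinite.symm fun _ => M) 1) =
      AddMonoidAlgebra.single (fun _ => (M : ℤ)) 1 := fun M => hmon _ _
  have key : ∀ g : Lau n, ∃ (M : ℕ) (P : MvPolynomial (Fin n) ℂ),
      AddMonoidAlgebra.single (fun _ => (M : ℤ)) (1 : ℂ) * g = E P := by
    intro g
    induction g using AddMonoidAlgebra.induction_linear with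
    | zero => exact ⟨0, 0, by rw [mul_zero, map_zero]⟩
    | add f g hf hg =>
      obtain ⟨M1, P1, h1⟩ := hf
      obtain ⟨M2, P2, h2⟩ := hg
      refine ⟨M1 + M2, monomial (Finsupp.equivFunOnFinite.symm fun _ => M2) 1 * P1 +
        monomial (Finsupp.equivFunOnFinite.symm fun _ => M1) 1 * P2, ?_⟩
      rw [map_add, map_mul, map_mul, hone, hone, ← h1, ← h2]
      have h3 : (AddMonoidAlgebra.single (fun _ => ((M1 + M2 : ℕ) : ℤ)) 1 : Lau n) =
          AddMonoidAlgebra.single (fun _ => (M1 : ℤ)) 1 *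
            AddMonoidAlgebra.single (fun _ => (M2 : ℤ)) 1 := by
        rw [AddMonoidAlgebra.single_mul_single, one_mul]
        congr 1
      rw [h3]
      ring
    | single m a =>
      refine ⟨∑ i, (m i).natAbs, monomial (Finsupp.equivFunOnFinite.symm fun i =>
        (m i + (∑ i, (m i).natAbs : ℕ)).toNat) a, ?_⟩
      rw [hmon, AddMonoidAlgebra.single_mul_single, one_mul]
      congr 1
      funext i
      have h1 : (m i).natAbs ≤ ∑ i, (m i).natAbs :=
        Finset.single_le_sum (f := fun i => (m i).natAbs) (fun _ _ => Nat.zero_le _)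
          (Finset.mem_univ i)
      simp only [Finsupp.equivFunOnFinite_symm_apply_apply, Pi.add_apply]
      omega
  obtain ⟨M, P, hP⟩ := key g
  have hE : ∀ P, ep x (E P) = aeval (fun i => (x i : K)) P := by
    intro P
    have h1 : (ep x).comp E = aeval (fun i => (x i : K)) := by
      apply MvPolynomial.algHom_ext
      intro i
      change ep x (E (MvPolynomial.X i)) = _
      rw [aeval_X, aeval_X, ep_single_one, xm_single]
    exact congrArg (fun f => f P) h1
  have h1 : aeval (fun i => (x i : K)) P = 0 := by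
    rw [← hE, ← hP, map_mul, hg, mul_zero]
  have h2 : P = 0 := (injective_iff_map_eq_zero _).mp hx P h1
  rw [h2, map_zero] at hP
  have h3 : (AddMonoidAlgebra.single (fun _ => (-(M : ℤ))) 1 : Lau n) *
      AddMonoidAlgebra.single (fun _ => (M : ℤ)) 1 = 1 := by
    rw [AddMonoidAlgebra.single_mul_single, one_mul]
    have h4 : ((fun _ => -(M : ℤ)) + fun _ => (M : ℤ) : Fin n → ℤ) = 0 := by
      funext i
      simp
    rw [h4]
    rfl
  have h4 := congrArg (fun y => (AddMonoidAlgebra.single (fun _ => (-(M : ℤ))) 1 : Lau n) * y) hP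
  simp only [mul_zero] at h4
  rw [← mul_assoc, h3, one_mul] at h4
  exact h4

/-- the data, for the trivial group -/
theorem dataB (h : Cx x Γ bt co F X) (hb : 0 < b)
    (hleast : ∀ Γ' : Submodule ℤ (Fin N → ℤ), Sat Γ' →
      (∀ g ∈ RingHom.ker (ep x), ∀ q, comp Γ' q g ∈ RingHom.ker (ep x)) → Γ ≤ Γ')
    (h_split : St_split) (h_lift : St_lift) (h_comp : St_comp) (h_gr : St_gr) (h_conv : St_conv)
    (h_coef : St_coef) (h_den : St_den) (h_val : St_val) (h_sqp : St_sqp)
    {n κ : ℕ} (hκ : 1 ≤ κ) (ψ : Fin n → K)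
    (hψ : ∀ z : K, IsAlgebraic (IntermediateField.adjoin ℂ (Set.range ψ)) z)
    (hψ1 : ∀ p : MvPolynomial (Fin b) (F0 x Γ), Irreducible p → (∀ i, ¬ (MvPolynomial.X i ∣ p)) →
      ∀ q : Place (F0 x Γ) F, IsAdic X p q → ∀ (P : Place (F0 x Γ) K) (e : ℕ), Over P q e → ∀ i,
        P.Reg (ψ i * algebraMap F K (aeval X p) ^ κ) ∧ (e = 1 → P.Reg (ψ i)))
    (hr3 : ∀ w : Fin b → ℤ, Prim w → ∀ q : Place (F0 x Γ) F, IsTor X w q →
      ∀ (P : Place (F0 x Γ) K) (e : ℕ), Over P q e → ∀ i, P.Reg (ψ i)) : DataOut K N x := by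
  classical
  have hS := h.splt
  have hom := h.hom
  obtain ⟨f, s, A1, A2, g, M1, Z, hfs0, hfssq, hA1, hA2, hg1, hg0, he, hi1, hi2, hv⟩ :=
    dataA h h_lift h_coef h_den h_val h_sqp ψ hψ1 hr3
  obtain ⟨R, j, hR1, hR2, hR3, hR4⟩ := mkR x
    ((Finset.univ.image fun i => ep x A1 ^ κ * ep x g * ψ i) ∪
      Z.image fun z => ep x g * ep x A2 ^ M1 * z) (by
    intro z hz
    rcases Finset.mem_union.mp hz with hz | hz
    · obtain ⟨i, -, rfl⟩ := Finset.mem_image.mp hz
      exact hi1 i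
    · obtain ⟨y, hy, rfl⟩ := Finset.mem_image.mp hz
      exact hi2 y hy)
  have hker : RingHom.ker j = RingHom.ker (ep x) := by
    ext g
    rw [RingHom.mem_ker, RingHom.mem_ker, ← hR3]
    constructor
    · intro h
      rw [h]
      rfl
    · intro h
      exact Subtype.ext h
  set c : F0 x Γ := ⟨ep x g, ep_mem hg1⟩ with hc
  have hc0 : c ≠ 0 := fun h0 => hg0 (congrArg Subtype.val h0)
  -- the function
  set ft : Lau N := A1 * A2 * g with hft
  have hfte : ep x ft = (c : K) * aeval (fun j => (xm x (bt j) : K)) (f * s) := by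
    rw [hft, map_mul, map_mul, hA1, hA2, map_mul]
    change _ = ep x g * _
    ring
  have hft0 : ep x ft ≠ 0 := by
    rw [hfte, ← h.aev]
    refine mul_ne_zero hg0 ?_
    rw [Ne, map_eq_zero]
    exact h.gens.ne hfs0
  let hp : Fin n → R := fun i => ⟨ep x A1 ^ κ * ep x g * ψ i,
    hR2 _ (Finset.mem_union_left _ (Finset.mem_image_of_mem _ (Finset.mem_univ i)))⟩
  let hh : Fin n → R := fun i => (j A2 * j g) ^ κ * hp i
  have hhv : ∀ i, (hh i : K) = ep x ft ^ κ * ep x g * ψ i := by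
    intro i
    change ((j A2 : K) * (j g : K)) ^ κ * (ep x A1 ^ κ * ep x g * ψ i) = _
    rw [hR3, hR3, hft, map_mul, map_mul]
    ring
  refine ⟨R, j, ft, κ, n, hh, Γ, hR3, hR4, ?_, ?_, ?_, ?_, ?_, ?_, ?_⟩
  · intro h0
    apply hft0
    rw [← hR3, h0]
    rfl
  · rw [hker]
    exact h_gr N K x Γ b bt co hS hom ft c (f * s) hc0 hfs0 hfssq hfte
  · rw [hker]
    exact hleast
  · rw [hker]
    exact hom
  · intro i
    obtain ⟨D, M, cc, a, A, hE⟩ := he i
    refine ⟨D, fun l => La bt g (A l) ((κ + 1) * l - 1) M, ?_, ?_⟩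
    · have h1 := h.eqL hE.eq hE.ce hE.li (r := κ + 1) (by omega)
        (u := ep x ft ^ κ * ep x g) (by
          rw [hfte]
          change (ep x g * _) ^ κ * ep x g = _
          ring)
      apply Subtype.ext
      rw [AddMemClass.coe_add, SubmonoidClass.coe_pow, AddSubmonoidClass.coe_finsetSum, hhv]
      change _ = (0 : K)
      rw [← h1]
      congr 1
      refine Finset.sum_congr rfl fun l _ => ?_
      rw [MulMemClass.coe_mul, SubmonoidClass.coe_pow, hhv, hR3]
    · intro l hl m hm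
      rw [hker]
      obtain ⟨c', hc', hw⟩ := La_supp hS hg1 (hE.su l hl) _ _ m hm
      have hl1 := (Finset.mem_Icc.mp hl).1
      refine h.inpol h_conv h_comp hc0 hfs0 hfte (Nat.mul_pos hl1 hκ) fun w => ?_
      obtain ⟨t, ht1, ht2⟩ := hE.wt l hl w c' hc'
      refine ⟨t, ht1, ?_⟩
      rw [hw w, mul_comm l κ]
      exact ht2
  · intro i
    exact alg_coord hR3 hft0 hg1 hg0 hhv (hψ (x i : K))
  · intro v hv1 hv2 i
    have h1 : v (j A1) + v (j A2) + v (j g) = 1 := by
      rw [← hv1.mul, ← hv1.mul, ← map_mul, ← map_mul]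
      exact hv2
    have h2 : v (hh i) = κ • (v (j A2) + v (j g)) + v (hp i) := by
      rw [hv1.mul, Pool.Agent.Y32.OG.pow_v hv1, hv1.mul]
    rw [h2]
    rcases three_one (hv1.nonneg _) (hv1.nonneg _) (hv1.nonneg _) h1 with ⟨e1, e2, e3⟩ | e
    · rw [e2, e3, add_zero, smul_zero, zero_add]
      refine hv R.toSubring (fun r => v ⟨r.1, r.2⟩) ?_ (⟨(j g * j A2 ^ M1 : R), Subtype.property _⟩)
        ⟨(j A1 : K), (j A1).2⟩ ⟨(j g : K), (j g).2⟩
        (fun i => ⟨(hp i : K), (hp i).2⟩) ?_ (hR3 A1) ?_ ?_ ?_ i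
      · exact ⟨hv1.one, fun a b => hv1.mul ⟨a.1, a.2⟩ ⟨b.1, b.2⟩,
          fun a b => hv1.add ⟨a.1, a.2⟩ ⟨b.1, b.2⟩, fun a => hv1.nonneg ⟨a.1, a.2⟩⟩
      · intro z hz
        have := hR2 _ (Finset.mem_union_right _ (Finset.mem_image_of_mem
          (fun z => ep x g * ep x A2 ^ M1 * z) hz))
        change ((j g : K) * (j A2 : K) ^ M1) * z ∈ R
        rw [hR3, hR3]
        exact this
      · intro i
        change ep x A1 ^ κ * ep x g * ψ i = (j A1 : K) ^ κ * (j g : K) * ψ i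
        rw [hR3, hR3]
      · change v (j g * j A2 ^ M1) = 0
        rw [hv1.mul, Pool.Agent.Y32.OG.pow_v hv1, e2, e3, smul_zero, add_zero]
      · exact e1
    · rw [e]
      have h3 : ∀ κ : ℕ, κ • (1 : WithTop ℤ) = ((κ : ℤ) : WithTop ℤ) := by
        intro κ
        induction κ with
        | zero =>
          rw [zero_smul]
          rfl
        | succ κ ih =>
          rw [succ_nsmul, ih]
          rfl
      rw [h3]
      exact le_add_of_nonneg_right (hv1.nonneg _)

end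

theorem data_of (h_split : St_split) (h_lift : St_lift) (h_comp : St_comp) (h_gr : St_gr)
    (h_conv : St_conv) (h_coef : St_coef) (h_den : St_den) (h_val : St_val) (h_sqp : St_sqp) :
    St_data := by
  classical
  intro K _ _ n x hn hx F' _ _ _ _ _ X' hX' hXx hF
  obtain ⟨s, κ, ψ, hκ, hψalg, hψ1, hψ2⟩ := hF
  let bt : Fin n → Fin n → ℤ := fun j => Pi.single j 1
  let co : (Fin n → ℤ) →+ (Fin n → ℤ) := AddMonoidHom.id _
  obtain ⟨Γ, hΓ⟩ : ∃ Γ : Submodule ℤ (Fin n → ℤ), Γ = ⊥ := ⟨_, rfl⟩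
  have hS : Splt Γ bt co := ⟨fun m => by rw [hΓ]; exact (Submodule.mem_bot ℤ).symm, fun j => rfl⟩
  have hom : ∀ g ∈ RingHom.ker (ep x), ∀ q, comp Γ q g ∈ RingHom.ker (ep x) := by
    intro g hg q
    rw [RingHom.mem_ker] at hg ⊢
    rw [ep_inj hx g hg]
    have h1 : comp Γ q 0 = 0 := by
      apply AddMonoidAlgebra.coeff_injective
      ext m
      rw [comp_coeff]
      split_ifs <;> rfl
    rw [h1, map_zero]
  obtain ⟨hind, hmon⟩ := h_split n K x Γ n bt co hS hom
  set Z : Fin n → K := fun j => (xm x (bt j) : K) with hZd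
  have hZ : ∀ j, Z j = (x j : K) := by
    intro j
    change (xm x (Pi.single j 1) : K) = _
    rw [xm_single]
  let F : IntermediateField (F0 x Γ) K := IntermediateField.adjoin (F0 x Γ) (Set.range Z)
  let X : Fin n → F := fun j => ⟨Z j, IntermediateField.subset_adjoin _ _ ⟨j, rfl⟩⟩
  have hgens : Gens (k := F0 x Γ) X := Pool.Agent.Y172.gens_of hind rfl fun j => rfl
  -- constants
  have hcst : Function.Surjective (algebraMap ℂ (F0 x Γ)) := by
    intro c
    have h1 : F0 x Γ ≤ ⊥ := by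
      unfold F0
      rw [IntermediateField.adjoin_le_iff]
      rintro _ ⟨γ, hγ, rfl⟩
      rw [hΓ, Submodule.mem_bot] at hγ
      rw [hγ, xm_zero]
      exact (⊥ : IntermediateField ℂ K).one_mem
    obtain ⟨r, hr⟩ := IntermediateField.mem_bot.mp (h1 c.2)
    exact ⟨r, Subtype.ext hr⟩
  let ε : ℂ ≃+* F0 x Γ := RingEquiv.ofBijective (algebraMap ℂ (F0 x Γ))
    ⟨(algebraMap ℂ (F0 x Γ)).injective, hcst⟩
  let μ : MvPolynomial (Fin n) ℂ ≃+* MvPolynomial (Fin n) (F0 x Γ) := MvPolynomial.mapEquiv (Fin n) ε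
  have hμ : ∀ A, μ A = MvPolynomial.map (algebraMap ℂ (F0 x Γ)) A := fun A => rfl
  have hXK : (⇑(algebraMap F K) ∘ X) = fun j => (x j : K) := funext hZ
  have hXK' : (⇑(algebraMap F' K) ∘ X') = fun j => (x j : K) := funext hXx
  have hpoly : ∀ A : MvPolynomial (Fin n) ℂ,
      algebraMap F K (aeval X (μ A)) = algebraMap F' K (aeval X' A) := by
    intro A
    have h1 : algebraMap F K (aeval X (μ A)) = aeval (fun j => (x j : K)) A := by
      rw [← MvPolynomial.aeval_algebraMap_apply, hXK, hμ, aeval_map_algebraMap]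
    have h2 : algebraMap F' K (aeval X' A) = aeval (fun j => (x j : K)) A := by
      rw [← MvPolynomial.aeval_algebraMap_apply, hXK']
    rw [h1, h2]
  have hmem : ∀ z : F', algebraMap F' K z ∈ F := by
    intro z
    obtain ⟨P, Q, hQ, hz⟩ := hX'.gen z
    rw [hz, map_div₀, ← hpoly, ← hpoly]
    exact F.div_mem (aeval X (μ P)).2 (aeval X (μ Q)).2
  let φ : F' →+* F := (algebraMap F' K).codRestrict F hmem
  have hφK : ∀ z, algebraMap F K (φ z) = algebraMap F' K z := fun z => rfl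
  have hφp : ∀ A, φ (aeval X' A) = aeval X (μ A) := by
    intro A
    apply (algebraMap F K).injective
    rw [hφK, hpoly]
  have hφs : Function.Surjective φ := by
    intro y
    obtain ⟨A, B, hB, hy⟩ := hgens.gen y
    refine ⟨aeval X' (μ.symm A) / aeval X' (μ.symm B), ?_⟩
    rw [map_div₀, hφp, hφp, μ.apply_symm_apply, μ.apply_symm_apply, hy]
  haveI hfin : FiniteDimensional F K := by
    letI := φ.toAlgebra
    haveI : IsScalarTower F' F K := IsScalarTower.of_algebraMap_eq (fun z => rfl)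
    exact Module.Finite.of_restrictScalars_finite F' F K
  -- places
  have hpl : ∀ q : Place (F0 x Γ) F, ∃ q' : Place ℂ F', ∀ z, q'.ord z = q.ord (φ z) := by
    intro q
    have hne : ∀ {z : F'}, z ≠ 0 → φ z ≠ 0 := fun {z} hz h0 => hz (φ.injective (by rw [h0, map_zero]))
    refine ⟨{ ord := fun z => q.ord (φ z)
              ord_zero := by rw [map_zero]; exact q.ord_zero
              ord_mul := fun {f g} hf hg => by rw [map_mul]; exact q.ord_mul (hne hf) (hne hg)
              ord_add := fun {f g} hf hg hfg => by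
                rw [map_add]
                exact q.ord_add (hne hf) (hne hg) (by rw [← map_add]; exact hne hfg)
              ord_const := fun {c} hc => by
                have h1 : φ (algebraMap ℂ F' c) = algebraMap (F0 x Γ) F (algebraMap ℂ (F0 x Γ) c) := by
                  apply (algebraMap F K).injective
                  rw [hφK, ← IsScalarTower.algebraMap_apply ℂ F' K]
                  rfl
                rw [h1]
                exact q.ord_const (fun h0 => hc ((map_eq_zero _).mp h0))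
              surj := by
                obtain ⟨t, ht, ht1⟩ := q.surj
                obtain ⟨z, rfl⟩ := hφs t
                exact ⟨z, fun h0 => ht (by rw [h0, map_zero]), ht1⟩ }, fun z => rfl⟩
  have hover : ∀ (q : Place (F0 x Γ) F) (q' : Place ℂ F'), (∀ z, q'.ord z = q.ord (φ z)) →
      ∀ (P : Place (F0 x Γ) K) (e : ℕ), Over P q e → Over (resP P) q' e := by
    intro q q' hq P e hP
    refine ⟨hP.1, fun z => ?_⟩
    rw [hq, ← hP.2, hφK]
    rfl
  refine dataB (F := F) (X := X) (bt := bt) (co := co)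
    ⟨hS, hom, fun j => rfl, hgens, splt_xm h_split hS hom, hfin⟩ hn ?_ h_split h_lift h_comp h_gr
    h_conv h_coef h_den h_val h_sqp hκ ψ hψalg ?_ ?_
  · intro Γ' _ _
    rw [hΓ]
    exact bot_le
  · intro p hp hpX q hq P e hP i
    obtain ⟨q', hq'⟩ := hpl q
    obtain ⟨p', rfl⟩ := μ.surjective p
    have h1 : NM p' := by
      refine ⟨(MulEquiv.irreducible_iff μ).mp hp, fun i hi => hpX i ?_⟩
      have h2 := map_dvd μ hi
      rwa [hμ, map_X] at h2
    have h2 : IsAdic X' p' q' := by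
      refine ⟨by rw [hq', hφp]; exact hq.1, fun A hA => ?_⟩
      have h3 := hq.2 (μ A) (fun h0 => hA (μ.injective (by rw [h0, map_zero])))
      rw [hq', hφp]
      refine ⟨h3.1, h3.2.trans ?_⟩
      rw [map_dvd_iff]
    have h3 := hψ1 p' h1 q' h2 (resP P) e (hover q q' hq' P e hP) i
    rw [← hpoly] at h3
    exact h3
  · intro w hw q hq P e hP i
    obtain ⟨q', hq'⟩ := hpl q
    have h2 : IsTor X' w q' := by
      intro A hA
      have h3 := hq (μ A) (fun h0 => hA (μ.injective (by rw [h0, map_zero])))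
      have h4 : (μ A).support = A.support := by
        rw [hμ]
        exact MvPolynomial.support_map_of_injective A (algebraMap ℂ (F0 x Γ)).injective
      rw [h4] at h3
      rw [hq', hφp]
      exact h3
    exact hψ2 w hw q' h2 (resP P) e (hover q q' hq' P e hP) i

theorem t_data : St_data :=
  data_of Pool.Agent.Y809.OG.t_split Pool.Agent.Y290.OG.t_lift
    Pool.Agent.Y809.OG.t_comp (Pool.Agent.Y290.OG.t_gr Pool.Agent.Y809.OG.t_split)
    Pool.Agent.Y220.OG.t_conv
    (Pool.Agent.Y500.OG.t_coef Pool.Agent.Y500.OG.t_mp Pool.Agent.Y32.OG.t_tor)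
    (Pool.Agent.Y500.OG.t_den Pool.Agent.Y500.OG.t_mp)
    Pool.Agent.Y32.OG.t_val
    Pool.Agent.Y141.OG.t_sqp

end Pool.Agent.Q288.TE
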