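import Pool.Agent.Q288.TE.StP

/-!
Exponential sums, and integrality over rings generated by exponentials.
-/

set_option autoImplicit false

namespace Pool.Agent.Q288.TE

open FF

/-- sums of exponentials of entire functions -/
def ES (u : ℂ → ℂ) : Prop :=
  ∃ (m : ℕ) (F : Fin m → ℂ → ℂ), (∀ a, Differentiable ℂ (F a)) ∧
    ∀ z, u z = ∑ a, Complex.exp (F a z)

theorem ES.add {u v : ℂ → ℂ} (hu : ES u) (hv : ES v) : ES (fun z => u z + v z) := by
  obtain ⟨m, F, h1, h2⟩ := hu
  obtain ⟨n, G, h3, h4⟩ := hv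
  refine ⟨m + n, Fin.append F G, fun a => ?_, fun z => ?_⟩
  · refine Fin.addCases (fun i => ?_) (fun i => ?_) a
    · rw [Fin.append_left]
      exact h1 i
    · rw [Fin.append_right]
      exact h3 i
  · change u z + v z = _
    rw [Fin.sum_univ_add, h2, h4]
    simp only [Fin.append_left, Fin.append_right]

theorem ES.zero : ES (fun _ => 0) := ⟨0, fun a => a.elim0, fun a => a.elim0, fun z => by simp⟩

theorem ES.sum {ι : Type} (s : Finset ι) (f : ι → ℂ → ℂ) (h : ∀ i ∈ s, ES (f i)) :
    ES (fun z => ∑ i ∈ s, f i z) := by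
  classical
  induction s using Finset.induction_on with
  | empty => simpa using ES.zero
  | insert i s hi ih =>
    simp only [Finset.sum_insert hi]
    exact (h i (Finset.mem_insert_self i s)).add
      (ih fun j hj => h j (Finset.mem_insert_of_mem hj))

theorem ES.exp_mul {u : ℂ → ℂ} (hu : ES u) {g : ℂ → ℂ} (hg : Differentiable ℂ g) :
    ES (fun z => Complex.exp (g z) * u z) := by
  obtain ⟨m, F, h1, h2⟩ := hu
  refine ⟨m, fun a z => g z + F a z, fun a => hg.add (h1 a), fun z => ?_⟩
  change Complex.exp (g z) * u z = _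
  rw [h2, Finset.mul_sum]
  exact Finset.sum_congr rfl fun a _ => by rw [Complex.exp_add]

theorem ES.mul {u v : ℂ → ℂ} (hu : ES u) (hv : ES v) : ES (fun z => u z * v z) := by
  obtain ⟨m, F, h1, h2⟩ := hu
  have : (fun z => u z * v z) = fun z => ∑ a : Fin m, Complex.exp (F a z) * v z := by
    funext z
    rw [h2, Finset.sum_mul]
  rw [this]
  exact ES.sum _ _ fun a _ => hv.exp_mul (h1 a)

theorem ES.exp {g : ℂ → ℂ} (hg : Differentiable ℂ g) : ES (fun z => Complex.exp (g z)) :=
  ⟨1, fun _ => g, fun _ => hg, fun z => by simp⟩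

theorem ES.const (c : ℂ) : ES (fun _ => c) := by
  by_cases hc : c = 0
  · rw [hc]
    exact ES.zero
  · have := ES.exp (differentiable_const (𝕜 := ℂ) (Complex.log c) : Differentiable ℂ
      fun _ : ℂ => Complex.log c)
    simpa [Complex.exp_log hc] using this

theorem ES.prod {ι : Type} (s : Finset ι) (f : ι → ℂ → ℂ) (h : ∀ i ∈ s, ES (f i)) :
    ES (fun z => ∏ i ∈ s, f i z) := by
  classical
  induction s using Finset.induction_on with
  | empty => simpa using ES.const 1
  | insert i s hi ih =>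
    simp only [Finset.prod_insert hi]
    exact (h i (Finset.mem_insert_self i s)).mul
      (ih fun j hj => h j (Finset.mem_insert_of_mem hj))

/-- the exponential of an entire function -/
noncomputable def ex (g : Ent) : Ent :=
  ⟨fun z => Complex.exp ((g : ℂ → ℂ) z), Differentiable.cexp (show Differentiable ℂ (g : ℂ → ℂ) from g.2)⟩

theorem ex_apply (g : Ent) (z : ℂ) : (ex g : ℂ → ℂ) z = Complex.exp ((g : ℂ → ℂ) z) := rfl

theorem ent_ext {f g : Ent} (h : ∀ z, (f : ℂ → ℂ) z = (g : ℂ → ℂ) z) : f = g :=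
  Subtype.ext (funext h)

theorem ex_add (g g' : Ent) : ex (g + g') = ex g * ex g' :=
  ent_ext fun _ => Complex.exp_add _ _

theorem ex_zero : ex 0 = 1 := ent_ext fun _ => Complex.exp_zero

theorem ex_ne (g : Ent) : ex g ≠ 0 := by
  intro h
  have h1 := congrArg (fun f : Ent => (f : ℂ → ℂ) 0) h
  exact Complex.exp_ne_zero _ h1

theorem ex_nsmul (n : ℕ) (g : Ent) : ex (n • g) = ex g ^ n := by
  induction n with
  | zero => rw [zero_smul, ex_zero, pow_zero]
  | succ n ih => rw [succ_nsmul, ex_add, ih, pow_succ]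

variable {n : ℕ}

/-- integral combinations -/
noncomputable def lin (h : Fin n → Ent) (r : Fin n → ℤ) : Ent := ∑ i, r i • h i

theorem lin_add (h : Fin n → Ent) (r s : Fin n → ℤ) : lin h (r + s) = lin h r + lin h s := by
  unfold lin
  rw [← Finset.sum_add_distrib]
  exact Finset.sum_congr rfl fun i _ => by rw [Pi.add_apply, add_smul]

theorem lin_zero (h : Fin n → Ent) : lin h 0 = 0 := by simp [lin]

theorem coe_sum {ι : Type} (s : Finset ι) (f : ι → Ent) (z : ℂ) :
    ((∑ i ∈ s, f i : Ent) : ℂ → ℂ) z = ∑ i ∈ s, (f i : ℂ → ℂ) z := by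
  have : ((∑ i ∈ s, f i : Ent) : ℂ → ℂ) = ∑ i ∈ s, (f i : ℂ → ℂ) :=
    map_sum Ent.val f s
  rw [this, Finset.sum_apply]

theorem lin_apply (h : Fin n → Ent) (r : Fin n → ℤ) (z : ℂ) :
    (lin h r : ℂ → ℂ) z = ∑ i, (r i : ℂ) * (h i : ℂ → ℂ) z := by
  unfold lin
  rw [coe_sum]
  refine Finset.sum_congr rfl fun i _ => ?_
  have : ((r i • h i : Ent) : ℂ → ℂ) = r i • (h i : ℂ → ℂ) := rfl
  rw [this, Pi.smul_apply, zsmul_eq_mul]

/-- the monomials -/
def Mn (h : Fin n → Ent) : Set Ent := Set.range fun r : Fin n → ℤ => ex (lin h r)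

/-- the ring generated by the monomials -/
noncomputable def Rg (h : Fin n → Ent) : Subalgebra ℂ Ent := Algebra.adjoin ℂ (Mn h)

section transfer

variable {A B : Type} [CommRing A] [CommRing B] [Algebra ℂ A] [Algebra ℂ B]

theorem int_up (φ : A →ₐ[ℂ] B) (S : Subalgebra ℂ A) {g : A} (hg : IsIntegral S g) :
    IsIntegral (S.map φ) (φ g) := by
  let ψ : S →+* S.map φ :=
    { toFun := fun s => ⟨φ s, s, s.2, rfl⟩
      map_one' := Subtype.ext (map_one φ)
      map_zero' := Subtype.ext (map_zero φ)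
      map_add' := fun a b => Subtype.ext (map_add φ _ _)
      map_mul' := fun a b => Subtype.ext (map_mul φ _ _) }
  exact IsIntegral.map_of_comp_eq ψ (φ : A →+* B) (by ext s; rfl) hg

theorem int_down (φ : A →ₐ[ℂ] B) (hφ : Function.Injective φ) (S : Subalgebra ℂ A) {g : A}
    (hg : IsIntegral (S.map φ) (φ g)) : IsIntegral S g := by
  obtain ⟨p, hp, hp0⟩ := hg
  let e : S ≃ₐ[ℂ] S.map φ := S.equivMapOfInjective φ hφ
  refine ⟨p.map (e.symm : S.map φ →+* S), hp.map _, hφ ?_⟩
  rw [map_zero, ← hp0, Polynomial.eval₂_map]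
  have h1 := Polynomial.hom_eval₂ p ((algebraMap S A).comp (e.symm : S.map φ →+* S))
    (φ : A →+* B) g
  have h2 : (φ : A →+* B).comp ((algebraMap S A).comp (e.symm : S.map φ →+* S))
      = algebraMap (S.map φ) B := by
    ext s
    change φ ((e.symm s : S) : A) = (s : B)
    have h3 : e (e.symm s) = s := e.apply_symm_apply s
    have h4 : ((e (e.symm s) : S.map φ) : B) = φ ((e.symm s : S) : A) := rfl
    rw [← h4, h3]
  rw [h2] at h1
  exact h1

theorem int_mono {S T : Subalgebra ℂ A} (h : S ≤ T) {g : A} (hg : IsIntegral S g) :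
    IsIntegral T g :=
  IsIntegral.map_of_comp_eq (Subalgebra.inclusion h).toRingHom (RingHom.id A)
    (by ext s; rfl) hg

end transfer

/-- integral elements are regular -/
theorem reg_of_int {L M : Type} [Field L] [Field M] [Algebra ℂ L] [Algebra ℂ M] (j : L →ₐ[ℂ] M)
    (P : Place ℂ L) (S : Subalgebra ℂ M) (hS : ∀ s ∈ S, ∃ l : L, j l = s ∧ P.Reg l) {u : L}
    (hu : IsIntegral S (j u)) : P.Reg u := by
  obtain ⟨p, hp, hp0⟩ := hu
  have hinj : Function.Injective j := j.toRingHom.injective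
  choose f hf1 hf2 using fun s : S => hS s.1 s.2
  let ψ : S →+* P.O :=
    { toFun := fun s => ⟨f s, hf2 s⟩
      map_one' := Subtype.ext (hinj (by rw [hf1]; exact (map_one j).symm))
      map_zero' := Subtype.ext (hinj (by rw [hf1]; exact (map_zero j).symm))
      map_add' := fun a b => Subtype.ext (hinj (by
        rw [hf1]
        change _ = j (f a + f b)
        rw [map_add, hf1, hf1]
        rfl))
      map_mul' := fun a b => Subtype.ext (hinj (by
        rw [hf1]
        change _ = j (f a * f b)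
        rw [map_mul, hf1, hf1]
        rfl)) }
  refine P.reg_of_isIntegral (A := P.O) (fun a => a.2) ⟨p.map ψ, hp.map _, hinj ?_⟩
  rw [map_zero, ← hp0, Polynomial.eval₂_map]
  have h1 := Polynomial.hom_eval₂ p ((algebraMap P.O L).comp ψ) (j : L →+* M) u
  have h2 : (j : L →+* M).comp ((algebraMap P.O L).comp ψ) = algebraMap S M := by
    ext s
    exact hf1 s
  rw [h2] at h1
  exact h1

end Pool.Agent.Q288.TE
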