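import Pool.Agent.Q288.TE.Ops2
import Pool.Agent.Y500.OG.Coef

/-!
Auxiliary facts for the theorem on covers which are ramified in all directions.
-/

set_option autoImplicit false
set_option linter.unusedSectionVars false
set_option linter.overlappingInstances false

namespace Pool.Agent.Q288.TE

open FF MvPolynomial Pool.Agent.W603.LV Pool.Agent.W602.GT Pool.Agent.TH122.AB
open Pool.Agent.Y192.OG

section pw

variable {k : Type} [Field k] [CharZero k] {b : ℕ}

theorem pw_ad (a a' : Fin b → ℤ) (p : MvPolynomial (Fin b) k) :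
    pw (a + a') p = pw a p + pw a' p := by
  unfold pw
  rw [← Finset.sum_add_distrib]
  refine Finset.sum_congr rfl fun i _ => ?_
  rw [Pi.add_apply, Int.cast_add]
  ring

theorem pw_smul (n : ℤ) (a : Fin b → ℤ) (p : MvPolynomial (Fin b) k) :
    pw (n • a) p = C (n : k) * pw a p := by
  unfold pw
  rw [Finset.mul_sum]
  refine Finset.sum_congr rfl fun i _ => ?_
  rw [Pi.smul_apply, smul_eq_mul, Int.cast_mul, map_intCast]
  ring

/-- the directions which are tangent to `p = 0` -/
noncomputable def tsub (p : MvPolynomial (Fin b) k) : Submodule ℤ (Fin b → ℤ) where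
  carrier := {a | p ∣ pw a p}
  add_mem' := by
    intro a a' h h'
    change p ∣ pw (a + a') p
    rw [pw_ad]
    exact dvd_add h h'
  zero_mem' := by
    change p ∣ pw 0 p
    have : pw (0 : Fin b → ℤ) p = 0 := by simp [pw]
    rw [this]
    exact dvd_zero _
  smul_mem' := by
    intro n a h
    change p ∣ pw (n • a) p
    rw [pw_smul]
    exact h.mul_left _

theorem mem_tsub {p : MvPolynomial (Fin b) k} {a : Fin b → ℤ} : a ∈ tsub p ↔ p ∣ pw a p :=
  Iff.rfl

theorem tsub_sat (p : MvPolynomial (Fin b) k) (n : ℤ) (a : Fin b → ℤ) (hn : n ≠ 0)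
    (h : n • a ∈ tsub p) : a ∈ tsub p := by
  rw [mem_tsub, pw_smul] at h
  rw [mem_tsub]
  have hu : IsUnit (C (n : k) : MvPolynomial (Fin b) k) := by
    refine IsUnit.map C ?_
    rw [isUnit_iff_ne_zero]
    exact_mod_cast hn
  exact (hu.dvd_mul_left).1 h

end pw

section fields

variable {k F K : Type} [Field k] [CharZero k] [Field F] [Field K] [Algebra k F] [Algebra k K]
    [Algebra F K] [IsScalarTower k F K] [FiniteDimensional F K] {b : ℕ} {X : Fin b → F}

theorem gens_tb (hX : Gens (k := k) X) :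
    IsTranscendenceBasis k (fun i => algebraMap F K (X i)) := by
  have halgF : Algebra.IsAlgebraic F K := Algebra.IsAlgebraic.of_finite F K
  have hXb : IsTranscendenceBasis k X := by
    rw [hX.ind.isTranscendenceBasis_iff_isAlgebraic]
    refine ⟨fun g => ?_⟩
    obtain ⟨A, B, hB, rfl⟩ := hX.gen g
    have hA' : aeval X A ∈ Algebra.adjoin k (Set.range X) := by
      rw [Algebra.adjoin_range_eq_range_aeval]; exact ⟨A, rfl⟩
    have hB' : aeval X B ∈ Algebra.adjoin k (Set.range X) := by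
      rw [Algebra.adjoin_range_eq_range_aeval]; exact ⟨B, rfl⟩
    rw [div_eq_mul_inv]
    exact (isAlgebraic_algebraMap (⟨_, hA'⟩ : Algebra.adjoin k (Set.range X))).mul
      (isAlgebraic_algebraMap (⟨_, hB'⟩ : Algebra.adjoin k (Set.range X))).inv
  exact hXb.algebraMap_comp

theorem X_ne (hX : Gens (k := k) X) (i : Fin b) : X i ≠ 0 := by
  have := hX.ne (MvPolynomial.X_ne_zero (R := k) i)
  rwa [aeval_X] at this

theorem tor_uniq (hX : Gens (k := k) X) {a : Fin b → ℤ} {q q' : Place k F}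
    (h : IsTor X a q) (h' : IsTor X a q') : q = q' := by
  have key : ∀ A : MvPolynomial (Fin b) k, A ≠ 0 → q.ord (aeval X A) = q'.ord (aeval X A) := by
    intro A hA
    obtain ⟨h1, c, hc, h2⟩ := h A hA
    obtain ⟨h3, c', hc', h4⟩ := h' A hA
    have h5 := h1 c' hc'
    have h6 := h3 c hc
    omega
  apply Place.ext
  funext z
  obtain ⟨A, B, hB, rfl⟩ := hX.gen z
  by_cases hA : A = 0
  · rw [hA, map_zero, zero_div, q.ord_zero, q'.ord_zero]
  · rw [q.ord_div (hX.ne hA) (hX.ne hB), q'.ord_div (hX.ne hA) (hX.ne hB), key A hA, key B hB]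

theorem bnd (hX : Gens (k := k) X) (E : ℕ) (z : K) (a : Fin b → ℤ) :
    ∃ M : ℕ, ∀ q : Place k F, IsTor X a q → ∀ (Q : Place k K) (e' : ℕ), Over Q q e' →
      RR Q e' E (-M) z := by
  classical
  have : CharZero F := charZero_of_injective_algebraMap (algebraMap k F).injective
  by_cases hq : ∃ q : Place k F, IsTor X a q
  · obtain ⟨q, hq⟩ := hq
    have hfin := Pool.Agent.Y172.finite_over (K' := K) q
    refine ⟨∑ Q ∈ hfin.toFinset, (E * (Q.ord z).natAbs), fun q' hq' Q e' hQ => ?_⟩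
    rw [tor_uniq hX hq' hq] at hQ
    right
    have h1 : E * (Q.ord z).natAbs ≤ ∑ Q ∈ hfin.toFinset, (E * (Q.ord z).natAbs) :=
      Finset.single_le_sum (f := fun Q : Place k K => E * (Q.ord z).natAbs)
        (fun _ _ => Nat.zero_le _) (hfin.mem_toFinset.2 ⟨e', hQ⟩)
    set M := ∑ Q ∈ hfin.toFinset, (E * (Q.ord z).natAbs) with hM
    have h2 : (E : ℤ) * |Q.ord z| ≤ M := by
      have : ((E * (Q.ord z).natAbs : ℕ) : ℤ) ≤ M := by exact_mod_cast h1
      rwa [Nat.cast_mul, Int.natCast_natAbs] at this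
    have h3 : -((E : ℤ) * |Q.ord z|) ≤ E * Q.ord z := by
      rw [← mul_neg]
      exact mul_le_mul_of_nonneg_left (neg_abs_le _) (Int.natCast_nonneg E)
    have h4 : (e' : ℤ) * (-M) ≤ 1 * (-M) :=
      mul_le_mul_of_nonpos_right (by exact_mod_cast hQ.1) (by
        have := Int.natCast_nonneg M
        omega)
    linarith
  · exact ⟨0, fun q hq' => absurd ⟨q, hq'⟩ hq⟩

theorem bnd' (hX : Gens (k := k) X) (E : ℕ) (z : K) (A : Finset (Fin b → ℤ)) :
    ∃ M : ℕ, ∀ a ∈ A, ∀ q : Place k F, IsTor X a q → ∀ (Q : Place k K) (e' : ℕ), Over Q q e' →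
      RR Q e' E (-M) z := by
  classical
  choose M hM using bnd (K := K) hX E z
  refine ⟨∑ a ∈ A, M a, fun a ha q hq Q e' hQ => ?_⟩
  have h1 : M a ≤ ∑ a ∈ A, M a :=
    Finset.single_le_sum (f := M) (fun _ _ => Nat.zero_le _) ha
  rcases hM a q hq Q e' hQ with h | h
  · exact Or.inl h
  · right
    refine le_trans ?_ h
    apply mul_le_mul_of_nonneg_left _ (Int.natCast_nonneg e')
    have : (M a : ℤ) ≤ ((∑ a ∈ A, M a : ℕ) : ℤ) := by exact_mod_cast h1
    omega

/-- the coordinates are units at the adic places of polynomials which are not monomials -/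
theorem ord_X_nm {p : MvPolynomial (Fin b) k} (hp : NM p) {q : Place k F}
    (hq : IsAdic X p q) (i : Fin b) : q.ord (X i) = 0 := by
  have h1 := (hq.2 (MvPolynomial.X i) (MvPolynomial.X_ne_zero i)).2.2 (by
    intro h
    have h2 : Associated p (MvPolynomial.X i) :=
      hp.1.associated_of_dvd MvPolynomial.X_prime.irreducible h
    exact hp.2 i h2.symm.dvd)
  rwa [aeval_X] at h1

theorem reg_pl {p : MvPolynomial (Fin b) k} {q : Place k F}
    (hq : IsAdic X p q) (A : MvPolynomial (Fin b) k) : q.Reg (aeval X A) := by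
  by_cases hA : A = 0
  · rw [hA, map_zero]
    exact q.reg_zero
  · exact Or.inr (hq.2 A hA).1

end fields

section down

variable {k F K F1 K1 : Type} [Field k] [CharZero k] [Field F] [Field K] [Algebra k F]
    [Algebra k K] [Algebra F K] [IsScalarTower k F K] [Field F1] [Field K1] [Algebra k F1]
    [Algebra k K1] [Algebra F1 K1] [IsScalarTower k F1 K1] {b : ℕ} {X : Fin b → F}
    {Y : Fin b → F1} {N : ℕ} {ι : K →ₐ[k] K1}

theorem iota_poly (hι : ∀ i, ι (algebraMap F K (X i)) = algebraMap F1 K1 (Y i) ^ N)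
    (A : MvPolynomial (Fin b) k) :
    ι (algebraMap F K (aeval X A)) = algebraMap F1 K1 (aeval Y (expand N A)) := by
  have h1 : algebraMap F K (aeval X A) = aeval (fun i => algebraMap F K (X i)) A :=
    (MvPolynomial.aeval_algebraMap_apply K X A).symm
  have h2 : algebraMap F1 K1 (aeval Y (expand N A))
      = aeval (fun i => algebraMap F1 K1 (Y i)) (expand N A) :=
    (MvPolynomial.aeval_algebraMap_apply K1 Y _).symm
  rw [h1, h2, aeval_expand, ← AlgHom.comp_apply, comp_aeval]
  congr 2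
  funext i
  exact hι i

theorem tw_smul (a : Fin b → ℤ) (c : Fin b →₀ ℕ) : tw a (N • c) = N * tw a c := by
  unfold tw
  rw [Finset.mul_sum]
  refine Finset.sum_congr rfl fun i _ => ?_
  rw [Finsupp.smul_apply, smul_eq_mul]
  push_cast
  ring

theorem tw_single (a : Fin b → ℤ) (i : Fin b) : tw a (Finsupp.single i 1) = a i := by
  classical
  unfold tw
  rw [Finset.sum_eq_single i]
  · simp
  · intro j _ hj
    rw [Finsupp.single_eq_of_ne (by exact hj)]
    simp
  · intro h
    exact absurd (Finset.mem_univ i) h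

theorem ord_X_tor {a : Fin b → ℤ} {q : Place k F} (hq : IsTor X a q) (i : Fin b) :
    q.ord (X i) = a i := by
  classical
  obtain ⟨-, c, hc, h1⟩ := hq (MvPolynomial.X i) (MvPolynomial.X_ne_zero i)
  rw [MvPolynomial.support_X, Finset.mem_singleton] at hc
  rw [aeval_X, hc, tw_single] at h1
  exact h1

theorem ord_prod {L : Type} [Field L] [Algebra k L] (P : Place k L) (z : Fin b → L)
    (hz : ∀ i, z i ≠ 0) (σ : Fin b → ℤ) :
    P.ord (∏ i, z i ^ σ i) = ∑ i, σ i * P.ord (z i) := by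
  classical
  have key : ∀ s : Finset (Fin b), P.ord (∏ i ∈ s, z i ^ σ i) = ∑ i ∈ s, σ i * P.ord (z i) := by
    intro s
    induction s using Finset.induction_on with
    | empty => simp [P.ord_one]
    | insert i s hi ih =>
      rw [Finset.prod_insert hi, Finset.sum_insert hi,
        P.ord_mul (zpow_ne_zero _ (hz i)) (Finset.prod_ne_zero_iff.2 fun j _ =>
          zpow_ne_zero _ (hz j)), ih, P.ord_zpow]
  exact key _

theorem tor_down (hX : Gens (k := k) X) (hY : Gens (k := k) Y) (hN : 0 < N)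
    (hι : ∀ i, ι (algebraMap F K (X i)) = algebraMap F1 K1 (Y i) ^ N)
    {a : Fin b → ℤ} (ha : Prim a) {q1 : Place k F1} (hq1 : IsTor Y a q1) {P1 : Place k K1}
    {e1 : ℕ} (h1 : Over P1 q1 e1) :
    ∃ (q : Place k F) (P : Place k K) (e e2 : ℕ), IsTor X a q ∧ Over P q e ∧ 0 < e2 ∧
      (∀ g : K, P1.ord (ι g) = e2 * P.ord g) ∧ (e1 : ℤ) * N = e2 * e := by
  classical
  have he1 : (0 : ℤ) < e1 := by exact_mod_cast h1.1
  have hN' : (0 : ℤ) < N := by exact_mod_cast hN
  let iA : Algebra K K1 := ι.toRingHom.toAlgebra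
  have hst : IsScalarTower k K K1 := IsScalarTower.of_algebraMap_eq fun c => (ι.commutes c).symm
  obtain ⟨c, hc⟩ := ha
  obtain ⟨i, hi⟩ : ∃ i, a i ≠ 0 := by
    by_contra hcon
    push Not at hcon
    simp [hcon] at hc
  have hord : ∀ A : MvPolynomial (Fin b) k, P1.ord (ι (algebraMap F K (aeval X A)))
      = e1 * q1.ord (aeval Y (expand N A)) := fun A => by rw [iota_poly hι, h1.2]
  have hXi : P1.ord (ι (algebraMap F K (X i))) = e1 * (N * a i) := by
    rw [hι, P1.ord_pow, h1.2, ord_X_tor hq1]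
    ring
  have hXi0 : P1.ord (ι (algebraMap F K (X i))) ≠ 0 := by
    rw [hXi]
    exact mul_ne_zero he1.ne' (mul_ne_zero hN'.ne' hi)
  obtain ⟨e2, P, h2⟩ := exists_over (k := k) (K := K) (K' := K1) P1 ⟨_, hXi0⟩
  have h2' : ∀ g : K, P1.ord (ι g) = e2 * P.ord g := h2.2
  have hPXi : P.ord (algebraMap F K (X i)) ≠ 0 := by
    intro h0
    apply hXi0
    rw [h2', h0, mul_zero]
  obtain ⟨e, q, h3⟩ := exists_over (k := k) (K := F) (K' := K) P ⟨_, hPXi⟩
  have he2 : (0 : ℤ) < e2 := by exact_mod_cast h2.1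
  have he : (0 : ℤ) < e := by exact_mod_cast h3.1
  have hmin : ∀ A : MvPolynomial (Fin b) k, A ≠ 0 →
      (∀ c ∈ A.support, (e2 : ℤ) * e * q.ord (aeval X A) ≤ e1 * N * tw a c) ∧
      ∃ c ∈ A.support, (e2 : ℤ) * e * q.ord (aeval X A) = e1 * N * tw a c := by
    intro A hA
    have h4 : (e2 : ℤ) * e * q.ord (aeval X A) = e1 * q1.ord (aeval Y (expand N A)) := by
      rw [← hord, h2', h3.2]
      ring
    have hA' : expand N A ≠ 0 := (expand_ne_zero hN).2 hA
    obtain ⟨h5, c, hc, h6⟩ := hq1 _ hA'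
    rw [support_expand A hN.ne', Finset.mem_image] at hc
    obtain ⟨c0, hc0, rfl⟩ := hc
    refine ⟨fun c hc => ?_, c0, hc0, ?_⟩
    · have h7 := h5 (N • c) (by
        rw [support_expand A hN.ne']
        exact Finset.mem_image_of_mem _ hc)
      rw [tw_smul] at h7
      rw [h4]
      calc (e1 : ℤ) * q1.ord (aeval Y (expand N A)) ≤ e1 * (N * tw a c) :=
            mul_le_mul_of_nonneg_left h7 he1.le
        _ = _ := by ring
    · rw [h4, h6, tw_smul]
      ring
  have hdiv : ∀ z : F, (e1 : ℤ) * N ∣ (e2 : ℤ) * e * q.ord z := by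
    intro z
    obtain ⟨A, B, hB, rfl⟩ := hX.gen z
    by_cases hA : A = 0
    · rw [hA, map_zero, zero_div, q.ord_zero, mul_zero]
      exact dvd_zero _
    · rw [q.ord_div (hX.ne hA) (hX.ne hB), mul_sub]
      obtain ⟨-, cA, -, h4⟩ := hmin A hA
      obtain ⟨-, cB, -, h5⟩ := hmin B hB
      rw [h4, h5, ← mul_sub]
      exact dvd_mul_right _ _
  have hXj : ∀ j, (e2 : ℤ) * e * q.ord (X j) = e1 * N * a j := by
    intro j
    obtain ⟨-, c', hc', h4⟩ := hmin (MvPolynomial.X j) (MvPolynomial.X_ne_zero j)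
    rw [MvPolynomial.support_X, Finset.mem_singleton] at hc'
    rwa [aeval_X, hc', tw_single] at h4
  have heq : (e1 : ℤ) * N = e2 * e := by
    apply Int.dvd_antisymm (by positivity) (by positivity)
    · obtain ⟨t, -, ht⟩ := q.surj
      have := hdiv t
      rwa [ht, mul_one] at this
    · refine ⟨q.ord (∏ j, X j ^ c j), ?_⟩
      rw [ord_prod q X (fun j => X_ne hX j) c, Finset.mul_sum]
      calc (e1 : ℤ) * N = e1 * N * ∑ j, a j * c j := by rw [hc, mul_one]
        _ = ∑ j, (e1 * N * a j) * c j := by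
          rw [Finset.mul_sum]
          exact Finset.sum_congr rfl fun j _ => by ring
        _ = _ := Finset.sum_congr rfl fun j _ => by rw [← hXj j]; ring
  refine ⟨q, P, e, e2, fun A hA => ?_, h3, h2.1, h2', heq⟩
  obtain ⟨h4, c', hc', h5⟩ := hmin A hA
  have hpos : (0 : ℤ) < e2 * e := mul_pos he2 he
  rw [heq] at h4 h5
  refine ⟨fun c hc => le_of_mul_le_mul_left (h4 c hc) hpos, c', hc', ?_⟩
  exact mul_left_cancel₀ hpos.ne' h5

end down

end Pool.Agent.Q288.TE
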