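import Pool.Agent.Q288.TE.Fin1
import Pool.Agent.Q288.TE.ThA1

/-!
The fields attached to entire functions.
-/

set_option autoImplicit false
set_option linter.unusedSectionVars false
set_option linter.overlappingInstances false

namespace Pool.Agent.Q288.TE

open FF MvPolynomial Pool.Agent.W603.LV Pool.Agent.W602.GT Pool.Agent.TH122.AB
open Pool.Agent.Y192.OG

variable {n : ℕ}

/-- independence over the integers modulo constants -/
def IndE (h : Fin n → Ent) : Prop := Ind fun i => (h i : ℂ → ℂ)

theorem IndE.eq_zero {h : Fin n → Ent} (hh : IndE h) {r : Fin n → ℤ} {c : ℂ}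
    (hc : ∀ z, (lin h r : ℂ → ℂ) z = c) : r = 0 :=
  hh r ⟨c, fun z => by rw [← hc z, lin_apply]⟩

section dom

variable {M : Type} [Field M] [Algebra ℂ M] (em : Ent →ₐ[ℂ] M)

/-- the exponentials -/
noncomputable def xx (h : Fin n → Ent) (i : Fin n) : M := em (ex (h i))

theorem em_ex_ne (g : Ent) : em (ex g) ≠ 0 := by
  intro h0
  have h1 : em (ex g) * em (ex (-g)) = 1 := by
    rw [← map_mul, ← ex_add, add_neg_cancel, ex_zero, map_one]
  rw [h0, zero_mul] at h1
  exact zero_ne_one h1

theorem xx_ne (h : Fin n → Ent) (i : Fin n) : xx em h i ≠ 0 := em_ex_ne em _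

theorem em_ex_zsmul (g : Ent) (r : ℤ) : em (ex (r • g)) = em (ex g) ^ r := by
  cases r with
  | ofNat r =>
    have : (Int.ofNat r) • g = r • g := natCast_zsmul g r
    rw [this, ex_nsmul, map_pow]
    exact (zpow_natCast _ _).symm
  | negSucc r =>
    have h1 : (Int.negSucc r) • g = -((r + 1) • g) := negSucc_zsmul g r
    have h2 : em (ex (-((r + 1) • g))) * em (ex ((r + 1) • g)) = 1 := by
      rw [← map_mul, ← ex_add, neg_add_cancel, ex_zero, map_one]
    rw [h1, zpow_negSucc, eq_inv_of_mul_eq_one_left h2, ex_nsmul, map_pow]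

theorem em_lin (h : Fin n → Ent) (r : Fin n → ℤ) :
    em (ex (lin h r)) = ∏ i, xx em h i ^ r i := by
  classical
  have key : ∀ s : Finset (Fin n), em (ex (∑ i ∈ s, r i • h i)) = ∏ i ∈ s, xx em h i ^ r i := by
    intro s
    induction s using Finset.induction_on with
    | empty => rw [Finset.sum_empty, ex_zero, map_one, Finset.prod_empty]
    | insert i s hi ih =>
      rw [Finset.sum_insert hi, Finset.prod_insert hi, ex_add, map_mul, ih, em_ex_zsmul]
      rfl
  exact key _

/-- the field of rational functions in the exponentials -/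
noncomputable def Ff (h : Fin n → Ent) : IntermediateField ℂ M :=
  IntermediateField.adjoin ℂ (Set.range (xx em h))

/-- its generators -/
noncomputable def XF (h : Fin n → Ent) (i : Fin n) : Ff em h :=
  ⟨xx em h i, IntermediateField.subset_adjoin _ _ ⟨i, rfl⟩⟩

theorem XF_val (h : Fin n → Ent) (i : Fin n) : ((XF em h i : Ff em h) : M) = xx em h i := rfl

theorem xx_ind (h_bor : St_bor) (hem : Function.Injective em) {h : Fin n → Ent} (hh : IndE h) :
    AlgebraicIndependent ℂ (xx em h) := by
  classical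
  rw [algebraicIndependent_iff]
  intro P hP
  have h1 : aeval (xx em h) P
      = em (∑ m ∈ P.support, P.coeff m • ex (lin h fun i => (m i : ℤ))) := by
    rw [aeval_def, eval₂_eq', map_sum]
    refine Finset.sum_congr rfl fun m _ => ?_
    rw [map_smul, em_lin, Algebra.smul_def]
    congr 1
    exact Finset.prod_congr rfl fun i _ => (zpow_natCast _ _).symm
  rw [h1] at hP
  have h2 : (∑ m ∈ P.support, P.coeff m • ex (lin h fun i => (m i : ℤ))) = 0 :=
    hem (by rw [hP, map_zero])
  let f : (Fin n →₀ ℕ) → Fin n → ℤ := fun m i => (m i : ℤ)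
  have hf : Function.Injective f := by
    intro m m' h
    ext i
    have := congrFun h i
    simpa [f] using this
  let g : (Fin n → ℤ) → Fin n →₀ ℕ := fun r => Finsupp.equivFunOnFinite.symm fun i => (r i).toNat
  have hg : ∀ m, g (f m) = m := by
    intro m
    ext i
    simp [f, g]
  have h3 := h_bor n (fun i => (h i : ℂ → ℂ)) (fun i => (h i).2) hh (P.support.image f)
    (fun r => P.coeff (g r)) (by
      intro z
      rw [Finset.sum_image fun a _ b _ hab => hf hab]
      have h4 : ((∑ m ∈ P.support, P.coeff m • ex (lin h fun i => (m i : ℤ)) : Ent) : ℂ → ℂ) z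
          = 0 := by
        rw [h2]
        rfl
      rw [coe_sum] at h4
      rw [← h4]
      refine Finset.sum_congr rfl fun m _ => ?_
      rw [hg]
      have h6 : ((P.coeff m • ex (lin h fun i => (m i : ℤ)) : Ent) : ℂ → ℂ) z
          = P.coeff m * Complex.exp (((lin h fun i => (m i : ℤ)) : ℂ → ℂ) z) := rfl
      rw [h6, lin_apply])
  ext m
  by_contra hm
  have h4 := h3 (f m) (Finset.mem_image_of_mem _ (mem_support_iff.2 (by simpa using hm)))
  rw [hg] at h4
  exact hm (by simpa using h4)

theorem gens_F (h_bor : St_bor) (hem : Function.Injective em) {h : Fin n → Ent} (hh : IndE h) :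
    Gens (k := ℂ) (XF em h) := by
  constructor
  · have h1 := xx_ind em h_bor hem hh
    have h2 : xx em h = (Ff em h).val ∘ XF em h := rfl
    rw [h2] at h1
    exact h1.of_comp (Ff em h).val
  · rintro ⟨z, hz⟩
    obtain ⟨r, s, h1⟩ := (IntermediateField.mem_adjoin_range_iff ℂ (xx em h) z).1 hz
    have h2 : ∀ P : MvPolynomial (Fin n) ℂ,
        ((aeval (XF em h) P : Ff em h) : M) = aeval (xx em h) P := by
      intro P
      have h3 : (Ff em h).val (aeval (XF em h) P)
          = aeval (fun i => (Ff em h).val (XF em h i)) P := by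
        rw [← AlgHom.comp_apply, comp_aeval]
      exact h3
    by_cases hs : s = 0
    · refine ⟨0, 1, one_ne_zero, ?_⟩
      apply Subtype.ext
      change z = ((aeval (XF em h) 0 / aeval (XF em h) 1 : Ff em h) : M)
      rw [h1, hs]
      simp
    · refine ⟨r, s, hs, ?_⟩
      apply Subtype.ext
      change z = ((aeval (XF em h) r : Ff em h) : M) / ((aeval (XF em h) s : Ff em h) : M)
      rw [h2, h2, h1]

theorem em_lin_mem (h : Fin n → Ent) (r : Fin n → ℤ) : em (ex (lin h r)) ∈ Ff em h := by
  rw [em_lin]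
  exact prod_mem fun i _ => zpow_mem (XF em h i).2 _

theorem Rg_le (h : Fin n → Ent) : ∀ s ∈ (Rg h).map em, s ∈ Ff em h := by
  have h1 : (Rg h).map em ≤ (Ff em h).toSubalgebra := by
    unfold Rg
    rw [AlgHom.map_adjoin, Algebra.adjoin_le_iff]
    rintro _ ⟨_, ⟨r, rfl⟩, rfl⟩
    exact em_lin_mem em h r
  exact h1

theorem int_F {h : Fin n → Ent} {y : M} (hy : IsIntegral ((Rg h).map em) y) :
    IsIntegral (Ff em h) y := by
  let ψ : (Rg h).map em →+* Ff em h :=
    { toFun := fun s => ⟨s, Rg_le em h s s.2⟩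
      map_one' := rfl
      map_zero' := rfl
      map_add' := fun _ _ => rfl
      map_mul' := fun _ _ => rfl }
  exact IsIntegral.map_of_comp_eq ψ (RingHom.id M) (by ext s; rfl) hy

/-- the embedding is integrally closed -/
def IC : Prop := ∀ y : M, (em : Ent →+* M).IsIntegralElem y → ∃ g : Ent, em g = y

theorem int_E (hem : Function.Injective em) {S : Subalgebra ℂ Ent} {y : M}
    (hy : IsIntegral (S.map em) y) : (em : Ent →+* M).IsIntegralElem y := by
  let iA : Algebra Ent M := (em : Ent →+* M).toAlgebra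
  let e : S ≃ₐ[ℂ] S.map em := S.equivMapOfInjective em hem
  refine IsIntegral.map_of_comp_eq ((algebraMap S Ent).comp (e.symm : S.map em →+* S))
    (RingHom.id M) ?_ hy
  ext s
  change em ((e.symm s : S) : Ent) = (s : M)
  have h3 : e (e.symm s) = s := e.apply_symm_apply s
  have h4 : ((e (e.symm s) : S.map em) : M) = em ((e.symm s : S) : Ent) := rfl
  rw [← h4, h3]

theorem int_mul {y : M} (hy : (em : Ent →+* M).IsIntegralElem y) (g : Ent) :
    (em : Ent →+* M).IsIntegralElem (y * em g) := by
  let iA : Algebra Ent M := (em : Ent →+* M).toAlgebra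
  exact IsIntegral.mul (R := Ent) hy (isIntegral_algebraMap (R := Ent) (x := g))

theorem int_pow {y : M} {E : ℕ} (hE : 0 < E) (hy : (em : Ent →+* M).IsIntegralElem (y ^ E)) :
    (em : Ent →+* M).IsIntegralElem y := by
  let iA : Algebra Ent M := (em : Ent →+* M).toAlgebra
  exact IsIntegral.of_pow (R := Ent) hE hy

/-- the cover -/
noncomputable abbrev Kf (h : Fin n → Ent) (u : Ent) : IntermediateField (Ff em h) M :=
  IntermediateField.adjoin (Ff em h) {em u}

/-- the generator of the cover -/
noncomputable def uu (h : Fin n → Ent) (u : Ent) : Kf em h u :=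
  ⟨em u, IntermediateField.subset_adjoin _ _ rfl⟩

/-- the embedding of the cover -/
noncomputable def vl (h : Fin n → Ent) (u : Ent) : Kf em h u →ₐ[ℂ] M :=
  (Kf em h u).val.restrictScalars ℂ

theorem vl_apply (h : Fin n → Ent) (u : Ent) (z : Kf em h u) : vl em h u z = (z : M) := rfl

theorem vl_inj (h : Fin n → Ent) (u : Ent) : Function.Injective (vl em h u) :=
  (vl em h u).toRingHom.injective

theorem vl_X (h : Fin n → Ent) (u : Ent) (i : Fin n) :
    vl em h u (algebraMap (Ff em h) (Kf em h u) (XF em h i)) = xx em h i := rfl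

theorem vl_prod (h : Fin n → Ent) (u : Ent) (r : Fin n → ℤ) :
    vl em h u (∏ i, algebraMap (Ff em h) (Kf em h u) (XF em h i) ^ r i) = em (ex (lin h r)) := by
  rw [em_lin, map_prod]
  exact Finset.prod_congr rfl fun i _ => by rw [map_zpow₀, vl_X]

theorem fin_K {h : Fin n → Ent} {u : Ent} (hu : IsIntegral (Ff em h) (em u)) :
    FiniteDimensional (Ff em h) (Kf em h u) :=
  IntermediateField.adjoin.finiteDimensional hu

theorem uu_reg {h : Fin n → Ent} {u : Ent} (hu : IsIntegral ((Rg h).map em) (em u))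
    (P : Place ℂ (Kf em h u))
    (hP : ∀ i, P.ord (algebraMap (Ff em h) (Kf em h u) (XF em h i)) = 0) :
    P.Reg (uu em h u) := by
  refine reg_of_int (vl em h u) P ((Rg h).map em) (fun s hs => ?_) (u := uu em h u) hu
  have hX0 : ∀ i, algebraMap (Ff em h) (Kf em h u) (XF em h i) ≠ 0 := by
    intro i h0
    have := vl_X em h u i
    rw [h0, map_zero] at this
    exact xx_ne em h i this.symm
  unfold Rg at hs
  rw [AlgHom.map_adjoin] at hs
  induction hs using Algebra.adjoin_induction with
  | mem x hx =>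
    obtain ⟨_, ⟨r, rfl⟩, rfl⟩ := hx
    refine ⟨∏ i, algebraMap (Ff em h) (Kf em h u) (XF em h i) ^ r i, vl_prod em h u r,
      Or.inr ?_⟩
    rw [ord_prod P _ hX0 r]
    exact (Finset.sum_eq_zero fun i _ => by rw [hP, mul_zero]).ge
  | algebraMap c => exact ⟨algebraMap ℂ _ c, (vl em h u).commutes c, P.reg_const c⟩
  | add x y _ _ hx hy =>
    obtain ⟨l, l1, l2⟩ := hx
    obtain ⟨m, m1, m2⟩ := hy
    exact ⟨l + m, by rw [map_add, l1, m1], P.reg_add l2 m2⟩
  | mul x y _ _ hx hy =>
    obtain ⟨l, l1, l2⟩ := hx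
    obtain ⟨m, m1, m2⟩ := hy
    exact ⟨l * m, by rw [map_mul, l1, m1], P.reg_mul l2 m2⟩

end dom

end Pool.Agent.Q288.TE
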