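import Pool.Agent.Q288.TE.Fin2

/-!
The case of a cover which is ramified in all directions.
-/

set_option autoImplicit false
set_option linter.unusedSectionVars false
set_option linter.overlappingInstances false

namespace Pool.Agent.Q288.TE

open FF MvPolynomial Pool.Agent.W603.LV Pool.Agent.W602.GT Pool.Agent.TH122.AB
open Pool.Agent.Y192.OG

variable {n : ℕ}

/-- fractions of the exponents -/
noncomputable def hN (h : Fin n → Ent) (N : ℕ) (i : Fin n) : Ent := ((N : ℂ)⁻¹) • h i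

theorem hN_apply (h : Fin n → Ent) (N : ℕ) (i : Fin n) (z : ℂ) :
    (hN h N i : ℂ → ℂ) z = (N : ℂ)⁻¹ * (h i : ℂ → ℂ) z := rfl

theorem hN_nsmul (h : Fin n → Ent) {N : ℕ} (hN0 : N ≠ 0) (i : Fin n) : N • hN h N i = h i := by
  apply ent_ext
  intro z
  have h1 : ((N • hN h N i : Ent) : ℂ → ℂ) z = N • ((hN h N i : ℂ → ℂ) z) := rfl
  rw [h1, hN_apply, nsmul_eq_mul]
  have : (N : ℂ) ≠ 0 := by exact_mod_cast hN0
  field_simp

theorem hN_ind {h : Fin n → Ent} (hh : IndE h) {N : ℕ} (hN0 : N ≠ 0) : IndE (hN h N) := by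
  rintro r ⟨c, hc⟩
  apply hh r
  have hN' : (N : ℂ) ≠ 0 := by exact_mod_cast hN0
  refine ⟨N * c, fun z => ?_⟩
  rw [← hc z, Finset.mul_sum]
  refine Finset.sum_congr rfl fun i _ => ?_
  change (r i : ℂ) * (h i : ℂ → ℂ) z = N * ((r i : ℂ) * (hN h N i : ℂ → ℂ) z)
  rw [hN_apply]
  field_simp

section dom

variable {M : Type} [Field M] [Algebra ℂ M] (em : Ent →ₐ[ℂ] M)

theorem xx_hN (h : Fin n → Ent) {N : ℕ} (hN0 : N ≠ 0) (i : Fin n) :
    xx em h i = xx em (hN h N) i ^ N := by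
  unfold xx
  rw [← map_pow, ← ex_nsmul, hN_nsmul h hN0]

theorem Ff_le (h : Fin n → Ent) {N : ℕ} (hN0 : N ≠ 0) : Ff em h ≤ Ff em (hN h N) := by
  unfold Ff
  rw [IntermediateField.adjoin_le_iff]
  rintro _ ⟨i, rfl⟩
  rw [xx_hN em h hN0]
  exact pow_mem (IntermediateField.subset_adjoin ℂ (Set.range (xx em (hN h N))) ⟨i, rfl⟩) N

theorem Kf_mem (h : Fin n → Ent) {N : ℕ} (hN0 : N ≠ 0) (u : Ent) {z : M}
    (hz : z ∈ Kf em h u) : z ∈ Kf em (hN h N) u := by
  induction hz using IntermediateField.adjoin_induction with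
  | mem x hx =>
    rw [Set.mem_singleton_iff.1 hx]
    exact (uu em (hN h N) u).2
  | algebraMap x =>
    have h1 : (x : M) ∈ Ff em (hN h N) := Ff_le em h hN0 x.2
    exact (Kf em (hN h N) u).algebraMap_mem ⟨x, h1⟩
  | add x y _ _ hx hy => exact add_mem hx hy
  | inv x _ hx => exact inv_mem hx
  | mul x y _ _ hx hy => exact mul_mem hx hy

/-- embeddings of subfields -/
theorem exists_iota {F1 F2 : IntermediateField ℂ M} (K1 : IntermediateField F1 M)
    (K2 : IntermediateField F2 M) (h : ∀ z ∈ K1, z ∈ K2) :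
    ∃ ι : K1 →ₐ[ℂ] K2, ∀ z, ((ι z : K2) : M) = (z : M) :=
  ⟨{ toFun := fun z => ⟨z, h z z.2⟩
     map_one' := rfl
     map_zero' := rfl
     map_add' := fun _ _ => rfl
     map_mul' := fun _ _ => rfl
     commutes' := fun _ => rfl }, fun _ => rfl⟩

theorem int_of_le {F1 F2 : IntermediateField ℂ M} (h : F1 ≤ F2) {y : M}
    (hy : IsIntegral F1 y) : IsIntegral F2 y :=
  IsIntegral.map_of_comp_eq (IntermediateField.inclusion h).toRingHom (RingHom.id M)
    (by ext s; rfl) hy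

/-- the theorem on curves, for a field which contains the entire functions -/
def Crv : Prop :=
  ∀ (n : ℕ) (h : Fin n → Ent), 1 ≤ n → IndE h →
    ∀ (K : Type) [Field K] [Algebra ℂ K] (φ : K →ₐ[ℂ] M) (x : Fin n → Kˣ),
      (∀ i, φ (x i : K) = em (ex (h i))) → DataOut K n x → False

/-- the cover is not ramified in all directions -/
theorem caseA (h_bor : St_bor) (hem : Function.Injective em) (h_thmA : St_thmA)
    (h_data : St_data) (h_crv : Crv em) (hn : 1 ≤ n) {h : Fin n → Ent} (hh : IndE h) {u : Ent}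
    (hu : IsIntegral (Rg h) u)
    (hA : ∀ a : Fin n → ℤ, a ≠ 0 → ∃ p : MvPolynomial (Fin n) ℂ, NM p ∧ ¬ p ∣ pw a p ∧
      ∃ q : Place ℂ (Ff em h), IsAdic (XF em h) p q ∧ ∃ (P : Place ℂ (Kf em h u)) (e : ℕ),
        Over P q e ∧ 2 ≤ e) : False := by
  have hu1 := int_up em (Rg h) hu
  have hfin : FiniteDimensional (Ff em h) (Kf em h u) := fin_K em (int_F em hu1)
  obtain ⟨N, hN1, hN2⟩ := h_thmA ℂ (Ff em h) (Kf em h u) n (XF em h) (gens_F em h_bor hem hh) hA
  have hN0 : N ≠ 0 := by omega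
  have hint : IsIntegral (Ff em (hN h N)) (em u) :=
    int_of_le (Ff_le em h hN0) (int_F em hu1)
  have hfin1 : FiniteDimensional (Ff em (hN h N)) (Kf em (hN h N) u) := fin_K em hint
  have hind := hN_ind hh hN0
  have hG := gens_F em h_bor hem hind
  obtain ⟨ι, hι⟩ := exists_iota (Kf em h u) (Kf em (hN h N) u)
    fun z hz => Kf_mem em h hN0 u hz
  have hι' : ∀ i, ι (algebraMap (Ff em h) (Kf em h u) (XF em h i))
      = algebraMap (Ff em (hN h N)) (Kf em (hN h N) u) (XF em (hN h N) i) ^ N := by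
    intro i
    apply Subtype.ext
    rw [hι, SubmonoidClass.coe_pow]
    exact xx_hN em h hN0 i
  have hF := hN2 (Ff em (hN h N)) (Kf em (hN h N) u) (XF em (hN h N)) hG ι hι'
  let x : Fin n → (Kf em (hN h N) u)ˣ := fun i =>
    Units.mk0 (algebraMap (Ff em (hN h N)) (Kf em (hN h N) u) (XF em (hN h N) i)) (by
      rw [Ne, map_eq_zero]
      exact X_ne hG i)
  have hD := h_data (Kf em (hN h N) u) n x hn (by
    have h1 := xx_ind em h_bor hem hind
    have h2 : xx em (hN h N)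
        = (vl em (hN h N) u) ∘ fun i => (x i : Kf em (hN h N) u) := rfl
    rw [h2] at h1
    exact h1.of_comp (vl em (hN h N) u))
    (Ff em (hN h N)) (XF em (hN h N)) hG (fun i => rfl) hF
  exact h_crv n (hN h N) hn hind (Kf em (hN h N) u) (vl em (hN h N) u) x (fun i => rfl) hD

end dom

end Pool.Agent.Q288.TE
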