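import Pool.Agent.Q288.TE.Fin3

/-!
The case of a cover with an invariant direction.
-/

set_option autoImplicit false
set_option linter.unusedSectionVars false
set_option linter.overlappingInstances false

namespace Pool.Agent.Q288.TE

open FF MvPolynomial Pool.Agent.W603.LV Pool.Agent.W602.GT Pool.Agent.TH122.AB
open Pool.Agent.Y192.OG

variable {n : ℕ}

/-- the lattice orthogonal to a primitive vector -/
theorem lattice (a m0 : Fin n → ℤ) (h0 : ∑ i, a i * m0 i = 1) :
    ∃ (k : ℕ) (bs : Fin k → Fin n → ℤ), k < n ∧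
      (∀ r : Fin k → ℤ, ∑ l, r l • bs l = 0 → r = 0) ∧
      ∀ m : Fin n → ℤ, ∑ i, a i * m i = 0 → ∃ r : Fin k → ℤ, m = ∑ l, r l • bs l := by
  classical
  let f : (Fin n → ℤ) →ₗ[ℤ] ℤ :=
    { toFun := fun m => ∑ i, a i * m i
      map_add' := fun x y => by
        rw [← Finset.sum_add_distrib]
        exact Finset.sum_congr rfl fun i _ => by rw [Pi.add_apply, mul_add]
      map_smul' := fun c x => by
        rw [RingHom.id_apply, smul_eq_mul, Finset.mul_sum]
        exact Finset.sum_congr rfl fun i _ => by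
          rw [Pi.smul_apply, smul_eq_mul]
          ring }
  have hf : ∀ m, f m = ∑ i, a i * m i := fun m => rfl
  obtain ⟨k, B⟩ := Submodule.basisOfPid (Pi.basisFun ℤ (Fin n)) (LinearMap.ker f)
  have hBs : ∀ r : Fin k → ℤ, ∑ l, r l • ((B l : Fin n → ℤ)) = ((∑ l, r l • B l :
      LinearMap.ker f) : Fin n → ℤ) := by
    intro r
    rw [Submodule.coe_sum]
    rfl
  have hind : ∀ r : Fin k → ℤ, ∑ l, r l • ((B l : Fin n → ℤ)) = 0 → r = 0 := by
    intro r hr
    rw [hBs] at hr
    have h1 : ∑ l, r l • B l = 0 := Subtype.ext hr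
    funext l
    exact Fintype.linearIndependent_iff.1 B.linearIndependent r h1 l
  refine ⟨k, fun l => (B l : Fin n → ℤ), ?_, hind, fun m hm => ?_⟩
  · -- the rank
    have hli : LinearIndependent ℤ (Fin.cons (α := fun _ => Fin n → ℤ) m0
        fun l => (B l : Fin n → ℤ)) := by
      rw [Fintype.linearIndependent_iff]
      intro g hg
      rw [Fin.sum_univ_succ] at hg
      simp only [Fin.cons_zero, Fin.cons_succ] at hg
      have h2 : f (∑ l : Fin k, g l.succ • ((B l : Fin n → ℤ))) = 0 := by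
        rw [hBs fun l => g l.succ]
        exact (∑ l : Fin k, g l.succ • B l : LinearMap.ker f).2
      have h3 := congrArg f hg
      rw [map_add, h2, add_zero, map_smul, map_zero, hf, h0, smul_eq_mul, mul_one] at h3
      rw [h3, zero_smul, zero_add] at hg
      have h4 := hind (fun l => g l.succ) hg
      intro i
      refine Fin.cases h3 (fun l => congrFun h4 l) i
    have h5 := hli.fintype_card_le_finrank
    rw [Fintype.card_fin, Module.finrank_fin_fun] at h5
    omega
  · have h6 : (⟨m, hm⟩ : LinearMap.ker f) = ∑ l, B.repr ⟨m, hm⟩ l • B l :=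
      (B.sum_repr _).symm
    refine ⟨fun l => B.repr ⟨m, hm⟩ l, ?_⟩
    rw [hBs]
    exact congrArg Subtype.val h6

theorem lin_lin {k : ℕ} (h : Fin n → Ent) (bs : Fin k → Fin n → ℤ) (r : Fin k → ℤ) :
    lin (fun l => lin h (bs l)) r = lin h (∑ l, r l • bs l) := by
  unfold lin
  have h1 : ∀ i, (∑ l, r l • bs l) i • h i = ∑ l, (r l * bs l i) • h i := by
    intro i
    rw [Finset.sum_apply, Finset.sum_smul]
    rfl
  rw [Finset.sum_congr rfl fun i _ => h1 i, Finset.sum_comm]
  refine Finset.sum_congr rfl fun l _ => ?_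
  rw [Finset.smul_sum]
  exact Finset.sum_congr rfl fun i _ => by rw [mul_smul]

section dom

variable {M : Type} [Field M] [Algebra ℂ M] (em : Ent →ₐ[ℂ] M)

/-- the reduction in the case of an invariant direction -/
theorem caseB (h_bor : St_bor) (hem : Function.Injective em) (hic : IC em) (h_eig : St_eig)
    {h : Fin n → Ent} (hh : IndE h) {u : Ent}
    (hu : IsIntegral (Rg h) u)
    (ih : ∀ k < n, ∀ h' : Fin k → Ent, IndE h' → ∀ c : Ent, IsIntegral (Rg h') c →
      ES (c : ℂ → ℂ))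
    (a : Fin n → ℤ) (ha : Prim a)
    (hB : ∀ p : MvPolynomial (Fin n) ℂ, NM p → ¬ p ∣ pw a p →
      ∀ q : Place ℂ (Ff em h), IsAdic (XF em h) p q → ∀ (P : Place ℂ (Kf em h u)) (e : ℕ),
        Over P q e → e = 1) : ES (u : ℂ → ℂ) := by
  classical
  obtain ⟨m0, hm0⟩ := ha
  have hu1 := int_up em (Rg h) hu
  have hfin : FiniteDimensional (Ff em h) (Kf em h u) := fin_K em (int_F em hu1)
  have hG := gens_F em h_bor hem hh
  obtain ⟨E, J, v, hE, hv1, hv2⟩ := h_eig ℂ (Ff em h) (Kf em h u) n (XF em h) hG a ⟨m0, hm0⟩ hB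
    (uu em h u) (fun p hp q hq P e hP => uu_reg em hu1 P fun i => by
      rw [hP.2, ord_X_nm hp hq, mul_zero]) m0 hm0
  obtain ⟨k, bs, hk, hbs1, hbs2⟩ := lattice a m0 hm0
  set h' : Fin k → Ent := fun l => lin h (bs l) with hh'
  have hind' : IndE h' := by
    intro r hr
    obtain ⟨c, hc⟩ := hr
    apply hbs1
    apply hh.eq_zero (c := c)
    intro z
    rw [← lin_lin, lin_apply]
    exact hc z
  -- the integral elements
  have key : ∀ j ∈ J, ∃ g : Ent, em g = (v j : M) ∧ ES (g : ℂ → ℂ) := by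
    intro j hj
    have h1 := int_up (vl em h u) _ (hv2 j hj)
    have hle : (Algebra.adjoin ℂ {z : Kf em h u | ∃ m : Fin n → ℤ, ∑ i, a i * m i = 0 ∧
          z = ∏ i, algebraMap (Ff em h) (Kf em h u) (XF em h i) ^ m i}).map (vl em h u)
        ≤ (Rg h').map em := by
      rw [AlgHom.map_adjoin, Algebra.adjoin_le_iff]
      rintro _ ⟨z, ⟨m, hm, rfl⟩, rfl⟩
      obtain ⟨r, hr⟩ := hbs2 m hm
      rw [vl_prod, hr, ← lin_lin]
      exact ⟨_, Algebra.subset_adjoin ⟨r, rfl⟩, rfl⟩
    have h2 := int_mono hle h1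
    rw [map_mul, map_pow, vl_prod] at h2
    have hlinneg : lin h (fun i => -(j * m0 i)) = -(j • lin h m0) := by
      unfold lin
      rw [Finset.smul_sum, ← Finset.sum_neg_distrib]
      exact Finset.sum_congr rfl fun i _ => by rw [neg_smul, mul_smul]
    rw [hlinneg] at h2
    -- integrality over the entire functions
    have h3 : (em : Ent →+* M).IsIntegralElem ((v j : M) ^ E) := by
      have h4 := int_mul em (int_E em hem h2) (ex (j • lin h m0))
      rw [mul_assoc, ← map_mul, ← ex_add, neg_add_cancel, ex_zero, map_one, mul_one] at h4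
      exact h4
    obtain ⟨g, hg⟩ := hic _ (int_pow em hE h3)
    refine ⟨g, hg, ?_⟩
    have hE0 : (E : ℂ) ≠ 0 := by
      have : E ≠ 0 := by omega
      exact_mod_cast this
    set L : Ent := (-(j : ℂ) / E) • lin h m0 with hL
    have hL1 : E • L = -(j • lin h m0) := by
      apply ent_ext
      intro z
      have e1 : ((E • L : Ent) : ℂ → ℂ) z = E • ((-(j : ℂ) / E) * (lin h m0 : ℂ → ℂ) z) := rfl
      have e2 : ((-(j • lin h m0) : Ent) : ℂ → ℂ) z = -(j • (lin h m0 : ℂ → ℂ) z) := rfl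
      rw [e1, e2, nsmul_eq_mul, zsmul_eq_mul]
      field_simp
    have h5 : em ((g * ex L) ^ E) = (v j : M) ^ E * em (ex (-(j • lin h m0))) := by
      rw [mul_pow, ← ex_nsmul, hL1, map_mul, map_pow, hg]
    have h6 : IsIntegral (Rg h') ((g * ex L) ^ E) := by
      apply int_down em hem
      rw [h5]
      exact h2
    have h7 := ih k hk h' hind' _ (IsIntegral.of_pow (show 0 < E by omega) h6)
    have h8 := h7.exp_mul (g := ((-L : Ent) : ℂ → ℂ)) (-L).2
    have h9 : (fun z => Complex.exp (((-L : Ent) : ℂ → ℂ) z) * ((g * ex L : Ent) : ℂ → ℂ) z)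
        = (g : ℂ → ℂ) := by
      funext z
      have e1 : ((-L : Ent) : ℂ → ℂ) z = -((L : ℂ → ℂ) z) := rfl
      have e2 : ((g * ex L : Ent) : ℂ → ℂ) z
          = (g : ℂ → ℂ) z * Complex.exp ((L : ℂ → ℂ) z) := rfl
      rw [e1, e2, Complex.exp_neg]
      have := Complex.exp_ne_zero ((L : ℂ → ℂ) z)
      field_simp
    rwa [h9] at h8
  choose! g hg1 hg2 using key
  have h1 : u = ∑ j ∈ J, g j := by
    apply hem
    have h2 : em u = ((uu em h u : Kf em h u) : M) := rfl
    rw [h2, hv1, map_sum]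
    have h3 : ((∑ j ∈ J, v j : Kf em h u) : M) = ∑ j ∈ J, (v j : M) := map_sum (vl em h u) v J
    rw [h3]
    exact Finset.sum_congr rfl fun j hj => (hg1 j hj).symm
  have h2 : (u : ℂ → ℂ) = fun z => ∑ j ∈ J, (g j : ℂ → ℂ) z := by
    funext z
    rw [h1, coe_sum]
  rw [h2]
  exact ES.sum J _ fun j hj => hg2 j hj

end dom

end Pool.Agent.Q288.TE
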