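import Pool.Agent.Q288.TE.Fin4

/-!
The induction, and the theorem on entire functions which are integral over quotients of
exponential sums.
-/

set_option autoImplicit false
set_option linter.unusedSectionVars false
set_option linter.overlappingInstances false

namespace Pool.Agent.Q288.TE

open FF MvPolynomial Pool.Agent.W603.LV Pool.Agent.W602.GT Pool.Agent.TH122.AB
open Pool.Agent.Y192.OG

section dom

variable {M : Type} [Field M] [Algebra ℂ M] (em : Ent →ₐ[ℂ] M)

theorem base_case (hem : Function.Injective em) (h : Fin 0 → Ent) {u : Ent}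
    (hu : IsIntegral (Rg h) u) : ES (u : ℂ → ℂ) := by
  have h1 : ∀ x ∈ Rg h, ∃ c : ℂ, x = algebraMap ℂ Ent c := by
    intro x hx
    unfold Rg at hx
    induction hx using Algebra.adjoin_induction with
    | mem x hx =>
      obtain ⟨r, rfl⟩ := hx
      refine ⟨1, ?_⟩
      have : lin h r = 0 := by simp [lin]
      change ex (lin h r) = _
      rw [this, ex_zero, map_one]
    | algebraMap c => exact ⟨c, rfl⟩
    | add x y _ _ hx hy =>
      obtain ⟨c, rfl⟩ := hx
      obtain ⟨d, rfl⟩ := hy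
      exact ⟨c + d, (map_add _ _ _).symm⟩
    | mul x y _ _ hx hy =>
      obtain ⟨c, rfl⟩ := hx
      obtain ⟨d, rfl⟩ := hy
      exact ⟨c * d, (map_mul _ _ _).symm⟩
  have h2 : Algebra.IsIntegral ℂ (Rg h) := by
    refine ⟨fun x => ?_⟩
    obtain ⟨c, hc⟩ := h1 x x.2
    have : x = algebraMap ℂ (Rg h) c := Subtype.ext hc
    rw [this]
    exact isIntegral_algebraMap
  have h3 : IsIntegral ℂ u := isIntegral_trans (R := ℂ) (A := Rg h) u hu
  have h4 : IsAlgebraic ℂ (em u) := (h3.map em).isAlgebraic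
  obtain ⟨c, hc⟩ := const_of_algebraic h4
  have h5 : u = algebraMap ℂ Ent c := hem (by rw [hc, em.commutes])
  rw [h5]
  exact ES.const c

/-- entire functions which are integral over rings of exponentials are exponential sums -/
theorem main (h_bor : St_bor) (hem : Function.Injective em) (hic : IC em) (h_eig : St_eig)
    (h_thmA : St_thmA) (h_data : St_data) (h_crv : Crv em) (n : ℕ) :
    ∀ h : Fin n → Ent, IndE h → ∀ u : Ent, IsIntegral (Rg h) u → ES (u : ℂ → ℂ) := by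
  induction n using Nat.strong_induction_on with
  | _ n ih =>
    intro h hh u hu
    rcases Nat.eq_zero_or_pos n with hn | hn
    · subst hn
      exact base_case em hem h hu
    by_cases hB : ∃ a : Fin n → ℤ, a ≠ 0 ∧ ∀ p : MvPolynomial (Fin n) ℂ, NM p →
        ¬ p ∣ pw a p → ∀ q : Place ℂ (Ff em h), IsAdic (XF em h) p q →
        ∀ (P : Place ℂ (Kf em h u)) (e : ℕ), Over P q e → e = 1
    · obtain ⟨a, ha, hB⟩ := hB
      obtain ⟨g, a', hg, ha', haa⟩ := Pool.Agent.Y500.OG.prim_of_ne a ha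
      refine caseB em h_bor hem hic h_eig hh hu ih a' ha' fun p hp hpa q hq P e hP =>
        hB p hp (fun h1 => hpa ?_) q hq P e hP
      have h2 : a = g • a' := funext fun i => by rw [haa i]; rfl
      rw [h2] at h1
      exact tsub_sat p g a' hg.ne' h1
    · exfalso
      refine caseA em h_bor hem h_thmA h_data h_crv hn hh hu fun a ha => ?_
      by_contra hcon
      apply hB
      refine ⟨a, ha, fun p hp hpa q hq P e hP => ?_⟩
      by_contra he
      apply hcon
      have := hP.1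
      exact ⟨p, hp, hpa, q, hq, P, e, hP, by omega⟩

theorem monic_aux {R : Type} [CommRing R] {n : ℕ} (a : Fin n → R) :
    (Polynomial.X ^ n + ∑ i : Fin n, Polynomial.C (a i) * Polynomial.X ^ (n - 1 - (i : ℕ)) :
      Polynomial R).Monic := by
  apply Polynomial.monic_X_pow_add
  rw [← Polynomial.mem_degreeLT]
  refine Submodule.sum_mem _ fun i _ => ?_
  rw [Polynomial.mem_degreeLT]
  refine lt_of_le_of_lt (Polynomial.degree_C_mul_X_pow_le _ _) ?_
  have := i.2
  exact_mod_cast (by omega : n - 1 - (i : ℕ) < n)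

/-- the theorem -/
theorem rubel (h_bas : St_bas) (h_bor : St_bor) (hem : Function.Injective em) (hic : IC em)
    (h_eig : St_eig) (h_thmA : St_thmA) (h_data : St_data) (h_crv : Crv em)
    (n : ℕ) (φ : Fin n → ℂ → ℂ)
    (hφ : ∀ i, Differentiable ℂ (φ i) ∧
        ∃ m k : ℕ, ∃ F : Fin m → ℂ → ℂ, ∃ G : Fin k → ℂ → ℂ,
          (∀ a, Differentiable ℂ (F a)) ∧ (∀ b, Differentiable ℂ (G b)) ∧
          (∃ z, ∑ b, Complex.exp (G b z) ≠ 0) ∧
          ∀ z, φ i z * ∑ b, Complex.exp (G b z) = ∑ a, Complex.exp (F a z))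
    (f : ℂ → ℂ) (hf : Differentiable ℂ f)
    (heq : ∀ z, f z ^ n + ∑ i : Fin n, φ i z * f z ^ (n - 1 - (i : ℕ)) = 0) :
    ∃ m k : ℕ, ∃ F : Fin m → ℂ → ℂ, ∃ G : Fin k → ℂ → ℂ,
      (∀ a, Differentiable ℂ (F a)) ∧ (∀ b, Differentiable ℂ (G b)) ∧
      (∃ z, ∑ b, Complex.exp (G b z) ≠ 0) ∧
      ∀ z, f z * ∑ b, Complex.exp (G b z) = ∑ a, Complex.exp (F a z) := by
  classical
  choose hφd m k F G hF hG hne hFG using hφ
  let f' : Ent := ⟨f, hf⟩
  let φ' : Fin n → Ent := fun i => ⟨φ i, hφd i⟩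
  let FF : Fin n → Ent := fun i => ∑ a, ex ⟨F i a, hF i a⟩
  let GG : Fin n → Ent := fun i => ∑ c, ex ⟨G i c, hG i c⟩
  have hGGz : ∀ i z, (GG i : ℂ → ℂ) z = ∑ c, Complex.exp (G i c z) := fun i z => coe_sum _ _ z
  have hFFz : ∀ i z, (FF i : ℂ → ℂ) z = ∑ a, Complex.exp (F i a z) := fun i z => coe_sum _ _ z
  have hGF : ∀ i, φ' i * GG i = FF i := by
    intro i
    apply ent_ext
    intro z
    change φ i z * (GG i : ℂ → ℂ) z = _
    rw [hGGz, hFFz, hFG]
  have hG0 : ∀ i, GG i ≠ 0 := by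
    intro i h0
    obtain ⟨z, hz⟩ := hne i
    apply hz
    rw [← hGGz, h0]
    rfl
  -- the exponents
  let I := Σ i : Fin n, (Fin (m i) ⊕ Fin (k i))
  let ψ : I → Ent := fun x => Sum.elim (fun a => (⟨F x.1 a, hF x.1 a⟩ : Ent))
    (fun c => (⟨G x.1 c, hG x.1 c⟩ : Ent)) x.2
  let eI := Fintype.equivFin I
  obtain ⟨N, h, hd, hind, hh⟩ := h_bas (Fintype.card I) (fun t => (ψ (eI.symm t) : ℂ → ℂ))
    (fun t => (ψ (eI.symm t)).2)
  let h' : Fin N → Ent := fun i => ⟨h i, hd i⟩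
  have hind' : IndE h' := hind
  have hmem : ∀ x : I, ex (ψ x) ∈ Rg h' := by
    intro x
    obtain ⟨c, r, hc⟩ := hh (eI x)
    have h1 : ex (ψ x) = Complex.exp c • ex (lin h' r) := by
      apply ent_ext
      intro z
      have h2 : ((Complex.exp c • ex (lin h' r) : Ent) : ℂ → ℂ) z
          = Complex.exp c * Complex.exp ((lin h' r : ℂ → ℂ) z) := rfl
      rw [h2, lin_apply, ← Complex.exp_add, ex_apply]
      have h3 := hc z
      simp only [Equiv.symm_apply_apply] at h3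
      rw [h3]
    rw [h1]
    exact (Rg h').smul_mem (Algebra.subset_adjoin ⟨r, rfl⟩) _
  have hFR : ∀ i, FF i ∈ Rg h' := fun i =>
    Subalgebra.sum_mem _ fun a _ => hmem ⟨i, Sum.inl a⟩
  have hGR : ∀ i, GG i ∈ Rg h' := fun i =>
    Subalgebra.sum_mem _ fun a _ => hmem ⟨i, Sum.inr a⟩
  set D : Ent := ∏ i, GG i with hD
  have hDR : D ∈ Rg h' := Subalgebra.prod_mem _ fun i _ => hGR i
  have hD0 : D ≠ 0 := by
    intro h0
    have h1 : em D = 0 := by rw [h0, map_zero]
    rw [hD, map_prod, Finset.prod_eq_zero_iff] at h1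
    obtain ⟨i, -, hi⟩ := h1
    exact hG0 i (hem (by rw [hi, map_zero]))
  -- the equation
  have hai : ∀ i : Fin n, D ^ ((i : ℕ) + 1) * φ' i ∈ Rg h' := by
    intro i
    have h1 : D = (∏ j ∈ Finset.univ.erase i, GG j) * GG i :=
      (Finset.prod_erase_mul _ _ (Finset.mem_univ i)).symm
    have h2 : D ^ ((i : ℕ) + 1) * φ' i
        = D ^ (i : ℕ) * (∏ j ∈ Finset.univ.erase i, GG j) * FF i := by
      rw [pow_succ]
      conv_lhs => rw [mul_assoc]; rhs; rw [h1]
      rw [← hGF]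
      ring
    rw [h2]
    exact Subalgebra.mul_mem _ (Subalgebra.mul_mem _ (Subalgebra.pow_mem _ hDR _)
      (Subalgebra.prod_mem _ fun j _ => hGR j)) (hFR i)
  have hfeq : f' ^ n + ∑ i : Fin n, φ' i * f' ^ (n - 1 - (i : ℕ)) = 0 := by
    apply ent_ext
    intro z
    have h1 : ((f' ^ n + ∑ i : Fin n, φ' i * f' ^ (n - 1 - (i : ℕ)) : Ent) : ℂ → ℂ) z
        = f z ^ n + ((∑ i : Fin n, φ' i * f' ^ (n - 1 - (i : ℕ)) : Ent) : ℂ → ℂ) z := rfl
    rw [h1, coe_sum]
    exact heq z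
  have hint : IsIntegral (Rg h') (D * f') := by
    refine ⟨_, monic_aux fun i : Fin n => (⟨_, hai i⟩ : Rg h'), ?_⟩
    rw [Polynomial.eval₂_add, Polynomial.eval₂_pow, Polynomial.eval₂_X,
      Polynomial.eval₂_finsetSum]
    have h1 : ∀ i : Fin n, Polynomial.eval₂ (algebraMap (Rg h') Ent) (D * f')
        (Polynomial.C (⟨_, hai i⟩ : Rg h') * Polynomial.X ^ (n - 1 - (i : ℕ)))
        = D ^ n * (φ' i * f' ^ (n - 1 - (i : ℕ))) := by
      intro i
      rw [Polynomial.eval₂_mul, Polynomial.eval₂_C, Polynomial.eval₂_pow, Polynomial.eval₂_X]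
      change D ^ ((i : ℕ) + 1) * φ' i * (D * f') ^ (n - 1 - (i : ℕ)) = _
      have h2 : n = ((i : ℕ) + 1) + (n - 1 - (i : ℕ)) := by
        have := i.2
        omega
      have h3 : D ^ n = D ^ ((i : ℕ) + 1) * D ^ (n - 1 - (i : ℕ)) := by
        rw [← pow_add, ← h2]
      rw [h3, mul_pow]
      ring
    rw [Finset.sum_congr rfl fun i _ => h1 i, ← Finset.mul_sum, mul_pow, ← mul_add, hfeq,
      mul_zero]
  obtain ⟨m', F', hF', hu⟩ := main em h_bor hem hic h_eig h_thmA h_data h_crv N h' hind' _ hint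
  have hDES : ES (D : ℂ → ℂ) := by
    have h1 : (D : ℂ → ℂ) = fun z => ∏ i, (GG i : ℂ → ℂ) z := by
      funext z
      have h2 : (D : ℂ → ℂ) = ∏ i, (GG i : ℂ → ℂ) := map_prod Ent.val GG Finset.univ
      rw [h2, Finset.prod_apply]
    rw [h1]
    refine ES.prod _ _ fun i _ => ⟨k i, G i, hG i, fun z => hGGz i z⟩
  obtain ⟨k', G', hG', hDz⟩ := hDES
  refine ⟨m', k', F', G', hF', hG', ?_, fun z => ?_⟩
  · by_contra hcon
    push Not at hcon
    apply hD0
    apply ent_ext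
    intro z
    rw [hDz, hcon]
    rfl
  · rw [← hDz, ← hu]
    change f z * (D : ℂ → ℂ) z = (D : ℂ → ℂ) z * f z
    exact mul_comm _ _

end dom

end Pool.Agent.Q288.TE
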