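import Pool.Agent.Q288.TE.StP

/-!
The operators `E * D_a - j` at an adic place.
-/

set_option autoImplicit false
set_option linter.unusedSectionVars false

namespace Pool.Agent.Q288.TE

open FF MvPolynomial Pool.Agent.W603.LV Pool.Agent.W602.GT Pool.Agent.TH122.AB
open Pool.Agent.Y192.OG

section ops

variable {k K : Type} [Field k] [CharZero k] [Field K] [Algebra k K] {b : ℕ}
  {θ : Fin b → Derivation k K K}

theorem Da_ap (θ : Fin b → Derivation k K K) (a : Fin b → ℤ) (g : K) :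
    Da θ a g = ∑ i, (a i : K) * θ i g := by
  unfold Da
  rw [← Derivation.coeFnAddMonoidHom_apply, map_sum, Finset.sum_apply]
  refine Finset.sum_congr rfl fun i _ => ?_
  rw [Derivation.coeFnAddMonoidHom_apply, Derivation.smul_apply, zsmul_eq_mul]

theorem Da_sum (θ : Fin b → Derivation k K K) {ι : Type} (s : Finset ι) (c : ι → ℤ)
    (a : ι → Fin b → ℤ) (g : K) :
    Da θ (∑ l ∈ s, c l • a l) g = ∑ l ∈ s, (c l : K) * Da θ (a l) g := by
  simp only [Da_ap, Finset.mul_sum]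
  rw [Finset.sum_comm]
  refine Finset.sum_congr rfl fun i _ => ?_
  rw [Finset.sum_apply]
  push_cast
  rw [Finset.sum_mul]
  refine Finset.sum_congr rfl fun l _ => ?_
  rw [Pi.smul_apply, smul_eq_mul]
  push_cast
  ring

/-- the operator `E * D_a - j` -/
noncomputable def op (θ : Fin b → Derivation k K K) (E : ℕ) (a : Fin b → ℤ) (j : ℤ) :
    Module.End k K := E • (Da θ a).toLinearMap - j • (1 : Module.End k K)

theorem op_apply (E : ℕ) (a : Fin b → ℤ) (j : ℤ) (g : K) :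
    op θ E a j g = (E : K) * Da θ a g - (j : K) * g := by
  unfold op
  rw [LinearMap.sub_apply, LinearMap.smul_apply, LinearMap.smul_apply, nsmul_eq_mul,
    zsmul_eq_mul]
  rfl

theorem Da_comm (hc : ∀ (i j : Fin b) (g : K), θ i (θ j g) = θ j (θ i g))
    (a c : Fin b → ℤ) (g : K) : Da θ a (Da θ c g) = Da θ c (Da θ a g) := by
  have h1 : ∀ (n : ℤ) (i : Fin b) (x : K), θ i ((n : K) * x) = (n : K) * θ i x := by
    intro n i x
    rw [← zsmul_eq_mul, map_zsmul, zsmul_eq_mul]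
  simp only [Da_ap, map_sum, h1]
  rw [Finset.sum_comm]
  refine Finset.sum_congr rfl fun i _ => Finset.sum_congr rfl fun l _ => ?_
  rw [hc l i]
  ring

theorem op_comm (hc : ∀ (i j : Fin b) (g : K), θ i (θ j g) = θ j (θ i g)) (E : ℕ)
    (a c : Fin b → ℤ) (j l : ℤ) (g : K) :
    op θ E a j (op θ E c l g) = op θ E c l (op θ E a j g) := by
  have h1 : ∀ (n : ℤ) (a : Fin b → ℤ) (x : K), Da θ a ((n : K) * x) = (n : K) * Da θ a x := by
    intro n a x
    rw [← zsmul_eq_mul, map_zsmul, zsmul_eq_mul]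
  have h2 : ∀ (n : ℕ) (a : Fin b → ℤ) (x : K), Da θ a ((n : K) * x) = (n : K) * Da θ a x := by
    intro n a x
    rw [← nsmul_eq_mul, map_nsmul, nsmul_eq_mul]
  simp only [op_apply, map_sub, h1, h2]
  rw [Da_comm hc a c]
  ring

/-- the properties of the invariant derivations at an adic place -/
structure PA (θ : Fin b → Derivation k K K) (P : Place k K) (e : ℕ)
    (tang : (Fin b → ℤ) → Prop) : Prop where
  pos : 0 < e
  bd : ∀ (c : Fin b → ℤ) (n : ℤ) (g : K), Ge P n g → Ge P (n - e) (Da θ c g)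
  lg : ∀ c : Fin b → ℤ, tang c → ∀ g : K, P.Reg (Da θ c g / g)
  tr : ∀ c : Fin b → ℤ, ¬ tang c → ∀ g : K, P.ord g ≠ 0 →
    Da θ c g ≠ 0 ∧ P.ord (Da θ c g) = P.ord g - e

variable {P : Place k K} {e : ℕ} {tang : (Fin b → ℤ) → Prop} {E : ℕ}

theorem ord_int {n : ℤ} (hn : n ≠ 0) (P : Place k K) : P.ord (n : K) = 0 := by
  have h := P.ord_const (c := (n : k)) (by exact_mod_cast hn)
  rwa [map_intCast] at h

theorem int_ne {n : ℤ} (_P : Place k K) (hn : n ≠ 0) : (n : K) ≠ 0 := by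
  have : CharZero K := charZero_of_injective_algebraMap (algebraMap k K).injective
  exact_mod_cast hn

theorem ge_int_mul {n : ℤ} {g : K} (m : ℤ) (h : Ge P n g) : Ge P n ((m : K) * g) := by
  have := (Ge.intCast (P := P) m).mul h
  rwa [zero_add] at this

theorem ge_nat_mul {n : ℤ} {g : K} (m : ℕ) (h : Ge P n g) : Ge P n ((m : K) * g) := by
  have := (Ge.natCast (P := P) m).mul h
  rwa [zero_add] at this

theorem PA.geD (h : PA θ P e tang) {c : Fin b → ℤ} (hc : tang c) {n : ℤ} {g : K}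
    (hg : Ge P n g) : Ge P n (Da θ c g) := by
  by_cases h0 : g = 0
  · rw [h0, map_zero]
    exact Or.inl rfl
  · have h1 : Da θ c g = g * (Da θ c g / g) := by field_simp
    rw [h1]
    simpa using hg.mul (show Ge P 0 _ from h.lg c hc g)

theorem PA.ge_op (h : PA θ P e tang) {c : Fin b → ℤ} (hc : tang c) {n : ℤ} {g : K} (j : ℤ)
    (hg : Ge P n g) : Ge P n (op θ E c j g) := by
  rw [op_apply]
  exact (ge_nat_mul E (h.geD hc hg)).sub (ge_int_mul j hg)

theorem PA.ge_op' (h : PA θ P e tang) (c : Fin b → ℤ) {n : ℤ} {g : K} (j : ℤ)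
    (hg : Ge P n g) : Ge P (n - e) (op θ E c j g) := by
  rw [op_apply]
  exact (ge_nat_mul E (h.bd c n g hg)).sub (ge_int_mul j (hg.mono (by omega)))

theorem PA.ord_op (h : PA θ P e tang) (hE : E ≠ 0) {c : Fin b → ℤ} (hc : ¬ tang c) {g : K}
    (hg : P.ord g ≠ 0) (j : ℤ) :
    op θ E c j g ≠ 0 ∧ P.ord (op θ E c j g) = P.ord g - e := by
  have hpos := h.pos
  obtain ⟨h1, h2⟩ := h.tr c hc g hg
  have hg0 : g ≠ 0 := by
    rintro rfl
    exact hg P.ord_zero
  have hEZ : (E : ℤ) ≠ 0 := by exact_mod_cast hE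
  have hE0 : ((E : ℤ) : K) ≠ 0 := int_ne P hEZ
  have hE1 : P.ord ((E : ℤ) : K) = 0 := ord_int hEZ P
  rw [Int.cast_natCast] at hE0 hE1
  have h3 : (E : K) * Da θ c g ≠ 0 := mul_ne_zero hE0 h1
  have h4 : P.ord ((E : K) * Da θ c g) = P.ord g - e := by
    rw [P.ord_mul hE0 h1, h2, hE1, zero_add]
  rw [op_apply]
  by_cases hj : j = 0
  · rw [hj, Int.cast_zero, zero_mul, sub_zero]
    exact ⟨h3, h4⟩
  · have h5 : -((j : K) * g) ≠ 0 := neg_ne_zero.2 (mul_ne_zero (int_ne P hj) hg0)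
    have h6 : P.ord (-((j : K) * g)) = P.ord g := by
      rw [P.ord_neg, P.ord_mul (int_ne P hj) hg0, ord_int hj P, zero_add]
    have h7 := P.ord_add_eq h3 h5 (by rw [h4, h6]; omega)
    rw [sub_eq_add_neg, ← h4]
    exact h7

/-- exact orders -/
theorem ord_of {n : ℤ} {g : K} (h1 : Ge P n g) (h2 : ¬ Ge P (n + 1) g) :
    g ≠ 0 ∧ P.ord g = n := by
  have h0 : g ≠ 0 := fun h => h2 (Or.inl h)
  refine ⟨h0, ?_⟩
  rcases h1 with h1 | h1
  · exact absurd h1 h0
  · by_contra h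
    exact h2 (Or.inr (by omega))

theorem not_ge {n : ℤ} {g : K} (h0 : g ≠ 0) (h : P.ord g = n) : ¬ Ge P (n + 1) g := by
  rintro (h1 | h1)
  · exact h0 h1
  · omega

/-- elements for which the orders of the operators are under control -/
structure VV (θ : Fin b → Derivation k K K) (E : ℕ) (P : Place k K) (e : ℕ)
    (D : Finset (Fin b → ℤ)) (jj : (Fin b → ℤ) → ℤ) (T : Set (Fin b → ℤ)) (v : K) : Prop where
  ne : v ≠ 0
  nd : ¬ (e : ℤ) ∣ P.ord v
  dd : ∀ a ∈ D, Ge P (P.ord v + 1) (op θ E a (jj a) v)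
  tt : ∀ S ∈ Submonoid.closure {S : Module.End k K | ∃ a ∈ T, ∃ j : ℤ, S = op θ E a j},
    ¬ Ge P (P.ord v + 1) (S v)

variable {D : Finset (Fin b → ℤ)} {jj : (Fin b → ℤ) → ℤ} {T : Set (Fin b → ℤ)} {v : K}

theorem clo_comm (hc : ∀ (i j : Fin b) (g : K), θ i (θ j g) = θ j (θ i g))
    {S : Module.End k K}
    (hS : S ∈ Submonoid.closure {S : Module.End k K | ∃ a ∈ T, ∃ j : ℤ, S = op θ E a j})
    (c : Fin b → ℤ) (l : ℤ) (g : K) : S (op θ E c l g) = op θ E c l (S g) := by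
  induction hS using Submonoid.closure_induction generalizing g with
  | mem S hS =>
    obtain ⟨a, -, j, rfl⟩ := hS
    exact op_comm hc E a c j l g
  | one => rfl
  | mul S S' _ _ h1 h2 =>
    rw [Module.End.mul_apply, Module.End.mul_apply, h2, h1]

theorem clo_ge (h : PA θ P e tang) (hT : ∀ a ∈ T, tang a) {S : Module.End k K}
    (hS : S ∈ Submonoid.closure {S : Module.End k K | ∃ a ∈ T, ∃ j : ℤ, S = op θ E a j})
    {n : ℤ} {g : K} (hg : Ge P n g) : Ge P n (S g) := by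
  induction hS using Submonoid.closure_induction generalizing g with
  | mem S hS =>
    obtain ⟨a, ha, j, rfl⟩ := hS
    exact h.ge_op (hT a ha) j hg
  | one => exact hg
  | mul S S' _ _ h1 h2 =>
    rw [Module.End.mul_apply]
    exact h1 (h2 hg)

theorem ge_self (P : Place k K) (g : K) : Ge P (P.ord g) g := Or.inr le_rfl

theorem VV.op_T (h : PA θ P e tang)
    (hc : ∀ (i j : Fin b) (g : K), θ i (θ j g) = θ j (θ i g)) (hT : ∀ a ∈ T, tang a)
    (hv : VV θ E P e D jj T v) {a : Fin b → ℤ} (ha : a ∈ T) (j : ℤ) :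
    VV θ E P e D jj T (op θ E a j v) ∧ P.ord (op θ E a j v) = P.ord v := by
  have hm : op θ E a j ∈ Submonoid.closure
      {S : Module.End k K | ∃ a ∈ T, ∃ j : ℤ, S = op θ E a j} :=
    Submonoid.subset_closure ⟨a, ha, j, rfl⟩
  obtain ⟨h1, h2⟩ := ord_of (h.ge_op (E := E) (hT a ha) j (ge_self P v)) (hv.tt _ hm)
  refine ⟨⟨h1, by rw [h2]; exact hv.nd, fun c hcD => ?_, fun S hS => ?_⟩, h2⟩
  · rw [op_comm hc, h2]
    exact h.ge_op (hT a ha) j (hv.dd c hcD)
  · rw [h2]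
    have := hv.tt (S * op θ E a j) (Submonoid.mul_mem _ hS hm)
    rwa [Module.End.mul_apply] at this

theorem VV.op_D (h : PA θ P e tang)
    (hc : ∀ (i j : Fin b) (g : K), θ i (θ j g) = θ j (θ i g)) (hT : ∀ a ∈ T, tang a)
    (hv : VV θ E P e D jj T v) {a : Fin b → ℤ} (ha : a ∈ D) (hat : tang a) {j : ℤ}
    (hj : j ≠ jj a) :
    VV θ E P e D jj T (op θ E a j v) ∧ P.ord (op θ E a j v) = P.ord v := by
  have key : ∀ g : K, op θ E a j g = op θ E a (jj a) g + ((jj a - j : ℤ) : K) * g := by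
    intro g
    rw [op_apply, op_apply]
    push_cast
    ring
  have hd : jj a - j ≠ 0 := sub_ne_zero.2 (Ne.symm hj)
  have hex : ∀ g : K, g ≠ 0 → P.ord g = P.ord v → Ge P (P.ord v + 1) (op θ E a (jj a) g) →
      op θ E a j g ≠ 0 ∧ P.ord (op θ E a j g) = P.ord v := by
    intro g h0 hg h1
    have h2 : ((jj a - j : ℤ) : K) * g ≠ 0 := mul_ne_zero (int_ne P hd) h0
    have h3 : P.ord (((jj a - j : ℤ) : K) * g) = P.ord v := by
      rw [P.ord_mul (int_ne P hd) h0, ord_int hd P, zero_add, hg]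
    rw [key, add_comm]
    rcases h1 with h1 | h1
    · rw [h1, add_zero]
      exact ⟨h2, h3⟩
    · by_cases h4 : op θ E a (jj a) g = 0
      · rw [h4, add_zero]
        exact ⟨h2, h3⟩
      · have := P.ord_add_eq h2 h4 (by rw [h3]; omega)
        rw [h3] at this
        exact this
  obtain ⟨h1, h2⟩ := hex v hv.ne rfl (hv.dd a ha)
  refine ⟨⟨h1, by rw [h2]; exact hv.nd, fun c hcD => ?_, fun S hS => ?_⟩, h2⟩
  · rw [op_comm hc, h2]
    exact h.ge_op hat j (hv.dd c hcD)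
  · obtain ⟨h3, h4⟩ := ord_of (clo_ge h hT hS (ge_self P v)) (hv.tt S hS)
    rw [clo_comm hc hS, h2]
    obtain ⟨h5, h6⟩ := hex (S v) h3 h4 (by
      rw [← clo_comm hc hS]
      exact clo_ge h hT hS (hv.dd a ha))
    exact not_ge h5 h6

theorem VV.op_N (h : PA θ P e tang) (hE : E ≠ 0)
    (hc : ∀ (i j : Fin b) (g : K), θ i (θ j g) = θ j (θ i g)) (hT : ∀ a ∈ T, tang a)
    (hv : VV θ E P e D jj T v) {a : Fin b → ℤ} (hat : ¬ tang a) (j : ℤ) :
    VV θ E P e D jj T (op θ E a j v) ∧ P.ord (op θ E a j v) = P.ord v - e := by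
  have hv0 : P.ord v ≠ 0 := fun h0 => hv.nd (by rw [h0]; exact dvd_zero _)
  obtain ⟨h1, h2⟩ := h.ord_op hE hat hv0 j
  refine ⟨⟨h1, ?_, fun c hcD => ?_, fun S hS => ?_⟩, h2⟩
  · rw [h2]
    intro h3
    exact hv.nd ((dvd_sub_self_right).1 h3)
  · rw [op_comm hc, h2]
    have := h.ge_op' (E := E) a j (hv.dd c hcD)
    have e1 : P.ord v + 1 - e = P.ord v - e + 1 := by ring
    rwa [e1] at this
  · obtain ⟨h3, h4⟩ := ord_of (clo_ge h hT hS (ge_self P v)) (hv.tt S hS)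
    obtain ⟨h5, h6⟩ := h.ord_op hE hat (g := S v) (by rw [h4]; exact hv0) j
    rw [clo_comm hc hS, h2]
    exact not_ge h5 (by rw [h6, h4])

end ops

end Pool.Agent.Q288.TE
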