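import Pool.Agent.Q288.TE.Ops1

/-!
The choice of the operators.
-/

set_option autoImplicit false
set_option linter.unusedSectionVars false

namespace Pool.Agent.Q288.TE

open FF MvPolynomial Pool.Agent.W603.LV Pool.Agent.W602.GT Pool.Agent.TH122.AB
open Pool.Agent.Y192.OG

section ops

variable {k K : Type} [Field k] [CharZero k] [Field K] [Algebra k K] {b : ℕ}
  {θ : Fin b → Derivation k K K} {P : Place k K} {e : ℕ} {tang : (Fin b → ℤ) → Prop} {E : ℕ}
  {D : Finset (Fin b → ℤ)} {jj : (Fin b → ℤ) → ℤ} {T : Set (Fin b → ℤ)} {u v : K}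

theorem rch_op (h : Rch θ E u v) (a : Fin b → ℤ) (j : ℤ) : Rch θ E u (op θ E a j v) := by
  rw [op_apply]
  exact Rch.step a j v h

theorem exists_VV (h : PA θ P e tang)
    (hc : ∀ (i j : Fin b) (g : K), θ i (θ j g) = θ j (θ i g)) (hu0 : u ≠ 0)
    (hu : ¬ (e : ℤ) ∣ P.ord u) (A : Finset (Fin b → ℤ)) :
    ∃ (D : Finset (Fin b → ℤ)) (jj : (Fin b → ℤ) → ℤ) (v : K), D ⊆ A ∧ (∀ a ∈ D, tang a) ∧
      Rch θ E u v ∧ VV θ E P e D jj {a | a ∈ A ∧ tang a ∧ a ∉ D} v := by
  classical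
  set ρ := P.ord u with hρ
  let DD : K → Finset (Fin b → ℤ) := fun v =>
    A.filter fun a => tang a ∧ ∃ j : ℤ, Ge P (ρ + 1) (op θ E a j v)
  let M : Set K := {v | Rch θ E u v ∧ v ≠ 0 ∧ P.ord v = ρ}
  obtain ⟨v, hv, hmax⟩ := (measure fun v : K => A.card - (DD v).card).wf.has_min M
    ⟨u, Rch.base, hu0, rfl⟩
  have hle : ∀ v, (DD v).card ≤ A.card := fun v => Finset.card_filter_le _ _
  have hmax' : ∀ x ∈ M, (DD x).card ≤ (DD v).card := by
    intro x hx
    have h1 : ¬ (A.card - (DD x).card < A.card - (DD v).card) := hmax x hx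
    have h2 := hle x
    have h3 := hle v
    omega
  have hjj : ∀ a : Fin b → ℤ, ∃ j : ℤ, a ∈ DD v → Ge P (ρ + 1) (op θ E a j v) := by
    intro a
    by_cases ha : a ∈ DD v
    · obtain ⟨-, -, j, hj⟩ := Finset.mem_filter.1 ha
      exact ⟨j, fun _ => hj⟩
    · exact ⟨0, fun h => absurd h ha⟩
  choose jj hjj using hjj
  have key : ∀ S ∈ Submonoid.closure {S : Module.End k K |
      ∃ a ∈ {a | a ∈ A ∧ tang a ∧ a ∉ DD v}, ∃ j : ℤ, S = op θ E a j},
      S v ∈ M ∧ DD (S v) = DD v := by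
    intro S hS
    induction hS using Submonoid.closure_induction_left with
    | one => exact ⟨hv, rfl⟩
    | mul_left x hx y hy ih =>
      obtain ⟨a, ⟨ha1, ha2, ha3⟩, j, rfl⟩ := hx
      obtain ⟨⟨h1, h2, h3⟩, h4⟩ := ih
      rw [Module.End.mul_apply]
      have h5 : ¬ Ge P (ρ + 1) (op θ E a j (y v)) := by
        intro h6
        apply ha3
        rw [← h4]
        exact Finset.mem_filter.2 ⟨ha1, ha2, j, h6⟩
      have h6 : Ge P ρ (op θ E a j (y v)) := h.ge_op ha2 j (Or.inr h3.ge)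
      obtain ⟨h7, h8⟩ := ord_of h6 h5
      have h9 : op θ E a j (y v) ∈ M := ⟨rch_op h1 a j, h7, h8⟩
      refine ⟨h9, ?_⟩
      have hsub : DD (y v) ⊆ DD (op θ E a j (y v)) := by
        intro c hc'
        obtain ⟨c1, c2, l, c3⟩ := Finset.mem_filter.1 hc'
        refine Finset.mem_filter.2 ⟨c1, c2, l, ?_⟩
        rw [op_comm hc]
        exact h.ge_op ha2 j c3
      rw [h4] at hsub
      exact (Finset.eq_of_subset_of_card_le hsub (hmax' _ h9)).symm
  obtain ⟨hv1, hv2, hv3⟩ := hv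
  refine ⟨DD v, jj, v, Finset.filter_subset _ _, fun a ha => (Finset.mem_filter.1 ha).2.1, hv1,
    hv2, by rw [hv3]; exact hu, fun a ha => ?_, fun S hS => ?_⟩
  · rw [hv3]
    exact hjj a ha
  · obtain ⟨⟨-, h1, h2⟩, -⟩ := key S hS
    rw [hv3]
    exact not_ge h1 h2

theorem VV.cons (hv : VV θ E P e D jj T v) (c : (Fin b → ℤ) → ℤ)
    (h0 : ∑ a ∈ D, c a • a = 0) : ∑ a ∈ D, c a * jj a = 0 := by
  by_contra hs
  have h1 : ∑ a ∈ D, (c a : K) * op θ E a (jj a) v
      = -(((∑ a ∈ D, c a * jj a : ℤ) : K) * v) := by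
    have h2 := Da_sum θ D c (fun a => a) v
    rw [h0] at h2
    have h3 : Da θ 0 v = 0 := by
      rw [Da_ap]
      simp
    rw [h3] at h2
    calc ∑ a ∈ D, (c a : K) * op θ E a (jj a) v
        = (E : K) * (∑ a ∈ D, (c a : K) * Da θ a v) - (∑ a ∈ D, (c a : K) * (jj a : K)) * v := by
          rw [Finset.mul_sum, Finset.sum_mul, ← Finset.sum_sub_distrib]
          refine Finset.sum_congr rfl fun a _ => ?_
          rw [op_apply]
          ring
      _ = _ := by
          rw [← h2]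
          push_cast
          ring
  have h2 : Ge P (P.ord v + 1) (∑ a ∈ D, (c a : K) * op θ E a (jj a) v) :=
    Ge.sum _ _ fun a ha => ge_int_mul _ (hv.dd a ha)
  rw [h1] at h2
  have h3 := h2.neg
  rw [neg_neg] at h3
  refine not_ge (mul_ne_zero (int_ne P hs) hv.ne) ?_ h3
  rw [P.ord_mul (int_ne P hs) hv.ne, ord_int hs P, zero_add]

/-- a block of operators -/
noncomputable def blk (θ : Fin b → Derivation k K K) (E : ℕ) (a : Fin b → ℤ) (lo : ℤ) :
    ℕ → K → K
  | 0, v => v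
  | n + 1, v => op θ E a (lo + n) (blk θ E a lo n v)

/-- all blocks -/
noncomputable def run (θ : Fin b → Derivation k K K) (E : ℕ) (lo : ℤ) (n : (Fin b → ℤ) → ℕ) :
    List (Fin b → ℤ) → K → K
  | [], v => v
  | a :: l, v => blk θ E a lo (n a) (run θ E lo n l v)

theorem rch_blk {a : Fin b → ℤ} {lo : ℤ} (n : ℕ) (h : Rch θ E u v) :
    Rch θ E u (blk θ E a lo n v) := by
  induction n with
  | zero => exact h
  | succ n ih => exact rch_op ih _ _

theorem rch_run {lo : ℤ} {n : (Fin b → ℤ) → ℕ} (l : List (Fin b → ℤ)) (h : Rch θ E u v) :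
    Rch θ E u (run θ E lo n l v) := by
  induction l with
  | nil => exact h
  | cons a l ih => exact rch_blk _ ih

theorem VV.blk (h : PA θ P e tang) (hE : E ≠ 0)
    (hc : ∀ (i j : Fin b) (g : K), θ i (θ j g) = θ j (θ i g)) (hT : ∀ a ∈ T, tang a)
    (hv : VV θ E P e D jj T v) (a : Fin b → ℤ) (lo : ℤ) (n : ℕ)
    (ha : a ∈ T ∨ (a ∈ D ∧ tang a ∧ ∀ i < n, lo + i ≠ jj a) ∨ ¬ tang a) :
    VV θ E P e D jj T (blk θ E a lo n v) := by
  induction n with
  | zero => exact hv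
  | succ n ih =>
    have h1 : VV θ E P e D jj T (TE.blk θ E a lo n v) := ih (by
      rcases ha with ha | ⟨h1, h2, h3⟩ | ha
      · exact Or.inl ha
      · exact Or.inr (Or.inl ⟨h1, h2, fun i hi => h3 i (by omega)⟩)
      · exact Or.inr (Or.inr ha))
    rcases ha with ha | ⟨h2, h3, h4⟩ | ha
    · exact (h1.op_T h hc hT ha _).1
    · exact (h1.op_D h hc hT h2 h3 (h4 n (by omega))).1
    · exact (h1.op_N h hE hc hT ha _).1

theorem VV.run (h : PA θ P e tang) (hE : E ≠ 0)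
    (hc : ∀ (i j : Fin b) (g : K), θ i (θ j g) = θ j (θ i g)) (hT : ∀ a ∈ T, tang a)
    (hv : VV θ E P e D jj T v) (lo : ℤ) (n : (Fin b → ℤ) → ℕ) (l : List (Fin b → ℤ))
    (hl : ∀ a ∈ l, a ∈ T ∨ (a ∈ D ∧ tang a ∧ ∀ i < n a, lo + i ≠ jj a) ∨ ¬ tang a) :
    VV θ E P e D jj T (run θ E lo n l v) := by
  induction l with
  | nil => exact hv
  | cons a l ih =>
    exact (ih fun c hc' => hl c (List.mem_cons_of_mem _ hc')).blk h hE hc hT a lo (n a)
      (hl a List.mem_cons_self)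

/-- the properties of the invariant derivations at the place of a weight -/
structure PT (θ : Fin b → Derivation k K K) (Q : Place k K) (e : ℕ) (E : ℕ)
    (a : Fin b → ℤ) : Prop where
  pos : 0 < e
  lg : ∀ (c : Fin b → ℤ) (g : K), Q.Reg (Da θ c g / g)
  res : ∀ g : K, g ≠ 0 → Ge Q 1 ((e : K) * (Da θ a g / g) - (Q.ord g : K))
  fac : ∀ g : K, g ≠ 0 → (e : ℤ) ∣ (E : ℤ) * Q.ord g

/-- bounds for orders -/
def RR (Q : Place k K) (e E : ℕ) (J : ℤ) (v : K) : Prop := v = 0 ∨ e * J ≤ E * Q.ord v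

variable {Q : Place k K} {e' : ℕ} {a : Fin b → ℤ}

theorem PT.ge (h : PT θ Q e' E a) (c : Fin b → ℤ) (j : ℤ) (g : K) :
    Ge Q (Q.ord g) (op θ E c j g) := by
  by_cases h0 : g = 0
  · rw [h0, map_zero]
    exact Or.inl rfl
  · have h1 : Da θ c g = g * (Da θ c g / g) := by field_simp
    rw [op_apply, h1]
    have h2 : Ge Q (Q.ord g) (g * (Da θ c g / g)) := by
      simpa using (ge_self Q g).mul (show Ge Q 0 _ from h.lg c g)
    exact (ge_nat_mul E h2).sub (ge_int_mul j (ge_self Q g))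

theorem PT.keep (h : PT θ Q e' E a) {J : ℤ} {g : K} (c : Fin b → ℤ) (j : ℤ)
    (hg : RR Q e' E J g) : RR Q e' E J (op θ E c j g) := by
  rcases hg with hg | hg
  · rw [hg, map_zero]
    exact Or.inl rfl
  · rcases h.ge c j g with h1 | h1
    · exact Or.inl h1
    · right
      have : (E : ℤ) * Q.ord g ≤ E * Q.ord (op θ E c j g) :=
        mul_le_mul_of_nonneg_left h1 (Int.natCast_nonneg E)
      omega

theorem PT.step (h : PT θ Q e' E a) (hE : E ≠ 0) {J : ℤ} {g : K} (hg : RR Q e' E J g) :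
    RR Q e' E (J + 1) (op θ E a J g) := by
  by_cases h0 : g = 0
  · rw [h0, map_zero]
    exact Or.inl rfl
  have hg' := hg.resolve_left h0
  have he : (0 : ℤ) < e' := by exact_mod_cast h.pos
  have hE' : (0 : ℤ) < E := by exact_mod_cast Nat.pos_of_ne_zero hE
  obtain ⟨J', hJ'⟩ := h.fac g h0
  rw [hJ'] at hg'
  have hJJ : J ≤ J' := le_of_mul_le_mul_left hg' he
  by_cases h1 : op θ E a J g = 0
  · exact Or.inl h1
  right
  rcases hJJ.lt_or_eq with h2 | h2
  · have h3 := (h.ge a J g).resolve_left h1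
    have h4 : (E : ℤ) * Q.ord g ≤ E * Q.ord (op θ E a J g) :=
      mul_le_mul_of_nonneg_left h3 hE'.le
    have h5 : (e' : ℤ) * (J + 1) ≤ e' * J' := mul_le_mul_of_nonneg_left (by omega) he.le
    omega
  · subst h2
    have h3 : Ge Q 1 ((E : K) * ((e' : K) * (Da θ a g / g) - (Q.ord g : K))) :=
      ge_nat_mul E (h.res g h0)
    have h4 : (E : K) * ((e' : K) * (Da θ a g / g) - (Q.ord g : K))
        = ((e' : ℤ) : K) * ((E : K) * (Da θ a g / g) - (J : K)) := by
      have h5 : (E : K) * (Q.ord g : K) = (e' : K) * (J : K) := by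
        have := congrArg (Int.cast : ℤ → K) hJ'
        push_cast at this
        exact this
      rw [mul_sub, mul_sub, h5, Int.cast_natCast]
      ring
    rw [h4] at h3
    have h5 : Ge Q 1 ((E : K) * (Da θ a g / g) - (J : K)) :=
      Ge.of_mul' (m := 0) (int_ne Q he.ne') (ord_int he.ne' Q) (by rwa [add_zero])
    have h6 : op θ E a J g = g * ((E : K) * (Da θ a g / g) - (J : K)) := by
      rw [op_apply]
      field_simp
    have h7 : Ge Q (Q.ord g + 1) (op θ E a J g) := by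
      rw [h6]
      exact (ge_self Q g).mul h5
    have h8 := h7.resolve_left h1
    obtain ⟨J'', hJ''⟩ := h.fac _ h1
    rw [hJ'']
    apply mul_le_mul_of_nonneg_left _ he.le
    have h9 : (e' : ℤ) * J < e' * J'' := by
      rw [← hJ', ← hJ'']
      exact mul_lt_mul_of_pos_left (by omega) hE'
    have := lt_of_mul_lt_mul_left h9 he.le
    omega

theorem PT.blk_keep (h : PT θ Q e' E a) {J : ℤ} {g : K} (c : Fin b → ℤ) (lo : ℤ) (n : ℕ)
    (hg : RR Q e' E J g) : RR Q e' E J (blk θ E c lo n g) := by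
  induction n with
  | zero => exact hg
  | succ n ih => exact h.keep c _ ih

theorem PT.blk (h : PT θ Q e' E a) (hE : E ≠ 0) {lo : ℤ} {g : K} (n : ℕ)
    (hg : RR Q e' E lo g) : RR Q e' E (lo + n) (blk θ E a lo n g) := by
  induction n with
  | zero =>
    rw [Nat.cast_zero, add_zero]
    exact hg
  | succ n ih =>
    have := h.step hE ih
    push_cast
    rwa [← add_assoc]

theorem PT.run_keep (h : PT θ Q e' E a) {lo J : ℤ} {g : K} {n : (Fin b → ℤ) → ℕ}
    (l : List (Fin b → ℤ)) (hg : RR Q e' E J g) : RR Q e' E J (run θ E lo n l g) := by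
  induction l with
  | nil => exact hg
  | cons c l ih => exact h.blk_keep c _ _ ih

theorem PT.run (h : PT θ Q e' E a) (hE : E ≠ 0) {lo : ℤ} {g : K} {n : (Fin b → ℤ) → ℕ}
    (l : List (Fin b → ℤ)) (hal : a ∈ l) (hg : RR Q e' E lo g) :
    RR Q e' E (lo + n a) (run θ E lo n l g) := by
  induction l with
  | nil => exact absurd hal List.not_mem_nil
  | cons c l ih =>
    by_cases hca : a = c
    · subst hca
      exact h.blk hE (n a) (h.run_keep l hg)
    · exact h.blk_keep c _ _ (ih ((List.mem_cons.1 hal).resolve_left hca))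

theorem rr_rch (h : PT θ Q e' E a) {J : ℤ} (hu : RR Q e' E J u) (hv : Rch θ E u v) :
    RR Q e' E J v := by
  induction hv with
  | base => exact hu
  | step c j v _ ih =>
    rw [← op_apply]
    exact h.keep c j ih

/-- the choice of the operators -/
theorem ops (h : PA θ P e tang) (hE : E ≠ 0)
    (hc : ∀ (i j : Fin b) (g : K), θ i (θ j g) = θ j (θ i g)) (hu0 : u ≠ 0)
    (hu : ¬ (e : ℤ) ∣ P.ord u) (A : Finset (Fin b → ℤ)) (N : ℕ) (hN : 0 < N)
    (hdn : ∀ (D : Finset (Fin b → ℤ)) (j : (Fin b → ℤ) → ℤ), D ⊆ A →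
      (∀ c : (Fin b → ℤ) → ℤ, ∑ a ∈ D, c a • a = 0 → ∑ a ∈ D, c a * j a = 0) →
      ∃ σ : Fin b → ℤ, ∀ a ∈ D, (E : ℤ) * ∑ i, a i * σ i = N * j a)
    (tor : (Fin b → ℤ) → Place k K → ℕ → Prop)
    (htor : ∀ a ∈ A, ∀ Q e', tor a Q e' → PT θ Q e' E a) (M : ℕ)
    (hM : ∀ a ∈ A, ∀ Q e', tor a Q e' → RR Q e' E (-M) u) :
    ∃ (σ : Fin b → ℤ) (w : K), Rch θ E u w ∧ w ≠ 0 ∧ ¬ (e : ℤ) ∣ P.ord w ∧
      ∀ a ∈ A, ∀ Q e', tor a Q e' → 0 ≤ N * Q.ord w + e' * ∑ i, a i * σ i := by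
  classical
  obtain ⟨D, jj, v, hDA, hDt, hv1, hv2⟩ := exists_VV (E := E) h hc hu0 hu A
  obtain ⟨σ, hσ⟩ := hdn D (fun a => -jj a) hDA fun c h0 => by
    have := hv2.cons c h0
    simp only [mul_neg, Finset.sum_neg_distrib, this, neg_zero]
  set lo : ℤ := -M with hlo
  set n : (Fin b → ℤ) → ℕ := fun a =>
    if a ∈ D then (jj a - lo).toNat else (|(E : ℤ) * ∑ i, a i * σ i| - lo).toNat with hn
  set w := run θ E lo n A.toList v with hw
  have hT : ∀ a ∈ {a | a ∈ A ∧ tang a ∧ a ∉ D}, tang a := fun a ha => ha.2.1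
  have hV : VV θ E P e D jj {a | a ∈ A ∧ tang a ∧ a ∉ D} w := by
    refine hv2.run h hE hc hT lo n A.toList fun a ha => ?_
    have haA : a ∈ A := Finset.mem_toList.1 ha
    by_cases haD : a ∈ D
    · right; left
      refine ⟨haD, hDt a haD, fun i hi => ?_⟩
      simp only [hn, if_pos haD] at hi
      omega
    · by_cases hat : tang a
      · exact Or.inl ⟨haA, hat, haD⟩
      · exact Or.inr (Or.inr hat)
  refine ⟨σ, w, rch_run _ hv1, hV.ne, hV.nd, fun a ha Q e' hQ => ?_⟩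
  have hPT := htor a ha Q e' hQ
  have h1 : RR Q e' E lo v := rr_rch hPT (hM a ha Q e' hQ) hv1
  have h2 := (hPT.run (n := n) hE A.toList (Finset.mem_toList.2 ha) h1).resolve_left hV.ne
  have he : (0 : ℤ) < e' := by exact_mod_cast hPT.pos
  have hE' : (0 : ℤ) < E := by exact_mod_cast Nat.pos_of_ne_zero hE
  have hN' : (0 : ℤ) < N := by exact_mod_cast hN
  have h3 : 0 ≤ N * (lo + n a) + E * ∑ i, a i * σ i := by
    by_cases haD : a ∈ D
    · rw [hσ a haD]
      have h4 : jj a ≤ lo + n a := by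
        simp only [hn, if_pos haD]
        omega
      have h5 : (N : ℤ) * jj a ≤ N * (lo + n a) := mul_le_mul_of_nonneg_left h4 hN'.le
      linarith
    · have h4 : |(E : ℤ) * ∑ i, a i * σ i| ≤ lo + n a := by
        simp only [hn, if_neg haD]
        omega
      have h6 : 0 ≤ |(E : ℤ) * ∑ i, a i * σ i| := abs_nonneg _
      have h7 : (1 : ℤ) * (lo + n a) ≤ N * (lo + n a) :=
        mul_le_mul_of_nonneg_right (by omega) (by omega)
      have h8 := neg_abs_le ((E : ℤ) * ∑ i, a i * σ i)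
      linarith
  have h4 : (N : ℤ) * (e' * (lo + n a)) ≤ N * (E * Q.ord w) :=
    mul_le_mul_of_nonneg_left h2 hN'.le
  have h5 : 0 ≤ (E : ℤ) * (N * Q.ord w + e' * ∑ i, a i * σ i) := by
    have h6 := mul_nonneg he.le h3
    calc (0 : ℤ) ≤ e' * (N * (lo + n a) + E * ∑ i, a i * σ i) := h6
      _ = N * (e' * (lo + n a)) + E * (e' * ∑ i, a i * σ i) := by ring
      _ ≤ N * (E * Q.ord w) + E * (e' * ∑ i, a i * σ i) := by linarith
      _ = _ := by ring
  exact nonneg_of_mul_nonneg_right (by linarith) hE'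

end ops

end Pool.Agent.Q288.TE
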