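import Pool.Agent.Y192.OG.StE

/-!
Statements of steps about places of finite extensions of rational function fields. Each `St_` is a
proposition that is proved in another file.
-/

set_option autoImplicit false

namespace Pool.Agent.Q288.TE

open FF MvPolynomial Pool.Agent.W603.LV Pool.Agent.W602.GT Pool.Agent.TH122.AB
open Pool.Agent.Y192.OG

/-- functions with poles over `f = 0` which are regular over the rays of a fan are regular over
all weights -/
def St_tall : Prop :=
  ∀ (k F K : Type) [Field k] [CharZero k] [Field F] [Field K] [Algebra k F] [Algebra k K]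
    [Algebra F K] [IsScalarTower k F K] [FiniteDimensional F K] (b : ℕ) (X : Fin b → F),
    Gens (k := k) X → ∀ (f : MvPolynomial (Fin b) k) (ψ : K), f ≠ 0 →
    (∀ p : MvPolynomial (Fin b) k, Irreducible p → (∀ i, ¬ (MvPolynomial.X i ∣ p)) → ¬ p ∣ f →
      ∀ q : Place k F, IsAdic X p q → ∀ (P : Place k K) (e : ℕ), Over P q e → P.Reg ψ) →
    ∀ A : Finset (Fin b → ℤ), (∀ a ∈ A, Prim a) →
    (∀ w : Fin b → ℤ, ∃ t ∈ f.support, ∃ c : (Fin b → ℤ) → ℕ,
      w = ∑ a ∈ A, c a • a ∧ ∀ a ∈ A, c a ≠ 0 → ∀ t' ∈ f.support, tw a t ≤ tw a t') →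
    (∀ a ∈ A, ∀ q : Place k F, IsTor X a q → ∀ (P : Place k K) (e : ℕ), Over P q e → P.Reg ψ) →
    ∀ w : Fin b → ℤ, Prim w → ∀ q : Place k F, IsTor X w q →
      ∀ (P : Place k K) (e : ℕ), Over P q e → P.Reg ψ

/-- the orders of an element of degree at most `d` -/
def St_fac : Prop :=
  ∀ (k F K : Type) [Field k] [Field F] [Field K] [Algebra k F] [Algebra k K]
    [Algebra F K] [IsScalarTower k F K] [FiniteDimensional F K] (q : Place k F) (P : Place k K)
    (e : ℕ), Over P q e → ∀ (d : ℕ) (g : K), g ≠ 0 → (minpoly F g).natDegree ≤ d →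
    (e : ℤ) ∣ (d.factorial : ℤ) * P.ord g

/-- derivations which are topologically nilpotent at the place below -/
def St_res : Prop :=
  ∀ (k F K : Type) [Field k] [CharZero k] [Field F] [Field K] [Algebra k F] [Algebra k K]
    [Algebra F K] [IsScalarTower k F K] [FiniteDimensional F K] (q : Place k F) (P : Place k K)
    (e : ℕ), Over P q e → ∀ D : Derivation ℤ K K,
      (∀ g : F, q.Reg g → Ge P 1 (D (algebraMap F K g))) →
      (∀ g : F, P.Reg (D (algebraMap F K g) / algebraMap F K g)) →
      (∀ r : K, P.Reg r → Ge P 1 (D r)) ∧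
      ∀ t : F, q.ord t = 1 → ∀ h : K, h ≠ 0 →
        Ge P 1 ((e : K) * (D h / h)
          - (P.ord h : K) * (D (algebraMap F K t) / algebraMap F K t))

end Pool.Agent.Q288.TE
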