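import Mathlib

/-!
Statements of steps which only use Mathlib. Each `St_` is a proposition that is proved in another
file.
-/

set_option autoImplicit false

namespace Pool.Agent.Q288.TE

/-- a finite fan of primitive vectors which refines the normal fan of a finite set of exponents -/
def St_fan : Prop :=
  ∀ (b : ℕ) (T : Finset (Fin b → ℤ)), T.Nonempty →
    ∃ A : Finset (Fin b → ℤ), (∀ a ∈ A, ∃ c : Fin b → ℤ, ∑ i, a i * c i = 1) ∧
      ∀ w : Fin b → ℤ, ∃ t ∈ T, ∃ c : (Fin b → ℤ) → ℕ,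
        w = ∑ a ∈ A, c a • a ∧
        ∀ a ∈ A, c a ≠ 0 → ∀ t' ∈ T, ∑ i, a i * t i ≤ ∑ i, a i * t' i

/-- rational solutions of consistent linear systems with a given finite set of integral equations:
a common denominator -/
def St_dnm : Prop :=
  ∀ (b : ℕ) (A : Finset (Fin b → ℤ)) (E : ℕ), 0 < E → ∃ N : ℕ, 0 < N ∧
    ∀ (D : Finset (Fin b → ℤ)) (j : (Fin b → ℤ) → ℤ), D ⊆ A →
      (∀ c : (Fin b → ℤ) → ℤ, ∑ a ∈ D, c a • a = 0 → ∑ a ∈ D, c a * j a = 0) →
      ∃ σ : Fin b → ℤ, ∀ a ∈ D, (E : ℤ) * ∑ i, a i * σ i = N * j a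

/-- a set of functions which is stable under the invariant derivations of the torus, and not
constant in any rational direction, generates a subfield over which everything is algebraic -/
def St_dst : Prop :=
  ∀ (k K : Type) [Field k] [IsAlgClosed k] [CharZero k] [Field K] [Algebra k K] (b : ℕ)
    (x : Fin b → K), IsTranscendenceBasis k x → ∀ θ : Fin b → Derivation k K K,
    (∀ i j, θ i (x j) = if i = j then x j else 0) →
    ∀ Φ : Set K, (∀ i, ∀ φ ∈ Φ, θ i φ ∈ Φ) →
      (∀ a : Fin b → ℤ, a ≠ 0 → ∃ φ ∈ Φ, ∑ i, (a i : K) * θ i φ ≠ 0) →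
      ∀ z : K, IsAlgebraic (IntermediateField.adjoin k Φ) z

/-- the ring of entire functions -/
def Ent : Subalgebra ℂ (ℂ → ℂ) where
  carrier := {f | Differentiable ℂ f}
  mul_mem' := fun hf hg => Differentiable.mul hf hg
  add_mem' := fun hf hg => Differentiable.add hf hg
  algebraMap_mem' := fun c => differentiable_const c

/-- the ring of entire functions is an integrally closed domain -/
def St_ent : Prop := IsDomain Ent ∧ IsIntegrallyClosed Ent

/-- functions independent over the integers modulo constants -/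
def Ind {n : ℕ} (h : Fin n → ℂ → ℂ) : Prop :=
  ∀ r : Fin n → ℤ, (∃ c : ℂ, ∀ z, ∑ i, (r i : ℂ) * h i z = c) → r = 0

/-- finitely many entire functions are, up to constants, integral combinations of independent
ones -/
def St_bas : Prop :=
  ∀ (m : ℕ) (F : Fin m → ℂ → ℂ), (∀ a, Differentiable ℂ (F a)) →
    ∃ (n : ℕ) (h : Fin n → ℂ → ℂ), (∀ i, Differentiable ℂ (h i)) ∧ Ind h ∧
      ∀ a, ∃ (c : ℂ) (r : Fin n → ℤ), ∀ z, F a z = c + ∑ i, (r i : ℂ) * h i z

/-- the theorem of Borel -/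
def St_bor : Prop :=
  ∀ (n : ℕ) (h : Fin n → ℂ → ℂ), (∀ i, Differentiable ℂ (h i)) → Ind h →
    ∀ (S : Finset (Fin n → ℤ)) (c : (Fin n → ℤ) → ℂ),
      (∀ z, ∑ r ∈ S, c r * Complex.exp (∑ i, (r i : ℂ) * h i z) = 0) → ∀ r ∈ S, c r = 0

/-- the exponential of an entire function is meromorphic at infinity only if it is constant -/
def St_exp : Prop :=
  ∀ h : ℂ → ℂ, Differentiable ℂ h →
    (∃ S : ℂ → ℂ, MeromorphicAt (fun w => S w⁻¹) 0 ∧ ∃ R0 : ℝ, ∀ z, R0 < ‖z‖ →
      Complex.exp (h z) = S z) → ∃ c, ∀ z, h z = c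

end Pool.Agent.Q288.TE
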