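import Pool.Agent.Q288.TE.StL
import Pool.Agent.Q288.TE.StM
import Pool.Agent.Y192.OG.StG

/-!
Statements of steps about invariant derivations at places of covers of tori. Each `St_` is a
proposition that is proved in another file.
-/

set_option autoImplicit false

namespace Pool.Agent.Q288.TE

open FF MvPolynomial Pool.Agent.W603.LV Pool.Agent.W602.GT Pool.Agent.TH122.AB
open Pool.Agent.Y192.OG

section defs

variable {k K : Type} [Field k] [Field K] [Algebra k K] {b : ℕ}

/-- the action of an invariant derivation on polynomials -/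
noncomputable def pw (a : Fin b → ℤ) (p : MvPolynomial (Fin b) k) : MvPolynomial (Fin b) k :=
  ∑ i, (a i : MvPolynomial (Fin b) k) * (X i * pderiv i p)

/-- irreducible polynomials which are not monomials -/
def NM (p : MvPolynomial (Fin b) k) : Prop := Irreducible p ∧ ∀ i, ¬ (X i ∣ p)

/-- the derivations `x i * d / d (x i)` -/
def Th (x : Fin b → K) (θ : Fin b → Derivation k K K) : Prop :=
  ∀ i j, θ i (x j) = if i = j then x j else 0

/-- the invariant derivation in the direction `a` -/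
noncomputable def Da (θ : Fin b → Derivation k K K) (a : Fin b → ℤ) : Derivation k K K :=
  ∑ i, a i • θ i

/-- the elements which are obtained from `u` by the operators `E * D_a - j` -/
inductive Rch (θ : Fin b → Derivation k K K) (E : ℕ) (u : K) : K → Prop
  | base : Rch θ E u u
  | step (a : Fin b → ℤ) (j : ℤ) (v : K) : Rch θ E u v →
      Rch θ E u ((E : K) * Da θ a v - (j : K) * v)

end defs

/-- invariant derivations at the places of weights -/
def St_ptor : Prop :=
  ∀ (k F K : Type) [Field k] [CharZero k] [Field F] [Field K] [Algebra k F] [Algebra k K]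
    [Algebra F K] [IsScalarTower k F K] [FiniteDimensional F K] (b : ℕ) (X : Fin b → F),
    Gens (k := k) X → ∀ θ : Fin b → Derivation k K K, Th (fun i => algebraMap F K (X i)) θ →
    ∀ a : Fin b → ℤ, Prim a → ∀ q : Place k F, IsTor X a q →
    ∀ (P : Place k K) (e : ℕ), Over P q e →
      (∀ (c : Fin b → ℤ) (g : K), P.Reg (Da θ c g / g)) ∧
      ∀ g : K, g ≠ 0 → Ge P 1 ((e : K) * (Da θ a g / g) - (P.ord g : K))

/-- invariant derivations at the places of irreducible polynomials -/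
def St_padic : Prop :=
  ∀ (k F K : Type) [Field k] [CharZero k] [Field F] [Field K] [Algebra k F] [Algebra k K]
    [Algebra F K] [IsScalarTower k F K] [FiniteDimensional F K] (b : ℕ) (X : Fin b → F),
    Gens (k := k) X → ∀ θ : Fin b → Derivation k K K, Th (fun i => algebraMap F K (X i)) θ →
    ∀ p : MvPolynomial (Fin b) k, NM p → ∀ q : Place k F, IsAdic X p q →
    ∀ (P : Place k K) (e : ℕ), Over P q e → ∀ c : Fin b → ℤ,
      (∀ (n : ℤ) (g : K), Ge P n g → Ge P (n - e) (Da θ c g)) ∧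
      (p ∣ pw c p → ∀ g : K, P.Reg (Da θ c g / g)) ∧
      (e = 1 → ∀ g : K, P.Reg g → P.Reg (Da θ c g)) ∧
      (¬ p ∣ pw c p → ∀ g : K, P.ord g ≠ 0 → Da θ c g ≠ 0 ∧ P.ord (Da θ c g) = P.ord g - e)

/-- existence of the invariant derivations, which commute -/
def St_exth : Prop :=
  ∀ (k F K : Type) [Field k] [CharZero k] [Field F] [Field K] [Algebra k F] [Algebra k K]
    [Algebra F K] [IsScalarTower k F K] [FiniteDimensional F K] (b : ℕ) (X : Fin b → F),
    Gens (k := k) X →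
    (∃ θ : Fin b → Derivation k K K, Th (fun i => algebraMap F K (X i)) θ) ∧
    (∀ θ : Fin b → Derivation k K K, Th (fun i => algebraMap F K (X i)) θ →
      ∀ (i j : Fin b) (g : K), θ i (θ j g) = θ j (θ i g)) ∧
    ∀ (K1 : Type) [Field K1] [Algebra k K1] (ι : K →ₐ[k] K1) (N : ℕ)
      (θ : Fin b → Derivation k K K), Th (fun i => algebraMap F K (X i)) θ →
      ∀ (y : Fin b → K1) (θ' : Fin b → Derivation k K1 K1), Th y θ' → (∀ i, y i ≠ 0) →
      (∀ i, ι (algebraMap F K (X i)) = y i ^ N) → ∀ (i : Fin b) (g : K),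
        θ' i (ι g) = (N : K1) * ι (θ i g)

/-- elements reached from integral elements have bounded pole divisors, also after base change -/
def St_off : Prop :=
  ∀ (k F K : Type) [Field k] [CharZero k] [Field F] [Field K] [Algebra k F] [Algebra k K]
    [Algebra F K] [IsScalarTower k F K] [FiniteDimensional F K] (b : ℕ) (X : Fin b → F),
    Gens (k := k) X → ∀ θ : Fin b → Derivation k K K, Th (fun i => algebraMap F K (X i)) θ →
    ∀ Z : Finset K,
      (∀ z ∈ Z, IsIntegral (Algebra.adjoin k (Set.range fun i => algebraMap F K (X i))) z) →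
      ∃ f : MvPolynomial (Fin b) k, f ≠ 0 ∧ ∀ (E : ℕ) (z v : K), z ∈ Z → Rch θ E z v →
        ∀ (K1 : Type) [Field K1] [Algebra k K1] (ι : K →ₐ[k] K1) (P : Place k K1),
          (∀ i, P.ord (ι (algebraMap F K (X i))) = 0) →
          P.ord (ι (algebraMap F K (aeval X f))) = 0 → P.Reg (ι v)

/-- integral elements with a simple zero at a given place -/
def St_int : Prop :=
  ∀ (k F K : Type) [Field k] [CharZero k] [Field F] [Field K] [Algebra k F] [Algebra k K]
    [Algebra F K] [IsScalarTower k F K] [FiniteDimensional F K] (b : ℕ) (X : Fin b → F),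
    Gens (k := k) X → ∀ p : MvPolynomial (Fin b) k, NM p → ∀ q : Place k F, IsAdic X p q →
    ∀ (P : Place k K) (e : ℕ), Over P q e → ∃ u : K, P.ord u = 1 ∧
      IsIntegral (Algebra.adjoin k (Set.range fun i => algebraMap F K (X i))) u

/-- finitely many saturated sublattices suffice -/
def St_sub : Prop :=
  ∀ (b : ℕ) (ι : Type) (L : ι → Submodule ℤ (Fin b → ℤ)),
    (∀ (i : ι) (n : ℤ) (a : Fin b → ℤ), n ≠ 0 → n • a ∈ L i → a ∈ L i) →
    (∀ a : Fin b → ℤ, a ≠ 0 → ∃ i, a ∉ L i) →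
    ∃ S : Finset ι, ∀ a : Fin b → ℤ, a ≠ 0 → ∃ i ∈ S, a ∉ L i

/-- the poles of an element have bounded orders -/
def St_kap : Prop :=
  ∀ (k F K : Type) [Field k] [CharZero k] [Field F] [Field K] [Algebra k F] [Algebra k K]
    [Algebra F K] [IsScalarTower k F K] [FiniteDimensional F K] (b : ℕ) (X : Fin b → F),
    Gens (k := k) X → ∀ z : K, ∃ κ : ℕ, ∀ p : MvPolynomial (Fin b) k, NM p →
      ∀ q : Place k F, IsAdic X p q → ∀ (P : Place k K) (e : ℕ), Over P q e →
        P.Reg (z * algebraMap F K (aeval X p) ^ κ)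

/-- functions which generate, regular at the unramified places and at the places of weights -/
def HasF (k F K : Type) [Field k] [Field F] [Field K] [Algebra k F] [Algebra k K]
    [Algebra F K] {b : ℕ} (X : Fin b → F) : Prop :=
  ∃ (s κ : ℕ) (ψ : Fin s → K), 1 ≤ κ ∧
    (∀ z : K, IsAlgebraic (IntermediateField.adjoin k (Set.range ψ)) z) ∧
    (∀ p : MvPolynomial (Fin b) k, NM p → ∀ q : Place k F, IsAdic X p q →
      ∀ (P : Place k K) (e : ℕ), Over P q e → ∀ i,
        P.Reg (ψ i * algebraMap F K (aeval X p) ^ κ) ∧ (e = 1 → P.Reg (ψ i))) ∧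
    ∀ w : Fin b → ℤ, Prim w → ∀ q : Place k F, IsTor X w q →
      ∀ (P : Place k K) (e : ℕ), Over P q e → ∀ i, P.Reg (ψ i)

/-- the main theorem on covers which are ramified in all directions -/
def St_thmA : Prop :=
  ∀ (k F K : Type) [Field k] [CharZero k] [IsAlgClosed k] [Field F] [Field K] [Algebra k F]
    [Algebra k K] [Algebra F K] [IsScalarTower k F K] [FiniteDimensional F K] (b : ℕ)
    (X : Fin b → F), Gens (k := k) X →
    (∀ a : Fin b → ℤ, a ≠ 0 → ∃ p : MvPolynomial (Fin b) k, NM p ∧ ¬ p ∣ pw a p ∧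
      ∃ q : Place k F, IsAdic X p q ∧ ∃ (P : Place k K) (e : ℕ), Over P q e ∧ 2 ≤ e) →
    ∃ N : ℕ, 1 ≤ N ∧ ∀ (F1 K1 : Type) [Field F1] [Field K1] [Algebra k F1] [Algebra k K1]
      [Algebra F1 K1] [IsScalarTower k F1 K1] [FiniteDimensional F1 K1] (Y : Fin b → F1),
      Gens (k := k) Y → ∀ ι : K →ₐ[k] K1,
      (∀ i, ι (algebraMap F K (X i)) = algebraMap F1 K1 (Y i) ^ N) → HasF k F1 K1 Y

/-- the data for the theorem on curves -/
def DataOut (K : Type) [Field K] [Algebra ℂ K] (n : ℕ) (x : Fin n → Kˣ) : Prop :=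
  ∃ (R : Subalgebra ℂ K) (j : Lau n →ₐ[ℂ] R) (f : Lau n) (κ s : ℕ) (h : Fin s → R)
    (Γ₀ : Submodule ℤ (Fin n → ℤ)),
    (∀ g, (j g : K) = ep x g) ∧ (j : Lau n →+* R).IsIntegral ∧ j f ≠ 0 ∧
    GR (RingHom.ker j) f Γ₀ ∧
    (∀ Γ : Submodule ℤ (Fin n → ℤ), Sat Γ →
      (∀ g ∈ RingHom.ker j, ∀ q, comp Γ q g ∈ RingHom.ker j) → Γ₀ ≤ Γ) ∧
    (∀ g ∈ RingHom.ker j, ∀ q, comp Γ₀ q g ∈ RingHom.ker j) ∧
    (∀ i, ∃ (d : ℕ) (a : ℕ → Lau n),
      h i ^ d + ∑ l ∈ Finset.Icc 1 d, j (a l) * h i ^ (d - l) = 0 ∧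
      ∀ l ∈ Finset.Icc 1 d, ∀ m ∈ (a l).coeff.support, InPol (RingHom.ker j) f Γ₀ (l * κ) m) ∧
    (∀ i : Fin n, IsAlgebraic (Algebra.adjoin ℂ (E.Gn K j f κ h Γ₀)) (x i : K)) ∧
    ∀ v : R → WithTop ℤ, IsV v → v (j f) = 1 → ∀ i, ((κ : ℤ) : WithTop ℤ) ≤ v (h i)

/-- the data for the theorem on curves exist -/
def St_data : Prop :=
  ∀ (K : Type) [Field K] [Algebra ℂ K] (n : ℕ) (x : Fin n → Kˣ), 1 ≤ n →
    AlgebraicIndependent ℂ (fun i => (x i : K)) →
    ∀ (F : Type) [Field F] [Algebra ℂ F] [Algebra F K] [IsScalarTower ℂ F K]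
      [FiniteDimensional F K] (X : Fin n → F), Gens (k := ℂ) X →
      (∀ i, algebraMap F K (X i) = (x i : K)) → HasF ℂ F K X → DataOut K n x

/-- the contradiction from the theorem on curves -/
def St_crv : Prop :=
  ∀ [IsDomain Ent] [IsIntegrallyClosed Ent] (n : ℕ) (h : Fin n → ℂ → ℂ), 1 ≤ n →
    (∀ i, Differentiable ℂ (h i)) → Ind h →
    ∀ (K : Type) [Field K] [Algebra ℂ K] (φ : K →ₐ[ℂ] FractionRing Ent) (x : Fin n → Kˣ),
      (∀ i, ∃ g : Ent, (∀ z, (g : ℂ → ℂ) z = Complex.exp (h i z)) ∧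
        φ (x i : K) = algebraMap Ent (FractionRing Ent) g) → DataOut K n x → False

/-- decomposition into eigenfunctions of an invariant derivation which is tangent to the
ramification -/
def St_eig : Prop :=
  ∀ (k F K : Type) [Field k] [CharZero k] [IsAlgClosed k] [Field F] [Field K] [Algebra k F]
    [Algebra k K] [Algebra F K] [IsScalarTower k F K] [FiniteDimensional F K] (b : ℕ)
    (X : Fin b → F), Gens (k := k) X → ∀ a : Fin b → ℤ, Prim a →
    (∀ p : MvPolynomial (Fin b) k, NM p → ¬ p ∣ pw a p → ∀ q : Place k F, IsAdic X p q →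
      ∀ (P : Place k K) (e : ℕ), Over P q e → e = 1) →
    ∀ u : K, (∀ p : MvPolynomial (Fin b) k, NM p → ∀ q : Place k F, IsAdic X p q →
      ∀ (P : Place k K) (e : ℕ), Over P q e → P.Reg u) →
    ∀ m0 : Fin b → ℤ, ∑ i, a i * m0 i = 1 →
    ∃ (E : ℕ) (J : Finset ℤ) (v : ℤ → K), 1 ≤ E ∧ u = ∑ j ∈ J, v j ∧
      ∀ j ∈ J, IsIntegral (Algebra.adjoin k {z : K | ∃ m : Fin b → ℤ, ∑ i, a i * m i = 0 ∧
          z = ∏ i, algebraMap F K (X i) ^ m i})
        (v j ^ E * ∏ i, algebraMap F K (X i) ^ (-(j * m0 i)))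

end Pool.Agent.Q288.TE
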